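import Mathlib

/-!
# Definitions: hyperbolic and elliptic lines on split cubic surfaces

`F` is a field and `K` an algebraically closed extension of `F` (for a finite field `F` we take
`K = AlgebraicClosure F`).  A cubic surface is given by a cubic form `f` in four variables over `F`.
Points of projective space are given by nonzero vectors, lines by two-dimensional subspaces.
-/

open MvPolynomial

namespace Pool.Agent.H22.Cubic

universe u v

section geometry

variable {K : Type v} [Field K]

/-- The tangent plane `T_pX` of the surface `X : f = 0` at `p`, as a set of vectors. -/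
def tangentPlane (f : MvPolynomial (Fin 4) K) (p : Fin 4 → K) : Set (Fin 4 → K) :=
  {u | ∑ i, eval p (pderiv i f) * u i = 0}

/-- The surface `f = 0` has no singular point. -/
def IsSmooth (f : MvPolynomial (Fin 4) K) : Prop :=
  ∀ p : Fin 4 → K, p ≠ 0 → eval p f = 0 → ∃ i, eval p (pderiv i f) ≠ 0

/-- The lines contained in the surface `f = 0`. -/
def linesOn (f : MvPolynomial (Fin 4) K) : Set (Submodule K (Fin 4 → K)) :=
  {W | Module.finrank K W = 2 ∧ ∀ w ∈ W, eval w f = 0}

/-- `L` is (a linear map inducing) Segre's involution of the line `W` on the surface `f = 0`: a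
nontrivial automorphism of the line which commutes with the map `p ↦ T_pX`. -/
structure IsSegreInvolution (f : MvPolynomial (Fin 4) K) (W : Submodule K (Fin 4 → K))
    (L : (Fin 4 → K) →ₗ[K] (Fin 4 → K)) : Prop where
  maps : ∀ p ∈ W, L p ∈ W
  injective : ∀ p ∈ W, L p = 0 → p = 0
  nontrivial : ∃ p ∈ W, ∀ c : K, L p ≠ c • p
  tangent_eq : ∀ p ∈ W, p ≠ 0 → tangentPlane f (L p) = tangentPlane f p

end geometry

section rational

variable (F : Type u) [Field F] {K : Type v} [Field K] [Algebra F K]

/-- The vector over `K` given by a vector over `F`. -/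
def baseVec (v : Fin 4 → F) : Fin 4 → K := fun i => algebraMap F K (v i)

/-- The point given by the vector `p` is `F`-rational. -/
def IsRationalPoint (p : Fin 4 → K) : Prop := ∃ (v : Fin 4 → F) (c : K), p = c • baseVec F v

/-- The line `W` is defined over `F`. -/
def IsRationalLine (W : Submodule K (Fin 4 → K)) : Prop :=
  ∃ u v : Fin 4 → F, W = Submodule.span K {baseVec F u, baseVec F v}

/-- Both fixed points of Segre's involution are `F`-rational. -/
def IsHyperbolic (f : MvPolynomial (Fin 4) K) (W : Submodule K (Fin 4 → K)) : Prop :=
  ∃ L, IsSegreInvolution f W L ∧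
    ∀ p ∈ W, p ≠ 0 → (∃ c : K, L p = c • p) → IsRationalPoint F p

/-- No fixed point of Segre's involution is `F`-rational. -/
def IsElliptic (f : MvPolynomial (Fin 4) K) (W : Submodule K (Fin 4 → K)) : Prop :=
  ∃ L, IsSegreInvolution f W L ∧
    ∀ p ∈ W, p ≠ 0 → (∃ c : K, L p = c • p) → ¬ IsRationalPoint F p

end rational

section split

variable {F : Type u} [Field F] (K : Type v) [Field K] [Algebra F K]

/-- The cubic form `f`, considered over `K`. -/
noncomputable def geom (f : MvPolynomial (Fin 4) F) : MvPolynomial (Fin 4) K :=
  MvPolynomial.map (algebraMap F K) f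

/-- `f = 0` is a smooth cubic surface which contains exactly 27 lines over `K`, all of them defined
over `F`. -/
structure IsSplitCubic (f : MvPolynomial (Fin 4) F) : Prop where
  homogeneous : f.IsHomogeneous 3
  smooth : IsSmooth (geom K f)
  ncard_lines : (linesOn (geom K f)).ncard = 27
  rational : ∀ W ∈ linesOn (geom K f), IsRationalLine F W

/-- The number of hyperbolic lines on the surface `f = 0`. -/
noncomputable def numHyperbolic (f : MvPolynomial (Fin 4) F) : ℕ :=
  {W ∈ linesOn (geom K f) | IsHyperbolic F (geom K f) W}.ncard

/-- The number of elliptic lines on the surface `f = 0`. -/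
noncomputable def numElliptic (f : MvPolynomial (Fin 4) F) : ℕ :=
  {W ∈ linesOn (geom K f) | IsElliptic F (geom K f) W}.ncard

end split

end Pool.Agent.H22.Cubic
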