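import Mathlib
import Pool.Agent.H22.Cubic.Defs

open MvPolynomial

namespace Pool.Agent.H22.Cubic

universe u v

/-- function-level version of a surface -/
structure Surf (K : Type v) [Field K] where
  φ : (Fin 4 → K) → K
  D : (Fin 4 → K) → (Fin 4 → K) → K

namespace Surf

variable {K : Type v} [Field K]

def tangent (S : Surf K) (p : Fin 4 → K) : Set (Fin 4 → K) := {u | S.D p u = 0}

def Smooth (S : Surf K) : Prop := ∀ p : Fin 4 → K, p ≠ 0 → S.φ p = 0 → ∃ u, S.D p u ≠ 0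

def lines (S : Surf K) : Set (Submodule K (Fin 4 → K)) :=
  {W | Module.finrank K W = 2 ∧ ∀ w ∈ W, S.φ w = 0}

structure IsSegre (S : Surf K) (W : Submodule K (Fin 4 → K))
    (L : (Fin 4 → K) →ₗ[K] (Fin 4 → K)) : Prop where
  maps : ∀ p ∈ W, L p ∈ W
  injective : ∀ p ∈ W, L p = 0 → p = 0
  nontrivial : ∃ p ∈ W, ∀ c : K, L p ≠ c • p
  tangent_eq : ∀ p ∈ W, p ≠ 0 → S.tangent (L p) = S.tangent p

variable (F : Type u) [Field F] [Algebra F K]

def Hyp (S : Surf K) (W : Submodule K (Fin 4 → K)) : Prop :=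
  ∃ L, S.IsSegre W L ∧ ∀ p ∈ W, p ≠ 0 → (∃ c : K, L p = c • p) → IsRationalPoint F p

def Ell (S : Surf K) (W : Submodule K (Fin 4 → K)) : Prop :=
  ∃ L, S.IsSegre W L ∧ ∀ p ∈ W, p ≠ 0 → (∃ c : K, L p = c • p) → ¬ IsRationalPoint F p

/-- the surface of a polynomial -/
noncomputable def ofPoly (f : MvPolynomial (Fin 4) K) : Surf K where
  φ := fun p => eval p f
  D := fun p u => ∑ i, eval p (pderiv i f) * u i

theorem smooth_ofPoly (f : MvPolynomial (Fin 4) K) : (ofPoly f).Smooth ↔ IsSmooth f := by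
  constructor
  · intro h p hp hf
    obtain ⟨u, hu⟩ := h p hp hf
    by_contra hcon
    push Not at hcon
    apply hu
    change ∑ i, eval p (pderiv i f) * u i = 0
    exact Finset.sum_eq_zero fun i _ => by rw [hcon i, zero_mul]
  · intro h p hp hf
    obtain ⟨i, hi⟩ := h p hp hf
    refine ⟨Pi.single i 1, ?_⟩
    change ∑ j, eval p (pderiv j f) * (Pi.single i 1 : Fin 4 → K) j ≠ 0
    rw [Finset.sum_eq_single i]
    · simpa using hi
    · intro j _ hj
      simp [Pi.single_eq_of_ne hj]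
    · simp

theorem lines_ofPoly (f : MvPolynomial (Fin 4) K) : (ofPoly f).lines = linesOn f := rfl

theorem isSegre_ofPoly (f : MvPolynomial (Fin 4) K) (W : Submodule K (Fin 4 → K))
    (L : (Fin 4 → K) →ₗ[K] (Fin 4 → K)) :
    (ofPoly f).IsSegre W L ↔ IsSegreInvolution f W L :=
  ⟨fun h => ⟨h.1, h.2, h.3, h.4⟩, fun h => ⟨h.1, h.2, h.3, h.4⟩⟩

theorem hyp_ofPoly (f : MvPolynomial (Fin 4) K) (W : Submodule K (Fin 4 → K)) :
    (ofPoly f).Hyp F W ↔ IsHyperbolic F f W := by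
  unfold Hyp IsHyperbolic
  simp_rw [isSegre_ofPoly]

theorem ell_ofPoly (f : MvPolynomial (Fin 4) K) (W : Submodule K (Fin 4 → K)) :
    (ofPoly f).Ell F W ↔ IsElliptic F f W := by
  unfold Ell IsElliptic
  simp_rw [isSegre_ofPoly]

/-- linear D -/
theorem ofPoly_D_add (f : MvPolynomial (Fin 4) K) (p u v : Fin 4 → K) (a b : K) :
    (ofPoly f).D p (a • u + b • v) = a * (ofPoly f).D p u + b * (ofPoly f).D p v := by
  change ∑ i, eval p (pderiv i f) * (a • u + b • v) i = a * ∑ i, eval p (pderiv i f) * u i +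
    b * ∑ i, eval p (pderiv i f) * v i
  rw [Finset.mul_sum, Finset.mul_sum, ← Finset.sum_add_distrib]
  apply Finset.sum_congr rfl
  intro i _
  simp only [Pi.add_apply, Pi.smul_apply, smul_eq_mul]
  ring

section comp

variable (S : Surf K) (e : (Fin 4 → K) ≃ₗ[K] (Fin 4 → K))

/-- change of coordinates -/
def comp : Surf K where
  φ := fun x => S.φ (e x)
  D := fun x u => S.D (e x) (e u)

theorem mem_tangent_comp (p u : Fin 4 → K) : u ∈ (S.comp e).tangent p ↔ e u ∈ S.tangent (e p) :=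
  Iff.rfl

theorem tangent_comp_eq (p q : Fin 4 → K) : (S.comp e).tangent p = (S.comp e).tangent q ↔
    S.tangent (e p) = S.tangent (e q) := by
  constructor
  · intro h
    ext u
    have := Set.ext_iff.mp h (e.symm u)
    rw [mem_tangent_comp, mem_tangent_comp, e.apply_symm_apply] at this
    exact this
  · intro h
    ext u
    rw [mem_tangent_comp, mem_tangent_comp, h]

theorem smooth_comp : (S.comp e).Smooth ↔ S.Smooth := by
  constructor
  · intro h p hp hf
    obtain ⟨u, hu⟩ := h (e.symm p) (by simpa using hp) (by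
      change S.φ (e (e.symm p)) = 0
      rwa [e.apply_symm_apply])
    refine ⟨e u, ?_⟩
    change S.D (e (e.symm p)) (e u) ≠ 0 at hu
    rwa [e.apply_symm_apply] at hu
  · intro h p hp hf
    obtain ⟨u, hu⟩ := h (e p) (by simpa using hp) hf
    refine ⟨e.symm u, ?_⟩
    change S.D (e p) (e (e.symm u)) ≠ 0
    rwa [e.apply_symm_apply]

theorem mem_lines_comp (W : Submodule K (Fin 4 → K)) :
    W ∈ (S.comp e).lines ↔ W.map (e : (Fin 4 → K) →ₗ[K] (Fin 4 → K)) ∈ S.lines := by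
  unfold lines
  constructor
  · rintro ⟨h1, h2⟩
    refine ⟨?_, ?_⟩
    · rw [← h1]
      exact LinearEquiv.finrank_map_eq e W
    · rintro _ ⟨x, hx, rfl⟩
      exact h2 x hx
  · rintro ⟨h1, h2⟩
    refine ⟨?_, ?_⟩
    · rw [← h1]
      exact (LinearEquiv.finrank_map_eq e W).symm
    · intro x hx
      exact h2 (e x) ⟨x, hx, rfl⟩

theorem isSegre_comp (W : Submodule K (Fin 4 → K)) (L : (Fin 4 → K) →ₗ[K] (Fin 4 → K)) :
    (S.comp e).IsSegre W L ↔ S.IsSegre (W.map (e : (Fin 4 → K) →ₗ[K] (Fin 4 → K)))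
      ((e : (Fin 4 → K) →ₗ[K] (Fin 4 → K)) ∘ₗ L ∘ₗ (e.symm : (Fin 4 → K) →ₗ[K] (Fin 4 → K))) := by
  constructor
  · rintro ⟨h1, h2, ⟨p, hp, hp'⟩, h4⟩
    refine ⟨?_, ?_, ⟨e p, ⟨p, hp, rfl⟩, ?_⟩, ?_⟩
    · rintro _ ⟨x, hx, rfl⟩
      refine ⟨L x, h1 x hx, ?_⟩
      simp
    · rintro _ ⟨x, hx, rfl⟩ hx0
      have : L x = 0 := by simpa using hx0
      simp [h2 x hx this]
    · intro c hc
      apply hp' c
      apply e.injective
      simpa using hc
    · rintro _ ⟨x, hx, rfl⟩ hx0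
      have hx0' : x ≠ 0 := by rintro rfl; simp at hx0
      have := (tangent_comp_eq S e (L x) x).mp (h4 x hx hx0')
      simpa using this
  · rintro ⟨h1, h2, ⟨q, ⟨p, hp, rfl⟩, hp'⟩, h4⟩
    refine ⟨?_, ?_, ⟨p, hp, ?_⟩, ?_⟩
    · intro x hx
      obtain ⟨y, hy, hyx⟩ := h1 (e x) ⟨x, hx, rfl⟩
      have : y = L x := by
        apply e.injective
        simpa using hyx
      rwa [← this]
    · intro x hx hx0
      have := h2 (e x) ⟨x, hx, rfl⟩ (by simp [hx0])
      simpa using this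
    · intro c hc
      apply hp' c
      simp [hc]
    · intro x hx hx0
      rw [tangent_comp_eq]
      have := h4 (e x) ⟨x, hx, rfl⟩ (by simpa using hx0)
      simpa using this

variable (he : ∀ p : Fin 4 → K, IsRationalPoint F (e p) ↔ IsRationalPoint F p)

include he in
theorem hyp_comp (W : Submodule K (Fin 4 → K)) :
    (S.comp e).Hyp F W ↔ S.Hyp F (W.map (e : (Fin 4 → K) →ₗ[K] (Fin 4 → K))) := by
  constructor
  · rintro ⟨L, hL, h⟩
    refine ⟨_, (isSegre_comp S e W L).mp hL, ?_⟩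
    rintro _ ⟨x, hx, rfl⟩ hx0 ⟨c, hc⟩
    have := h x hx (by rintro rfl; simp at hx0) ⟨c, by apply e.injective; simpa using hc⟩
    exact (he x).mpr this
  · rintro ⟨L, hL, h⟩
    refine ⟨(e.symm : (Fin 4 → K) →ₗ[K] (Fin 4 → K)) ∘ₗ L ∘ₗ (e : (Fin 4 → K) →ₗ[K] (Fin 4 → K)),
      ?_, ?_⟩
    · rw [isSegre_comp]
      convert hL using 1
      ext x
      simp
    · intro p hp hp0 ⟨c, hc⟩
      rw [← he]
      apply h (e p) ⟨p, hp, rfl⟩ (by simpa using hp0)
      refine ⟨c, ?_⟩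
      have := congrArg e hc
      simpa using this

include he in
theorem ell_comp (W : Submodule K (Fin 4 → K)) :
    (S.comp e).Ell F W ↔ S.Ell F (W.map (e : (Fin 4 → K) →ₗ[K] (Fin 4 → K))) := by
  constructor
  · rintro ⟨L, hL, h⟩
    refine ⟨_, (isSegre_comp S e W L).mp hL, ?_⟩
    rintro _ ⟨x, hx, rfl⟩ hx0 ⟨c, hc⟩
    have := h x hx (by rintro rfl; simp at hx0) ⟨c, by apply e.injective; simpa using hc⟩
    rwa [← he] at this
  · rintro ⟨L, hL, h⟩
    refine ⟨(e.symm : (Fin 4 → K) →ₗ[K] (Fin 4 → K)) ∘ₗ L ∘ₗ (e : (Fin 4 → K) →ₗ[K] (Fin 4 → K)),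
      ?_, ?_⟩
    · rw [isSegre_comp]
      convert hL using 1
      ext x
      simp
    · intro p hp hp0 ⟨c, hc⟩
      rw [← he]
      apply h (e p) ⟨p, hp, rfl⟩ (by simpa using hp0)
      refine ⟨c, ?_⟩
      have := congrArg e hc
      simpa using this

theorem ncard_comp (P : Submodule K (Fin 4 → K) → Prop) (P' : Submodule K (Fin 4 → K) → Prop)
    (h : ∀ W, P' W ↔ P (W.map (e : (Fin 4 → K) →ₗ[K] (Fin 4 → K)))) :
    {W | W ∈ (S.comp e).lines ∧ P' W}.ncard = {W | W ∈ S.lines ∧ P W}.ncard := by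
  have himg : {W | W ∈ S.lines ∧ P W} =
      (fun W : Submodule K (Fin 4 → K) => W.map (e : (Fin 4 → K) →ₗ[K] (Fin 4 → K))) ''
      {W | W ∈ (S.comp e).lines ∧ P' W} := by
    ext W
    constructor
    · rintro ⟨h1, h2⟩
      refine ⟨W.map (e.symm : (Fin 4 → K) →ₗ[K] (Fin 4 → K)), ?_, ?_⟩
      · have : (W.map (e.symm : (Fin 4 → K) →ₗ[K] (Fin 4 → K))).map
            (e : (Fin 4 → K) →ₗ[K] (Fin 4 → K)) = W := by
          rw [← Submodule.map_comp]
          simp
        constructor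
        · rw [mem_lines_comp, this]; exact h1
        · rw [h, this]; exact h2
      · simp only
        rw [← Submodule.map_comp]
        simp
    · rintro ⟨W', ⟨h1, h2⟩, rfl⟩
      exact ⟨(mem_lines_comp S e W').mp h1, (h W').mp h2⟩
  rw [himg, Set.ncard_image_of_injective]
  exact Submodule.map_injective_of_injective e.injective

theorem isRationalLine_map (he' : ∀ v : Fin 4 → F, ∃ w : Fin 4 → F, e (baseVec F v) = baseVec F w)
    (W : Submodule K (Fin 4 → K)) (hW : IsRationalLine F W) :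
    IsRationalLine F (W.map (e : (Fin 4 → K) →ₗ[K] (Fin 4 → K))) := by
  obtain ⟨u, v, rfl⟩ := hW
  obtain ⟨u', hu⟩ := he' u
  obtain ⟨v', hv⟩ := he' v
  refine ⟨u', v', ?_⟩
  rw [Submodule.map_span, Set.image_pair]
  simp [hu, hv]

end comp

end Surf

end Pool.Agent.H22.Cubic
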