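import Mathlib
import Pool.Agent.H22.Cubic.Surf

open MvPolynomial

namespace Pool.Agent.H22.Cubic

universe u v

/-- coefficients of a cubic form in four variables `x, y, z, w` -/
structure Cub (R : Type*) where
  xxx : R
  xxy : R
  xxz : R
  xxw : R
  xyy : R
  xyz : R
  xyw : R
  xzz : R
  xzw : R
  xww : R
  yyy : R
  yyz : R
  yyw : R
  yzz : R
  yzw : R
  yww : R
  zzz : R
  zzw : R
  zww : R
  www : R

namespace Cub
variable {R : Type*} [CommRing R]
/-- value -/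
def ev (C : Cub R) (x y z w : R) : R :=
  C.xxx * (x*x*x) +
  C.xxy * (x*x*y) +
  C.xxz * (x*x*z) +
  C.xxw * (x*x*w) +
  C.xyy * (x*y*y) +
  C.xyz * (x*y*z) +
  C.xyw * (x*y*w) +
  C.xzz * (x*z*z) +
  C.xzw * (x*z*w) +
  C.xww * (x*w*w) +
  C.yyy * (y*y*y) +
  C.yyz * (y*y*z) +
  C.yyw * (y*y*w) +
  C.yzz * (y*z*z) +
  C.yzw * (y*z*w) +
  C.yww * (y*w*w) +
  C.zzz * (z*z*z) +
  C.zzw * (z*z*w) +
  C.zww * (z*w*w) +
  C.www * (w*w*w)
/-- partial derivative -/
def dx (C : Cub R) (x y z w : R) : R :=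
  3 * C.xxx * (x*x) +
  2 * C.xxy * (x*y) +
  2 * C.xxz * (x*z) +
  2 * C.xxw * (x*w) +
  C.xyy * (y*y) +
  C.xyz * (y*z) +
  C.xyw * (y*w) +
  C.xzz * (z*z) +
  C.xzw * (z*w) +
  C.xww * (w*w)
/-- partial derivative -/
def dy (C : Cub R) (x y z w : R) : R :=
  C.xxy * (x*x) +
  2 * C.xyy * (x*y) +
  C.xyz * (x*z) +
  C.xyw * (x*w) +
  3 * C.yyy * (y*y) +
  2 * C.yyz * (y*z) +
  2 * C.yyw * (y*w) +
  C.yzz * (z*z) +
  C.yzw * (z*w) +
  C.yww * (w*w)
/-- partial derivative -/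
def dz (C : Cub R) (x y z w : R) : R :=
  C.xxz * (x*x) +
  C.xyz * (x*y) +
  2 * C.xzz * (x*z) +
  C.xzw * (x*w) +
  C.yyz * (y*y) +
  2 * C.yzz * (y*z) +
  C.yzw * (y*w) +
  3 * C.zzz * (z*z) +
  2 * C.zzw * (z*w) +
  C.zww * (w*w)
/-- partial derivative -/
def dw (C : Cub R) (x y z w : R) : R :=
  C.xxw * (x*x) +
  C.xyw * (x*y) +
  C.xzw * (x*z) +
  2 * C.xww * (x*w) +
  C.yyw * (y*y) +
  C.yzw * (y*z) +
  2 * C.yww * (y*w) +
  C.zzw * (z*z) +
  2 * C.zww * (z*w) +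
  3 * C.www * (w*w)
/-- base change -/
def map {S : Type*} (g : R → S) (C : Cub R) : Cub S where
  xxx := g C.xxx
  xxy := g C.xxy
  xxz := g C.xxz
  xxw := g C.xxw
  xyy := g C.xyy
  xyz := g C.xyz
  xyw := g C.xyw
  xzz := g C.xzz
  xzw := g C.xzw
  xww := g C.xww
  yyy := g C.yyy
  yyz := g C.yyz
  yyw := g C.yyw
  yzz := g C.yzz
  yzw := g C.yzw
  yww := g C.yww
  zzz := g C.zzz
  zzw := g C.zzw
  zww := g C.zww
  www := g C.www
/-- sum -/
def add (C C' : Cub R) : Cub R where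
  xxx := C.xxx + C'.xxx
  xxy := C.xxy + C'.xxy
  xxz := C.xxz + C'.xxz
  xxw := C.xxw + C'.xxw
  xyy := C.xyy + C'.xyy
  xyz := C.xyz + C'.xyz
  xyw := C.xyw + C'.xyw
  xzz := C.xzz + C'.xzz
  xzw := C.xzw + C'.xzw
  xww := C.xww + C'.xww
  yyy := C.yyy + C'.yyy
  yyz := C.yyz + C'.yyz
  yyw := C.yyw + C'.yyw
  yzz := C.yzz + C'.yzz
  yzw := C.yzw + C'.yzw
  yww := C.yww + C'.yww
  zzz := C.zzz + C'.zzz
  zzw := C.zzw + C'.zzw
  zww := C.zww + C'.zww
  www := C.www + C'.www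
/-- product of three linear forms with coefficients `A 0 .. A 3` etc. -/
def tri (A B C : Fin 4 → R) (c : R) : Cub R where
  xxx := c * (A 0 * B 0 * C 0)
  xxy := c * (A 0 * B 0 * C 1 + A 0 * B 1 * C 0 + A 1 * B 0 * C 0)
  xxz := c * (A 0 * B 0 * C 2 + A 0 * B 2 * C 0 + A 2 * B 0 * C 0)
  xxw := c * (A 0 * B 0 * C 3 + A 0 * B 3 * C 0 + A 3 * B 0 * C 0)
  xyy := c * (A 0 * B 1 * C 1 + A 1 * B 0 * C 1 + A 1 * B 1 * C 0)
  xyz := c * (A 0 * B 1 * C 2 + A 0 * B 2 * C 1 + A 1 * B 0 * C 2 + A 1 * B 2 * C 0 + A 2 * B 0 * C 1 + A 2 * B 1 * C 0)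
  xyw := c * (A 0 * B 1 * C 3 + A 0 * B 3 * C 1 + A 1 * B 0 * C 3 + A 1 * B 3 * C 0 + A 3 * B 0 * C 1 + A 3 * B 1 * C 0)
  xzz := c * (A 0 * B 2 * C 2 + A 2 * B 0 * C 2 + A 2 * B 2 * C 0)
  xzw := c * (A 0 * B 2 * C 3 + A 0 * B 3 * C 2 + A 2 * B 0 * C 3 + A 2 * B 3 * C 0 + A 3 * B 0 * C 2 + A 3 * B 2 * C 0)
  xww := c * (A 0 * B 3 * C 3 + A 3 * B 0 * C 3 + A 3 * B 3 * C 0)
  yyy := c * (A 1 * B 1 * C 1)
  yyz := c * (A 1 * B 1 * C 2 + A 1 * B 2 * C 1 + A 2 * B 1 * C 1)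
  yyw := c * (A 1 * B 1 * C 3 + A 1 * B 3 * C 1 + A 3 * B 1 * C 1)
  yzz := c * (A 1 * B 2 * C 2 + A 2 * B 1 * C 2 + A 2 * B 2 * C 1)
  yzw := c * (A 1 * B 2 * C 3 + A 1 * B 3 * C 2 + A 2 * B 1 * C 3 + A 2 * B 3 * C 1 + A 3 * B 1 * C 2 + A 3 * B 2 * C 1)
  yww := c * (A 1 * B 3 * C 3 + A 3 * B 1 * C 3 + A 3 * B 3 * C 1)
  zzz := c * (A 2 * B 2 * C 2)
  zzw := c * (A 2 * B 2 * C 3 + A 2 * B 3 * C 2 + A 3 * B 2 * C 2)
  zww := c * (A 2 * B 3 * C 3 + A 3 * B 2 * C 3 + A 3 * B 3 * C 2)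
  www := c * (A 3 * B 3 * C 3)
end Cub

section rep

variable {F : Type u} [Field F] {K : Type v} [Field K] [Algebra F K]

/-- the point with coordinates `x, y, z, w` in the basis `e0, e1, e2, e3` -/
def pt (e0 e1 e2 e3 : Fin 4 → F) (x y z w : K) : Fin 4 → K :=
  x • baseVec F e0 + y • baseVec F e1 + z • baseVec F e2 + w • baseVec F e3

/-- `C` gives the surface in the basis `e0, e1, e2, e3`. -/
structure Rep (S : Surf K) (e0 e1 e2 e3 : Fin 4 → F) (C : Cub F) : Prop where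
  ev : ∀ x y z w : K, S.φ (pt e0 e1 e2 e3 x y z w) = (C.map (algebraMap F K)).ev x y z w
  dx : ∀ x y z w : K, S.D (pt e0 e1 e2 e3 x y z w) (baseVec F e0) =
    (C.map (algebraMap F K)).dx x y z w
  dy : ∀ x y z w : K, S.D (pt e0 e1 e2 e3 x y z w) (baseVec F e1) =
    (C.map (algebraMap F K)).dy x y z w
  dz : ∀ x y z w : K, S.D (pt e0 e1 e2 e3 x y z w) (baseVec F e2) =
    (C.map (algebraMap F K)).dz x y z w
  dw : ∀ x y z w : K, S.D (pt e0 e1 e2 e3 x y z w) (baseVec F e3) =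
    (C.map (algebraMap F K)).dw x y z w

theorem rep_add (f g : MvPolynomial (Fin 4) K) (e0 e1 e2 e3 : Fin 4 → F) (C C' : Cub F)
    (hf : Rep (Surf.ofPoly f) e0 e1 e2 e3 C) (hg : Rep (Surf.ofPoly g) e0 e1 e2 e3 C') :
    Rep (Surf.ofPoly (f + g)) e0 e1 e2 e3 (C.add C') := by
  have hφ : ∀ p, (Surf.ofPoly (f + g)).φ p = (Surf.ofPoly f).φ p + (Surf.ofPoly g).φ p := by
    intro p
    change eval p (f + g) = eval p f + eval p g
    rw [map_add]
  have hD : ∀ p u, (Surf.ofPoly (f + g)).D p u = (Surf.ofPoly f).D p u + (Surf.ofPoly g).D p u := by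
    intro p u
    change ∑ i, eval p (pderiv i (f + g)) * u i = ∑ i, eval p (pderiv i f) * u i +
      ∑ i, eval p (pderiv i g) * u i
    rw [← Finset.sum_add_distrib]
    apply Finset.sum_congr rfl
    intro i _
    rw [map_add, map_add]
    ring
  refine ⟨?_, ?_, ?_, ?_, ?_⟩
  · intro x y z w
    rw [hφ, hf.ev, hg.ev]
    simp only [Cub.ev, Cub.map, Cub.add, map_add]
    ring
  · intro x y z w
    rw [hD, hf.dx, hg.dx]
    simp only [Cub.dx, Cub.map, Cub.add, map_add]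
    ring
  · intro x y z w
    rw [hD, hf.dy, hg.dy]
    simp only [Cub.dy, Cub.map, Cub.add, map_add]
    ring
  · intro x y z w
    rw [hD, hf.dz, hg.dz]
    simp only [Cub.dz, Cub.map, Cub.add, map_add]
    ring
  · intro x y z w
    rw [hD, hf.dw, hg.dw]
    simp only [Cub.dw, Cub.map, Cub.add, map_add]
    ring

theorem pt_apply (e0 e1 e2 e3 : Fin 4 → F) (x y z w : K) (i : Fin 4) :
    pt e0 e1 e2 e3 x y z w i = x * algebraMap F K (e0 i) + y * algebraMap F K (e1 i) +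
      z * algebraMap F K (e2 i) + w * algebraMap F K (e3 i) := by
  simp [pt, baseVec]

theorem D_monomial (c : K) (i j k : Fin 4) (p u : Fin 4 → K) :
    (Surf.ofPoly (C c * X i * X j * X k)).D p u =
      c * (u i * p j * p k + p i * u j * p k + p i * p j * u k) := by
  change ∑ l, eval p (pderiv l (C c * X i * X j * X k)) * u l = _
  have h : ∀ l, eval p (pderiv l (C c * X i * X j * X k)) * u l =
      c * ((if i = l then u l else 0) * p j * p k + p i * (if j = l then u l else 0) * p k +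
        p i * p j * (if k = l then u l else 0)) := by
    intro l
    simp only [Derivation.leibniz, pderiv_C, pderiv_X, smul_eq_mul, map_add, map_mul, eval_X,
      eval_C, mul_zero, add_zero, Pi.single_apply]
    split_ifs <;> simp <;> ring
  simp_rw [h]
  rw [← Finset.mul_sum]
  congr 1
  rw [Finset.sum_add_distrib, Finset.sum_add_distrib]
  simp_rw [mul_assoc]
  rw [← Finset.sum_mul, ← Finset.mul_sum, ← Finset.mul_sum, ← Finset.mul_sum, ← Finset.sum_mul]
  simp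

theorem rep_monomial (c : F) (i j k : Fin 4) (e0 e1 e2 e3 : Fin 4 → F) :
    Rep (Surf.ofPoly (C (algebraMap F K c) * X i * X j * X k)) e0 e1 e2 e3
      (Cub.tri ![e0 i, e1 i, e2 i, e3 i] ![e0 j, e1 j, e2 j, e3 j] ![e0 k, e1 k, e2 k, e3 k] c) := by
  have hφ : ∀ p, (Surf.ofPoly (C (algebraMap F K c) * X i * X j * X k)).φ p =
      algebraMap F K c * p i * p j * p k := by
    intro p
    change eval p (C (algebraMap F K c) * X i * X j * X k) = _
    simp
  refine ⟨?_, ?_, ?_, ?_, ?_⟩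
  · intro x y z w
    rw [hφ, pt_apply, pt_apply, pt_apply]
    simp only [Cub.ev, Cub.map, Cub.tri, map_add, map_mul, Matrix.cons_val]
    ring
  · intro x y z w
    rw [D_monomial, pt_apply, pt_apply, pt_apply]
    simp only [Cub.dx, Cub.map, Cub.tri, map_add, map_mul, Matrix.cons_val, baseVec]
    ring
  · intro x y z w
    rw [D_monomial, pt_apply, pt_apply, pt_apply]
    simp only [Cub.dy, Cub.map, Cub.tri, map_add, map_mul, Matrix.cons_val, baseVec]
    ring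
  · intro x y z w
    rw [D_monomial, pt_apply, pt_apply, pt_apply]
    simp only [Cub.dz, Cub.map, Cub.tri, map_add, map_mul, Matrix.cons_val, baseVec]
    ring
  · intro x y z w
    rw [D_monomial, pt_apply, pt_apply, pt_apply]
    simp only [Cub.dw, Cub.map, Cub.tri, map_add, map_mul, Matrix.cons_val, baseVec]
    ring

theorem exists_rep (f : MvPolynomial (Fin 4) F) (hf : f.IsHomogeneous 3)
    (e0 e1 e2 e3 : Fin 4 → F) : ∃ C : Cub F, Rep (Surf.ofPoly (geom K f)) e0 e1 e2 e3 C := by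
  have hsum : geom K f = ∑ d ∈ f.support, geom K (monomial d (coeff d f)) := by
    unfold geom
    rw [← map_sum, support_sum_monomial_coeff]
  rw [hsum]
  have hmon : ∀ d ∈ f.support, ∃ C : Cub F,
      Rep (Surf.ofPoly (geom K (monomial d (coeff d f)))) e0 e1 e2 e3 C := by
    intro d hd
    have hdeg := hf (mem_support_iff.mp hd)
    rw [Finsupp.weight_apply, Finsupp.sum_fintype _ _ (by simp)] at hdeg
    have hcard : (Finsupp.toMultiset d).card = 3 := by
      rw [Finsupp.card_toMultiset, Finsupp.sum_fintype _ _ (by simp)]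
      simpa using hdeg
    obtain ⟨i, j, k, hijk⟩ := Multiset.card_eq_three.mp hcard
    have hd' : d = Finsupp.single i 1 + Finsupp.single j 1 + Finsupp.single k 1 := by
      rw [← Finsupp.toMultiset_toFinsupp d, ← Finsupp.toMultiset_toFinsupp
        (Finsupp.single i 1 + Finsupp.single j 1 + Finsupp.single k 1)]
      congr 1
      rw [hijk, map_add, map_add, Finsupp.toMultiset_single, Finsupp.toMultiset_single,
        Finsupp.toMultiset_single]
      simp only [one_smul]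
      rfl
    have heq : geom K (monomial d (coeff d f)) =
        C (algebraMap F K (coeff d f)) * X i * X j * X k := by
      unfold geom
      rw [map_monomial, hd']
      have hX : ∀ i : Fin 4, (X i : MvPolynomial (Fin 4) K) = monomial (Finsupp.single i 1) 1 :=
        fun i => rfl
      rw [hX, hX, hX, C_apply, monomial_mul, monomial_mul, monomial_mul, zero_add, mul_one,
        mul_one, mul_one]
    rw [heq]
    exact ⟨_, rep_monomial _ i j k e0 e1 e2 e3⟩
  have hind : ∀ s : Finset (Fin 4 →₀ ℕ), s ⊆ f.support → ∃ C : Cub F,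
      Rep (Surf.ofPoly (∑ d ∈ s, geom K (monomial d (coeff d f)))) e0 e1 e2 e3 C := by
    classical
    intro s
    induction s using Finset.induction_on with
    | empty =>
      intro _
      have : (∑ d ∈ (∅ : Finset (Fin 4 →₀ ℕ)), geom K (monomial d (coeff d f))) =
          C (algebraMap F K 0) * X 0 * X 0 * X 0 := by simp
      rw [this]
      exact ⟨_, rep_monomial 0 0 0 0 e0 e1 e2 e3⟩
    | insert d s hds ih =>
      intro hsub
      obtain ⟨C1, h1⟩ := ih (fun x hx => hsub (Finset.mem_insert_of_mem hx))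
      obtain ⟨C2, h2⟩ := hmon d (hsub (Finset.mem_insert_self _ _))
      rw [Finset.sum_insert hds]
      exact ⟨_, rep_add _ _ e0 e1 e2 e3 _ _ h2 h1⟩
  exact hind f.support (Finset.Subset.refl _)

end rep

end Pool.Agent.H22.Cubic
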