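import Mathlib
import Pool.Agent.H22.Cubic.Cub

open MvPolynomial

namespace Pool.Agent.H22.Cubic

universe u v

/-- a basis of `F^4` -/
structure Frame (F : Type u) [Field F] where
  e0 : Fin 4 → F
  e1 : Fin 4 → F
  e2 : Fin 4 → F
  e3 : Fin 4 → F
  det_ne : (Matrix.of ![e0, e1, e2, e3]).det ≠ 0

namespace Frame

variable {F : Type u} [Field F] (fr : Frame F) (K : Type v) [Field K] [Algebra F K]

/-- matrix of the frame -/
def mat : Matrix (Fin 4) (Fin 4) F := Matrix.of ![fr.e0, fr.e1, fr.e2, fr.e3]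

/-- matrix over K -/
def matK : Matrix (Fin 4) (Fin 4) K := fr.mat.map (algebraMap F K)

theorem det_matK : IsUnit (fr.matK K).det := by
  have : (fr.matK K).det = algebraMap F K fr.mat.det := by
    unfold matK
    exact (RingHom.map_det _ _).symm
  rw [this, isUnit_iff_ne_zero]
  intro h
  exact fr.det_ne ((algebraMap F K).injective (h.trans (map_zero _).symm))

/-- coordinates -/
noncomputable def equiv : (Fin 4 → K) ≃ₗ[K] (Fin 4 → K) where
  toFun x := Matrix.vecMul x (fr.matK K)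
  invFun x := Matrix.vecMul x (fr.matK K)⁻¹
  map_add' x y := Matrix.add_vecMul _ _ _
  map_smul' c x := Matrix.smul_vecMul _ _ _
  left_inv x := by
    simp only [Matrix.vecMul_vecMul]
    rw [Matrix.mul_nonsing_inv _ (fr.det_matK K), Matrix.vecMul_one]
  right_inv x := by
    simp only [Matrix.vecMul_vecMul]
    rw [Matrix.nonsing_inv_mul _ (fr.det_matK K), Matrix.vecMul_one]

variable {K}

/-- point with coordinates x,y,z,w -/
def pt (x y z w : K) : Fin 4 → K := Cubic.pt fr.e0 fr.e1 fr.e2 fr.e3 x y z w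

theorem equiv_apply (x : Fin 4 → K) : fr.equiv K x = fr.pt (x 0) (x 1) (x 2) (x 3) := by
  ext i
  change Matrix.vecMul x (fr.matK K) i = _
  rw [Frame.pt, pt_apply]
  simp [Matrix.vecMul, dotProduct, Fin.sum_univ_four, matK, mat]

theorem equiv_vec (x y z w : K) : fr.equiv K ![x, y, z, w] = fr.pt x y z w := by
  rw [equiv_apply]
  simp

theorem exists_pt (v : Fin 4 → K) : ∃ x y z w : K, v = fr.pt x y z w := by
  have h := (fr.equiv K).apply_symm_apply v
  rw [equiv_apply] at h
  exact ⟨_, _, _, _, h.symm⟩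

theorem pt_inj {x y z w x' y' z' w' : K} (h : fr.pt x y z w = fr.pt x' y' z' w') :
    x = x' ∧ y = y' ∧ z = z' ∧ w = w' := by
  rw [← equiv_vec, ← equiv_vec] at h
  have := (fr.equiv K).injective h
  have h0 := congrFun this 0
  have h1 := congrFun this 1
  have h2 := congrFun this 2
  have h3 := congrFun this 3
  simp at h0 h1 h2 h3
  exact ⟨h0, h1, h2, h3⟩

theorem pt_zero : fr.pt (0 : K) 0 0 0 = 0 := by
  simp [pt, Cubic.pt]

theorem equiv_baseVec (v : Fin 4 → F) :
    fr.equiv K (baseVec F v) = baseVec F (Matrix.vecMul v fr.mat) := by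
  ext i
  change Matrix.vecMul (baseVec F v) (fr.matK K) i = algebraMap F K (Matrix.vecMul v fr.mat i)
  simp [Matrix.vecMul, dotProduct, matK, baseVec]

theorem inv_mul_mat : fr.mat⁻¹ * fr.mat = 1 := by
  apply Matrix.nonsing_inv_mul
  rw [isUnit_iff_ne_zero]
  exact fr.det_ne

theorem equiv_rational (p : Fin 4 → K) :
    IsRationalPoint F (fr.equiv K p) ↔ IsRationalPoint F p := by
  constructor
  · rintro ⟨v, c, hv⟩
    refine ⟨Matrix.vecMul v fr.mat⁻¹, c, ?_⟩
    apply (fr.equiv K).injective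
    rw [hv, map_smul, equiv_baseVec, Matrix.vecMul_vecMul, inv_mul_mat, Matrix.vecMul_one]
  · rintro ⟨v, c, rfl⟩
    exact ⟨Matrix.vecMul v fr.mat, c, by rw [map_smul, equiv_baseVec]⟩

theorem equiv_rationalLine (W : Submodule K (Fin 4 → K)) : IsRationalLine F W ↔
    IsRationalLine F (W.map (fr.equiv K : (Fin 4 → K) →ₗ[K] (Fin 4 → K))) := by
  constructor
  · exact Surf.isRationalLine_map F (fr.equiv K) (fun v => ⟨_, fr.equiv_baseVec v⟩) W
  · intro h
    have h1 := Surf.isRationalLine_map F (fr.equiv K).symm (fun v => ⟨Matrix.vecMul v fr.mat⁻¹, by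
      rw [LinearEquiv.symm_apply_eq, equiv_baseVec, Matrix.vecMul_vecMul, inv_mul_mat,
        Matrix.vecMul_one]⟩) _ h
    rw [← Submodule.map_comp] at h1
    simpa using h1

end Frame

section cubSurf

variable {K : Type v} [Field K]

/-- the surface given by coefficients, in standard coordinates -/
def cubSurf (C : Cub K) : Surf K where
  φ := fun x => C.ev (x 0) (x 1) (x 2) (x 3)
  D := fun x u => C.dx (x 0) (x 1) (x 2) (x 3) * u 0 + C.dy (x 0) (x 1) (x 2) (x 3) * u 1 +
    C.dz (x 0) (x 1) (x 2) (x 3) * u 2 + C.dw (x 0) (x 1) (x 2) (x 3) * u 3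

theorem exists_cubSurf {F : Type u} [Field F] [Algebra F K] (f : MvPolynomial (Fin 4) F)
    (hf : f.IsHomogeneous 3) (fr : Frame F) :
    ∃ C : Cub F, (Surf.ofPoly (geom K f)).comp (fr.equiv K) =
      cubSurf (C.map (algebraMap F K)) := by
  obtain ⟨C, hC⟩ := exists_rep (K := K) f hf fr.e0 fr.e1 fr.e2 fr.e3
  refine ⟨C, ?_⟩
  unfold Surf.comp cubSurf
  congr 1
  · funext x
    rw [Frame.equiv_apply]
    exact hC.ev _ _ _ _
  · funext x u
    rw [Frame.equiv_apply, Frame.equiv_apply fr u]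
    have h1 : ∀ p, (Surf.ofPoly (geom K f)).D p (fr.pt (u 0) (u 1) (u 2) (u 3)) =
        (Surf.ofPoly (geom K f)).D p (baseVec F fr.e0) * u 0 +
        (Surf.ofPoly (geom K f)).D p (baseVec F fr.e1) * u 1 +
        (Surf.ofPoly (geom K f)).D p (baseVec F fr.e2) * u 2 +
        (Surf.ofPoly (geom K f)).D p (baseVec F fr.e3) * u 3 := by
      intro p
      have e1 : fr.pt (u 0) (u 1) (u 2) (u 3) = u 0 • baseVec F fr.e0 + (1 : K) •
          (u 1 • baseVec F fr.e1 + (1 : K) • (u 2 • baseVec F fr.e2 + u 3 • baseVec F fr.e3)) := by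
        simp only [Frame.pt, Cubic.pt, one_smul]
        abel
      rw [e1, Surf.ofPoly_D_add, Surf.ofPoly_D_add, Surf.ofPoly_D_add]
      ring
    rw [h1]
    have h2 := hC.dx (x 0) (x 1) (x 2) (x 3)
    have h3 := hC.dy (x 0) (x 1) (x 2) (x 3)
    have h4 := hC.dz (x 0) (x 1) (x 2) (x 3)
    have h5 := hC.dw (x 0) (x 1) (x 2) (x 3)
    unfold Frame.pt
    rw [h2, h3, h4, h5]

end cubSurf

end Pool.Agent.H22.Cubic
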