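import Mathlib
import Pool.Agent.H22.Cubic.Types

open MvPolynomial

namespace Pool.Agent.H22.Cubic

universe u v

/-- binary quadratic form -/
def quad {R : Type*} [CommRing R] (a0 a1 a2 x y : R) : R := a0 * x ^ 2 + a1 * (x * y) + a2 * y ^ 2

/-- discriminant of the Segre involution of a pair of binary quadratic forms -/
def segreDisc {R : Type*} [CommRing R] (a0 a1 a2 b0 b1 b2 : R) : R :=
  (a0 * b2 - a2 * b0) ^ 2 - (a0 * b1 - a1 * b0) * (a1 * b2 - a2 * b1)

theorem common_root {K : Type v} [Field K] [IsAlgClosed K] (a0 a1 a2 b0 b1 b2 : K)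
    (h : segreDisc a0 a1 a2 b0 b1 b2 = 0) : ∃ x y : K, (x ≠ 0 ∨ y ≠ 0) ∧
      quad a0 a1 a2 x y = 0 ∧ quad b0 b1 b2 x y = 0 := by
  -- every quadratic form has a zero
  have hroot : ∀ c0 c1 c2 : K, ∃ x y : K, (x ≠ 0 ∨ y ≠ 0) ∧ quad c0 c1 c2 x y = 0 := by
    intro c0 c1 c2
    by_cases hc : c0 = 0
    · exact ⟨1, 0, Or.inl one_ne_zero, by simp [quad, hc]⟩
    · have hdeg : (Polynomial.C c0 * Polynomial.X ^ 2 + Polynomial.C c1 * Polynomial.X +
          Polynomial.C c2).degree ≠ 0 := by
        rw [Polynomial.degree_quadratic hc]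
        norm_num
      obtain ⟨r, hr⟩ := IsAlgClosed.exists_root _ hdeg
      refine ⟨r, 1, Or.inr one_ne_zero, ?_⟩
      simp only [Polynomial.IsRoot.def, Polynomial.eval_add, Polynomial.eval_mul,
        Polynomial.eval_C, Polynomial.eval_pow, Polynomial.eval_X] at hr
      unfold quad
      linear_combination hr
  set m0 := a0 * b1 - a1 * b0 with hm0
  set m1 := a0 * b2 - a2 * b0 with hm1
  set m2 := a1 * b2 - a2 * b1 with hm2
  have hd : m1 ^ 2 = m0 * m2 := by
    unfold segreDisc at h
    linear_combination h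
  -- a vector in the kernel
  obtain ⟨x, y, hxy, h1, h2⟩ : ∃ x y : K, (x ≠ 0 ∨ y ≠ 0) ∧ m0 * x + m1 * y = 0 ∧
      m1 * x + m2 * y = 0 := by
    by_cases h0 : m0 = 0
    · have h1 : m1 = 0 := by
        rw [h0, zero_mul] at hd
        exact pow_eq_zero_iff two_ne_zero |>.mp hd
      exact ⟨1, 0, Or.inl one_ne_zero, by simp [h0], by simp [h1]⟩
    · exact ⟨-m1, m0, Or.inr h0, by ring, by linear_combination -hd⟩
  have hkey : ∀ x' y', quad a0 a1 a2 x y * quad b0 b1 b2 x' y' =
      quad a0 a1 a2 x' y' * quad b0 b1 b2 x y := by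
    intro x' y'
    have e1 : quad a0 a1 a2 x y * quad b0 b1 b2 x' y' -
      quad a0 a1 a2 x' y' * quad b0 b1 b2 x y = (x * y' - x' * y) *
        ((m0 * x + m1 * y) * x' + (m1 * x + m2 * y) * y') := by
      simp only [hm0, hm1, hm2, quad]
      ring
    rw [h1, h2, zero_mul, zero_mul, add_zero, mul_zero] at e1
    linear_combination e1
  by_cases hA : quad a0 a1 a2 x y = 0
  · by_cases hB : quad b0 b1 b2 x y = 0
    · exact ⟨x, y, hxy, hA, hB⟩
    · obtain ⟨x', y', hxy', h'⟩ := hroot b0 b1 b2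
      refine ⟨x', y', hxy', ?_, h'⟩
      have := hkey x' y'
      rw [hA, zero_mul] at this
      exact (mul_eq_zero.mp this.symm).resolve_right hB
  · obtain ⟨x', y', hxy', h'⟩ := hroot a0 a1 a2
    refine ⟨x', y', hxy', h', ?_⟩
    have := hkey x' y'
    rw [h', zero_mul] at this
    exact (mul_eq_zero.mp this).resolve_left hA

section

variable {F : Type u} [Field F] {K : Type v} [Field K] [Algebra F K]

/-- The line spanned by the first two vectors of the frame. -/
def Frame.line01 (fr : Frame F) (K : Type v) [Field K] [Algebra F K] : Submodule K (Fin 4 → K) :=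
  Submodule.span K {baseVec F fr.e0, baseVec F fr.e1}

theorem Frame.mem_line01 (fr : Frame F) (p : Fin 4 → K) :
    p ∈ fr.line01 K ↔ ∃ x y : K, p = fr.pt x y 0 0 := by
  unfold Frame.line01
  rw [Submodule.mem_span_pair]
  constructor
  · rintro ⟨x, y, rfl⟩
    exact ⟨x, y, by simp [Frame.pt, Cubic.pt]⟩
  · rintro ⟨x, y, rfl⟩
    exact ⟨x, y, by simp [Frame.pt, Cubic.pt]⟩

/-- zeros of the form `m0 x^2 + 2 m1 x y + m2 y^2` over `K` are rational if the discriminant is a
square in `F` -/
theorem rational_zero (h2 : (2 : F) ≠ 0) (m0 m1 m2 : F) (d : F) (hd : m1 ^ 2 - m0 * m2 = d ^ 2)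
    (hd0 : d ≠ 0) (x y : K)
    (hq : algebraMap F K m0 * x ^ 2 + 2 * (algebraMap F K m1 * (x * y)) +
      algebraMap F K m2 * y ^ 2 = 0) :
    ∃ (x' y' : F) (c : K), x = c * algebraMap F K x' ∧ y = c * algebraMap F K y' := by
  have hinj : ∀ a : F, algebraMap F K a = 0 → a = 0 := fun a ha =>
    (algebraMap F K).injective (ha.trans (map_zero _).symm)
  have h2K : (2 : K) ≠ 0 := by
    intro h
    apply h2
    apply hinj
    rw [map_ofNat]
    exact h
  by_cases h0 : m0 = 0
  · have hm1 : m1 ≠ 0 := by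
      rintro rfl
      rw [h0] at hd
      apply hd0
      have : d ^ 2 = 0 := by rw [← hd]; ring
      exact pow_eq_zero_iff two_ne_zero |>.mp this
    have hm1K : algebraMap F K m1 ≠ 0 := fun h => hm1 (hinj _ h)
    by_cases hy : y = 0
    · exact ⟨1, 0, x, by simp, by simp [hy]⟩
    · refine ⟨-m2 / (2 * m1), 1, y, ?_, by simp⟩
      have h3 : 2 * algebraMap F K m1 * x + algebraMap F K m2 * y = 0 := by
        have : y * (2 * algebraMap F K m1 * x + algebraMap F K m2 * y) = 0 := by
          rw [h0, map_zero] at hq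
          linear_combination hq
        exact (mul_eq_zero.mp this).resolve_left hy
      rw [map_div₀, map_neg, map_mul, map_ofNat]
      field_simp
      linear_combination h3
  · have hm0K : algebraMap F K m0 ≠ 0 := fun h => h0 (hinj _ h)
    have hdK : (algebraMap F K m1) ^ 2 - algebraMap F K m0 * algebraMap F K m2 =
        (algebraMap F K d) ^ 2 := by
      rw [← map_pow, ← map_pow, ← map_mul, ← map_sub, hd]
    have hfac : (algebraMap F K m0 * x + (algebraMap F K m1 - algebraMap F K d) * y) *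
        (algebraMap F K m0 * x + (algebraMap F K m1 + algebraMap F K d) * y) = 0 := by
      linear_combination algebraMap F K m0 * hq + y ^ 2 * hdK
    rcases mul_eq_zero.mp hfac with h | h
    · refine ⟨-(m1 - d) / m0, 1, y, ?_, by simp⟩
      rw [map_div₀, map_neg, map_sub]
      field_simp
      linear_combination h
    · refine ⟨-(m1 + d) / m0, 1, y, ?_, by simp⟩
      rw [map_div₀, map_neg, map_add]
      field_simp
      linear_combination h

theorem square_of_zero (m0 m1 m2 : F) (x y : F) (hxy : x ≠ 0 ∨ y ≠ 0)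
    (hq : m0 * x ^ 2 + 2 * (m1 * (x * y)) + m2 * y ^ 2 = 0) : IsSquare (m1 ^ 2 - m0 * m2) := by
  by_cases hy : y = 0
  · subst hy
    have hx : x ≠ 0 := by simpa using hxy
    have : m0 = 0 := by
      have : m0 * x ^ 2 = 0 := by linear_combination hq
      exact (mul_eq_zero.mp this).resolve_right (pow_ne_zero 2 hx)
    rw [this]
    exact ⟨m1, by ring⟩
  · refine ⟨(m0 * x + m1 * y) / y, ?_⟩
    field_simp
    linear_combination -m0 * hq

/-- the basic computation of types -/
theorem type_iff [IsAlgClosed K] (h2 : (2 : F) ≠ 0) (S : Surf K) (fr : Frame F)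
    (a0 a1 a2 b0 b1 b2 : F)
    (hD : ∀ x y u0 u1 u2 u3 : K, S.D (fr.pt x y 0 0) (fr.pt u0 u1 u2 u3) =
      u2 * quad (algebraMap F K a0) (algebraMap F K a1) (algebraMap F K a2) x y +
      u3 * quad (algebraMap F K b0) (algebraMap F K b1) (algebraMap F K b2) x y)
    (hne : ∀ x y : K, (x ≠ 0 ∨ y ≠ 0) →
      quad (algebraMap F K a0) (algebraMap F K a1) (algebraMap F K a2) x y ≠ 0 ∨
      quad (algebraMap F K b0) (algebraMap F K b1) (algebraMap F K b2) x y ≠ 0) :
    segreDisc a0 a1 a2 b0 b1 b2 ≠ 0 ∧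
    (S.Hyp F (fr.line01 K) ↔ IsSquare (segreDisc a0 a1 a2 b0 b1 b2)) ∧
    (S.Ell F (fr.line01 K) ↔ ¬ IsSquare (segreDisc a0 a1 a2 b0 b1 b2)) := by
  set A : K → K → K := quad (algebraMap F K a0) (algebraMap F K a1) (algebraMap F K a2) with hA
  set B : K → K → K := quad (algebraMap F K b0) (algebraMap F K b1) (algebraMap F K b2) with hB
  have hinj : ∀ a : F, algebraMap F K a = 0 → a = 0 := fun a ha =>
    (algebraMap F K).injective (ha.trans (map_zero _).symm)
  have h2K : (2 : K) ≠ 0 := by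
    intro h
    apply h2
    apply hinj
    rw [map_ofNat]
    exact h
  set m0 := a0 * b1 - a1 * b0 with hm0
  set m1 := a0 * b2 - a2 * b0 with hm1
  set m2 := a1 * b2 - a2 * b1 with hm2
  set n0 := algebraMap F K m0 with hn0
  set n1 := algebraMap F K m1 with hn1
  set n2 := algebraMap F K m2 with hn2
  have hdisc : segreDisc a0 a1 a2 b0 b1 b2 = m1 ^ 2 - m0 * m2 := rfl
  have hdisc0 : segreDisc a0 a1 a2 b0 b1 b2 ≠ 0 := by
    intro h
    have : segreDisc (algebraMap F K a0) (algebraMap F K a1) (algebraMap F K a2)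
        (algebraMap F K b0) (algebraMap F K b1) (algebraMap F K b2) = 0 := by
      have := congrArg (algebraMap F K) h
      simpa [segreDisc] using this
    obtain ⟨x, y, hxy, h3, h4⟩ := common_root _ _ _ _ _ _ this
    rcases hne x y hxy with h | h
    · exact h h3
    · exact h h4
  have hdiscK : n1 ^ 2 - n0 * n2 ≠ 0 := by
    intro h
    apply hdisc0
    apply hinj
    rw [hdisc, map_sub, map_pow, map_mul]
    exact h
  -- tangent planes
  have hkey : ∀ x y x' y', A x y * B x' y' - A x' y' * B x y = (x * y' - x' * y) *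
      (n0 * (x * x') + n1 * (x * y' + x' * y) + n2 * (y * y')) := by
    intro x y x' y'
    simp only [hn0, hn1, hn2, hm0, hm1, hm2, hA, hB, quad, map_sub, map_mul]
    ring
  have htan : ∀ x y x' y', S.tangent (fr.pt x y 0 0) = S.tangent (fr.pt x' y' 0 0) →
      A x y * B x' y' - A x' y' * B x y = 0 := by
    intro x y x' y' h
    have h3 : fr.pt 0 0 (B x' y') (-A x' y') ∈ S.tangent (fr.pt x' y' 0 0) := by
      change S.D _ _ = 0
      rw [hD]
      ring
    rw [← h] at h3
    have h4 : S.D (fr.pt x y 0 0) (fr.pt 0 0 (B x' y') (-A x' y')) = 0 := h3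
    rw [hD] at h4
    linear_combination h4
  have htan' : ∀ x y x' y', (x ≠ 0 ∨ y ≠ 0) → (x' ≠ 0 ∨ y' ≠ 0) →
      A x y * B x' y' - A x' y' * B x y = 0 →
      S.tangent (fr.pt x y 0 0) = S.tangent (fr.pt x' y' 0 0) := by
    have hsub : ∀ x y x' y', (x' ≠ 0 ∨ y' ≠ 0) →
        (x ≠ 0 ∨ y ≠ 0) →
        A x y * B x' y' - A x' y' * B x y = 0 →
        S.tangent (fr.pt x y 0 0) ⊆ S.tangent (fr.pt x' y' 0 0) := by
      intro x y x' y' hx' hx h u hu
      obtain ⟨u0, u1, u2, u3, rfl⟩ := fr.exists_pt u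
      change S.D _ _ = 0 at hu
      change S.D _ _ = 0
      rw [hD] at hu ⊢
      rcases hne x y hx with hne' | hne'
      · have : A x y * (u2 * A x' y' + u3 * B x' y') = 0 := by
          linear_combination A x' y' * hu + u3 * h
        exact (mul_eq_zero.mp this).resolve_left hne'
      · have : B x y * (u2 * A x' y' + u3 * B x' y') = 0 := by
          linear_combination B x' y' * hu - u2 * h
        exact (mul_eq_zero.mp this).resolve_left hne'
    intro x y x' y' hx hx' h
    apply Set.Subset.antisymm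
    · exact hsub x y x' y' hx' hx h
    · exact hsub x' y' x y hx hx' (by linear_combination -h)
  -- parallel vectors
  have hpar : ∀ x y x' y' : K, (x ≠ 0 ∨ y ≠ 0) → x * y' - x' * y = 0 →
      ∃ c : K, fr.pt x' y' 0 0 = c • fr.pt x y 0 0 := by
    intro x y x' y' hx h
    have hsm : ∀ c : K, c • fr.pt x y 0 0 = fr.pt (c * x) (c * y) 0 0 := by
      intro c
      simp [Frame.pt, Cubic.pt, smul_smul]
    rcases hx with hx | hy
    · refine ⟨x' / x, ?_⟩
      rw [hsm, div_mul_cancel₀ _ hx]
      congr 1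
      field_simp
      linear_combination h
    · refine ⟨y' / y, ?_⟩
      rw [hsm, div_mul_cancel₀ _ hy]
      congr 1
      field_simp
      linear_combination -h
  have hnz : ∀ x y : K, fr.pt x y 0 0 ≠ 0 ↔ (x ≠ 0 ∨ y ≠ 0) := by
    intro x y
    constructor
    · intro h
      by_contra hcon
      push Not at hcon
      rw [hcon.1, hcon.2] at h
      exact h fr.pt_zero
    · intro h h0
      rw [← fr.pt_zero] at h0
      obtain ⟨h3, h4, -, -⟩ := fr.pt_inj h0
      rcases h with h | h
      · exact h h3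
      · exact h h4
  -- fixed points of any Segre involution contain all zeros of the quadratic form
  have hfix : ∀ L, S.IsSegre (fr.line01 K) L → ∀ x y : K, (x ≠ 0 ∨ y ≠ 0) →
      n0 * x ^ 2 + 2 * (n1 * (x * y)) + n2 * y ^ 2 = 0 →
      ∃ c : K, L (fr.pt x y 0 0) = c • fr.pt x y 0 0 := by
    intro L hL x y hx hq
    have hmem : fr.pt x y 0 0 ∈ fr.line01 K := (fr.mem_line01 _).mpr ⟨x, y, rfl⟩
    obtain ⟨x', y', hL'⟩ := (fr.mem_line01 _).mp (hL.maps _ hmem)
    rw [hL']
    have hne0 : fr.pt x y 0 0 ≠ 0 := (hnz x y).mpr hx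
    have hx' : x' ≠ 0 ∨ y' ≠ 0 := by
      rw [← hnz, ← hL']
      intro h
      exact hne0 (hL.injective _ hmem h)
    have h3 := hL.tangent_eq _ hmem hne0
    rw [hL'] at h3
    have h4 := htan _ _ _ _ h3
    rw [hkey] at h4
    rcases mul_eq_zero.mp h4 with h5 | h5
    · exact hpar _ _ _ _ hx (by linear_combination -h5)
    · -- both vectors are orthogonal to (x, y)
      apply hpar _ _ _ _ hx
      have e1 : (n0 * x + n1 * y) * x' + (n1 * x + n2 * y) * y' = 0 := by linear_combination h5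
      have e2 : (n0 * x + n1 * y) * x + (n1 * x + n2 * y) * y = 0 := by linear_combination hq
      have e3 : (n0 * x + n1 * y) * (x * y' - x' * y) = 0 := by
        linear_combination y' * e2 - y * e1
      have e4 : (n1 * x + n2 * y) * (x * y' - x' * y) = 0 := by
        linear_combination x * e1 - x' * e2
      by_contra hcon
      have e5 := (mul_eq_zero.mp e3).resolve_right hcon
      have e6 := (mul_eq_zero.mp e4).resolve_right hcon
      rcases hx with hx | hx
      · apply hdiscK
        have : x * (n1 ^ 2 - n0 * n2) = 0 := by linear_combination n1 * e6 - n2 * e5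
        exact (mul_eq_zero.mp this).resolve_left hx
      · apply hdiscK
        have : y * (n1 ^ 2 - n0 * n2) = 0 := by linear_combination n1 * e5 - n0 * e6
        exact (mul_eq_zero.mp this).resolve_left hx
  -- the involution
  let L0 : (Fin 4 → K) →ₗ[K] (Fin 4 → K) :=
    { toFun := fun x => ![n1 * x 0 + n2 * x 1, -(n0 * x 0 + n1 * x 1), 0, 0]
      map_add' := by
        intro x y
        ext i
        fin_cases i <;> simp <;> ring
      map_smul' := by
        intro c x
        ext i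
        fin_cases i <;> simp <;> ring }
  let L : (Fin 4 → K) →ₗ[K] (Fin 4 → K) :=
    (fr.equiv K : (Fin 4 → K) →ₗ[K] (Fin 4 → K)) ∘ₗ L0 ∘ₗ
      ((fr.equiv K).symm : (Fin 4 → K) →ₗ[K] (Fin 4 → K))
  have hLapp : ∀ x y : K, L (fr.pt x y 0 0) = fr.pt (n1 * x + n2 * y) (-(n0 * x + n1 * y)) 0 0 := by
    intro x y
    have h3 : (fr.equiv K).symm (fr.pt x y 0 0) = ![x, y, 0, 0] := by
      rw [LinearEquiv.symm_apply_eq, Frame.equiv_vec]
    change fr.equiv K (L0 ((fr.equiv K).symm (fr.pt x y 0 0))) = _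
    rw [h3]
    change fr.equiv K ![n1 * x + n2 * y, -(n0 * x + n1 * y), 0, 0] = _
    rw [Frame.equiv_vec]
  have hLne : ∀ x y : K, (x ≠ 0 ∨ y ≠ 0) → (n1 * x + n2 * y ≠ 0 ∨ -(n0 * x + n1 * y) ≠ 0) := by
    intro x y hx
    by_contra hcon
    push Not at hcon
    obtain ⟨e5, e6⟩ := hcon
    rcases hx with hx | hx
    · apply hdiscK
      have : x * (n1 ^ 2 - n0 * n2) = 0 := by linear_combination n1 * e5 + n2 * e6
      exact (mul_eq_zero.mp this).resolve_left hx
    · apply hdiscK
      have : y * (n1 ^ 2 - n0 * n2) = 0 := by linear_combination -n1 * e6 - n0 * e5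
      exact (mul_eq_zero.mp this).resolve_left hx
  have hfixL : ∀ x y : K, (x ≠ 0 ∨ y ≠ 0) → (∃ c : K, L (fr.pt x y 0 0) = c • fr.pt x y 0 0) →
      n0 * x ^ 2 + 2 * (n1 * (x * y)) + n2 * y ^ 2 = 0 := by
    rintro x y hx ⟨c, hc⟩
    rw [hLapp] at hc
    have hsm : c • fr.pt x y 0 0 = fr.pt (c * x) (c * y) 0 0 := by
      simp [Frame.pt, Cubic.pt, smul_smul]
    rw [hsm] at hc
    obtain ⟨h3, h4, -, -⟩ := fr.pt_inj hc
    linear_combination y * h3 - x * h4
  have hSegre : S.IsSegre (fr.line01 K) L := by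
    refine ⟨?_, ?_, ?_, ?_⟩
    · intro p hp
      obtain ⟨x, y, rfl⟩ := (fr.mem_line01 _).mp hp
      rw [hLapp]
      exact (fr.mem_line01 _).mpr ⟨_, _, rfl⟩
    · intro p hp hp0
      obtain ⟨x, y, rfl⟩ := (fr.mem_line01 _).mp hp
      rw [hLapp] at hp0
      by_contra hcon
      exact (hnz _ _).mpr (hLne x y ((hnz x y).mp hcon)) hp0
    · by_contra hcon
      push Not at hcon
      have h10 := hfixL 1 0 (Or.inl one_ne_zero) (hcon _ ((fr.mem_line01 _).mpr ⟨1, 0, rfl⟩))
      have h01 := hfixL 0 1 (Or.inr one_ne_zero) (hcon _ ((fr.mem_line01 _).mpr ⟨0, 1, rfl⟩))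
      have h11 := hfixL 1 1 (Or.inr one_ne_zero) (hcon _ ((fr.mem_line01 _).mpr ⟨1, 1, rfl⟩))
      have e0 : n0 = 0 := by linear_combination h10
      have e2 : n2 = 0 := by linear_combination h01
      have e1 : n1 = 0 := by
        have : 2 * n1 = 0 := by linear_combination h11 - e0 - e2
        exact (mul_eq_zero.mp this).resolve_left h2K
      apply hdiscK
      rw [e0, e1, e2]
      ring
    · intro p hp hp0
      obtain ⟨x, y, rfl⟩ := (fr.mem_line01 _).mp hp
      rw [hLapp]
      have hx := (hnz x y).mp hp0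
      apply htan' _ _ _ _ (hLne x y hx) hx
      rw [hkey]
      ring
  refine ⟨hdisc0, ⟨?_, ?_⟩, ⟨?_, ?_⟩⟩
  · rintro ⟨L', hL', hrat⟩
    -- take a zero of the quadratic form
    obtain ⟨x, y, hx, hq⟩ : ∃ x y : K, (x ≠ 0 ∨ y ≠ 0) ∧
        n0 * x ^ 2 + 2 * (n1 * (x * y)) + n2 * y ^ 2 = 0 := by
      have := common_root n0 (2 * n1) n2 0 0 0 (by simp [segreDisc])
      obtain ⟨x, y, hx, hq, -⟩ := this
      exact ⟨x, y, hx, by unfold quad at hq; linear_combination hq⟩
    obtain ⟨c, hc⟩ := hfix L' hL' x y hx hq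
    obtain ⟨v, c', hv⟩ := hrat _ ((fr.mem_line01 _).mpr ⟨x, y, rfl⟩) ((hnz x y).mpr hx) ⟨c, hc⟩
    -- coordinates of v
    obtain ⟨w, hw⟩ : ∃ w : Fin 4 → F, fr.equiv K (baseVec F w) = baseVec F v := by
      refine ⟨Matrix.vecMul v fr.mat⁻¹, ?_⟩
      rw [Frame.equiv_baseVec, Matrix.vecMul_vecMul, Frame.inv_mul_mat, Matrix.vecMul_one]
    have hc'0 : c' ≠ 0 := by
      rintro rfl
      rw [zero_smul] at hv
      exact (hnz x y).mpr hx hv
    have h3 : fr.equiv K ![x, y, 0, 0] = fr.equiv K (c' • baseVec F w) := by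
      rw [Frame.equiv_vec, map_smul, hw, hv]
    have h4 := (fr.equiv K).injective h3
    have hx0 : x = c' * algebraMap F K (w 0) := by
      have := congrFun h4 0
      simpa [baseVec] using this
    have hy0 : y = c' * algebraMap F K (w 1) := by
      have := congrFun h4 1
      simpa [baseVec] using this
    rw [hdisc]
    apply square_of_zero m0 m1 m2 (w 0) (w 1)
    · rcases hx with hx | hx
      · left
        intro h
        rw [h, map_zero, mul_zero] at hx0
        exact hx hx0
      · right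
        intro h
        rw [h, map_zero, mul_zero] at hy0
        exact hx hy0
    · apply hinj
      rw [hx0, hy0] at hq
      have : c' ^ 2 * (n0 * (algebraMap F K (w 0)) ^ 2 + 2 * (n1 * (algebraMap F K (w 0) *
          algebraMap F K (w 1))) + n2 * (algebraMap F K (w 1)) ^ 2) = 0 := by
        linear_combination hq
      have h5 := (mul_eq_zero.mp this).resolve_left (pow_ne_zero 2 hc'0)
      simp only [map_add, map_mul, map_pow, map_ofNat, map_zero]
      linear_combination h5
  · rintro ⟨d, hd⟩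
    refine ⟨L, hSegre, ?_⟩
    intro p hp hp0 hcp
    obtain ⟨x, y, rfl⟩ := (fr.mem_line01 _).mp hp
    have hx := (hnz x y).mp hp0
    have hq := hfixL x y hx hcp
    have hd0 : d ≠ 0 := by
      rintro rfl
      exact hdisc0 (by rw [hd]; ring)
    obtain ⟨x', y', c, h3, h4⟩ := rational_zero h2 m0 m1 m2 d (by rw [← hdisc, hd]; ring) hd0 x y
      hq
    refine ⟨x' • fr.e0 + y' • fr.e1, c, ?_⟩
    ext i
    rw [Frame.pt, pt_apply, h3, h4]
    simp [baseVec]
    ring
  · rintro ⟨L', hL', hrat⟩ ⟨d, hd⟩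
    have hd0 : d ≠ 0 := by
      rintro rfl
      exact hdisc0 (by rw [hd]; ring)
    obtain ⟨x, y, hx, hq⟩ : ∃ x y : K, (x ≠ 0 ∨ y ≠ 0) ∧
        n0 * x ^ 2 + 2 * (n1 * (x * y)) + n2 * y ^ 2 = 0 := by
      have := common_root n0 (2 * n1) n2 0 0 0 (by simp [segreDisc])
      obtain ⟨x, y, hx, hq, -⟩ := this
      exact ⟨x, y, hx, by unfold quad at hq; linear_combination hq⟩
    obtain ⟨c, hc⟩ := hfix L' hL' x y hx hq
    apply hrat _ ((fr.mem_line01 _).mpr ⟨x, y, rfl⟩) ((hnz x y).mpr hx) ⟨c, hc⟩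
    obtain ⟨x', y', c, h3, h4⟩ := rational_zero h2 m0 m1 m2 d (by rw [← hdisc, hd]; ring) hd0 x y
      hq
    refine ⟨x' • fr.e0 + y' • fr.e1, c, ?_⟩
    ext i
    rw [Frame.pt, pt_apply, h3, h4]
    simp [baseVec]
    ring
  · intro hns
    refine ⟨L, hSegre, ?_⟩
    intro p hp hp0 hcp hrat
    obtain ⟨x, y, rfl⟩ := (fr.mem_line01 _).mp hp
    have hx := (hnz x y).mp hp0
    have hq := hfixL x y hx hcp
    obtain ⟨v, c', hv⟩ := hrat
    obtain ⟨w, hw⟩ : ∃ w : Fin 4 → F, fr.equiv K (baseVec F w) = baseVec F v := by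
      refine ⟨Matrix.vecMul v fr.mat⁻¹, ?_⟩
      rw [Frame.equiv_baseVec, Matrix.vecMul_vecMul, Frame.inv_mul_mat, Matrix.vecMul_one]
    have hc'0 : c' ≠ 0 := by
      rintro rfl
      rw [zero_smul] at hv
      exact (hnz x y).mpr hx hv
    have h3 : fr.equiv K ![x, y, 0, 0] = fr.equiv K (c' • baseVec F w) := by
      rw [Frame.equiv_vec, map_smul, hw, hv]
    have h4 := (fr.equiv K).injective h3
    have hx0 : x = c' * algebraMap F K (w 0) := by
      have := congrFun h4 0
      simpa [baseVec] using this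
    have hy0 : y = c' * algebraMap F K (w 1) := by
      have := congrFun h4 1
      simpa [baseVec] using this
    apply hns
    rw [hdisc]
    apply square_of_zero m0 m1 m2 (w 0) (w 1)
    · rcases hx with hx | hx
      · left
        intro h
        rw [h, map_zero, mul_zero] at hx0
        exact hx hx0
      · right
        intro h
        rw [h, map_zero, mul_zero] at hy0
        exact hx hy0
    · apply hinj
      rw [hx0, hy0] at hq
      have : c' ^ 2 * (n0 * (algebraMap F K (w 0)) ^ 2 + 2 * (n1 * (algebraMap F K (w 0) *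
          algebraMap F K (w 1))) + n2 * (algebraMap F K (w 1)) ^ 2) = 0 := by
        linear_combination hq
      have h5 := (mul_eq_zero.mp this).resolve_left (pow_ne_zero 2 hc'0)
      simp only [map_add, map_mul, map_pow, map_ofNat, map_zero]
      linear_combination h5

end

end Pool.Agent.H22.Cubic
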