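import Mathlib
import Pool.Agent.H22.Cubic.TypeDisc

open MvPolynomial

namespace Pool.Agent.H22.Cubic

universe u v

theorem det4 {R : Type*} [CommRing R] (a0 a1 a2 a3 b0 b1 b2 b3 c0 c1 c2 c3 d0 d1 d2 d3 : R) :
    (!![a0, a1, a2, a3; b0, b1, b2, b3; c0, c1, c2, c3; d0, d1, d2, d3]).det =
    a0 * (b1 * (c2 * d3 - c3 * d2) - b2 * (c1 * d3 - c3 * d1) + b3 * (c1 * d2 - c2 * d1)) -
    a1 * (b0 * (c2 * d3 - c3 * d2) - b2 * (c0 * d3 - c3 * d0) + b3 * (c0 * d2 - c2 * d0)) +
    a2 * (b0 * (c1 * d3 - c3 * d1) - b1 * (c0 * d3 - c3 * d0) + b3 * (c0 * d1 - c1 * d0)) -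
    a3 * (b0 * (c1 * d2 - c2 * d1) - b1 * (c0 * d2 - c2 * d0) + b2 * (c0 * d1 - c1 * d0)) := by
  rw [Matrix.det_succ_row_zero]
  simp [Fin.sum_univ_succ, Matrix.det_fin_three, Matrix.submatrix_apply, Fin.succAbove,
    Matrix.of_apply]
  ring

section

variable {F : Type u} [Field F] {K : Type v} [Field K] [Algebra F K]

/-- frame obtained by a change of basis -/
def Frame.trans (fr : Frame F) (M : Matrix (Fin 4) (Fin 4) F) (hM : M.det ≠ 0) : Frame F where
  e0 := Matrix.vecMul (M 0) fr.mat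
  e1 := Matrix.vecMul (M 1) fr.mat
  e2 := Matrix.vecMul (M 2) fr.mat
  e3 := Matrix.vecMul (M 3) fr.mat
  det_ne := by
    have : (Matrix.of ![Matrix.vecMul (M 0) fr.mat, Matrix.vecMul (M 1) fr.mat,
        Matrix.vecMul (M 2) fr.mat, Matrix.vecMul (M 3) fr.mat]) = M * fr.mat := by
      ext i j
      fin_cases i <;> rfl
    rw [this, Matrix.det_mul]
    exact mul_ne_zero hM fr.det_ne

theorem Frame.trans_pt (fr : Frame F) (M : Matrix (Fin 4) (Fin 4) F) (hM : M.det ≠ 0)
    (x y z w : K) : (fr.trans M hM).pt x y z w =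
      fr.pt (x * algebraMap F K (M 0 0) + y * algebraMap F K (M 1 0) +
        z * algebraMap F K (M 2 0) + w * algebraMap F K (M 3 0))
      (x * algebraMap F K (M 0 1) + y * algebraMap F K (M 1 1) +
        z * algebraMap F K (M 2 1) + w * algebraMap F K (M 3 1))
      (x * algebraMap F K (M 0 2) + y * algebraMap F K (M 1 2) +
        z * algebraMap F K (M 2 2) + w * algebraMap F K (M 3 2))
      (x * algebraMap F K (M 0 3) + y * algebraMap F K (M 1 3) +
        z * algebraMap F K (M 2 3) + w * algebraMap F K (M 3 3)) := by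
  ext i
  rw [Frame.pt, Frame.pt, pt_apply, pt_apply]
  simp only [Frame.trans, Matrix.vecMul, dotProduct, Fin.sum_univ_four, Frame.mat, map_add,
    map_mul, Matrix.of_apply, Matrix.cons_val]
  ring

/-- the surface has the coefficients `C` in the frame `fr` -/
structure InFrame (S : Surf K) (fr : Frame F) (C : Cub F) : Prop where
  φ : ∀ x y z w : K, S.φ (fr.pt x y z w) = (C.map (algebraMap F K)).ev x y z w
  D : ∀ x y z w u0 u1 u2 u3 : K, S.D (fr.pt x y z w) (fr.pt u0 u1 u2 u3) =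
    (C.map (algebraMap F K)).dx x y z w * u0 + (C.map (algebraMap F K)).dy x y z w * u1 +
    (C.map (algebraMap F K)).dz x y z w * u2 + (C.map (algebraMap F K)).dw x y z w * u3

/-- the surface is a cubic surface over `F` -/
def IsCubicF (F : Type u) [Field F] [Algebra F K] (S : Surf K) : Prop :=
  ∀ fr : Frame F, ∃ C : Cub F, InFrame S fr C

theorem inFrame_of_comp (S : Surf K) (fr : Frame F) (C : Cub F)
    (h : S.comp (fr.equiv K) = cubSurf (C.map (algebraMap F K))) : InFrame S fr C := by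
  constructor
  · intro x y z w
    have := congrFun (congrArg Surf.φ h) ![x, y, z, w]
    change S.φ (fr.equiv K ![x, y, z, w]) = _ at this
    rw [Frame.equiv_vec] at this
    rw [this]
    rfl
  · intro x y z w u0 u1 u2 u3
    have := congrFun (congrFun (congrArg Surf.D h) ![x, y, z, w]) ![u0, u1, u2, u3]
    change S.D (fr.equiv K ![x, y, z, w]) (fr.equiv K ![u0, u1, u2, u3]) = _ at this
    rw [Frame.equiv_vec, Frame.equiv_vec] at this
    rw [this]
    rfl

theorem isCubicF_ofPoly (f : MvPolynomial (Fin 4) F) (hf : f.IsHomogeneous 3) :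
    IsCubicF F (Surf.ofPoly (geom K f)) := by
  intro fr
  obtain ⟨C, hC⟩ := exists_cubSurf (K := K) f hf fr
  exact ⟨C, inFrame_of_comp _ _ _ hC⟩

theorem isCubicF_self_ofPoly (f : MvPolynomial (Fin 4) F) (hf : f.IsHomogeneous 3) :
    IsCubicF K (Surf.ofPoly (geom K f)) := by
  have h : geom K (geom K f) = geom K f := by
    unfold geom
    have : algebraMap K K = RingHom.id K := rfl
    rw [this, MvPolynomial.map_id]
  rw [← h]
  apply isCubicF_ofPoly
  unfold geom
  exact hf.map _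

/-- permutation `(e0, e2, e1, e3)` -/
def Frame.p02 (fr : Frame F) : Frame F :=
  fr.trans !![1, 0, 0, 0; 0, 0, 1, 0; 0, 1, 0, 0; 0, 0, 0, 1]
    (by rw [det4]; norm_num)

theorem Frame.p02_pt (fr : Frame F) (x y z w : K) : fr.p02.pt x y z w = fr.pt x z y w := by
  rw [Frame.p02, Frame.trans_pt]
  congr 1 <;> simp

/-- permutation `(e2, e3, e0, e1)` -/
def Frame.p23 (fr : Frame F) : Frame F :=
  fr.trans !![0, 0, 1, 0; 0, 0, 0, 1; 1, 0, 0, 0; 0, 1, 0, 0]
    (by rw [det4]; norm_num)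

theorem Frame.p23_pt (fr : Frame F) (x y z w : K) : fr.p23.pt x y z w = fr.pt z w x y := by
  rw [Frame.p23, Frame.trans_pt]
  congr 1 <;> simp

theorem Frame.pt_ne_zero (fr : Frame F) {x y z w : K} (h : x ≠ 0 ∨ y ≠ 0 ∨ z ≠ 0 ∨ w ≠ 0) :
    fr.pt x y z w ≠ 0 := by
  intro h0
  rw [← fr.pt_zero] at h0
  obtain ⟨h1, h2, h3, h4⟩ := fr.pt_inj h0
  rcases h with h | h | h | h
  · exact h h1
  · exact h h2
  · exact h h3
  · exact h h4

theorem Frame.smul_pt (fr : Frame F) (c x y z w : K) :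
    c • fr.pt x y z w = fr.pt (c * x) (c * y) (c * z) (c * w) := by
  simp only [Frame.pt, Cubic.pt, smul_add, smul_smul]

theorem Frame.add_pt (fr : Frame F) (x y z w x' y' z' w' : K) :
    fr.pt x y z w + fr.pt x' y' z' w' = fr.pt (x + x') (y + y') (z + z') (w + w') := by
  simp only [Frame.pt, Cubic.pt, add_smul]
  abel

end

end Pool.Agent.H22.Cubic
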