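import Mathlib
import Pool.Agent.H22.Cubic.FrameOps

open MvPolynomial

namespace Pool.Agent.H22.Cubic

universe u v

section

variable {F : Type u} [Field F] {K : Type v} [Field K] [Algebra F K]

/-- `D` gives the type of the line `W`. -/
structure HasType (S : Surf K) (W : Submodule K (Fin 4 → K)) (D : F) : Prop where
  ne : D ≠ 0
  hyp : S.Hyp F W ↔ IsSquare D
  ell : S.Ell F W ↔ ¬ IsSquare D

theorem Frame.line01_rational (fr : Frame F) : IsRationalLine F (fr.line01 K) :=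
  ⟨fr.e0, fr.e1, rfl⟩

theorem Frame.finrank_line01 (fr : Frame F) : Module.finrank K (fr.line01 K) = 2 := by
  have hli : LinearIndependent K ![baseVec F fr.e0, (baseVec F fr.e1 : Fin 4 → K)] := by
    rw [LinearIndependent.pair_iff]
    intro s t hst
    have h1 : fr.pt s t 0 0 = fr.pt 0 0 0 0 := by
      rw [Frame.pt_zero, ← hst]
      simp [Frame.pt, Cubic.pt]
    obtain ⟨h2, h3, -, -⟩ := fr.pt_inj h1
    exact ⟨h2, h3⟩
  have := finrank_span_eq_card hli
  rw [Matrix.range_cons_cons_empty, Fintype.card_fin] at this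
  exact this

theorem Frame.line01_mem_lines (fr : Frame F) (S : Surf K)
    (h : ∀ x y : K, S.φ (fr.pt x y 0 0) = 0) : fr.line01 K ∈ S.lines := by
  refine ⟨fr.finrank_line01, ?_⟩
  intro w hw
  obtain ⟨x, y, rfl⟩ := (fr.mem_line01 w).mp hw
  exact h x y

theorem Frame.pt_mem_line01 (fr : Frame F) (x y z w : K) :
    fr.pt x y z w ∈ fr.line01 K ↔ z = 0 ∧ w = 0 := by
  rw [fr.mem_line01]
  constructor
  · rintro ⟨x', y', h⟩
    obtain ⟨-, -, h1, h2⟩ := fr.pt_inj h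
    exact ⟨h1, h2⟩
  · rintro ⟨rfl, rfl⟩
    exact ⟨x, y, rfl⟩

theorem eq_of_le_of_finrank_two (W W' : Submodule K (Fin 4 → K)) (h : Module.finrank K W = 2)
    (h' : Module.finrank K W' = 2) (hle : W ≤ W') : W = W' :=
  Submodule.eq_of_le_of_finrank_eq hle (by rw [h, h'])

theorem cubic_coeff_zero (h2 : (2 : K) ≠ 0) (a b c d : K)
    (h : ∀ x y : K, a * (x * x * x) + b * (x * x * y) + c * (x * y * y) + d * (y * y * y) = 0) :
    a = 0 ∧ b = 0 ∧ c = 0 ∧ d = 0 := by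
  have h10 := h 1 0
  have h01 := h 0 1
  have h11 := h 1 1
  have h12 := h 1 (-1)
  have ha : a = 0 := by linear_combination h10
  have hd : d = 0 := by linear_combination h01
  have hc : c = 0 := by
    have : 2 * c = 0 := by linear_combination h11 + h12 - 2 * ha
    exact (mul_eq_zero.mp this).resolve_left h2
  have hb : b = 0 := by linear_combination h11 - ha - hc - hd
  exact ⟨ha, hb, hc, hd⟩

theorem exists_avoid [Infinite K] (a b : Fin 3 → K) (h : ∀ i, a i ≠ 0 ∨ b i ≠ 0) :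
    ∃ s t : K, ∀ i, a i * s + b i * t ≠ 0 := by
  classical
  obtain ⟨s, hs⟩ := Infinite.exists_notMem_finset (Finset.univ.image (fun i => -b i / a i))
  refine ⟨s, 1, ?_⟩
  intro i hi
  apply hs
  rw [Finset.mem_image]
  refine ⟨i, Finset.mem_univ _, ?_⟩
  rcases h i with h0 | h0
  · rw [div_eq_iff h0]
    linear_combination -hi
  · have ha : a i ≠ 0 := by
      intro ha
      rw [ha] at hi
      apply h0
      linear_combination hi
    rw [div_eq_iff ha]
    linear_combination -hi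

theorem smooth_ne (S : Surf K) (hS : S.Smooth) (fr : Frame F) (A B : K → K → K)
    (hφ : ∀ x y : K, S.φ (fr.pt x y 0 0) = 0)
    (hD : ∀ x y u0 u1 u2 u3 : K, S.D (fr.pt x y 0 0) (fr.pt u0 u1 u2 u3) =
      u2 * A x y + u3 * B x y) (x y : K) (hx : x ≠ 0 ∨ y ≠ 0) : A x y ≠ 0 ∨ B x y ≠ 0 := by
  have hp : fr.pt x y 0 0 ≠ 0 := by
    intro h
    rw [← fr.pt_zero] at h
    obtain ⟨h1, h2, -, -⟩ := fr.pt_inj h
    rcases hx with hx | hx
    · exact hx h1
    · exact hx h2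
  obtain ⟨u, hu⟩ := hS _ hp (hφ x y)
  by_contra hcon
  push Not at hcon
  apply hu
  obtain ⟨u0, u1, u2, u3, rfl⟩ := fr.exists_pt u
  rw [hD, hcon.1, hcon.2, mul_zero, mul_zero, add_zero]

theorem hasType_of [IsAlgClosed K] (h2 : (2 : F) ≠ 0) (S : Surf K) (hS : S.Smooth) (fr : Frame F)
    (a0 a1 a2 b0 b1 b2 : F) (hφ : ∀ x y : K, S.φ (fr.pt x y 0 0) = 0)
    (hD : ∀ x y u0 u1 u2 u3 : K, S.D (fr.pt x y 0 0) (fr.pt u0 u1 u2 u3) =
      u2 * quad (algebraMap F K a0) (algebraMap F K a1) (algebraMap F K a2) x y +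
      u3 * quad (algebraMap F K b0) (algebraMap F K b1) (algebraMap F K b2) x y) :
    fr.line01 K ∈ S.lines ∧ HasType S (fr.line01 K) (segreDisc a0 a1 a2 b0 b1 b2) := by
  obtain ⟨h3, h4, h5⟩ := type_iff h2 S fr a0 a1 a2 b0 b1 b2 hD (smooth_ne S hS fr _ _ hφ hD)
  exact ⟨fr.line01_mem_lines S hφ, h3, h4, h5⟩

theorem algebraMap_eq_zero' {a : F} (h : algebraMap F K a = 0) : a = 0 :=
  (algebraMap F K).injective (h.trans (map_zero _).symm)

theorem two_ne_zero_of (h2 : (2 : F) ≠ 0) : (2 : K) ≠ 0 := by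
  intro h
  apply h2
  apply algebraMap_eq_zero' (K := K)
  rw [map_ofNat]
  exact h

theorem InFrame.coeff_line01 (h2 : (2 : F) ≠ 0) {S : Surf K} {fr : Frame F} {C : Cub F}
    (hC : InFrame S fr C) (hl : ∀ x y : K, S.φ (fr.pt x y 0 0) = 0) :
    C.xxx = 0 ∧ C.xxy = 0 ∧ C.xyy = 0 ∧ C.yyy = 0 := by
  have h := cubic_coeff_zero (two_ne_zero_of (K := K) h2) (algebraMap F K C.xxx)
    (algebraMap F K C.xxy) (algebraMap F K C.xyy) (algebraMap F K C.yyy) (by
      intro x y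
      have := hl x y
      rw [hC.φ] at this
      simp only [Cub.ev, Cub.map] at this
      linear_combination this)
  obtain ⟨ha, hb, hc, hd⟩ := h
  exact ⟨algebraMap_eq_zero' ha, algebraMap_eq_zero' hb, algebraMap_eq_zero' hc,
    algebraMap_eq_zero' hd⟩

theorem InFrame.coeff_line02 (h2 : (2 : F) ≠ 0) {S : Surf K} {fr : Frame F} {C : Cub F}
    (hC : InFrame S fr C) (hl : ∀ x z : K, S.φ (fr.pt x 0 z 0) = 0) :
    C.xxx = 0 ∧ C.xxz = 0 ∧ C.xzz = 0 ∧ C.zzz = 0 := by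
  have h := cubic_coeff_zero (two_ne_zero_of (K := K) h2) (algebraMap F K C.xxx)
    (algebraMap F K C.xxz) (algebraMap F K C.xzz) (algebraMap F K C.zzz) (by
      intro x y
      have := hl x y
      rw [hC.φ] at this
      simp only [Cub.ev, Cub.map] at this
      linear_combination this)
  obtain ⟨ha, hb, hc, hd⟩ := h
  exact ⟨algebraMap_eq_zero' ha, algebraMap_eq_zero' hb, algebraMap_eq_zero' hc,
    algebraMap_eq_zero' hd⟩

theorem InFrame.coeff_line23 (h2 : (2 : F) ≠ 0) {S : Surf K} {fr : Frame F} {C : Cub F}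
    (hC : InFrame S fr C) (hl : ∀ z w : K, S.φ (fr.pt 0 0 z w) = 0) :
    C.zzz = 0 ∧ C.zzw = 0 ∧ C.zww = 0 ∧ C.www = 0 := by
  have h := cubic_coeff_zero (two_ne_zero_of (K := K) h2) (algebraMap F K C.zzz)
    (algebraMap F K C.zzw) (algebraMap F K C.zww) (algebraMap F K C.www) (by
      intro x y
      have := hl x y
      rw [hC.φ] at this
      simp only [Cub.ev, Cub.map] at this
      linear_combination this)
  obtain ⟨ha, hb, hc, hd⟩ := h
  exact ⟨algebraMap_eq_zero' ha, algebraMap_eq_zero' hb, algebraMap_eq_zero' hc,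
    algebraMap_eq_zero' hd⟩

theorem Frame.mem_lines_iff (fr : Frame F) (S : Surf K) :
    fr.line01 K ∈ S.lines ↔ ∀ x y : K, S.φ (fr.pt x y 0 0) = 0 := by
  constructor
  · intro h x y
    exact h.2 _ ((fr.mem_line01 _).mpr ⟨x, y, rfl⟩)
  · exact fr.line01_mem_lines S

/-- the type of the line `line01` -/
theorem hasType_frame [IsAlgClosed K] (h2 : (2 : F) ≠ 0) (S : Surf K) (hS : S.Smooth)
    (fr : Frame F) (C : Cub F) (hC : InFrame S fr C) (hl : fr.line01 K ∈ S.lines) :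
    HasType S (fr.line01 K) (segreDisc C.xxz C.xyz C.yyz C.xxw C.xyw C.yyw) := by
  have hl' := (fr.mem_lines_iff S).mp hl
  obtain ⟨h3, h4, h5, h6⟩ := hC.coeff_line01 h2 hl'
  refine (hasType_of h2 S hS fr _ _ _ _ _ _ hl' ?_).2
  intro x y u0 u1 u2 u3
  rw [hC.D]
  simp only [Cub.dx, Cub.dy, Cub.dz, Cub.dw, Cub.map, h3, h4, h5, h6, map_zero, quad]
  ring

theorem exists_hasType [IsAlgClosed K] (h2 : (2 : F) ≠ 0) (S : Surf K) (hS : S.Smooth)
    (hc : IsCubicF F S) (fr : Frame F) (hl : fr.line01 K ∈ S.lines) :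
    ∃ D : F, HasType S (fr.line01 K) D := by
  obtain ⟨C, hC⟩ := hc fr
  exact ⟨_, hasType_frame h2 S hS fr C hC hl⟩

theorem D_line01 (h2 : (2 : F) ≠ 0) (S : Surf K)
    (fr : Frame F) (C : Cub F) (hC : InFrame S fr C) (hl : fr.line01 K ∈ S.lines)
    (p u : Fin 4 → K) (hp : p ∈ fr.line01 K) (hu : u ∈ fr.line01 K) : S.D p u = 0 := by
  have hl' := (fr.mem_lines_iff S).mp hl
  obtain ⟨h3, h4, h5, h6⟩ := hC.coeff_line01 h2 hl'
  obtain ⟨x, y, rfl⟩ := (fr.mem_line01 _).mp hp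
  obtain ⟨u0, u1, rfl⟩ := (fr.mem_line01 _).mp hu
  rw [hC.D]
  simp only [Cub.dx, Cub.dy, Cub.dz, Cub.dw, Cub.map, h3, h4, h5, h6, map_zero]
  ring

end

end Pool.Agent.H22.Cubic
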