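import Mathlib
import Pool.Agent.H22.Cubic.Trio

open MvPolynomial

namespace Pool.Agent.H22.Cubic

universe u v

section

variable {F : Type u} [Field F] {K : Type v} [Field K] [Algebra F K]

theorem exists_gen_pair (W : Submodule K (Fin 4 → K)) (h : Module.finrank K W = 2) :
    ∃ p q : Fin 4 → K, p ∈ W ∧ q ∈ W ∧ ∀ w ∈ W, ∃ s t : K, w = s • p + t • q := by
  let b := Module.finBasisOfFinrankEq K W h
  refine ⟨b 0, b 1, (b 0).2, (b 1).2, ?_⟩
  intro w hw
  have := b.sum_repr ⟨w, hw⟩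
  rw [Fin.sum_univ_two] at this
  refine ⟨b.repr ⟨w, hw⟩ 0, b.repr ⟨w, hw⟩ 1, ?_⟩
  have h2 := congrArg Subtype.val this
  simpa using h2.symm

/-- the line lies in the plane of the first three vectors -/
def Frame.InPlane (fr : Frame F) (W : Submodule K (Fin 4 → K)) : Prop :=
  ∀ p ∈ W, ∃ x y z : K, p = fr.pt x y z 0

theorem Frame.p02_line (fr : Frame F) : fr.p02.line01 K =
    Submodule.span K {baseVec F fr.e0, baseVec F fr.e2} := by
  ext p
  rw [fr.p02.mem_line01, Submodule.mem_span_pair]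
  constructor
  · rintro ⟨x, y, rfl⟩
    refine ⟨x, y, ?_⟩
    rw [fr.p02_pt]
    simp [Frame.pt, Cubic.pt]
  · rintro ⟨x, y, rfl⟩
    refine ⟨x, y, ?_⟩
    rw [fr.p02_pt]
    simp [Frame.pt, Cubic.pt]

theorem trio_unique [Infinite K] (S : Surf K) (fr : Frame F) (α β γ : K)
    (hφ : ∀ x y z : K, S.φ (fr.pt x y z 0) = y * z * (α * x + β * y + γ * z))
    (W3 : Submodule K (Fin 4 → K)) (h3 : Module.finrank K W3 = 2)
    (hW3 : ∀ x y z : K, α * x + β * y + γ * z = 0 → fr.pt x y z 0 ∈ W3)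
    (W : Submodule K (Fin 4 → K)) (hW : W ∈ S.lines) (hp : fr.InPlane W) :
    W = fr.line01 K ∨ W = fr.p02.line01 K ∨ W = W3 := by
  obtain ⟨p, q, hpW, hqW, hpq⟩ := exists_gen_pair W hW.1
  obtain ⟨x1, y1, z1, rfl⟩ := hp p hpW
  obtain ⟨x2, y2, z2, rfl⟩ := hp q hqW
  by_cases hz : z1 = 0 ∧ z2 = 0
  · left
    obtain ⟨rfl, rfl⟩ := hz
    apply eq_of_le_of_finrank_two _ _ hW.1 fr.finrank_line01
    intro w hw
    obtain ⟨s, t, rfl⟩ := hpq w hw
    apply Submodule.add_mem _ (Submodule.smul_mem _ _ _) (Submodule.smul_mem _ _ _)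
    · exact (fr.mem_line01 _).mpr ⟨_, _, rfl⟩
    · exact (fr.mem_line01 _).mpr ⟨_, _, rfl⟩
  by_cases hy : y1 = 0 ∧ y2 = 0
  · right; left
    obtain ⟨rfl, rfl⟩ := hy
    apply eq_of_le_of_finrank_two _ _ hW.1 fr.p02.finrank_line01
    intro w hw
    obtain ⟨s, t, rfl⟩ := hpq w hw
    apply Submodule.add_mem _ (Submodule.smul_mem _ _ _) (Submodule.smul_mem _ _ _)
    · exact (fr.p02.mem_line01 _).mpr ⟨x1, z1, by rw [fr.p02_pt]⟩
    · exact (fr.p02.mem_line01 _).mpr ⟨x2, z2, by rw [fr.p02_pt]⟩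
  by_cases hl : α * x1 + β * y1 + γ * z1 = 0 ∧ α * x2 + β * y2 + γ * z2 = 0
  · right; right
    obtain ⟨hl1, hl2⟩ := hl
    apply eq_of_le_of_finrank_two _ _ hW.1 h3
    intro w hw
    obtain ⟨s, t, rfl⟩ := hpq w hw
    exact Submodule.add_mem _ (Submodule.smul_mem _ _ (hW3 _ _ _ hl1))
      (Submodule.smul_mem _ _ (hW3 _ _ _ hl2))
  exfalso
  obtain ⟨s, t, hst⟩ := exists_avoid ![z1, y1, α * x1 + β * y1 + γ * z1]
    ![z2, y2, α * x2 + β * y2 + γ * z2] (by
      intro i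
      fin_cases i
      · simp only [Fin.zero_eta, Matrix.cons_val_zero]; tauto
      · simp only [Fin.mk_one, Matrix.cons_val_one, Matrix.cons_val_zero]; tauto
      · simp only [Fin.reduceFinMk, Matrix.cons_val]; tauto)
  have h1 := hst 0
  have h2 := hst 1
  have h4 := hst 2
  simp only [Matrix.cons_val_zero, Matrix.cons_val_one, Matrix.cons_val] at h1 h2 h4
  have h5 := hW.2 _ (Submodule.add_mem _ (Submodule.smul_mem _ s hpW)
    (Submodule.smul_mem _ t hqW))
  rw [fr.smul_pt, fr.smul_pt, fr.add_pt, mul_zero, mul_zero, add_zero, hφ] at h5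
  have h6 : (z1 * s + z2 * t) * (y1 * s + y2 * t) * ((α * x1 + β * y1 + γ * z1) * s +
      (α * x2 + β * y2 + γ * z2) * t) = 0 := by linear_combination h5
  exact mul_ne_zero (mul_ne_zero h1 h2) h4 h6

theorem trio [IsAlgClosed K] (h2 : (2 : F) ≠ 0) (S : Surf K) (hS : S.Smooth) (fr : Frame F)
    (C : Cub F) (hC : InFrame S fr C)
    (h01 : fr.line01 K ∈ S.lines) (h02 : fr.p02.line01 K ∈ S.lines) :
    ∃ fr3 : Frame F, fr3.line01 K ∈ S.lines ∧ fr.InPlane (fr3.line01 K) ∧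
      fr3.line01 K ≠ fr.line01 K ∧ fr3.line01 K ≠ fr.p02.line01 K ∧
      (∀ W ∈ S.lines, fr.InPlane W → W = fr.line01 K ∨ W = fr.p02.line01 K ∨
        W = fr3.line01 K) ∧
      ∃ D1 D2 D3 : F, HasType S (fr.line01 K) D1 ∧ HasType S (fr.p02.line01 K) D2 ∧
        HasType S (fr3.line01 K) D3 ∧ IsSquare (D1 * D2 * D3) := by
  haveI : Infinite K := IsAlgClosed.instInfinite
  have h01' := (fr.mem_lines_iff S).mp h01
  have h02' : ∀ x z : K, S.φ (fr.pt x 0 z 0) = 0 := by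
    intro x z
    have := (fr.p02.mem_lines_iff S).mp h02 x z
    rwa [fr.p02_pt] at this
  obtain ⟨hxxx, hxxy, hxyy, hyyy⟩ := hC.coeff_line01 h2 h01'
  obtain ⟨-, hxxz, hxzz, hzzz⟩ := hC.coeff_line02 h2 h02'
  have hT1 := hasType_frame h2 S hS fr C hC h01
  rw [hxxz] at hT1
  have hT2 : HasType S (fr.p02.line01 K) (segreDisc 0 C.xyz C.yzz C.xxw C.xzw C.zzw) := by
    refine (hasType_of h2 S hS fr.p02 _ _ _ _ _ _ ((fr.p02.mem_lines_iff S).mp h02) ?_).2
    intro x y u0 u1 u2 u3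
    rw [fr.p02_pt, fr.p02_pt, hC.D]
    simp only [Cub.dx, Cub.dy, Cub.dz, Cub.dw, Cub.map, hxxx, hxxy, hxyy, hyyy, hxxz, hxzz, hzzz,
      map_zero, quad]
    ring
  have hφ : ∀ x y z : K, S.φ (fr.pt x y z 0) = y * z * (algebraMap F K C.xyz * x +
      algebraMap F K C.yyz * y + algebraMap F K C.yzz * z) := by
    intro x y z
    rw [hC.φ]
    simp only [Cub.ev, Cub.map, hxxx, hxxy, hxyy, hyyy, hxxz, hxzz, hzzz, map_zero]
    ring
  by_cases hα : C.xyz = 0
  · -- Eckardt point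
    have hβ : C.yyz ≠ 0 := by
      intro h
      apply hT1.ne
      rw [hα, h]
      unfold segreDisc
      ring
    have hγ : C.yzz ≠ 0 := by
      intro h
      apply hT2.ne
      rw [hα, h]
      unfold segreDisc
      ring
    have hM : (!![1, 0, 0, 0; 0, C.yzz, -C.yyz, 0; 0, 1, 0, 0; 0, 0, 0, (1 : F)]).det ≠ 0 := by
      rw [det4]
      simpa using hβ
    set fr3 := fr.trans _ hM with hfr3
    have hpt : ∀ x y z w : K, fr3.pt x y z w = fr.pt x (y * algebraMap F K C.yzz + z)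
        (-(y * algebraMap F K C.yyz)) w := by
      intro x y z w
      rw [hfr3, Frame.trans_pt]
      congr 1 <;> simp
    have h3 := hasType_of h2 S hS fr3 0 0 (-(C.yyz ^ 2 * C.yzz)) C.xxw
      (C.xyw * C.yzz - C.xzw * C.yyz) (C.yyw * C.yzz ^ 2 - C.yzw * C.yzz * C.yyz +
        C.zzw * C.yyz ^ 2) (by
        intro x y
        rw [hpt, hφ, hα, map_zero]
        ring) (by
        intro x y u0 u1 u2 u3
        rw [hpt, hpt, hC.D]
        simp only [Cub.dx, Cub.dy, Cub.dz, Cub.dw, Cub.map, hxxx, hxxy, hxyy, hyyy, hxxz, hxzz,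
          hzzz, hα, map_zero, quad, map_neg, map_mul, map_pow, map_sub, map_add]
        ring)
    refine ⟨fr3, h3.1, ?_, ?_, ?_, ?_, _, _, _, hT1, hT2, h3.2, ?_⟩
    · intro p hp
      obtain ⟨x, y, rfl⟩ := (fr3.mem_line01 _).mp hp
      exact ⟨_, _, _, hpt x y 0 0⟩
    · intro h
      have hmem : fr3.pt (0 : K) 1 0 0 ∈ fr.line01 K := by
        rw [← h]
        exact (fr3.mem_line01 _).mpr ⟨_, _, rfl⟩
      rw [hpt, fr.pt_mem_line01] at hmem
      have := hmem.1
      rw [one_mul, neg_eq_zero] at this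
      exact hβ (algebraMap_eq_zero' this)
    · intro h
      have hmem : fr3.pt (0 : K) 1 0 0 ∈ fr.p02.line01 K := by
        rw [← h]
        exact (fr3.mem_line01 _).mpr ⟨_, _, rfl⟩
      rw [hpt, ← fr.p02_pt, fr.p02.pt_mem_line01] at hmem
      have := hmem.1
      rw [one_mul, add_zero] at this
      exact hγ (algebraMap_eq_zero' this)
    · intro W hW hp
      apply trio_unique S fr _ _ _ hφ _ fr3.finrank_line01 _ W hW hp
      intro x y z hxyz
      rw [fr3.mem_line01]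
      have hβK : algebraMap F K C.yyz ≠ 0 := fun h => hβ (algebraMap_eq_zero' h)
      refine ⟨x, -z / algebraMap F K C.yyz, ?_⟩
      rw [hpt]
      rw [hα, map_zero] at hxyz
      congr 1
      · field_simp
        linear_combination hxyz
      · field_simp
    · refine ⟨C.xxw * C.yyz * (C.xxw * C.yzz) * (C.yyz ^ 2 * C.yzz * C.xxw), ?_⟩
      rw [hα]
      unfold segreDisc
      ring
  · have hM : (!![C.yyz, -C.xyz, 0, 0; C.yzz, 0, -C.xyz, 0; 1, 0, 0, 0; 0, 0, 0, (1 : F)]).det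
        ≠ 0 := by
      rw [det4]
      simpa using hα
    set fr3 := fr.trans _ hM with hfr3
    have hpt : ∀ x y z w : K, fr3.pt x y z w = fr.pt (x * algebraMap F K C.yyz +
        y * algebraMap F K C.yzz + z) (-(x * algebraMap F K C.xyz))
        (-(y * algebraMap F K C.xyz)) w := by
      intro x y z w
      rw [hfr3, Frame.trans_pt]
      congr 1 <;> simp
    have h3 := hasType_of h2 S hS fr3 0 (C.xyz ^ 3) 0
      (C.xxw * C.yyz ^ 2 - C.xyw * C.xyz * C.yyz + C.yyw * C.xyz ^ 2)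
      (2 * C.xxw * C.yyz * C.yzz - C.xyw * C.xyz * C.yzz - C.xzw * C.xyz * C.yyz +
        C.yzw * C.xyz ^ 2)
      (C.xxw * C.yzz ^ 2 - C.xzw * C.xyz * C.yzz + C.zzw * C.xyz ^ 2) (by
        intro x y
        rw [hpt, hφ]
        ring) (by
        intro x y u0 u1 u2 u3
        rw [hpt, hpt, hC.D]
        simp only [Cub.dx, Cub.dy, Cub.dz, Cub.dw, Cub.map, hxxx, hxxy, hxyy, hyyy, hxxz, hxzz,
          hzzz, map_zero, quad, map_neg, map_mul, map_pow, map_sub, map_add, map_ofNat]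
        ring)
    have hαK : algebraMap F K C.xyz ≠ 0 := fun h => hα (algebraMap_eq_zero' h)
    refine ⟨fr3, h3.1, ?_, ?_, ?_, ?_, _, _, _, hT1, hT2, h3.2, ?_⟩
    · intro p hp
      obtain ⟨x, y, rfl⟩ := (fr3.mem_line01 _).mp hp
      exact ⟨_, _, _, hpt x y 0 0⟩
    · intro h
      have hmem : fr3.pt (0 : K) 1 0 0 ∈ fr.line01 K := by
        rw [← h]
        exact (fr3.mem_line01 _).mpr ⟨_, _, rfl⟩
      rw [hpt, fr.pt_mem_line01] at hmem
      have := hmem.1
      rw [one_mul, neg_eq_zero] at this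
      exact hαK this
    · intro h
      have hmem : fr3.pt (1 : K) 0 0 0 ∈ fr.p02.line01 K := by
        rw [← h]
        exact (fr3.mem_line01 _).mpr ⟨_, _, rfl⟩
      rw [hpt, ← fr.p02_pt, fr.p02.pt_mem_line01] at hmem
      have := hmem.1
      rw [one_mul, neg_eq_zero] at this
      exact hαK this
    · intro W hW hp
      apply trio_unique S fr _ _ _ hφ _ fr3.finrank_line01 _ W hW hp
      intro x y z hxyz
      rw [fr3.mem_line01]
      refine ⟨-y / algebraMap F K C.xyz, -z / algebraMap F K C.xyz, ?_⟩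
      rw [hpt]
      congr 1
      · field_simp
        linear_combination hxyz
      · field_simp
      · field_simp
    · refine ⟨C.xyz ^ 3 * C.xxw *
        (C.xxw * C.yyz ^ 2 - C.xyw * C.xyz * C.yyz + C.yyw * C.xyz ^ 2) *
        (C.xxw * C.yzz ^ 2 - C.xzw * C.xyz * C.yzz + C.zzw * C.xyz ^ 2), ?_⟩
      unfold segreDisc
      ring

end

end Pool.Agent.H22.Cubic
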