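import Mathlib
import Pool.Agent.H22.Cubic.Trio2

open MvPolynomial

namespace Pool.Agent.H22.Cubic

universe u v

section

variable {F : Type u} [Field F] {K : Type v} [Field K] [Algebra F K]

theorem baseVec_comb (a b : F) (u v : Fin 4 → F) : (baseVec F (a • u + b • v) : Fin 4 → K) =
    algebraMap F K a • baseVec F u + algebraMap F K b • baseVec F v := by
  ext i
  simp only [baseVec, Pi.add_apply, Pi.smul_apply, smul_eq_mul, map_add, map_mul]

theorem baseVec_eq_zero {u : Fin 4 → F} (h : (baseVec F u : Fin 4 → K) = 0) : u = 0 := by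
  ext i
  exact algebraMap_eq_zero' (K := K) (congrFun h i)

theorem li_of_finrank {u v : Fin 4 → F}
    (h : Module.finrank K (Submodule.span K {baseVec F u, (baseVec F v : Fin 4 → K)}) = 2)
    (s t : K) (hst : s • baseVec F u + t • (baseVec F v : Fin 4 → K) = 0) : s = 0 ∧ t = 0 := by
  have hli : LinearIndependent K ![baseVec F u, (baseVec F v : Fin 4 → K)] := by
    rw [linearIndependent_iff_card_eq_finrank_span, Set.finrank, Matrix.range_cons_cons_empty, h]
    simp
  exact LinearIndependent.pair_iff.mp hli s t hst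

theorem li_of_finrank' {u v : Fin 4 → F}
    (h : Module.finrank K (Submodule.span K {baseVec F u, (baseVec F v : Fin 4 → K)}) = 2)
    (s t : F) (hst : s • u + t • v = 0) : s = 0 ∧ t = 0 := by
  have := li_of_finrank h (algebraMap F K s) (algebraMap F K t) (by
    rw [← baseVec_comb, hst]
    ext i
    simp [baseVec])
  exact ⟨algebraMap_eq_zero' this.1, algebraMap_eq_zero' this.2⟩

/-- frame from linearly independent vectors -/
theorem exists_frame_of_li (v : Fin 4 → Fin 4 → F) (h : LinearIndependent F v) :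
    ∃ fr : Frame F, fr.e0 = v 0 ∧ fr.e1 = v 1 ∧ fr.e2 = v 2 ∧ fr.e3 = v 3 := by
  refine ⟨⟨v 0, v 1, v 2, v 3, ?_⟩, rfl, rfl, rfl, rfl⟩
  have h1 : (Matrix.of ![v 0, v 1, v 2, v 3]) = Matrix.of v := by
    ext i j
    fin_cases i <;> rfl
  rw [h1]
  have h2 : LinearIndependent F (Matrix.of v).row := h
  rw [Matrix.linearIndependent_rows_iff_isUnit, Matrix.isUnit_iff_isUnit_det,
    isUnit_iff_ne_zero] at h2
  exact h2

theorem exists_frame_of_li3 (v : Fin 3 → Fin 4 → F) (h : LinearIndependent F v) :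
    ∃ fr : Frame F, fr.e0 = v 0 ∧ fr.e1 = v 1 ∧ fr.e2 = v 2 := by
  obtain ⟨x, hx⟩ := exists_linearIndependent_snoc_of_lt_finrank h (by simp)
  obtain ⟨fr, h0, h1, h2, h3⟩ := exists_frame_of_li _ hx
  exact ⟨fr, h0, h1, h2⟩

theorem exists_frame_of_li2 (v : Fin 2 → Fin 4 → F) (h : LinearIndependent F v) :
    ∃ fr : Frame F, fr.e0 = v 0 ∧ fr.e1 = v 1 := by
  obtain ⟨x, hx⟩ := exists_linearIndependent_snoc_of_lt_finrank h (by simp)
  obtain ⟨fr, h0, h1, h2⟩ := exists_frame_of_li3 _ hx
  exact ⟨fr, h0, h1⟩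

theorem line_frame (W : Submodule K (Fin 4 → K)) (hW : IsRationalLine F W)
    (hf : Module.finrank K W = 2) : ∃ fr : Frame F, fr.line01 K = W := by
  obtain ⟨u, v, rfl⟩ := hW
  obtain ⟨fr, h0, h1⟩ := exists_frame_of_li2 ![u, v] (by
    rw [LinearIndependent.pair_iff]
    exact fun s t hst => li_of_finrank' hf s t hst)
  refine ⟨fr, ?_⟩
  unfold Frame.line01
  rw [h0, h1]
  rfl

theorem Frame.p23_line (fr : Frame F) : fr.p23.line01 K =
    Submodule.span K {baseVec F fr.e2, baseVec F fr.e3} := by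
  ext p
  rw [fr.p23.mem_line01, Submodule.mem_span_pair]
  constructor
  · rintro ⟨x, y, rfl⟩
    refine ⟨x, y, ?_⟩
    rw [fr.p23_pt]
    simp [Frame.pt, Cubic.pt]
  · rintro ⟨x, y, rfl⟩
    refine ⟨x, y, ?_⟩
    rw [fr.p23_pt]
    simp [Frame.pt, Cubic.pt]

/-- replace one of the generators -/
theorem exists_second_gen {u v e : Fin 4 → F}
    (h : Module.finrank K (Submodule.span K {baseVec F u, (baseVec F v : Fin 4 → K)}) = 2)
    (a b : F) (he : e = a • u + b • v) (he0 : e ≠ 0) : ∃ e' : Fin 4 → F,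
      Submodule.span K {baseVec F e, (baseVec F e' : Fin 4 → K)} =
      Submodule.span K {baseVec F u, (baseVec F v : Fin 4 → K)} := by
  have hle : ∀ e', baseVec F e' ∈ Submodule.span K {baseVec F u, (baseVec F v : Fin 4 → K)} →
      Submodule.span K {baseVec F e, (baseVec F e' : Fin 4 → K)} ≤
      Submodule.span K {baseVec F u, (baseVec F v : Fin 4 → K)} := by
    intro e' he'
    rw [Submodule.span_le, Set.insert_subset_iff, Set.singleton_subset_iff]
    refine ⟨?_, he'⟩
    rw [he, baseVec_comb]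
    exact Submodule.mem_span_pair.mpr ⟨_, _, rfl⟩
  have hu : baseVec F u ∈ Submodule.span K {baseVec F u, (baseVec F v : Fin 4 → K)} :=
    Submodule.subset_span (by simp)
  have hv : baseVec F v ∈ Submodule.span K {baseVec F u, (baseVec F v : Fin 4 → K)} :=
    Submodule.subset_span (by simp)
  have hab : a ≠ 0 ∨ b ≠ 0 := by
    by_contra hcon
    push Not at hcon
    apply he0
    rw [he, hcon.1, hcon.2]
    simp
  have hfin : ∀ e', (∀ s t : K, s • baseVec F e + t • (baseVec F e' : Fin 4 → K) = 0 →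
      s = 0 ∧ t = 0) →
      Module.finrank K (Submodule.span K {baseVec F e, (baseVec F e' : Fin 4 → K)}) = 2 := by
    intro e' he'
    have hli : LinearIndependent K ![baseVec F e, (baseVec F e' : Fin 4 → K)] :=
      LinearIndependent.pair_iff.mpr he'
    have := finrank_span_eq_card hli
    rw [Matrix.range_cons_cons_empty, Fintype.card_fin] at this
    exact this
  rcases hab with ha | hb
  · refine ⟨v, eq_of_le_of_finrank_two _ _ (hfin v ?_) h (hle v hv)⟩
    intro s t hst
    have haK : algebraMap F K a ≠ 0 := fun h => ha (algebraMap_eq_zero' h)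
    have h1 : (s * algebraMap F K a) • baseVec F u +
        (s * algebraMap F K b + t) • (baseVec F v : Fin 4 → K) = 0 := by
      rw [← hst, he, baseVec_comb, smul_add, smul_smul, smul_smul, add_smul]
      abel
    obtain ⟨h2, h3⟩ := li_of_finrank h _ _ h1
    have hs : s = 0 := (mul_eq_zero.mp h2).resolve_right haK
    refine ⟨hs, ?_⟩
    rw [hs, zero_mul, zero_add] at h3
    exact h3
  · refine ⟨u, eq_of_le_of_finrank_two _ _ (hfin u ?_) h (hle u hu)⟩
    intro s t hst
    have hbK : algebraMap F K b ≠ 0 := fun h => hb (algebraMap_eq_zero' h)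
    have h1 : (s * algebraMap F K a + t) • baseVec F u +
        (s * algebraMap F K b) • (baseVec F v : Fin 4 → K) = 0 := by
      rw [← hst, he, baseVec_comb, smul_add, smul_smul, smul_smul, add_smul]
      abel
    obtain ⟨h2, h3⟩ := li_of_finrank h _ _ h1
    have hs : s = 0 := (mul_eq_zero.mp h3).resolve_right hbK
    refine ⟨hs, ?_⟩
    rw [hs, zero_mul, zero_add] at h2
    exact h2

theorem pair_frame (W1 W2 : Submodule K (Fin 4 → K)) (h1 : IsRationalLine F W1)
    (h2 : IsRationalLine F W2) (hf1 : Module.finrank K W1 = 2) (hf2 : Module.finrank K W2 = 2)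
    (hne : W1 ≠ W2) :
    (∃ fr : Frame F, fr.line01 K = W1 ∧ fr.p23.line01 K = W2) ∨
    (∃ fr : Frame F, fr.line01 K = W1 ∧ fr.p02.line01 K = W2) := by
  obtain ⟨u1, v1, rfl⟩ := h1
  obtain ⟨u2, v2, rfl⟩ := h2
  by_cases hdet : (Matrix.of ![u1, v1, u2, v2]).det = 0
  · right
    obtain ⟨c, hc0, hc⟩ := Matrix.exists_vecMul_eq_zero_iff.mpr hdet
    set e : Fin 4 → F := c 0 • u1 + c 1 • v1 with he
    have hrel : c 0 • u1 + c 1 • v1 + (c 2 • u2 + c 3 • v2) = 0 := by
      ext i
      have := congrFun hc i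
      simp only [Matrix.vecMul, dotProduct, Fin.sum_univ_four, Matrix.of_apply,
        Matrix.cons_val] at this
      simp only [Pi.add_apply, Pi.smul_apply, smul_eq_mul, Pi.zero_apply] at this ⊢
      linear_combination this
    have he' : e = (-c 2) • u2 + (-c 3) • v2 := by
      rw [he, eq_neg_of_add_eq_zero_left hrel]
      simp only [neg_smul, neg_add]
    have he0 : e ≠ 0 := by
      intro h0
      apply hc0
      rw [he] at h0
      obtain ⟨h3, h4⟩ := li_of_finrank' hf1 _ _ h0
      rw [← he, he'] at h0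
      obtain ⟨h5, h6⟩ := li_of_finrank' hf2 _ _ h0
      ext i
      fin_cases i
      · exact h3
      · exact h4
      · exact neg_eq_zero.mp h5
      · exact neg_eq_zero.mp h6
    obtain ⟨e1, he1⟩ := exists_second_gen hf1 _ _ he he0
    obtain ⟨e2, he2⟩ := exists_second_gen hf2 _ _ he' he0
    rw [← he1] at hf1 hne ⊢
    rw [← he2] at hf2 hne ⊢
    have hli : LinearIndependent F ![e, e1, e2] := by
      rw [Fintype.linearIndependent_iff]
      intro g hg
      rw [Fin.sum_univ_three] at hg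
      simp only [Matrix.cons_val_zero, Matrix.cons_val_one, Matrix.cons_val] at hg
      have hg2 : g 2 = 0 := by
        by_contra hg2
        apply hne
        symm
        apply eq_of_le_of_finrank_two _ _ hf2 hf1
        rw [Submodule.span_le, Set.insert_subset_iff, Set.singleton_subset_iff]
        refine ⟨Submodule.subset_span (by simp), ?_⟩
        have h3 : e2 = (-(g 0 / g 2)) • e + (-(g 1 / g 2)) • e1 := by
          ext i
          have := congrFun hg i
          simp only [Pi.add_apply, Pi.smul_apply, smul_eq_mul, Pi.zero_apply] at this ⊢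
          field_simp
          linear_combination this
        have h4 := baseVec_comb (K := K) (-(g 0 / g 2)) (-(g 1 / g 2)) e e1
        rw [h3, h4]
        exact Submodule.mem_span_pair.mpr ⟨_, _, rfl⟩
      rw [hg2, zero_smul, add_zero] at hg
      obtain ⟨h3, h4⟩ := li_of_finrank' hf1 _ _ hg
      intro i
      fin_cases i
      · exact h3
      · exact h4
      · exact hg2
    obtain ⟨fr, h3, h4, h5⟩ := exists_frame_of_li3 _ hli
    refine ⟨fr, ?_, ?_⟩
    · unfold Frame.line01
      rw [h3, h4]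
      rfl
    · rw [fr.p02_line, h3, h5]
      rfl
  · left
    refine ⟨⟨u1, v1, u2, v2, hdet⟩, rfl, ?_⟩
    rw [Frame.p23_line]

theorem Frame.line01_inf_p23 (fr : Frame F) (p : Fin 4 → K) (h1 : p ∈ fr.line01 K)
    (h2 : p ∈ fr.p23.line01 K) : p = 0 := by
  obtain ⟨x, y, rfl⟩ := (fr.mem_line01 _).mp h1
  obtain ⟨z, w, h⟩ := (fr.p23.mem_line01 _).mp h2
  rw [fr.p23_pt] at h
  obtain ⟨rfl, rfl, -, -⟩ := fr.pt_inj h
  exact fr.pt_zero

theorem pair_frame_skew (W1 W2 : Submodule K (Fin 4 → K)) (h1 : IsRationalLine F W1)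
    (h2 : IsRationalLine F W2) (hf1 : Module.finrank K W1 = 2) (hf2 : Module.finrank K W2 = 2)
    (hsk : ∀ p ∈ W1, p ∈ W2 → p = 0) :
    ∃ fr : Frame F, fr.line01 K = W1 ∧ fr.p23.line01 K = W2 := by
  have hex : ∀ fr : Frame F, fr.line01 K = W1 → fr.p02.line01 K = W2 → False := by
    intro fr h3 h4
    have := hsk (fr.pt 1 0 0 0) (by rw [← h3]; exact (fr.mem_line01 _).mpr ⟨_, _, rfl⟩)
      (by rw [← h4]; exact (fr.p02.mem_line01 _).mpr ⟨1, 0, by rw [fr.p02_pt]⟩)
    exact fr.pt_ne_zero (Or.inl one_ne_zero) this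
  have hne : W1 ≠ W2 := by
    rintro rfl
    obtain ⟨fr, hfr⟩ := line_frame W1 h1 hf1
    have hm : fr.pt (1 : K) 0 0 0 ∈ W1 := by
      rw [← hfr]; exact (fr.mem_line01 _).mpr ⟨_, _, rfl⟩
    exact fr.pt_ne_zero (Or.inl one_ne_zero) (hsk _ hm hm)
  rcases pair_frame W1 W2 h1 h2 hf1 hf2 hne with h | ⟨fr, h3, h4⟩
  · exact h
  · exact (hex fr h3 h4).elim

theorem pair_frame_meet (W1 W2 : Submodule K (Fin 4 → K)) (h1 : IsRationalLine F W1)
    (h2 : IsRationalLine F W2) (hf1 : Module.finrank K W1 = 2) (hf2 : Module.finrank K W2 = 2)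
    (hne : W1 ≠ W2) (hm : ∃ p ∈ W1, p ∈ W2 ∧ p ≠ 0) :
    ∃ fr : Frame F, fr.line01 K = W1 ∧ fr.p02.line01 K = W2 := by
  rcases pair_frame W1 W2 h1 h2 hf1 hf2 hne with ⟨fr, h3, h4⟩ | h
  · obtain ⟨p, hp1, hp2, hp0⟩ := hm
    exact (hp0 (fr.line01_inf_p23 p (by rw [h3]; exact hp1) (by rw [h4]; exact hp2))).elim
  · exact h

end

end Pool.Agent.H22.Cubic
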