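import Mathlib
import Pool.Agent.H22.Cubic.Pairs

open MvPolynomial

namespace Pool.Agent.H22.Cubic

universe u v

section

variable {F : Type u} [Field F] {K : Type v} [Field K] [Algebra F K]

theorem mem_comb_of_two (W : Submodule K (Fin 4 → K)) (hf : Module.finrank K W = 2)
    (p q : Fin 4 → K) (hp : p ∈ W) (hq : q ∈ W)
    (hli : ∀ s t : K, s • p + t • q = 0 → s = 0 ∧ t = 0) (w : Fin 4 → K) (hw : w ∈ W) :
    ∃ s t : K, w = s • p + t • q := by
  have hli' : LinearIndependent K ![p, q] := LinearIndependent.pair_iff.mpr hli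
  have h2 := finrank_span_eq_card hli'
  rw [Matrix.range_cons_cons_empty, Fintype.card_fin] at h2
  have h3 : Submodule.span K {p, q} = W := by
    apply eq_of_le_of_finrank_two _ _ h2 hf
    rw [Submodule.span_le, Set.insert_subset_iff, Set.singleton_subset_iff]
    exact ⟨hp, hq⟩
  rw [← h3] at hw
  obtain ⟨s, t, hst⟩ := Submodule.mem_span_pair.mp hw
  exact ⟨s, t, hst.symm⟩

theorem D_line (h2 : (2 : F) ≠ 0) (S : Surf K) (hc : IsCubicF F S)
    (W : Submodule K (Fin 4 → K)) (hW : W ∈ S.lines) (hr : IsRationalLine F W)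
    (p u : Fin 4 → K) (hp : p ∈ W) (hu : u ∈ W) : S.D p u = 0 := by
  obtain ⟨fr, rfl⟩ := line_frame W hr hW.1
  obtain ⟨C, hC⟩ := hc fr
  exact D_line01 h2 S fr C hC hW p u hp hu

/-- A line not in the plane of two meeting lines is skew to one of them. -/
theorem skew_of_not_inPlane (h2 : (2 : F) ≠ 0) (S : Surf K) (hS : S.Smooth)
    (hc : IsCubicF F S) (fr : Frame F) (h01 : fr.line01 K ∈ S.lines)
    (h02 : fr.p02.line01 K ∈ S.lines) (W : Submodule K (Fin 4 → K)) (hW : W ∈ S.lines)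
    (hr : IsRationalLine F W) (hn : ¬ fr.InPlane W) :
    (∀ p ∈ fr.line01 K, p ∈ W → p = 0) ∨ (∀ p ∈ fr.p02.line01 K, p ∈ W → p = 0) := by
  by_contra hcon
  push Not at hcon
  obtain ⟨⟨p1, hp1, hp1W, hp10⟩, ⟨p2, hp2, hp2W, hp20⟩⟩ := hcon
  obtain ⟨x1, y1, rfl⟩ := (fr.mem_line01 _).mp hp1
  obtain ⟨x2, z2, rfl⟩ := (fr.p02.mem_line01 _).mp hp2
  rw [fr.p02_pt] at hp20 hp2W hp2
  by_cases hyz : y1 = 0 ∧ z2 = 0
  · obtain ⟨rfl, rfl⟩ := hyz
    have hx1 : x1 ≠ 0 := by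
      rintro rfl
      exact hp10 fr.pt_zero
    have he0 : fr.pt 1 0 0 0 ∈ W := by
      have := W.smul_mem x1⁻¹ hp1W
      rw [fr.smul_pt, inv_mul_cancel₀ hx1, mul_zero] at this
      exact this
    unfold Frame.InPlane at hn
    push Not at hn
    obtain ⟨p, hpW, hp⟩ := hn
    obtain ⟨x, y, z, w, rfl⟩ := fr.exists_pt p
    have hw : w ≠ 0 := by
      rintro rfl
      exact hp x y z rfl
    obtain ⟨C, hC⟩ := hc fr
    have e0 := D_line01 h2 S fr C hC h01 (fr.pt 1 0 0 0) (fr.pt 1 0 0 0)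
      ((fr.mem_line01 _).mpr ⟨_, _, rfl⟩) ((fr.mem_line01 _).mpr ⟨_, _, rfl⟩)
    have e1 := D_line01 h2 S fr C hC h01 (fr.pt 1 0 0 0) (fr.pt 0 1 0 0)
      ((fr.mem_line01 _).mpr ⟨_, _, rfl⟩) ((fr.mem_line01 _).mpr ⟨_, _, rfl⟩)
    have e2 := D_line h2 S hc _ h02 (fr.p02.line01_rational) (fr.pt 1 0 0 0) (fr.pt 0 0 1 0)
      ((fr.p02.mem_line01 _).mpr ⟨1, 0, by rw [fr.p02_pt]⟩)
      ((fr.p02.mem_line01 _).mpr ⟨0, 1, by rw [fr.p02_pt]⟩)
    have e3 := D_line h2 S hc W hW hr (fr.pt 1 0 0 0) (fr.pt x y z w) he0 hpW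
    rw [hC.D] at e0 e1 e2 e3
    simp only [mul_one, mul_zero, add_zero, zero_add] at e0 e1 e2 e3
    rw [e0, e1, e2, zero_mul, zero_mul, zero_mul, zero_add, zero_add, zero_add] at e3
    have e4 := (mul_eq_zero.mp e3).resolve_right hw
    obtain ⟨u, hu⟩ := hS (fr.pt 1 0 0 0) (fr.pt_ne_zero (Or.inl one_ne_zero)) (hW.2 _ he0)
    obtain ⟨u0, u1, u2, u3, rfl⟩ := fr.exists_pt u
    apply hu
    rw [hC.D, e0, e1, e2, e4]
    ring
  · apply hn
    intro p hp
    obtain ⟨s, t, rfl⟩ := mem_comb_of_two W hW.1 _ _ hp1W hp2W (by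
      intro s t hst
      rw [fr.smul_pt, fr.smul_pt, fr.add_pt, ← fr.pt_zero] at hst
      obtain ⟨h3, h4, h5, -⟩ := fr.pt_inj hst
      simp only [mul_zero, add_zero, zero_add, mul_eq_zero] at h4 h5
      have hp10' : x1 ≠ 0 ∨ y1 ≠ 0 := by
        by_contra hcon
        push Not at hcon
        rw [hcon.1, hcon.2] at hp10
        exact hp10 fr.pt_zero
      have hp20' : x2 ≠ 0 ∨ z2 ≠ 0 := by
        by_contra hcon
        push Not at hcon
        rw [hcon.1, hcon.2] at hp20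
        exact hp20 fr.pt_zero
      have hyz' : y1 ≠ 0 ∨ z2 ≠ 0 := by tauto
      rcases hyz' with hy | hz
      · have hs : s = 0 := h4.resolve_right hy
        refine ⟨hs, ?_⟩
        rcases hp20' with hx | hz
        · rw [hs, zero_mul, zero_add] at h3
          exact (mul_eq_zero.mp h3).resolve_right hx
        · exact h5.resolve_right hz
      · have ht : t = 0 := h5.resolve_right hz
        refine ⟨?_, ht⟩
        rcases hp10' with hx | hy
        · rw [ht, zero_mul, add_zero] at h3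
          exact (mul_eq_zero.mp h3).resolve_right hx
        · exact h4.resolve_right hy) p hp
    rw [fr.smul_pt, fr.smul_pt, fr.add_pt]
    refine ⟨s * x1 + t * x2, s * y1 + t * 0, s * 0 + t * z2, ?_⟩
    congr 1
    ring

theorem exists_skew [IsAlgClosed K] (h2 : (2 : F) ≠ 0) (S : Surf K) (hS : S.Smooth)
    (hc : IsCubicF F S) (hrat : ∀ W ∈ S.lines, IsRationalLine F W)
    (hcard : S.lines.ncard = 27) :
    ∃ fr : Frame F, fr.line01 K ∈ S.lines ∧ fr.p23.line01 K ∈ S.lines := by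
  have hfin : S.lines.Finite := Set.finite_of_ncard_ne_zero (by rw [hcard]; norm_num)
  obtain ⟨W1, hW1, W2, hW2, hne⟩ := (Set.one_lt_ncard hfin).mp (by rw [hcard]; norm_num)
  rcases pair_frame W1 W2 (hrat _ hW1) (hrat _ hW2) hW1.1 hW2.1 hne with
    ⟨fr, rfl, rfl⟩ | ⟨fr, rfl, rfl⟩
  · exact ⟨fr, hW1, hW2⟩
  obtain ⟨C, hC⟩ := hc fr
  obtain ⟨fr3, h3, hp3, -, -, huniq, -⟩ := trio h2 S hS fr C hC hW1 hW2
  obtain ⟨W, hW, hWn⟩ : ∃ W ∈ S.lines, ¬ fr.InPlane W := by
    by_contra hcon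
    push Not at hcon
    have hsub : S.lines ⊆ {fr.line01 K, fr.p02.line01 K, fr3.line01 K} := by
      intro W hW
      rcases huniq W hW (hcon W hW) with h | h | h
      · simp [h]
      · simp [h]
      · simp [h]
    have h4 := Set.ncard_le_ncard hsub (by simp)
    have h5 : ({fr.line01 K, fr.p02.line01 K, fr3.line01 K} :
        Set (Submodule K (Fin 4 → K))).ncard ≤ 3 := by
      refine (Set.ncard_insert_le _ _).trans ?_
      have := Set.ncard_insert_le (fr.p02.line01 K) {fr3.line01 K}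
      rw [Set.ncard_singleton] at this
      omega
    omega
  rcases skew_of_not_inPlane h2 S hS hc fr hW1 hW2 W hW (hrat W hW) hWn with h | h
  · obtain ⟨fr', h4, h5⟩ := pair_frame_skew _ _ fr.line01_rational (hrat W hW)
      fr.finrank_line01 hW.1 h
    exact ⟨fr', by rw [h4]; exact hW1, by rw [h5]; exact hW⟩
  · obtain ⟨fr', h4, h5⟩ := pair_frame_skew _ _ fr.p02.line01_rational (hrat W hW)
      fr.p02.finrank_line01 hW.1 h
    exact ⟨fr', by rw [h4]; exact hW2, by rw [h5]; exact hW⟩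

end

end Pool.Agent.H22.Cubic
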