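import Mathlib
import Pool.Agent.H22.Cubic.Skew

open MvPolynomial

namespace Pool.Agent.H22.Cubic

universe u v

/-- the normal form -/
def cubG {R : Type*} [CommRing R] (g0 g1 g2 g3 g4 g5 : R) : Cub R where
  xxx := 0
  xxy := 0
  xxz := 2 * g0
  xxw := -(2 * g1)
  xyy := 0
  xyz := 2 * g2
  xyw := -(2 * g3)
  xzz := 0
  xzw := 0
  xww := -1
  yyy := 0
  yyz := 2 * g4
  yyw := -(2 * g5)
  yzz := 1
  yzw := 0
  yww := 0
  zzz := 0
  zzw := 0
  zww := 0
  www := 0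

section

variable {F : Type u} [Field F] {K : Type v} [Field K] [Algebra F K]

theorem quad_ext {a0 a1 a2 b0 b1 b2 : F} (h : ∀ x y : K,
    quad (algebraMap F K a0) (algebraMap F K a1) (algebraMap F K a2) x y =
    quad (algebraMap F K b0) (algebraMap F K b1) (algebraMap F K b2) x y) :
    a0 = b0 ∧ a1 = b1 ∧ a2 = b2 := by
  have h10 := h 1 0
  have h01 := h 0 1
  have h11 := h 1 1
  unfold quad at h10 h01 h11
  have e0 : algebraMap F K a0 = algebraMap F K b0 := by linear_combination h10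
  have e2 : algebraMap F K a2 = algebraMap F K b2 := by linear_combination h01
  have e1 : algebraMap F K a1 = algebraMap F K b1 := by linear_combination h11 - e0 - e2
  exact ⟨(algebraMap F K).injective e0, (algebraMap F K).injective e1,
    (algebraMap F K).injective e2⟩

theorem InFrame.Dx {S : Surf K} {fr : Frame F} {C : Cub F} (hC : InFrame S fr C) (a b : F)
    (z w : K) : S.D (fr.pt 0 0 z w) (fr.pt (algebraMap F K a) (algebraMap F K b) 0 0) =
    quad (algebraMap F K (a * C.xzz + b * C.yzz)) (algebraMap F K (a * C.xzw + b * C.yzw))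
      (algebraMap F K (a * C.xww + b * C.yww)) z w := by
  rw [hC.D]
  simp only [Cub.dx, Cub.dy, Cub.dz, Cub.dw, Cub.map, quad, map_add, map_mul]
  ring

theorem exists_roots (h2 : (2 : F) ≠ 0) (m0 m1 m2 δ : F) (h : m1 ^ 2 - m0 * m2 = δ ^ 2)
    (hδ : δ ≠ 0) : ∃ c1 d1 c2 d2 : F, c1 * d2 - c2 * d1 ≠ 0 ∧
      m0 * c1 ^ 2 + 2 * m1 * c1 * d1 + m2 * d1 ^ 2 = 0 ∧
      m0 * c2 ^ 2 + 2 * m1 * c2 * d2 + m2 * d2 ^ 2 = 0 := by
  by_cases h0 : m0 = 0
  · subst h0
    have hm1 : m1 ≠ 0 := by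
      rintro rfl
      apply hδ
      have : δ ^ 2 = 0 := by rw [← h]; ring
      exact pow_eq_zero_iff two_ne_zero |>.mp this
    refine ⟨1, 0, -m2, 2 * m1, ?_, by ring, by ring⟩
    rw [mul_zero, sub_zero, one_mul]
    exact mul_ne_zero h2 hm1
  · refine ⟨-m1 + δ, m0, -m1 - δ, m0, ?_, ?_, ?_⟩
    · have : (-m1 + δ) * m0 - (-m1 - δ) * m0 = 2 * (δ * m0) := by ring
      rw [this]
      exact mul_ne_zero h2 (mul_ne_zero hδ h0)
    · linear_combination -m0 * h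
    · linear_combination -m0 * h

theorem normal_step1 [IsAlgClosed K] (h2 : (2 : F) ≠ 0) (S : Surf K) (hS : S.Smooth)
    (hc : IsCubicF F S) (fr : Frame F)
    (h23 : fr.p23.line01 K ∈ S.lines) (hh : S.Hyp F (fr.p23.line01 K)) :
    ∃ fr' : Frame F, (∀ x y : K, fr'.pt x y 0 0 = fr.pt x y 0 0) ∧
      fr'.p23.line01 K = fr.p23.line01 K ∧ ∃ C : Cub F, InFrame S fr' C ∧ C.xzw = 0 ∧
      C.yzw = 0 ∧ C.xzz * C.yww - C.xww * C.yzz ≠ 0 := by
  obtain ⟨C, hC⟩ := hc fr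
  have h23' := (fr.p23.mem_lines_iff S).mp h23
  have h23'' : ∀ z w : K, S.φ (fr.pt 0 0 z w) = 0 := by
    intro z w
    have := h23' z w
    rwa [fr.p23_pt] at this
  obtain ⟨hz, hzz, hww, hw⟩ := hC.coeff_line23 h2 h23''
  have hT := (hasType_of h2 S hS fr.p23 C.xzz C.xzw C.xww C.yzz C.yzw C.yww h23' (by
    intro x y u0 u1 u2 u3
    rw [fr.p23_pt, fr.p23_pt, hC.D]
    simp only [Cub.dx, Cub.dy, Cub.dz, Cub.dw, Cub.map, hz, hzz, hww, hw, map_zero, quad]
    ring)).2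
  obtain ⟨δ, hδ⟩ := hT.hyp.mp hh
  have hδ0 : δ ≠ 0 := by
    rintro rfl
    exact hT.ne (by rw [hδ]; ring)
  obtain ⟨c1, d1, c2, d2, hdet, hr1, hr2⟩ := exists_roots h2 (C.xzz * C.yzw - C.xzw * C.yzz)
    (C.xzz * C.yww - C.xww * C.yzz) (C.xzw * C.yww - C.xww * C.yzw) δ (by
      unfold segreDisc at hδ
      linear_combination hδ) hδ0
  have hM : (!![1, 0, 0, 0; 0, 1, 0, 0; 0, 0, c1, d1; 0, 0, c2, d2]).det ≠ 0 := by
    rw [det4]
    intro h
    apply hdet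
    linear_combination h
  set fr' := fr.trans _ hM with hfr'
  have hpt : ∀ x y z w : K, fr'.pt x y z w = fr.pt x y
      (z * algebraMap F K c1 + w * algebraMap F K c2)
      (z * algebraMap F K d1 + w * algebraMap F K d2) := by
    intro x y z w
    rw [hfr', Frame.trans_pt]
    congr 1 <;> simp
  obtain ⟨C', hC'⟩ := hc fr'
  have hA := quad_ext (K := K) (a0 := C'.xzz) (a1 := C'.xzw) (a2 := C'.xww)
    (b0 := C.xzz * c1 ^ 2 + C.xzw * (c1 * d1) + C.xww * d1 ^ 2)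
    (b1 := 2 * C.xzz * c1 * c2 + C.xzw * (c1 * d2 + c2 * d1) + 2 * C.xww * d1 * d2)
    (b2 := C.xzz * c2 ^ 2 + C.xzw * (c2 * d2) + C.xww * d2 ^ 2) (by
      intro z w
      have e1 := hC'.Dx 1 0 z w
      rw [hpt, hpt] at e1
      simp only [zero_mul, add_zero] at e1
      rw [hC.Dx] at e1
      simp only [one_mul, zero_mul, add_zero] at e1
      rw [← e1]
      simp only [quad, map_add, map_mul, map_pow, map_ofNat]
      ring)
  have hB := quad_ext (K := K) (a0 := C'.yzz) (a1 := C'.yzw) (a2 := C'.yww)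
    (b0 := C.yzz * c1 ^ 2 + C.yzw * (c1 * d1) + C.yww * d1 ^ 2)
    (b1 := 2 * C.yzz * c1 * c2 + C.yzw * (c1 * d2 + c2 * d1) + 2 * C.yww * d1 * d2)
    (b2 := C.yzz * c2 ^ 2 + C.yzw * (c2 * d2) + C.yww * d2 ^ 2) (by
      intro z w
      have e1 := hC'.Dx 0 1 z w
      rw [hpt, hpt] at e1
      simp only [zero_mul, add_zero] at e1
      rw [hC.Dx] at e1
      simp only [one_mul, zero_mul, zero_add] at e1
      rw [← e1]
      simp only [quad, map_add, map_mul, map_pow, map_ofNat]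
      ring)
  obtain ⟨hA0, hA1, hA2⟩ := hA
  obtain ⟨hB0, hB1, hB2⟩ := hB
  have k1 : C'.xzz * C'.yzw - C'.xzw * C'.yzz = 0 := by
    rw [hA0, hA1, hB0, hB1]
    linear_combination (c1 * d2 - c2 * d1) * hr1
  have k2 : C'.xzw * C'.yww - C'.xww * C'.yzw = 0 := by
    rw [hA2, hA1, hB2, hB1]
    linear_combination (c1 * d2 - c2 * d1) * hr2
  have k3 : (C'.xzz * C'.yww - C'.xww * C'.yzz) ^ 2 =
      ((c1 * d2 - c2 * d1) ^ 2 * δ) ^ 2 := by
    have e1 : (C'.xzz * C'.yww - C'.xww * C'.yzz) ^ 2 -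
        (C'.xzz * C'.yzw - C'.xzw * C'.yzz) * (C'.xzw * C'.yww - C'.xww * C'.yzw) =
        (c1 * d2 - c2 * d1) ^ 4 * segreDisc C.xzz C.xzw C.xww C.yzz C.yzw C.yww := by
      rw [hA0, hA1, hA2, hB0, hB1, hB2]
      unfold segreDisc
      ring
    rw [k1, zero_mul, sub_zero, hδ] at e1
    rw [e1]
    ring
  have k4 : C'.xzz * C'.yww - C'.xww * C'.yzz ≠ 0 := by
    intro h
    rw [h] at k3
    have := pow_ne_zero 2 (mul_ne_zero (pow_ne_zero 2 hdet) hδ0)
    apply this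
    rw [← k3]
    ring
  refine ⟨fr', ?_, ?_, C', hC', ?_, ?_, k4⟩
  · intro x y
    rw [hpt]
    simp
  · apply eq_of_le_of_finrank_two _ _ fr'.p23.finrank_line01 fr.p23.finrank_line01
    intro p hp
    obtain ⟨x, y, rfl⟩ := (fr'.p23.mem_line01 _).mp hp
    rw [fr'.p23_pt, hpt, ← fr.p23_pt]
    exact (fr.p23.mem_line01 _).mpr ⟨_, _, rfl⟩
  · have : C'.xzw * (C'.xzz * C'.yww - C'.xww * C'.yzz) = 0 := by
      linear_combination C'.xzz * k2 + C'.xww * k1
    exact (mul_eq_zero.mp this).resolve_right k4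
  · have : C'.yzw * (C'.xzz * C'.yww - C'.xww * C'.yzz) = 0 := by
      linear_combination C'.yww * k1 + C'.yzz * k2
    exact (mul_eq_zero.mp this).resolve_right k4

theorem normal_form [IsAlgClosed K] (h2 : (2 : F) ≠ 0) (S : Surf K) (hS : S.Smooth)
    (hc : IsCubicF F S) (fr : Frame F) (h01 : fr.line01 K ∈ S.lines)
    (h23 : fr.p23.line01 K ∈ S.lines) (hh : S.Hyp F (fr.p23.line01 K)) :
    ∃ fr' : Frame F, fr'.line01 K = fr.line01 K ∧
      fr'.p23.line01 K = fr.p23.line01 K ∧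
      ∃ g0 g1 g2 g3 g4 g5 : F, InFrame S fr' (cubG g0 g1 g2 g3 g4 g5) := by
  obtain ⟨fr1, h1, h3, C, hC, hx, hy, hd⟩ := normal_step1 h2 S hS hc fr h23 hh
  set Δ := C.xzz * C.yww - C.xww * C.yzz with hΔ
  have hM : (!![C.yzz / Δ, -C.xzz / Δ, 0, 0; C.yww / Δ, -C.xww / Δ, 0, 0; 0, 0, 1, 0;
      0, 0, 0, (1 : F)]).det ≠ 0 := by
    rw [det4]
    intro h
    have h4 : Δ * (1 / Δ ^ 2) = 0 := by
      rw [← h]
      field_simp
      rw [hΔ]
      ring
    rw [mul_eq_zero] at h4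
    rcases h4 with h4 | h4
    · exact hd h4
    · exact one_div_ne_zero (pow_ne_zero 2 hd) h4
  set fr' := fr1.trans _ hM with hfr'
  have hpt : ∀ x y z w : K, fr'.pt x y z w = fr1.pt
      (x * algebraMap F K (C.yzz / Δ) + y * algebraMap F K (C.yww / Δ))
      (x * algebraMap F K (-C.xzz / Δ) + y * algebraMap F K (-C.xww / Δ)) z w := by
    intro x y z w
    rw [hfr', Frame.trans_pt]
    congr 1 <;> simp
  obtain ⟨C', hC'⟩ := hc fr'
  have hl01 : fr'.line01 K = fr.line01 K := by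
    apply eq_of_le_of_finrank_two _ _ fr'.finrank_line01 fr.finrank_line01
    intro p hp
    obtain ⟨x, y, rfl⟩ := (fr'.mem_line01 _).mp hp
    rw [hpt, h1]
    exact (fr.mem_line01 _).mpr ⟨_, _, rfl⟩
  have hl23 : fr'.p23.line01 K = fr.p23.line01 K := by
    rw [← h3]
    apply eq_of_le_of_finrank_two _ _ fr'.p23.finrank_line01 fr1.p23.finrank_line01
    intro p hp
    obtain ⟨x, y, rfl⟩ := (fr'.p23.mem_line01 _).mp hp
    rw [fr'.p23_pt, hpt, ← fr1.p23_pt]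
    exact (fr1.p23.mem_line01 _).mpr ⟨x, y, by simp⟩
  refine ⟨fr', hl01, hl23, C'.xxz / 2, -C'.xxw / 2, C'.xyz / 2, -C'.xyw / 2, C'.yyz / 2,
    -C'.yyw / 2, ?_⟩
  have hA := quad_ext (K := K) (a0 := C'.xzz) (a1 := C'.xzw) (a2 := C'.xww)
    (b0 := 0) (b1 := 0) (b2 := -1) (by
      intro z w
      have e1 := hC'.Dx 1 0 z w
      rw [hpt, hpt] at e1
      simp only [zero_mul, add_zero, map_one, map_zero, one_mul] at e1
      rw [hC.Dx, hx, hy] at e1
      rw [← e1]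
      have e2 : C.yzz / Δ * C.xzz + -C.xzz / Δ * C.yzz = 0 := by ring
      have e3 : C.yzz / Δ * C.xww + -C.xzz / Δ * C.yww = -1 := by
        field_simp
        rw [hΔ]
        ring
      rw [e2, e3]
      simp)
  have hB := quad_ext (K := K) (a0 := C'.yzz) (a1 := C'.yzw) (a2 := C'.yww)
    (b0 := 1) (b1 := 0) (b2 := 0) (by
      intro z w
      have e1 := hC'.Dx 0 1 z w
      rw [hpt, hpt] at e1
      simp only [zero_mul, add_zero, map_one, map_zero, one_mul, zero_add] at e1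
      rw [hC.Dx, hx, hy] at e1
      rw [← e1]
      have e2 : C.yww / Δ * C.xzz + -C.xww / Δ * C.yzz = 1 := by
        field_simp
        rw [hΔ]
        ring
      have e3 : C.yww / Δ * C.xww + -C.xww / Δ * C.yww = 0 := by ring
      rw [e2, e3]
      simp)
  obtain ⟨hA0, hA1, hA2⟩ := hA
  obtain ⟨hB0, hB1, hB2⟩ := hB
  have h01' : ∀ x y : K, S.φ (fr'.pt x y 0 0) = 0 :=
    (fr'.mem_lines_iff S).mp (by rw [hl01]; exact h01)
  have h23' : ∀ z w : K, S.φ (fr'.pt 0 0 z w) = 0 := by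
    intro z w
    have := (fr'.p23.mem_lines_iff S).mp (by rw [hl23]; exact h23) z w
    rwa [fr'.p23_pt] at this
  obtain ⟨e1, e2, e3, e4⟩ := hC'.coeff_line01 h2 h01'
  obtain ⟨e5, e6, e7, e8⟩ := hC'.coeff_line23 h2 h23'
  have hCeq : C' = cubG (C'.xxz / 2) (-C'.xxw / 2) (C'.xyz / 2) (-C'.xyw / 2) (C'.yyz / 2)
      (-C'.yyw / 2) := by
    have t1 : ∀ a : F, 2 * (a / 2) = a := fun a => by field_simp
    have t2 : ∀ a : F, -(2 * (-a / 2)) = a := fun a => by field_simp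
    cases C'
    simp only [cubG, Cub.mk.injEq, t1]
    simp only at hA0 hA1 hA2 hB0 hB1 hB2 e1 e2 e3 e4 e5 e6 e7 e8
    simp [hA0, hA1, hA2, hB0, hB1, hB2, e1, e2, e3, e4, e5, e6, e7, e8]
  rw [← hCeq]
  exact hC'

end

end Pool.Agent.H22.Cubic
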