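import Mathlib
import Pool.Agent.H22.Cubic.Normal

open Polynomial

namespace Pool.Agent.H22.Cubic

universe u v

section

variable {ι : Type*} {R : Type*} [CommRing R]

/-- product of linear polynomials -/
noncomputable def gp (s : Finset ι) (a b : ι → R) : R[X] := ∏ j ∈ s, (C (b j) + C (a j) * X)

theorem gp_natDegree_le (s : Finset ι) (a b : ι → R) : (gp s a b).natDegree ≤ s.card := by
  unfold gp
  refine (natDegree_prod_le _ _).trans ?_
  refine (Finset.sum_le_card_nsmul s _ 1 ?_).trans (by simp)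
  intro j _
  compute_degree

theorem hom_mul (p : R[X]) (n : ℕ) (hp : p.natDegree ≤ n) (b a u v : R) :
    ∑ k ∈ Finset.range (n + 1 + 1), ((C b + C a * X) * p).coeff k * u ^ (n + 1 - k) * v ^ k =
    (b * u + a * v) * ∑ k ∈ Finset.range (n + 1), p.coeff k * u ^ (n - k) * v ^ k := by
  have h0 : ((C b + C a * X) * p).coeff 0 = b * p.coeff 0 := by
    simp [add_mul, mul_coeff_zero]
  have h1 : ∀ k, ((C b + C a * X) * p).coeff (k + 1) = b * p.coeff (k + 1) + a * p.coeff k := by
    intro k
    rw [add_mul, coeff_add, coeff_C_mul, mul_assoc, coeff_C_mul, coeff_X_mul]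
  have hn : p.coeff (n + 1) = 0 := coeff_eq_zero_of_natDegree_lt (by omega)
  rw [add_mul (b * u) (a * v), Finset.mul_sum, Finset.mul_sum,
    Finset.sum_range_succ' _ (n + 1), h0]
  have e1 : ∑ k ∈ Finset.range (n + 1), b * u * (p.coeff k * u ^ (n - k) * v ^ k) =
      ∑ k ∈ Finset.range (n + 1), b * p.coeff (k + 1) * u ^ (n + 1 - (k + 1)) * v ^ (k + 1) +
      b * p.coeff 0 * u ^ (n + 1 - 0) * v ^ 0 := by
    have e2 := Finset.sum_range_succ' (fun k => b * p.coeff k * u ^ (n + 1 - k) * v ^ k) (n + 1)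
    rw [← e2, Finset.sum_range_succ (fun k => b * p.coeff k * u ^ (n + 1 - k) * v ^ k) (n + 1),
      hn]
    simp only [mul_zero, zero_mul, add_zero]
    apply Finset.sum_congr rfl
    intro k hk
    have : n + 1 - k = (n - k) + 1 := by
      have := Finset.mem_range.mp hk
      omega
    rw [this]
    ring
  rw [e1]
  have e3 : ∀ A B Z : R, A + Z + B = (A + B) + Z := fun A B Z => by ring
  rw [e3, ← Finset.sum_add_distrib]
  congr 1
  apply Finset.sum_congr rfl
  intro k _
  rw [h1]
  have : n + 1 - (k + 1) = n - k := by omega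
  rw [this]
  ring

theorem gp_hom (s : Finset ι) (a b : ι → R) (u v : R) :
    ∏ j ∈ s, (b j * u + a j * v) =
    ∑ k ∈ Finset.range (s.card + 1), (gp s a b).coeff k * u ^ (s.card - k) * v ^ k := by
  classical
  induction s using Finset.induction_on with
  | empty => simp [gp]
  | insert i s hi ih =>
    rw [Finset.prod_insert hi, ih, Finset.card_insert_of_notMem hi]
    have : gp (insert i s) a b = (C (b i) + C (a i) * X) * gp s a b := by
      unfold gp
      rw [Finset.prod_insert hi]
    rw [this, hom_mul _ _ (gp_natDegree_le s a b)]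

/-- the polynomial `∏ (b_j + a_j X)` -/
noncomputable def gpol (a b : Fin 5 → R) : R[X] := gp Finset.univ a b

/-- the product of the other factors -/
noncomputable def psi (a b : Fin 5 → R) (i : Fin 5) : R[X] := gp (Finset.univ.erase i) a b

theorem gpol_natDegree_le (a b : Fin 5 → R) : (gpol a b).natDegree ≤ 5 := by
  have := gp_natDegree_le Finset.univ a b
  simpa [gpol] using this

theorem psi_natDegree_le (a b : Fin 5 → R) (i : Fin 5) : (psi a b i).natDegree ≤ 4 := by
  have := gp_natDegree_le (Finset.univ.erase i) a b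
  simpa [psi] using this

theorem gpol_eq (a b : Fin 5 → R) (i : Fin 5) :
    gpol a b = (C (b i) + C (a i) * X) * psi a b i := by
  unfold gpol psi gp
  rw [Finset.mul_prod_erase _ (fun j => C (b j) + C (a j) * X) (Finset.mem_univ i)]

theorem gpol_coeff_zero (a b : Fin 5 → R) (i : Fin 5) :
    (gpol a b).coeff 0 = b i * (psi a b i).coeff 0 := by
  rw [gpol_eq a b i]
  simp [add_mul, mul_coeff_zero]

theorem gpol_coeff_succ (a b : Fin 5 → R) (i : Fin 5) (k : ℕ) :
    (gpol a b).coeff (k + 1) = b i * (psi a b i).coeff (k + 1) + a i * (psi a b i).coeff k := by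
  rw [gpol_eq a b i, add_mul, coeff_add, coeff_C_mul, mul_assoc, coeff_C_mul, coeff_X_mul]

theorem psi_coeff_five (a b : Fin 5 → R) (i : Fin 5) : (psi a b i).coeff 5 = 0 :=
  coeff_eq_zero_of_natDegree_lt (by have := psi_natDegree_le a b i; omega)

theorem gpol_factor (a b : Fin 5 → R) (i : Fin 5) :
    (gpol a b).coeff 0 = b i * (psi a b i).coeff 0 ∧
    (gpol a b).coeff 1 = b i * (psi a b i).coeff 1 + a i * (psi a b i).coeff 0 ∧
    (gpol a b).coeff 2 = b i * (psi a b i).coeff 2 + a i * (psi a b i).coeff 1 ∧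
    (gpol a b).coeff 3 = b i * (psi a b i).coeff 3 + a i * (psi a b i).coeff 2 ∧
    (gpol a b).coeff 4 = b i * (psi a b i).coeff 4 + a i * (psi a b i).coeff 3 ∧
    (gpol a b).coeff 5 = a i * (psi a b i).coeff 4 := by
  refine ⟨gpol_coeff_zero a b i, gpol_coeff_succ a b i 0, gpol_coeff_succ a b i 1,
    gpol_coeff_succ a b i 2, gpol_coeff_succ a b i 3, ?_⟩
  have := gpol_coeff_succ a b i 4
  rw [psi_coeff_five, mul_zero, zero_add] at this
  exact this

/-- quintic form -/
def hom5 (g0 g1 g2 g3 g4 g5 u v : R) : R := g0 * u ^ 5 + g1 * u ^ 4 * v + g2 * u ^ 3 * v ^ 2 +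
  g3 * u ^ 2 * v ^ 3 + g4 * u * v ^ 4 + g5 * v ^ 5

/-- quartic form -/
def hom4 (g0 g1 g2 g3 g4 u v : R) : R := g0 * u ^ 4 + g1 * u ^ 3 * v + g2 * u ^ 2 * v ^ 2 +
  g3 * u * v ^ 3 + g4 * v ^ 4

theorem gpol_hom (a b : Fin 5 → R) (u v : R) : ∏ j, (b j * u + a j * v) =
    hom5 ((gpol a b).coeff 0) ((gpol a b).coeff 1) ((gpol a b).coeff 2) ((gpol a b).coeff 3)
      ((gpol a b).coeff 4) ((gpol a b).coeff 5) u v := by
  have h := gp_hom Finset.univ a b u v
  rw [h]
  have : (Finset.univ : Finset (Fin 5)).card = 5 := by simp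
  rw [this]
  simp only [Finset.sum_range_succ, Finset.sum_range_zero, zero_add, hom5, gpol]
  simp only [Nat.sub_zero, Nat.reduceSub, pow_zero, mul_one, pow_one]

theorem psi_hom (a b : Fin 5 → R) (i : Fin 5) (u v : R) :
    ∏ j ∈ Finset.univ.erase i, (b j * u + a j * v) =
    hom4 ((psi a b i).coeff 0) ((psi a b i).coeff 1) ((psi a b i).coeff 2) ((psi a b i).coeff 3)
      ((psi a b i).coeff 4) u v := by
  have h := gp_hom (Finset.univ.erase i) a b u v
  rw [h]
  have : (Finset.univ.erase i : Finset (Fin 5)).card = 4 := by simp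
  rw [this]
  simp only [Finset.sum_range_succ, Finset.sum_range_zero, zero_add, hom4, psi]
  simp only [Nat.sub_zero, Nat.reduceSub, pow_zero, mul_one, pow_one]

theorem psi_coeff_zero' (a b : Fin 5 → R) (i : Fin 5) :
    (psi a b i).coeff 0 = ∏ j ∈ Finset.univ.erase i, b j := by
  have := psi_hom a b i 1 0
  simp only [mul_one, mul_zero, add_zero, hom4] at this
  rw [this]
  ring

theorem psi_coeff_four' (a b : Fin 5 → R) (i : Fin 5) :
    (psi a b i).coeff 4 = ∏ j ∈ Finset.univ.erase i, a j := by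
  have := psi_hom a b i 0 1
  simp only [mul_one, mul_zero, zero_add, hom4] at this
  rw [this]
  ring

theorem gp_map {S : Type*} [CommRing S] (f : R →+* S) (s : Finset ι) (a b : ι → R) :
    gp s (fun j => f (a j)) (fun j => f (b j)) = (gp s a b).map f := by
  unfold gp
  rw [Polynomial.map_prod]
  simp

theorem gpol_map {S : Type*} [CommRing S] (f : R →+* S) (a b : Fin 5 → R) (k : ℕ) :
    (gpol (fun j => f (a j)) (fun j => f (b j))).coeff k = f ((gpol a b).coeff k) := by
  unfold gpol
  rw [gp_map, coeff_map]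

end

end Pool.Agent.H22.Cubic
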