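import Mathlib
import Pool.Agent.H22.Cubic.Hom

open Polynomial

namespace Pool.Agent.H22.Cubic

universe u v

section

variable {K : Type v} [Field K]

theorem coeff_zero_of_forall [Infinite K] (c0 c1 c2 c3 c4 c5 : K)
    (h : ∀ t : K, c0 + c1 * t + c2 * t ^ 2 + c3 * t ^ 3 + c4 * t ^ 4 + c5 * t ^ 5 = 0) :
    c0 = 0 ∧ c1 = 0 ∧ c2 = 0 ∧ c3 = 0 ∧ c4 = 0 ∧ c5 = 0 := by
  have hp : (C c0 + C c1 * X + C c2 * X ^ 2 + C c3 * X ^ 3 + C c4 * X ^ 4 + C c5 * X ^ 5 : K[X])
      = 0 := by
    apply Polynomial.funext
    intro t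
    simpa using h t
  have hc : ∀ k, (C c0 + C c1 * X + C c2 * X ^ 2 + C c3 * X ^ 3 + C c4 * X ^ 4 +
      C c5 * X ^ 5 : K[X]).coeff k = 0 := by
    intro k
    rw [hp, coeff_zero]
  have h0 := hc 0
  have h1 := hc 1
  have h2 := hc 2
  have h3 := hc 3
  have h4 := hc 4
  have h5 := hc 5
  simp [coeff_X, coeff_C] at h0 h1 h2 h3 h4 h5
  exact ⟨h0, h1, h2, h3, h4, h5⟩

/-- A quintic form vanishing at five different points is a multiple of the product. -/
theorem quintic_of_five (g : K[X]) (hg : g.natDegree ≤ 5) (a b : Fin 5 → K)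
    (hab : ∀ i j, i ≠ j → a i * b j ≠ a j * b i)
    (h : ∀ i, hom5 (g.coeff 0) (g.coeff 1) (g.coeff 2) (g.coeff 3) (g.coeff 4) (g.coeff 5)
      (a i) (-b i) = 0) : ∃ c : K, g = C c * gpol a b := by
  classical
  have hab0 : ∀ i, a i ≠ 0 ∨ b i ≠ 0 := by
    intro i
    by_contra hcon
    push Not at hcon
    obtain ⟨j, hj⟩ := exists_ne i
    apply hab i j hj.symm
    rw [hcon.1, hcon.2]
    ring
  have hg5 : ∀ t : K, g.eval t = g.coeff 0 + g.coeff 1 * t + g.coeff 2 * t ^ 2 +
      g.coeff 3 * t ^ 3 + g.coeff 4 * t ^ 4 + g.coeff 5 * t ^ 5 := by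
    intro t
    rw [eval_eq_sum_range' (n := 6) (by omega)]
    simp only [Finset.sum_range_succ, Finset.sum_range_zero, zero_add, pow_zero, mul_one, pow_one]
  have hdvd1 : ∀ i, (C (b i) + C (a i) * X) ∣ g := by
    intro i
    by_cases ha : a i = 0
    · have hb : b i ≠ 0 := (hab0 i).resolve_left (fun h => h ha)
      rw [ha, C_0, zero_mul, add_zero]
      exact (isUnit_C.mpr (isUnit_iff_ne_zero.mpr hb)).dvd
    · have hroot : g.eval (-b i / a i) = 0 := by
        have h1 := h i
        have h2 : a i ^ 5 * g.eval (-b i / a i) = 0 := by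
          rw [hg5, ← h1]
          unfold hom5
          field_simp
        exact (mul_eq_zero.mp h2).resolve_left (pow_ne_zero 5 ha)
      have h3 : (X - C (-b i / a i)) ∣ g := dvd_iff_isRoot.mpr hroot
      have h4 : C (b i) + C (a i) * X = C (a i) * (X - C (-b i / a i)) := by
        rw [mul_sub, ← C_mul]
        have : a i * (-b i / a i) = -b i := by field_simp
        rw [this, C_neg]
        ring
      rw [h4]
      have h5 : IsUnit (C (a i)) := isUnit_C.mpr (isUnit_iff_ne_zero.mpr ha)
      exact (h5.mul_left_dvd).mpr h3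
  have hcop : Set.Pairwise (↑(Finset.univ : Finset (Fin 5)))
      (Function.onFun IsCoprime (fun i => C (b i) + C (a i) * X)) := by
    intro i _ j _ hij
    change IsCoprime (C (b i) + C (a i) * X) (C (b j) + C (a j) * X)
    have hd : a i * b j - a j * b i ≠ 0 := sub_ne_zero.mpr (hab i j hij)
    refine ⟨C (-a j / (a i * b j - a j * b i)), C (a i / (a i * b j - a j * b i)), ?_⟩
    have e : ∀ A B A' B' p q : K, (p * B + q * B' = 1) → (p * A + q * A' = 0) →
        C p * (C B + C A * X) + C q * (C B' + C A' * X) = (1 : K[X]) := by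
      intro A B A' B' p q h1 h2
      have : C p * (C B + C A * X) + C q * (C B' + C A' * X) = C (p * B + q * B') +
          C (p * A + q * A') * X := by
        simp only [C_add, C_mul]
        ring
      rw [this, h1, h2]
      simp
    apply e
    · field_simp
      ring
    · ring
  have hdvd : gpol a b ∣ g := by
    unfold gpol gp
    exact Finset.prod_dvd_of_coprime hcop (fun i _ => hdvd1 i)
  obtain ⟨q, hq⟩ := hdvd
  by_cases hq0 : q = 0
  · exact ⟨0, by rw [hq, hq0]; simp⟩
  have hne : ∀ i, C (b i) + C (a i) * X ≠ 0 := by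
    intro i h0
    have h1 := congrArg (fun p => coeff p 0) h0
    have h2 := congrArg (fun p => coeff p 1) h0
    simp [coeff_C] at h1 h2
    rcases hab0 i with h3 | h3
    · exact h3 h2
    · exact h3 h1
  have hdeg : (gpol a b).natDegree = ∑ i, if a i = 0 then 0 else 1 := by
    unfold gpol gp
    rw [natDegree_prod _ _ (fun i _ => hne i)]
    apply Finset.sum_congr rfl
    intro i _
    split_ifs with ha
    · rw [ha]
      simp
    · rw [add_comm]
      exact natDegree_linear ha
  have hgp0 : gpol a b ≠ 0 := by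
    unfold gpol gp
    exact Finset.prod_ne_zero_iff.mpr (fun i _ => hne i)
  have hdegq : g.natDegree = (gpol a b).natDegree + q.natDegree := by
    rw [hq]
    exact natDegree_mul hgp0 hq0
  have hqdeg : q.natDegree = 0 := by
    by_cases hex : ∃ i0, a i0 = 0
    · obtain ⟨i0, hi0⟩ := hex
      have h1 : g.coeff 5 = 0 := by
        have h2 := h i0
        rw [hi0] at h2
        have hb : b i0 ≠ 0 := (hab0 i0).resolve_left (fun h => h hi0)
        have h3 : g.coeff 5 * (b i0) ^ 5 = 0 := by
          unfold hom5 at h2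
          linear_combination -h2
        exact (mul_eq_zero.mp h3).resolve_right (pow_ne_zero 5 hb)
      have h4 : g.natDegree ≤ 4 := by
        by_contra hcon
        have h5 : g.natDegree = 5 := by omega
        have h6 : g ≠ 0 := by
          rintro rfl
          simp at h5
        apply leadingCoeff_ne_zero.mpr h6
        rw [leadingCoeff, h5, h1]
      have h7 : (gpol a b).natDegree = 4 := by
        rw [hdeg, ← Finset.add_sum_erase _ _ (Finset.mem_univ i0), if_pos hi0, zero_add]
        have h8 : ∀ j ∈ Finset.univ.erase i0, (if a j = 0 then 0 else 1) = 1 := by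
          intro j hj
          rw [if_neg]
          intro haj
          apply hab i0 j (Finset.ne_of_mem_erase hj).symm
          rw [hi0, haj]
          ring
        rw [Finset.sum_congr rfl h8]
        simp
      omega
    · push Not at hex
      have h7 : (gpol a b).natDegree = 5 := by
        rw [hdeg]
        have h8 : ∀ j ∈ (Finset.univ : Finset (Fin 5)), (if a j = 0 then 0 else 1) = 1 := by
          intro j _
          rw [if_neg (hex j)]
        rw [Finset.sum_congr rfl h8]
        simp
      omega
  refine ⟨q.coeff 0, ?_⟩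
  rw [hq, mul_comm]
  congr 1
  exact eq_C_of_natDegree_eq_zero hqdeg

end

end Pool.Agent.H22.Cubic
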