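import Mathlib
import Pool.Agent.H22.Cubic.Divis

open Polynomial

namespace Pool.Agent.H22.Cubic

universe u v

section

variable {F : Type u} [Field F] {K : Type v} [Field K] [Algebra F K]

/-- the value of the normal form -/
def nf {R : Type*} [CommRing R] (g0 g1 g2 g3 g4 g5 x y z w : R) : R :=
  y * z ^ 2 - x * w ^ 2 + 2 * (g0 * x ^ 2 + g2 * (x * y) + g4 * y ^ 2) * z -
    2 * (g1 * x ^ 2 + g3 * (x * y) + g5 * y ^ 2) * w

/-- the surface `S` is in normal form with parameters `a, b` -/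
def IsNF (S : Surf K) (fr : Frame F) (a b : Fin 5 → K) : Prop :=
  ∀ x y z w : K, S.φ (fr.pt x y z w) = nf ((gpol a b).coeff 0) ((gpol a b).coeff 1)
    ((gpol a b).coeff 2) ((gpol a b).coeff 3) ((gpol a b).coeff 4) ((gpol a b).coeff 5) x y z w

/-- `κ_i = ∏ (b_j a_i + a_j b_i)` -/
def kap {R : Type*} [CommRing R] (a b : Fin 5 → R) (i : Fin 5) : R :=
  ∏ j ∈ Finset.univ.erase i, (b j * a i + a j * b i)

/-- `κ'_i = ∏ (b_j a_i - a_j b_i)` -/
def kap' {R : Type*} [CommRing R] (a b : Fin 5 → R) (i : Fin 5) : R :=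
  ∏ j ∈ Finset.univ.erase i, (b j * a i - a j * b i)

theorem kap_eq {R : Type*} [CommRing R] (a b : Fin 5 → R) (i : Fin 5) : kap a b i =
    hom4 ((psi a b i).coeff 0) ((psi a b i).coeff 1) ((psi a b i).coeff 2) ((psi a b i).coeff 3)
      ((psi a b i).coeff 4) (a i) (b i) := psi_hom a b i (a i) (b i)

theorem kap'_eq {R : Type*} [CommRing R] (a b : Fin 5 → R) (i : Fin 5) : kap' a b i =
    hom4 ((psi a b i).coeff 0) ((psi a b i).coeff 1) ((psi a b i).coeff 2) ((psi a b i).coeff 3)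
      ((psi a b i).coeff 4) (a i) (-b i) := by
  rw [← psi_hom]
  unfold kap'
  apply Finset.prod_congr rfl
  intro j _
  ring

theorem P_eq {R : Type*} [CommRing R] (a b : Fin 5 → R) (i : Fin 5) :
    (gpol a b).coeff 0 * a i ^ 4 + (gpol a b).coeff 2 * (a i ^ 2 * b i ^ 2) +
      (gpol a b).coeff 4 * b i ^ 4 = b i * kap a b i := by
  obtain ⟨h0, h1, h2, h3, h4, h5⟩ := gpol_factor a b i
  rw [h0, h2, h4, kap_eq]
  unfold hom4
  ring

theorem Q_eq {R : Type*} [CommRing R] (a b : Fin 5 → R) (i : Fin 5) :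
    (gpol a b).coeff 1 * a i ^ 4 + (gpol a b).coeff 3 * (a i ^ 2 * b i ^ 2) +
      (gpol a b).coeff 5 * b i ^ 4 = a i * kap a b i := by
  obtain ⟨h0, h1, h2, h3, h4, h5⟩ := gpol_factor a b i
  rw [h1, h3, h5, kap_eq]
  unfold hom4
  ring

theorem exists_multiple {c d a b : K} (h : b * c = a * d) (hcd : c ≠ 0 ∨ d ≠ 0)
    (hab : a ≠ 0 ∨ b ≠ 0) : ∃ l : K, l ≠ 0 ∧ c = l * a ∧ d = l * b := by
  rcases hab with ha | hb
  · have e1 : c = c / a * a := by field_simp
    have e2 : d = c / a * b := by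
      field_simp
      linear_combination -h
    refine ⟨c / a, ?_, e1, e2⟩
    intro h0
    rw [h0, zero_mul] at e1 e2
    rcases hcd with h3 | h3
    · exact h3 e1
    · exact h3 e2
  · have e1 : d = d / b * b := by field_simp
    have e2 : c = d / b * a := by
      field_simp
      linear_combination h
    refine ⟨d / b, ?_, e2, e1⟩
    intro h0
    rw [h0, zero_mul] at e1 e2
    rcases hcd with h3 | h3
    · exact h3 e2
    · exact h3 e1

theorem case_meet [IsAlgClosed K] (h2 : (2 : K) ≠ 0) (S : Surf K) (fr : Frame F)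
    (a b : Fin 5 → K) (hG : IsNF S fr a b) (hab : ∀ i, a i ≠ 0 ∨ b i ≠ 0)
    (W : Submodule K (Fin 4 → K)) (hW : W ∈ S.lines) (c d : K) (hp : fr.pt 0 0 c d ∈ W)
    (hcd : c ≠ 0 ∨ d ≠ 0) (x0 y0 z0 w0 : K) (hq : fr.pt x0 y0 z0 w0 ∈ W)
    (hxy : x0 ≠ 0 ∨ y0 ≠ 0) :
    (∃ i, ∀ q ∈ W, ∃ s r : K, q = fr.pt (s * a i ^ 2) (s * b i ^ 2) (r * a i) (r * b i)) ∨
    (∃ i, ∀ q ∈ W, ∃ s z w : K, q = fr.pt (s * a i ^ 2) (s * b i ^ 2) z w ∧
      b i * z + a i * w + 2 * kap a b i * s = 0) := by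
  set G0 := (gpol a b).coeff 0 with hG0
  set G1 := (gpol a b).coeff 1 with hG1
  set G2 := (gpol a b).coeff 2 with hG2
  set G3 := (gpol a b).coeff 3 with hG3
  set G4 := (gpol a b).coeff 4 with hG4
  set G5 := (gpol a b).coeff 5 with hG5
  -- the first relation
  have hval : ∀ x y z w : K, fr.pt x y z w ∈ W → nf G0 G1 G2 G3 G4 G5 x y z w = 0 := by
    intro x y z w h
    rw [← hW.2 _ h]
    exact (hG x y z w).symm
  have hcomb : ∀ x0 y0 z0 w0 : K, fr.pt x0 y0 z0 w0 ∈ W → ∀ s t : K,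
      fr.pt (t * x0) (t * y0) (s * c + t * z0) (s * d + t * w0) ∈ W := by
    intro x0 y0 z0 w0 hq s t
    have := W.add_mem (W.smul_mem s hp) (W.smul_mem t hq)
    rw [fr.smul_pt, fr.smul_pt, fr.add_pt] at this
    simpa using this
  have hE : ∀ x0 y0 z0 w0 : K, fr.pt x0 y0 z0 w0 ∈ W → y0 * c ^ 2 - x0 * d ^ 2 = 0 ∧
      2 * (y0 * z0 * c - x0 * w0 * d + (G0 * x0 ^ 2 + G2 * (x0 * y0) + G4 * y0 ^ 2) * c -
        (G1 * x0 ^ 2 + G3 * (x0 * y0) + G5 * y0 ^ 2) * d) = 0 ∧
      y0 * z0 ^ 2 - x0 * w0 ^ 2 + 2 * (G0 * x0 ^ 2 + G2 * (x0 * y0) + G4 * y0 ^ 2) * z0 -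
        2 * (G1 * x0 ^ 2 + G3 * (x0 * y0) + G5 * y0 ^ 2) * w0 = 0 := by
    intro x0 y0 z0 w0 hq
    obtain ⟨-, h3, h4, h5⟩ := cubic_coeff_zero h2 0 (y0 * c ^ 2 - x0 * d ^ 2)
      (2 * (y0 * z0 * c - x0 * w0 * d + (G0 * x0 ^ 2 + G2 * (x0 * y0) + G4 * y0 ^ 2) * c -
        (G1 * x0 ^ 2 + G3 * (x0 * y0) + G5 * y0 ^ 2) * d))
      (y0 * z0 ^ 2 - x0 * w0 ^ 2 + 2 * (G0 * x0 ^ 2 + G2 * (x0 * y0) + G4 * y0 ^ 2) * z0 -
        2 * (G1 * x0 ^ 2 + G3 * (x0 * y0) + G5 * y0 ^ 2) * w0) (by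
        intro s t
        have := hval _ _ _ _ (hcomb _ _ _ _ hq s t)
        unfold nf at this
        linear_combination this)
    exact ⟨h3, h4, h5⟩
  obtain ⟨r, hr0, hr1, hr2⟩ : ∃ r : K, r ≠ 0 ∧ x0 = r * c ^ 2 ∧ y0 = r * d ^ 2 := by
    apply exists_multiple (by linear_combination -(hE _ _ _ _ hq).1) hxy
    rcases hcd with h | h
    · left; exact pow_ne_zero 2 h
    · right; exact pow_ne_zero 2 h
  -- rescale
  have hq' : fr.pt (c ^ 2) (d ^ 2) (z0 / r) (w0 / r) ∈ W := by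
    have := W.smul_mem r⁻¹ hq
    rw [fr.smul_pt, hr1, hr2] at this
    convert this using 2
    · field_simp
    · field_simp
    · field_simp
    · field_simp
  set z1 := z0 / r with hz1
  set w1 := w0 / r with hw1
  obtain ⟨-, hE2, hE3⟩ := hE _ _ _ _ hq'
  have hE2' := (mul_eq_zero.mp hE2).resolve_left h2
  clear hE2
  have hmem : ∀ q ∈ W, ∃ s t : K, q = fr.pt (t * c ^ 2) (t * d ^ 2) (s * c + t * z1)
      (s * d + t * w1) := by
    intro q hqW
    obtain ⟨s, t, rfl⟩ := mem_comb_of_two W hW.1 _ _ hp hq' (by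
      intro s t hst
      rw [fr.smul_pt, fr.smul_pt, fr.add_pt, ← fr.pt_zero] at hst
      obtain ⟨e1, e2, e3, e4⟩ := fr.pt_inj hst
      have ht : t = 0 := by
        rcases hcd with h | h
        · have : t * c ^ 2 = 0 := by linear_combination e1
          exact (mul_eq_zero.mp this).resolve_right (pow_ne_zero 2 h)
        · have : t * d ^ 2 = 0 := by linear_combination e2
          exact (mul_eq_zero.mp this).resolve_right (pow_ne_zero 2 h)
      refine ⟨?_, ht⟩
      rw [ht] at e3 e4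
      rcases hcd with h | h
      · have : s * c = 0 := by linear_combination e3
        exact (mul_eq_zero.mp this).resolve_right h
      · have : s * d = 0 := by linear_combination e4
        exact (mul_eq_zero.mp this).resolve_right h) q hqW
    refine ⟨s, t, ?_⟩
    rw [fr.smul_pt, fr.smul_pt, fr.add_pt]
    congr 1 <;> ring
  have hΦ : ∏ j, (b j * c + a j * -d) = hom5 G0 G1 G2 G3 G4 G5 c (-d) := gpol_hom a b c (-d)
  have hΦ' : ∏ j, (b j * c + a j * d) = hom5 G0 G1 G2 G3 G4 G5 c d := gpol_hom a b c d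
  by_cases hh : d * z1 - c * w1 = 0
  · left
    have h3 : hom5 G0 G1 G2 G3 G4 G5 c (-d) = 0 := by
      unfold hom5
      linear_combination hE2' - c * d * hh
    rw [h3, Finset.prod_eq_zero_iff] at hΦ
    obtain ⟨i, -, hi⟩ := hΦ
    obtain ⟨l, hl0, hl1, hl2⟩ := exists_multiple (a := a i) (b := b i) (c := c) (d := d)
      (by linear_combination hi) hcd (hab i)
    refine ⟨i, ?_⟩
    intro q hqW
    obtain ⟨s, t, rfl⟩ := hmem q hqW
    -- (z1, w1) is a multiple of (c, d)
    obtain ⟨m, hm1, hm2⟩ : ∃ m : K, z1 = m * c ∧ w1 = m * d := by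
      rcases hcd with h | h
      · refine ⟨z1 / c, by field_simp, ?_⟩
        field_simp
        linear_combination -hh
      · refine ⟨w1 / d, ?_, by field_simp⟩
        field_simp
        linear_combination hh
    refine ⟨t * l ^ 2, (s + t * m) * l, ?_⟩
    rw [hm1, hm2, hl1, hl2]
    congr 1 <;> ring
  · right
    have h3 : (d * z1 - c * w1) * hom5 G0 G1 G2 G3 G4 G5 c d = 0 := by
      unfold hom5
      linear_combination c * d * hE3 - (d * z1 + c * w1) * hE2'
    have h4 := (mul_eq_zero.mp h3).resolve_left hh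
    rw [h4, Finset.prod_eq_zero_iff] at hΦ'
    obtain ⟨i, -, hi⟩ := hΦ'
    obtain ⟨l, hl0, hl1, hl2⟩ := exists_multiple (a := a i) (b := b i) (c := c) (d := -d)
      (by linear_combination hi) (by simpa using hcd) (hab i)
    have hl3 : d = -(l * b i) := by linear_combination -hl2
    have hP := P_eq a b i
    have hQ := Q_eq a b i
    rw [← hG0, ← hG2, ← hG4] at hP
    rw [← hG1, ← hG3, ← hG5] at hQ
    set κ := kap a b i with hκ
    set A := a i with hA
    set B := b i with hB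
    -- first relation
    have e1 : l ^ 2 * (A * B) * (-(l * (B * z1 + A * w1)) - 2 * l ^ 3 * κ) = 0 := by
      rw [hl1, hl3] at hE2'
      linear_combination -hE2' + l ^ 5 * A * hP + l ^ 5 * B * hQ
    have e2 : l * (B * z1 - A * w1) * (-(l * (B * z1 + A * w1)) - 2 * l ^ 3 * κ) = 0 := by
      rw [hl1, hl3] at hE3
      linear_combination -hE3 + 2 * l ^ 4 * z1 * hP - 2 * l ^ 4 * w1 * hQ
    have e3 : -(l * (B * z1 + A * w1)) - 2 * l ^ 3 * κ = 0 := by
      by_contra hcon
      have e4 := (mul_eq_zero.mp e1).resolve_right hcon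
      have e5 := (mul_eq_zero.mp e2).resolve_right hcon
      have e6 := (mul_eq_zero.mp e4).resolve_left (pow_ne_zero 2 hl0)
      have e7 := (mul_eq_zero.mp e5).resolve_left hl0
      apply hh
      rw [hl1, hl3]
      rcases mul_eq_zero.mp e6 with h | h
      · have hB0 : B ≠ 0 := (hab i).resolve_left (fun h' => h' h)
        have hz : z1 = 0 := by
          have : B * z1 = 0 := by
            rw [h] at e7
            linear_combination e7
          exact (mul_eq_zero.mp this).resolve_left hB0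
        rw [h, hz]
        ring
      · have hA0 : A ≠ 0 := (hab i).resolve_right (fun h' => h' h)
        have hw : w1 = 0 := by
          have : A * w1 = 0 := by
            rw [h] at e7
            linear_combination -e7
          exact (mul_eq_zero.mp this).resolve_left hA0
        rw [h, hw]
        ring
    have e4 : B * z1 + A * w1 + 2 * l ^ 2 * κ = 0 := by
      have : l * (B * z1 + A * w1 + 2 * l ^ 2 * κ) = 0 := by linear_combination -e3
      exact (mul_eq_zero.mp this).resolve_left hl0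
    refine ⟨i, ?_⟩
    intro q hqW
    obtain ⟨s, t, rfl⟩ := hmem q hqW
    refine ⟨t * l ^ 2, s * c + t * z1, s * d + t * w1, ?_, ?_⟩
    · rw [hl1, hl3]
      congr 1 <;> ring
    · rw [hl1, hl3]
      linear_combination t * e4

end

end Pool.Agent.H22.Cubic
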