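import Mathlib
import Pool.Agent.H22.Cubic.Classify

open Polynomial

namespace Pool.Agent.H22.Cubic

universe u v

section

variable {R : Type*} [CommRing R]

/-- change the signs of the elements in `s` -/
def flip (s : Finset (Fin 5)) (a : Fin 5 → R) : Fin 5 → R := fun j => if j ∈ s then -a j else a j

theorem flip_sq (s : Finset (Fin 5)) (a : Fin 5 → R) (j : Fin 5) : flip s a j ^ 2 = a j ^ 2 := by
  unfold flip
  split_ifs
  · ring
  · rfl

theorem flip_prod (s : Finset (Fin 5)) (a : Fin 5 → R) :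
    ∏ j, flip s a j = (-1) ^ s.card * ∏ j, a j := by
  have h1 : ∀ j, flip s a j = (if j ∈ s then -1 else 1) * a j := by
    intro j
    unfold flip
    split_ifs <;> ring
  simp_rw [h1]
  rw [Finset.prod_mul_distrib, Finset.prod_ite_mem]
  simp

theorem gpol_coeff_zero' (a b : Fin 5 → R) : (gpol a b).coeff 0 = ∏ j, b j := by
  have := gpol_hom a b 1 0
  simp only [mul_one, mul_zero, add_zero, hom5] at this
  rw [this]
  ring

theorem gpol_coeff_five' (a b : Fin 5 → R) : (gpol a b).coeff 5 = ∏ j, a j := by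
  have := gpol_hom a b 0 1
  simp only [mul_one, mul_zero, zero_add, hom5] at this
  rw [this]
  ring

theorem gpol_flip_one (a a' b : Fin 5 → R) (j : Fin 5) (hb : b j = 0) (hj : a' j = -a j)
    (h : ∀ i, i ≠ j → a' i = a i) : gpol a' b = C (-1) * gpol a b := by
  rw [gpol_eq a b j, gpol_eq a' b j, hb, hj]
  have : psi a' b j = psi a b j := by
    unfold psi gp
    apply Finset.prod_congr rfl
    intro i hi
    rw [h i (Finset.ne_of_mem_erase hi)]
  rw [this]
  simp

/-- toggle membership of `j` -/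
def toggle (s : Finset (Fin 5)) (j : Fin 5) : Finset (Fin 5) :=
  if j ∈ s then s.erase j else insert j s

theorem toggle_card (s : Finset (Fin 5)) (j : Fin 5) :
    Even (toggle s j).card ↔ ¬ Even s.card := by
  unfold toggle
  split_ifs with h
  · have := Finset.card_erase_add_one h
    rw [← this, Nat.even_add_one, not_not]
  · rw [Finset.card_insert_of_notMem h, Nat.even_add_one]

theorem flip_toggle (s : Finset (Fin 5)) (a : Fin 5 → R) (j : Fin 5) :
    flip (toggle s j) a j = -flip s a j := by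
  unfold flip toggle
  by_cases h : j ∈ s
  · simp [h]
  · simp [h]

theorem flip_toggle_ne (s : Finset (Fin 5)) (a : Fin 5 → R) (j i : Fin 5) (hij : i ≠ j) :
    flip (toggle s j) a i = flip s a i := by
  unfold flip toggle
  by_cases h : j ∈ s
  · simp [h, hij]
  · simp [h, hij]

end

section

variable {F : Type u} [Field F] {K : Type v} [Field K] [Algebra F K]

theorem coeffs_of (c0 c1 c2 c3 c4 c5 : K) :
    (C c0 + C c1 * X + C c2 * X ^ 2 + C c3 * X ^ 3 + C c4 * X ^ 4 + C c5 * X ^ 5 : K[X]).coeff 0 =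
      c0 ∧
    (C c0 + C c1 * X + C c2 * X ^ 2 + C c3 * X ^ 3 + C c4 * X ^ 4 + C c5 * X ^ 5 : K[X]).coeff 1 =
      c1 ∧
    (C c0 + C c1 * X + C c2 * X ^ 2 + C c3 * X ^ 3 + C c4 * X ^ 4 + C c5 * X ^ 5 : K[X]).coeff 2 =
      c2 ∧
    (C c0 + C c1 * X + C c2 * X ^ 2 + C c3 * X ^ 3 + C c4 * X ^ 4 + C c5 * X ^ 5 : K[X]).coeff 3 =
      c3 ∧
    (C c0 + C c1 * X + C c2 * X ^ 2 + C c3 * X ^ 3 + C c4 * X ^ 4 + C c5 * X ^ 5 : K[X]).coeff 4 =
      c4 ∧
    (C c0 + C c1 * X + C c2 * X ^ 2 + C c3 * X ^ 3 + C c4 * X ^ 4 + C c5 * X ^ 5 : K[X]).coeff 5 =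
      c5 := by
  refine ⟨?_, ?_, ?_, ?_, ?_, ?_⟩ <;> simp [coeff_X, coeff_C]

theorem exists_basis_pair (W : Submodule K (Fin 4 → K)) (h : Module.finrank K W = 2) :
    ∃ p q : Fin 4 → K, p ∈ W ∧ q ∈ W ∧ (∀ s t : K, s • p + t • q = 0 → s = 0 ∧ t = 0) ∧
      ∀ w ∈ W, ∃ s t : K, w = s • p + t • q := by
  let b := Module.finBasisOfFinrankEq K W h
  have hli : ∀ s t : K, s • (b 0 : Fin 4 → K) + t • (b 1 : Fin 4 → K) = 0 → s = 0 ∧ t = 0 := by
    intro s t hst
    have h1 : s • b 0 + t • b 1 = 0 := by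
      apply Subtype.ext
      simpa using hst
    have h2 := b.linearIndependent
    rw [Fintype.linearIndependent_iff] at h2
    have h3 := h2 ![s, t] (by rw [Fin.sum_univ_two]; simpa using h1)
    exact ⟨h3 0, h3 1⟩
  exact ⟨b 0, b 1, (b 0).2, (b 1).2, hli, mem_comb_of_two W h _ _ (b 0).2 (b 1).2 hli⟩

theorem flip_cross {a b : Fin 5 → K} (hab : ∀ i j, i ≠ j → a i ^ 2 * b j ^ 2 ≠ a j ^ 2 * b i ^ 2)
    (s : Finset (Fin 5)) (i j : Fin 5) (hij : i ≠ j) : flip s a i * b j ≠ flip s a j * b i := by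
  intro h
  apply hab i j hij
  rw [← flip_sq s a i, ← flip_sq s a j, ← mul_pow, ← mul_pow, h]

theorem case_skew [IsAlgClosed K] (h2 : (2 : K) ≠ 0) (S : Surf K) (fr : Frame F)
    (a b : Fin 5 → K) (hG : IsNF S fr a b)
    (hab : ∀ i j, i ≠ j → a i ^ 2 * b j ^ 2 ≠ a j ^ 2 * b i ^ 2)
    (W : Submodule K (Fin 4 → K)) (hW : W ∈ S.lines)
    (hsk : ∀ z w : K, fr.pt 0 0 z w ∈ W → z = 0 ∧ w = 0) :
    ∃ s : Finset (Fin 5), Even s.card ∧ ∀ q ∈ W, ∃ x y : K, q = fr.pt x y
      (((gpol (flip s a) b).coeff 2 - (gpol a b).coeff 2) * x +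
        ((gpol (flip s a) b).coeff 4 - (gpol a b).coeff 4) * y)
      (((gpol (flip s a) b).coeff 1 - (gpol a b).coeff 1) * x +
        ((gpol (flip s a) b).coeff 3 - (gpol a b).coeff 3) * y) := by
  classical
  have : Infinite K := IsAlgClosed.instInfinite
  set G0 := (gpol a b).coeff 0 with hG0
  set G1 := (gpol a b).coeff 1 with hG1
  set G2 := (gpol a b).coeff 2 with hG2
  set G3 := (gpol a b).coeff 3 with hG3
  set G4 := (gpol a b).coeff 4 with hG4
  set G5 := (gpol a b).coeff 5 with hG5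
  have hab0 : ∀ i, a i ≠ 0 ∨ b i ≠ 0 := by
    intro i
    by_contra hcon
    push Not at hcon
    obtain ⟨j, hj⟩ := exists_ne i
    apply hab i j hj.symm
    rw [hcon.1, hcon.2]
    ring
  -- two special vectors
  obtain ⟨z0, w0, z1, w1, he, he'⟩ : ∃ z0 w0 z1 w1 : K, fr.pt 1 0 z0 w0 ∈ W ∧
      fr.pt 0 1 z1 w1 ∈ W := by
    obtain ⟨p, q, hp, hq, hli, -⟩ := exists_basis_pair W hW.1
    obtain ⟨x1, y1, z1, w1, rfl⟩ := fr.exists_pt p
    obtain ⟨x2, y2, z2, w2, rfl⟩ := fr.exists_pt q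
    have hcomb : ∀ s t : K, fr.pt (s * x1 + t * x2) (s * y1 + t * y2) (s * z1 + t * z2)
        (s * w1 + t * w2) ∈ W := by
      intro s t
      have := W.add_mem (W.smul_mem s hp) (W.smul_mem t hq)
      rwa [fr.smul_pt, fr.smul_pt, fr.add_pt] at this
    have hinj : ∀ s t : K, s * x1 + t * x2 = 0 → s * y1 + t * y2 = 0 → s = 0 ∧ t = 0 := by
      intro s t h3 h4
      have h5 := hcomb s t
      rw [h3, h4] at h5
      obtain ⟨h6, h7⟩ := hsk _ _ h5
      apply hli
      rw [fr.smul_pt, fr.smul_pt, fr.add_pt, h3, h4, h6, h7, fr.pt_zero]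
    have hdet : x1 * y2 - x2 * y1 ≠ 0 := by
      intro h0
      have h3 := hinj x2 (-x1) (by ring) (by linear_combination -h0)
      have h4 := hinj y2 (-y1) (by linear_combination h0) (by ring)
      have h5 := hinj 1 0 (by linear_combination -h3.2) (by linear_combination -h4.2)
      exact one_ne_zero h5.1
    obtain ⟨D, hD⟩ : ∃ D, D = x1 * y2 - x2 * y1 := ⟨_, rfl⟩
    rw [← hD] at hdet
    refine ⟨y2 / D * z1 + (-y1 / D) * z2, y2 / D * w1 + (-y1 / D) * w2,
      -x2 / D * z1 + (x1 / D) * z2, -x2 / D * w1 + (x1 / D) * w2, ?_, ?_⟩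
    · convert hcomb (y2 / D) (-y1 / D) using 2
      · field_simp
        rw [hD]
        ring
      · field_simp
        ring
    · convert hcomb (-x2 / D) (x1 / D) using 2
      · field_simp
        ring
      · field_simp
        rw [hD]
        ring
  have hmem : ∀ q ∈ W, ∃ x y : K, q = fr.pt x y (z0 * x + z1 * y) (w0 * x + w1 * y) := by
    intro q hq
    obtain ⟨x, y, rfl⟩ := mem_comb_of_two W hW.1 _ _ he he' (by
      intro s t hst
      rw [fr.smul_pt, fr.smul_pt, fr.add_pt, ← fr.pt_zero] at hst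
      obtain ⟨e1, e2, -, -⟩ := fr.pt_inj hst
      exact ⟨by linear_combination e1, by linear_combination e2⟩) q hq
    refine ⟨x, y, ?_⟩
    rw [fr.smul_pt, fr.smul_pt, fr.add_pt]
    congr 1 <;> ring
  -- the four relations
  obtain ⟨r1, r2, r3, r4⟩ := cubic_coeff_zero h2 (-w0 ^ 2 + 2 * G0 * z0 - 2 * G1 * w0)
    (z0 ^ 2 - 2 * w0 * w1 + 2 * G0 * z1 + 2 * G2 * z0 - 2 * G1 * w1 - 2 * G3 * w0)
    (2 * z0 * z1 - w1 ^ 2 + 2 * G2 * z1 + 2 * G4 * z0 - 2 * G3 * w1 - 2 * G5 * w0)
    (z1 ^ 2 + 2 * G4 * z1 - 2 * G5 * w1) (by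
      intro x y
      have h3 : fr.pt x y (x * z0 + y * z1) (x * w0 + y * w1) ∈ W := by
        have := W.add_mem (W.smul_mem x he) (W.smul_mem y he')
        rw [fr.smul_pt, fr.smul_pt, fr.add_pt] at this
        simpa using this
      have h4 := hW.2 _ h3
      rw [hG] at h4
      rw [← hG0, ← hG1, ← hG2, ← hG3, ← hG4, ← hG5] at h4
      unfold nf at h4
      linear_combination h4)
  -- the polynomial of the line
  set g' : K[X] := C G0 + C (G1 + w0) * X + C (G2 + z0) * X ^ 2 + C (G3 + w1) * X ^ 3 +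
    C (G4 + z1) * X ^ 4 + C G5 * X ^ 5 with hg'
  obtain ⟨c0, c1, c2, c3, c4, c5⟩ := coeffs_of G0 (G1 + w0) (G2 + z0) (G3 + w1) (G4 + z1) G5
  rw [← hg'] at c0 c1 c2 c3 c4 c5
  have hdeg : g'.natDegree ≤ 5 := by
    rw [hg']
    compute_degree
  have hprod : ∀ u v : K, hom5 G0 (G1 + w0) (G2 + z0) (G3 + w1) (G4 + z1) G5 u v *
      hom5 G0 (G1 + w0) (G2 + z0) (G3 + w1) (G4 + z1) G5 u (-v) =
      hom5 G0 G1 G2 G3 G4 G5 u v * hom5 G0 G1 G2 G3 G4 G5 u (-v) := by
    intro u v
    unfold hom5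
    linear_combination u ^ 8 * v ^ 2 * r1 + u ^ 6 * v ^ 4 * r2 + u ^ 4 * v ^ 6 * r3 +
      u ^ 2 * v ^ 8 * r4
  set s0 : Finset (Fin 5) := Finset.univ.filter
    (fun i => hom5 G0 (G1 + w0) (G2 + z0) (G3 + w1) (G4 + z1) G5 (a i) (-b i) ≠ 0) with hs0
  have hroot : ∀ i, hom5 G0 (G1 + w0) (G2 + z0) (G3 + w1) (G4 + z1) G5 (flip s0 a i) (-b i) = 0 := by
    intro i
    by_cases hi : i ∈ s0
    · have h3 : flip s0 a i = -a i := by
        unfold flip
        rw [if_pos hi]
      rw [h3]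
      have h4 := (Finset.mem_filter.mp hi).2
      have h5 := hprod (a i) (b i)
      have h6 : hom5 G0 G1 G2 G3 G4 G5 (a i) (-b i) = 0 := by
        rw [← gpol_hom, Finset.prod_eq_zero_iff]
        exact ⟨i, Finset.mem_univ _, by ring⟩
      rw [h6, mul_zero] at h5
      have h7 := (mul_eq_zero.mp h5).resolve_right h4
      unfold hom5 at h7 ⊢
      linear_combination -h7
    · have h3 : flip s0 a i = a i := by
        unfold flip
        rw [if_neg hi]
      rw [h3]
      by_contra hcon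
      exact hi (Finset.mem_filter.mpr ⟨Finset.mem_univ _, hcon⟩)
  obtain ⟨c, hc⟩ := quintic_of_five g' hdeg (flip s0 a) b (flip_cross hab s0) (by
    intro i
    rw [c0, c1, c2, c3, c4, c5]
    exact hroot i)
  -- c ^ 2 = 1
  have hcsq : c ^ 2 = 1 := by
    have hne : ∀ (a : Fin 5 → K), (∀ i, a i ≠ 0 ∨ b i ≠ 0) → gpol a b ≠ 0 := by
      intro a hab0
      unfold gpol gp
      refine Finset.prod_ne_zero_iff.mpr ?_
      intro i _ h0
      have h3 := congrArg (fun p => coeff p 0) h0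
      have h4 := congrArg (fun p => coeff p 1) h0
      simp [coeff_C] at h3 h4
      rcases hab0 i with h5 | h5
      · exact h5 h4
      · exact h5 h3
    have h3 : gpol a b * gpol (fun j => -a j) b ≠ 0 :=
      mul_ne_zero (hne a hab0) (hne _ (fun i => by
        rcases hab0 i with h | h
        · left; exact neg_ne_zero.mpr h
        · right; exact h))
    obtain ⟨t, ht⟩ : ∃ t : K, (gpol a b * gpol (fun j => -a j) b).eval t ≠ 0 := by
      by_contra hcon
      push Not at hcon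
      apply h3
      apply Polynomial.funext
      intro t
      rw [hcon t, eval_zero]
    have hev : ∀ (a : Fin 5 → K) (t : K), (gpol a b).eval t = ∏ j, (b j * 1 + a j * t) := by
      intro a t
      unfold gpol gp
      rw [eval_prod]
      apply Finset.prod_congr rfl
      intro j _
      simp
    rw [eval_mul, hev, hev, ← Finset.prod_mul_distrib] at ht
    have h4 : ∀ u v : K, hom5 G0 (G1 + w0) (G2 + z0) (G3 + w1) (G4 + z1) G5 u v =
        c * ∏ j, (b j * u + flip s0 a j * v) := by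
      intro u v
      rw [gpol_hom, ← c0, ← c1, ← c2, ← c3, ← c4, ← c5, hc]
      simp only [coeff_C_mul]
      unfold hom5
      ring
    have h5 := hprod 1 t
    rw [h4, h4, ← gpol_hom, ← gpol_hom] at h5
    have h6 : ∀ a' : Fin 5 → K, (∏ j, (b j * 1 + a' j * t)) * (∏ j, (b j * 1 + a' j * -t)) =
        ∏ j, (b j ^ 2 - a' j ^ 2 * t ^ 2) := by
      intro a'
      rw [← Finset.prod_mul_distrib]
      apply Finset.prod_congr rfl
      intro j _
      ring
    have h7 : c ^ 2 * ∏ j, (b j ^ 2 - a j ^ 2 * t ^ 2) = ∏ j, (b j ^ 2 - a j ^ 2 * t ^ 2) := by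
      have h8 : ∏ j, (b j ^ 2 - flip s0 a j ^ 2 * t ^ 2) =
          ∏ j, (b j ^ 2 - a j ^ 2 * t ^ 2) := by
        apply Finset.prod_congr rfl
        intro j _
        rw [flip_sq]
      have e1 := h6 (flip s0 a)
      have e2 := h6 a
      rw [h8] at e1
      have e3 : c ^ 2 * ((∏ j, (b j * 1 + flip s0 a j * t)) *
          ∏ j, (b j * 1 + flip s0 a j * -t)) =
          (∏ j, (b j * 1 + a j * t)) * ∏ j, (b j * 1 + a j * -t) := by
        linear_combination h5
      rw [e1, e2] at e3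
      exact e3
    have h9 : ∏ j, (b j ^ 2 - a j ^ 2 * t ^ 2) ≠ 0 := by
      intro h0
      apply ht
      rw [← h0]
      apply Finset.prod_congr rfl
      intro j _
      ring
    have h10 : (c ^ 2 - 1) * ∏ j, (b j ^ 2 - a j ^ 2 * t ^ 2) = 0 := by linear_combination h7
    have := (mul_eq_zero.mp h10).resolve_right h9
    linear_combination this
  -- adjust the sign
  obtain ⟨s1, hs1⟩ : ∃ s1 : Finset (Fin 5), g' = gpol (flip s1 a) b := by
    have h3 : (c - 1) * (c + 1) = 0 := by linear_combination hcsq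
    rcases mul_eq_zero.mp h3 with h | h
    · have : c = 1 := by linear_combination h
      exact ⟨s0, by rw [hc, this]; simp⟩
    · have hc1 : c = -1 := by linear_combination h
      have h4 : ∏ j, b j = 0 := by
        have h5 := congrArg (fun p => coeff p 0) hc
        simp only [coeff_C_mul, gpol_coeff_zero', hc1] at h5
        rw [c0, hG0, gpol_coeff_zero'] at h5
        have : 2 * ∏ j, b j = 0 := by linear_combination h5
        exact (mul_eq_zero.mp this).resolve_left h2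
      obtain ⟨j0, -, hj0⟩ := Finset.prod_eq_zero_iff.mp h4
      refine ⟨toggle s0 j0, ?_⟩
      rw [hc, hc1]
      exact (gpol_flip_one _ _ b j0 hj0 (flip_toggle s0 a j0)
        (fun i hi => flip_toggle_ne s0 a j0 i hi)).symm
  obtain ⟨s, hs, hse⟩ : ∃ s : Finset (Fin 5), g' = gpol (flip s a) b ∧ Even s.card := by
    by_cases hev : Even s1.card
    · exact ⟨s1, hs1, hev⟩
    · have h3 : ∏ j, a j = 0 := by
        have h5 := congrArg (fun p => coeff p 5) hs1
        simp only [gpol_coeff_five', flip_prod] at h5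
        rw [c5, hG5, gpol_coeff_five', Odd.neg_one_pow (Nat.not_even_iff_odd.mp hev)] at h5
        have : 2 * ∏ j, a j = 0 := by linear_combination h5
        exact (mul_eq_zero.mp this).resolve_left h2
      obtain ⟨j0, -, hj0⟩ := Finset.prod_eq_zero_iff.mp h3
      refine ⟨toggle s1 j0, ?_, (toggle_card s1 j0).mpr hev⟩
      rw [hs1]
      congr 1
      funext i
      by_cases hi : i = j0
      · rw [hi, flip_toggle]
        unfold flip
        split_ifs <;> simp [hj0]
      · rw [flip_toggle_ne s1 a j0 i hi]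
  refine ⟨s, hse, ?_⟩
  intro q hq
  obtain ⟨x, y, rfl⟩ := hmem q hq
  refine ⟨x, y, ?_⟩
  rw [← hs, c1, c2, c3, c4]
  congr 1 <;> ring

end

end Pool.Agent.H22.Cubic
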