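import Mathlib
import Pool.Agent.H22.Cubic.Flip

open Polynomial

namespace Pool.Agent.H22.Cubic

universe u v

section defs

variable {F : Type u} [Field F]

/-- coefficients given by a polynomial -/
noncomputable def cubP {R : Type*} [CommRing R] (g : R[X]) : Cub R :=
  cubG (g.coeff 0) (g.coeff 1) (g.coeff 2) (g.coeff 3) (g.coeff 4) (g.coeff 5)

open Classical in
/-- Bezout coefficient -/
noncomputable def lam (a b : F) : F := if a = 0 then 1 / b else 0

open Classical in
/-- Bezout coefficient -/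
noncomputable def mu (a : F) : F := if a = 0 then 0 else -1 / a

theorem lam_mu (a b : F) (h : a ≠ 0 ∨ b ≠ 0) : b * lam a b - a * mu a = 1 := by
  unfold lam mu
  split_ifs with ha
  · have hb : b ≠ 0 := h.resolve_left (fun h => h ha)
    field_simp
    ring
  · field_simp
    ring

/-- matrix of the frame of the `i`-th plane -/
noncomputable def matI (a b : F) : Matrix (Fin 4) (Fin 4) F :=
  !![0, 0, a, b; 0, 0, lam a b, mu a; a ^ 2, b ^ 2, 0, 0;
    -lam (a ^ 2) (b ^ 2), -mu (a ^ 2), 0, 0]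

theorem det_matI (a b : F) (h : a ≠ 0 ∨ b ≠ 0) : (matI a b).det ≠ 0 := by
  have h1 := lam_mu a b h
  have h2 := lam_mu (a ^ 2) (b ^ 2) (by
    rcases h with h | h
    · left; exact pow_ne_zero 2 h
    · right; exact pow_ne_zero 2 h)
  unfold matI
  rw [det4]
  intro h0
  have h3 : (b * lam a b - a * mu a) * (b ^ 2 * lam (a ^ 2) (b ^ 2) - a ^ 2 * mu (a ^ 2)) = 0 := by
    rw [← neg_eq_zero, ← h0]
    ring
  rw [h1, h2] at h3
  norm_num at h3

/-- frame of the `i`-th plane through the line `ℓ0` -/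
noncomputable def frI (fr : Frame F) (a b : F) (h : a ≠ 0 ∨ b ≠ 0) : Frame F :=
  fr.trans (matI a b) (det_matI a b h)

/-- matrix for the line `n_i^-` -/
noncomputable def matN (a b κ : F) : Matrix (Fin 4) (Fin 4) F :=
  !![0, 0, a, -b; a ^ 2, b ^ 2, -(2 * κ * lam a b), 2 * κ * mu a;
    -lam (a ^ 2) (b ^ 2), -mu (a ^ 2), 0, 0; 0, 0, lam a b, -mu a]

theorem det_matN (a b κ : F) (h : a ≠ 0 ∨ b ≠ 0) : (matN a b κ).det ≠ 0 := by
  have h1 := lam_mu a b h
  have h2 := lam_mu (a ^ 2) (b ^ 2) (by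
    rcases h with h | h
    · left; exact pow_ne_zero 2 h
    · right; exact pow_ne_zero 2 h)
  unfold matN
  rw [det4]
  intro h0
  have h3 : (b * lam a b - a * mu a) * (b ^ 2 * lam (a ^ 2) (b ^ 2) - a ^ 2 * mu (a ^ 2)) = 0 := by
    rw [← h0]
    ring
  rw [h1, h2] at h3
  norm_num at h3

/-- frame of the line `n_i^-` -/
noncomputable def frN (fr : Frame F) (a b κ : F) (h : a ≠ 0 ∨ b ≠ 0) : Frame F :=
  fr.trans (matN a b κ) (det_matN a b κ h)

theorem det_matM (z0 w0 z1 w1 : F) :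
    (!![1, 0, z0, w0; 0, 1, z1, w1; 0, 0, 1, 0; 0, 0, 0, (1 : F)]).det ≠ 0 := by
  rw [det4]
  norm_num

/-- frame of the lines skew to `ℓ0` -/
noncomputable def frM (fr : Frame F) (z0 w0 z1 w1 : F) : Frame F :=
  fr.trans !![1, 0, z0, w0; 0, 1, z1, w1; 0, 0, 1, 0; 0, 0, 0, (1 : F)] (det_matM z0 w0 z1 w1)

/-- the type of the `i`-th plane -/
def nu {R : Type*} [CommRing R] (a b : Fin 5 → R) (i : Fin 5) : R :=
  ∏ j ∈ Finset.univ.erase i, (a i ^ 2 * b j ^ 2 - a j ^ 2 * b i ^ 2)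

theorem kap_mul_kap' {R : Type*} [CommRing R] (a b : Fin 5 → R) (i : Fin 5) :
    kap a b i * kap' a b i = nu a b i := by
  unfold kap kap' nu
  rw [← Finset.prod_mul_distrib]
  apply Finset.prod_congr rfl
  intro j _
  ring

end defs

section

variable {F : Type u} [Field F] {K : Type v} [Field K] [Algebra F K]

theorem frI_pt (fr : Frame F) (a b : F) (h : a ≠ 0 ∨ b ≠ 0) (x y z w : K) :
    (frI fr a b h).pt x y z w = fr.pt
      (z * (algebraMap F K a) ^ 2 - w * algebraMap F K (lam (a ^ 2) (b ^ 2)))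
      (z * (algebraMap F K b) ^ 2 - w * algebraMap F K (mu (a ^ 2)))
      (x * algebraMap F K a + y * algebraMap F K (lam a b))
      (x * algebraMap F K b + y * algebraMap F K (mu a)) := by
  unfold frI
  rw [Frame.trans_pt]
  congr 1 <;> simp [matI, sub_eq_add_neg]

theorem frN_pt (fr : Frame F) (a b κ : F) (h : a ≠ 0 ∨ b ≠ 0) (x y : K) :
    (frN fr a b κ h).pt x y 0 0 = fr.pt
      (y * (algebraMap F K a) ^ 2) (y * (algebraMap F K b) ^ 2)
      (x * algebraMap F K a - y * (2 * algebraMap F K κ * algebraMap F K (lam a b)))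
      (-(x * algebraMap F K b) + y * (2 * algebraMap F K κ * algebraMap F K (mu a))) := by
  have h2 : algebraMap F K 2 = 2 := map_ofNat _ 2
  unfold frN
  rw [Frame.trans_pt]
  congr 1 <;> simp [matN, sub_eq_add_neg, h2]

theorem frM_pt (fr : Frame F) (z0 w0 z1 w1 : F) (x y z w : K) :
    (frM fr z0 w0 z1 w1).pt x y z w = fr.pt x y
      (x * algebraMap F K z0 + y * algebraMap F K z1 + z)
      (x * algebraMap F K w0 + y * algebraMap F K w1 + w) := by
  unfold frM
  rw [Frame.trans_pt]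
  congr 1 <;> simp

/-- `ℓ0` is hyperbolic -/
theorem hasType_l0 [IsAlgClosed K] (h2 : (2 : F) ≠ 0) (S : Surf K) (hS : S.Smooth)
    (fr : Frame F) (g : F[X]) (hC : InFrame S fr (cubP g)) :
    fr.p23.line01 K ∈ S.lines ∧ HasType S (fr.p23.line01 K) (1 : F) := by
  have h := hasType_of h2 S hS fr.p23 0 0 (-1) 1 0 0 (by
    intro x y
    rw [fr.p23_pt, hC.φ]
    simp only [cubP, cubG, Cub.map, Cub.ev, map_zero, map_neg, map_mul, map_ofNat, map_one]
    ring) (by
    intro x y u0 u1 u2 u3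
    rw [fr.p23_pt, fr.p23_pt, hC.D]
    simp only [cubP, cubG, Cub.map, Cub.dx, Cub.dy, Cub.dz, Cub.dw, map_zero, map_neg, map_mul,
      map_ofNat, map_one, quad]
    ring)
  refine ⟨h.1, ?_⟩
  have e : segreDisc (0 : F) 0 (-1) 1 0 0 = 1 := by
    unfold segreDisc
    ring
  rw [← e]
  exact h.2

theorem hasType_nPlus [IsAlgClosed K] (h2 : (2 : F) ≠ 0) (S : Surf K) (hS : S.Smooth)
    (fr : Frame F) (a b : Fin 5 → F) (hC : InFrame S fr (cubP (gpol a b))) (i : Fin 5)
    (hi : a i ≠ 0 ∨ b i ≠ 0) : (frI fr (a i) (b i) hi).p02.line01 K ∈ S.lines ∧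
    HasType S ((frI fr (a i) (b i) hi).p02.line01 K) (4 * nu a b i) := by
  obtain ⟨h0, h1, h2', h3, h4, h5⟩ := gpol_factor a b i
  have hκ := kap_eq a b i
  have hκ' := kap'_eq a b i
  have hl := congrArg (algebraMap F K) (lam_mu (a i) (b i) hi)
  have hl' := congrArg (algebraMap F K) (lam_mu (a i ^ 2) (b i ^ 2) (by
    rcases hi with h | h
    · left; exact pow_ne_zero 2 h
    · right; exact pow_ne_zero 2 h))
  rw [map_sub, map_mul, map_mul, map_one] at hl hl'
  rw [map_pow, map_pow] at hl'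
  set ψ0 := (psi a b i).coeff 0
  set ψ1 := (psi a b i).coeff 1
  set ψ2 := (psi a b i).coeff 2
  set ψ3 := (psi a b i).coeff 3
  set ψ4 := (psi a b i).coeff 4
  set A := a i with hA
  set B := b i with hB
  have h := hasType_of h2 S hS (frI fr A B hi).p02 0 (2 * A * B) (2 * kap a b i) 1
    (2 * (A ^ 2 * ψ1 + B ^ 2 * ψ3)) 0 (by
    intro x y
    rw [Frame.p02_pt, frI_pt, hC.φ]
    simp only [cubP, cubG, Cub.map, Cub.ev, map_zero, map_neg, map_mul, map_ofNat, map_one,
      h0, h1, h2', h3, h4, h5, map_add]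
    ring) (by
    intro x y u0 u1 u2 u3
    rw [Frame.p02_pt, Frame.p02_pt, frI_pt, frI_pt, hC.D]
    rw [hκ]
    simp only [cubP, cubG, Cub.map, Cub.dx, Cub.dy, Cub.dz, Cub.dw, map_zero, map_neg, map_mul,
      map_ofNat, map_one, h0, h1, h2', h3, h4, h5, map_add, quad, hom4, map_pow]
    linear_combination
      (u3 * x * (x + 2 * ((algebraMap F K A) ^ 2 * algebraMap F K ψ1 +
        (algebraMap F K B) ^ 2 * algebraMap F K ψ3) * y)) * hl' +
      (u2 * (2 * y * (algebraMap F K A * algebraMap F K B * x +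
        (algebraMap F K ψ0 * (algebraMap F K A) ^ 4 +
        algebraMap F K ψ1 * (algebraMap F K A) ^ 3 * algebraMap F K B +
        algebraMap F K ψ2 * (algebraMap F K A) ^ 2 * (algebraMap F K B) ^ 2 +
        algebraMap F K ψ3 * algebraMap F K A * (algebraMap F K B) ^ 3 +
        algebraMap F K ψ4 * (algebraMap F K B) ^ 4) * y))) * hl)
  refine ⟨h.1, ?_⟩
  have e : segreDisc 0 (2 * A * B) (2 * kap a b i) 1 (2 * (A ^ 2 * ψ1 + B ^ 2 * ψ3)) 0 =
      4 * nu a b i := by
    rw [← kap_mul_kap', hκ, hκ']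
    unfold segreDisc hom4
    ring
  rw [← e]
  exact h.2

end

end Pool.Agent.H22.Cubic
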