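import Mathlib
import Pool.Agent.H22.Cubic.Lines27

open Polynomial

namespace Pool.Agent.H22.Cubic

universe u v

section

variable {F : Type u} [Field F] {K : Type v} [Field K] [Algebra F K]

theorem frI_line01 (fr : Frame F) (a b : F) (h : a ≠ 0 ∨ b ≠ 0) :
    (frI fr a b h).line01 K = fr.p23.line01 K := by
  apply eq_of_le_of_finrank_two _ _ (Frame.finrank_line01 _) (Frame.finrank_line01 _)
  intro p hp
  obtain ⟨x, y, rfl⟩ := (Frame.mem_line01 _ _).mp hp
  refine (Frame.mem_line01 _ _).mpr ⟨x * algebraMap F K a + y * algebraMap F K (lam a b),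
    x * algebraMap F K b + y * algebraMap F K (mu a), ?_⟩
  rw [frI_pt, fr.p23_pt]
  congr 1 <;> ring

theorem nMinus_mem_lines (S : Surf K)
    (fr : Frame F) (a b : Fin 5 → F) (hC : InFrame S fr (cubP (gpol a b))) (i : Fin 5)
    (hi : a i ≠ 0 ∨ b i ≠ 0) : (frN fr (a i) (b i) (kap a b i) hi).line01 K ∈ S.lines := by
  apply Frame.line01_mem_lines
  intro x y
  rw [frN_pt, hC.φ]
  have hP := congrArg (algebraMap F K) (P_eq a b i)
  have hQ := congrArg (algebraMap F K) (Q_eq a b i)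
  have hl := congrArg (algebraMap F K) (lam_mu (a i) (b i) hi)
  simp only [map_sub, map_mul, map_one, map_add, map_pow] at hP hQ hl
  simp only [cubP, cubG, Cub.map, Cub.ev, map_zero, map_neg, map_mul, map_ofNat, map_one]
  set A := algebraMap F K (a i)
  set B := algebraMap F K (b i)
  set κ := algebraMap F K (kap a b i)
  set l := algebraMap F K (lam (a i) (b i))
  set m := algebraMap F K (mu (a i))
  set z := x * A - y * (2 * κ * l) with hz
  set w := -(x * B) + y * (2 * κ * m) with hw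
  have hzw : B * z + A * w + 2 * κ * y = 0 := by
    rw [hz, hw]
    linear_combination -2 * κ * y * hl
  linear_combination y * (B * z - A * w) * hzw + 2 * y ^ 2 * z * hP - 2 * y ^ 2 * w * hQ

theorem HasType.iff_square {S : Surf K} {W : Submodule K (Fin 4 → K)} {D D' : F}
    (h : HasType S W D) (h' : HasType S W D') : IsSquare D ↔ IsSquare D' := by
  rw [← h.hyp, ← h'.hyp]

theorem HasType.congr {S : Surf K} {W : Submodule K (Fin 4 → K)} {D D' : F}
    (h : HasType S W D) (hne : D' ≠ 0) (hs : IsSquare D ↔ IsSquare D') : HasType S W D' :=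
  ⟨hne, h.hyp.trans hs, h.ell.trans (not_congr hs)⟩

theorem isSquare_iff_of_prod {D1 D2 D3 : F} (h1 : D1 ≠ 0) (h2 : D2 ≠ 0) (h3 : D3 ≠ 0)
    (hs : IsSquare D1) (hp : IsSquare (D1 * D2 * D3)) : IsSquare D3 ↔ IsSquare D2 := by
  obtain ⟨r, hr⟩ := hs
  obtain ⟨s, hs⟩ := hp
  have hr0 : r ≠ 0 := by
    rintro rfl
    exact h1 (by rw [hr, mul_zero])
  constructor
  · rintro ⟨t, ht⟩
    have ht0 : t ≠ 0 := by
      rintro rfl
      exact h3 (by rw [ht, mul_zero])
    refine ⟨s / (r * t), ?_⟩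
    rw [hr, ht] at hs
    field_simp
    linear_combination hs
  · rintro ⟨t, ht⟩
    have ht0 : t ≠ 0 := by
      rintro rfl
      exact h2 (by rw [ht, mul_zero])
    refine ⟨s / (r * t), ?_⟩
    rw [hr, ht] at hs
    field_simp
    linear_combination hs

theorem nMinus_inPlane (fr : Frame F) (a b κ : F) (h : a ≠ 0 ∨ b ≠ 0) :
    (frI fr a b h).InPlane ((frN fr a b κ h).line01 K) := by
  intro p hp
  obtain ⟨x, y, rfl⟩ := (Frame.mem_line01 _ _).mp hp
  rw [frN_pt]
  have hl := congrArg (algebraMap F K) (lam_mu a b h)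
  simp only [map_sub, map_mul, map_one] at hl
  set A := algebraMap F K a
  set B := algebraMap F K b
  set k := algebraMap F K κ
  set l := algebraMap F K (lam a b) with hl'
  set m := algebraMap F K (mu a) with hm'
  refine ⟨-(m * (x * A - y * (2 * k * l)) - l * (-(x * B) + y * (2 * k * m))),
    B * (x * A - y * (2 * k * l)) - A * (-(x * B) + y * (2 * k * m)), y, ?_⟩
  rw [frI_pt]
  rw [← hl', ← hm']
  congr 1
  · ring
  · ring
  · linear_combination (-(x * A - y * (2 * k * l))) * hl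
  · linear_combination (-(-(x * B) + y * (2 * k * m))) * hl

theorem hasType_nMinus [IsAlgClosed K] (h2 : (2 : F) ≠ 0) (S : Surf K) (hS : S.Smooth)
    (hc : IsCubicF F S) (fr : Frame F) (a b : Fin 5 → F)
    (hC : InFrame S fr (cubP (gpol a b))) (i : Fin 5)
    (hi : a i ≠ 0 ∨ b i ≠ 0) :
    HasType S ((frN fr (a i) (b i) (kap a b i) hi).line01 K) (4 * nu a b i) := by
  have hl0 := hasType_l0 h2 S hS fr _ hC
  have hp := hasType_nPlus h2 S hS fr a b hC i hi
  have hm := nMinus_mem_lines S fr a b hC i hi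
  obtain ⟨C, hC'⟩ := hc (frI fr (a i) (b i) hi)
  obtain ⟨fr3, -, -, -, -, huniq, D1, D2, D3, hD1, hD2, hD3, hsq⟩ :=
    trio h2 S hS (frI fr (a i) (b i) hi) C hC' (by rw [frI_line01]; exact hl0.1) hp.1
  have hκ : kap a b i ≠ 0 := by
    intro h0
    apply hp.2.ne
    rw [← kap_mul_kap', h0]
    ring
  have hl := congrArg (algebraMap F K) (lam_mu (a i) (b i) hi)
  simp only [map_sub, map_mul, map_one] at hl
  have hκK : algebraMap F K (kap a b i) ≠ 0 := fun h => hκ (algebraMap_eq_zero' h)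
  have h2K := two_ne_zero_of (K := K) h2
  rcases huniq _ hm (nMinus_inPlane fr (a i) (b i) (kap a b i) hi) with h | h | h
  · exfalso
    have hmem : (frN fr (a i) (b i) (kap a b i) hi).pt (0 : K) 1 0 0 ∈
        (frI fr (a i) (b i) hi).line01 K := by
      rw [← h]
      exact (Frame.mem_line01 _ _).mpr ⟨_, _, rfl⟩
    rw [frI_line01, frN_pt] at hmem
    obtain ⟨z, w, hzw⟩ := (Frame.mem_line01 _ _).mp hmem
    rw [fr.p23_pt] at hzw
    obtain ⟨h3, h4, -, -⟩ := fr.pt_inj hzw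
    rw [one_mul] at h3 h4
    rcases hi with h5 | h5
    · exact h5 (algebraMap_eq_zero' (pow_eq_zero_iff two_ne_zero |>.mp h3))
    · exact h5 (algebraMap_eq_zero' (pow_eq_zero_iff two_ne_zero |>.mp h4))
  · exfalso
    have hmem : (frI fr (a i) (b i) hi).p02.pt (0 : K) 1 0 0 ∈
        (frN fr (a i) (b i) (kap a b i) hi).line01 K := by
      rw [h]
      exact (Frame.mem_line01 _ _).mpr ⟨_, _, rfl⟩
    rw [Frame.p02_pt, frI_pt] at hmem
    obtain ⟨x, y, hxy⟩ := (Frame.mem_line01 _ _).mp hmem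
    rw [frN_pt] at hxy
    obtain ⟨h3, h4, h5, h6⟩ := fr.pt_inj hxy
    have hy : y = 1 := by
      rcases hi with h7 | h7
      · have hAK : algebraMap F K (a i) ≠ 0 := fun h => h7 (algebraMap_eq_zero' h)
        have : (y - 1) * (algebraMap F K (a i)) ^ 2 = 0 := by linear_combination -h3
        have := (mul_eq_zero.mp this).resolve_right (pow_ne_zero 2 hAK)
        linear_combination this
      · have hBK : algebraMap F K (b i) ≠ 0 := fun h => h7 (algebraMap_eq_zero' h)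
        have : (y - 1) * (algebraMap F K (b i)) ^ 2 = 0 := by linear_combination -h4
        have := (mul_eq_zero.mp this).resolve_right (pow_ne_zero 2 hBK)
        linear_combination this
    rw [hy] at h5 h6
    have : 2 * algebraMap F K (kap a b i) = 0 := by
      linear_combination (algebraMap F K (b i)) * h5 + (algebraMap F K (a i)) * h6 -
        2 * algebraMap F K (kap a b i) * hl
    exact mul_ne_zero h2K hκK this
  · rw [h]
    apply hD3.congr hp.2.ne
    rw [← hD2.iff_square hp.2]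
    apply isSquare_iff_of_prod hD1.ne hD2.ne hD3.ne _ hsq
    have h3 : HasType S ((frI fr (a i) (b i) hi).line01 K) (1 : F) := by
      rw [frI_line01]
      exact hl0.2
    rw [hD1.iff_square h3]
    exact IsSquare.one

/-- the relations satisfied by the coefficients -/
theorem rel_of_hom [IsAlgClosed K] (G0 G1 G2 G3 G4 G5 H1 H2 H3 H4 : K)
    (h : ∀ t : K, hom5 G0 H1 H2 H3 H4 G5 1 t * hom5 G0 H1 H2 H3 H4 G5 1 (-t) =
      hom5 G0 G1 G2 G3 G4 G5 1 t * hom5 G0 G1 G2 G3 G4 G5 1 (-t)) :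
    2 * G0 * H2 - H1 ^ 2 = 2 * G0 * G2 - G1 ^ 2 ∧
    H2 ^ 2 + 2 * G0 * H4 - 2 * H1 * H3 = G2 ^ 2 + 2 * G0 * G4 - 2 * G1 * G3 ∧
    2 * H2 * H4 - H3 ^ 2 - 2 * H1 * G5 = 2 * G2 * G4 - G3 ^ 2 - 2 * G1 * G5 ∧
    H4 ^ 2 - 2 * H3 * G5 = G4 ^ 2 - 2 * G3 * G5 := by
  have : Infinite K := IsAlgClosed.instInfinite
  obtain ⟨-, h1, h2, h3, h4, -⟩ := coeff_zero_of_forall 0
    ((2 * G0 * H2 - H1 ^ 2) - (2 * G0 * G2 - G1 ^ 2))
    ((H2 ^ 2 + 2 * G0 * H4 - 2 * H1 * H3) - (G2 ^ 2 + 2 * G0 * G4 - 2 * G1 * G3))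
    ((2 * H2 * H4 - H3 ^ 2 - 2 * H1 * G5) - (2 * G2 * G4 - G3 ^ 2 - 2 * G1 * G5))
    ((H4 ^ 2 - 2 * H3 * G5) - (G4 ^ 2 - 2 * G3 * G5)) 0 (by
      intro τ
      obtain ⟨t, ht⟩ := IsAlgClosed.exists_pow_nat_eq τ (n := 2) (by norm_num)
      have := h t
      rw [← ht]
      unfold hom5 at this
      linear_combination this)
  exact ⟨sub_eq_zero.mp h1, sub_eq_zero.mp h2, sub_eq_zero.mp h3, sub_eq_zero.mp h4⟩

theorem hom_flip (a b : Fin 5 → K) (s : Finset (Fin 5)) (t : K) :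
    (∏ j, (b j * 1 + flip s a j * t)) * (∏ j, (b j * 1 + flip s a j * -t)) =
    (∏ j, (b j * 1 + a j * t)) * (∏ j, (b j * 1 + a j * -t)) := by
  rw [← Finset.prod_mul_distrib, ← Finset.prod_mul_distrib]
  apply Finset.prod_congr rfl
  intro j _
  linear_combination -t ^ 2 * flip_sq s a j

theorem rel_flip [IsAlgClosed K] (a b : Fin 5 → K) (s : Finset (Fin 5)) (hs : Even s.card) :
    2 * (gpol a b).coeff 0 * (gpol (flip s a) b).coeff 2 - (gpol (flip s a) b).coeff 1 ^ 2 =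
      2 * (gpol a b).coeff 0 * (gpol a b).coeff 2 - (gpol a b).coeff 1 ^ 2 ∧
    (gpol (flip s a) b).coeff 2 ^ 2 + 2 * (gpol a b).coeff 0 * (gpol (flip s a) b).coeff 4 -
      2 * (gpol (flip s a) b).coeff 1 * (gpol (flip s a) b).coeff 3 =
      (gpol a b).coeff 2 ^ 2 + 2 * (gpol a b).coeff 0 * (gpol a b).coeff 4 -
      2 * (gpol a b).coeff 1 * (gpol a b).coeff 3 ∧
    2 * (gpol (flip s a) b).coeff 2 * (gpol (flip s a) b).coeff 4 -
      (gpol (flip s a) b).coeff 3 ^ 2 - 2 * (gpol (flip s a) b).coeff 1 * (gpol a b).coeff 5 =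
      2 * (gpol a b).coeff 2 * (gpol a b).coeff 4 - (gpol a b).coeff 3 ^ 2 -
      2 * (gpol a b).coeff 1 * (gpol a b).coeff 5 ∧
    (gpol (flip s a) b).coeff 4 ^ 2 - 2 * (gpol (flip s a) b).coeff 3 * (gpol a b).coeff 5 =
      (gpol a b).coeff 4 ^ 2 - 2 * (gpol a b).coeff 3 * (gpol a b).coeff 5 := by
  have h0 : (gpol (flip s a) b).coeff 0 = (gpol a b).coeff 0 := by
    rw [gpol_coeff_zero', gpol_coeff_zero']
  have h5 : (gpol (flip s a) b).coeff 5 = (gpol a b).coeff 5 := by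
    rw [gpol_coeff_five', gpol_coeff_five', flip_prod, hs.neg_one_pow, one_mul]
  apply rel_of_hom
  intro t
  have h := hom_flip a b s t
  rw [gpol_hom, gpol_hom, gpol_hom, gpol_hom, h0, h5] at h
  exact h

end

end Pool.Agent.H22.Cubic
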