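import Mathlib
import Pool.Agent.H22.Cubic.Lines27b

open Polynomial

namespace Pool.Agent.H22.Cubic

universe u v

section

variable {F : Type u} [Field F]

/-- discriminant attached to a polynomial -/
noncomputable def Dg (g : F[X]) : F :=
  segreDisc (g.coeff 0) (g.coeff 2) (g.coeff 4) (g.coeff 1) (g.coeff 3) (g.coeff 5)

/-- frame of the line `m_s` -/
noncomputable def frMs (fr : Frame F) (a b : Fin 5 → F) (s : Finset (Fin 5)) : Frame F :=
  frM fr ((gpol (flip s a) b).coeff 2 - (gpol a b).coeff 2)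
    ((gpol (flip s a) b).coeff 1 - (gpol a b).coeff 1)
    ((gpol (flip s a) b).coeff 4 - (gpol a b).coeff 4)
    ((gpol (flip s a) b).coeff 3 - (gpol a b).coeff 3)

/-- auxiliary function `h(ψ)` -/
noncomputable def hpsi (a b : Fin 5 → F) (i : Fin 5) : F :=
  (psi a b i).coeff 1 * (psi a b i).coeff 2 * (psi a b i).coeff 3 -
    (psi a b i).coeff 0 * (psi a b i).coeff 3 ^ 2 - (psi a b i).coeff 1 ^ 2 * (psi a b i).coeff 4

theorem Dg_eq (a b : Fin 5 → F) (i : Fin 5) : Dg (gpol a b) = -(kap a b i * hpsi a b i) := by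
  obtain ⟨h0, h1, h2, h3, h4, h5⟩ := gpol_factor a b i
  unfold Dg hpsi segreDisc
  rw [h0, h1, h2, h3, h4, h5, kap_eq]
  unfold hom4
  ring

theorem psi_congr (a a' b : Fin 5 → F) (i : Fin 5) (h : ∀ j, j ≠ i → a' j = a j) :
    psi a' b i = psi a b i := by
  unfold psi gp
  apply Finset.prod_congr rfl
  intro j hj
  rw [h j (Finset.ne_of_mem_erase hj)]

theorem psi_neg (a b : Fin 5 → F) (i : Fin 5) : psi (fun j => -a j) b i =
    (psi a b i).comp (C (-1) * X) := by
  unfold psi gp
  rw [Polynomial.prod_comp]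
  apply Finset.prod_congr rfl
  intro j _
  simp

/-- flipping all the signs but the `i`-th -/
theorem Dg_flip (a b : Fin 5 → F) (i : Fin 5) :
    Dg (gpol a b) * Dg (gpol (flip (Finset.univ.erase i) a) b) = nu a b i * hpsi a b i ^ 2 := by
  rw [Dg_eq a b i, Dg_eq _ b i, ← kap_mul_kap']
  have h1 : kap (flip (Finset.univ.erase i) a) b i = kap' a b i := by
    unfold kap kap'
    apply Finset.prod_congr rfl
    intro j hj
    have hi : flip (Finset.univ.erase i) a i = a i := by
      unfold flip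
      rw [if_neg (by simp)]
    have hj' : flip (Finset.univ.erase i) a j = -a j := by
      unfold flip
      rw [if_pos hj]
    rw [hi, hj']
    ring
  have h2 : hpsi (flip (Finset.univ.erase i) a) b i = hpsi a b i := by
    have h3 : psi (flip (Finset.univ.erase i) a) b i = (psi a b i).comp (C (-1) * X) := by
      rw [← psi_neg]
      apply psi_congr
      intro j hj
      unfold flip
      rw [if_pos (by simp [hj])]
    unfold hpsi
    rw [h3]
    simp only [comp_C_mul_X_coeff]
    ring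
  rw [h1, h2]
  ring

theorem nu_flip (a b : Fin 5 → F) (s : Finset (Fin 5)) (i : Fin 5) :
    nu (flip s a) b i = nu a b i := by
  unfold nu
  apply Finset.prod_congr rfl
  intro j _
  rw [flip_sq, flip_sq]

theorem flip_flip (a : Fin 5 → F) (s t : Finset (Fin 5)) :
    flip t (flip s a) = flip (symmDiff s t) a := by
  funext j
  unfold flip
  by_cases hs : j ∈ s <;> by_cases ht : j ∈ t <;> simp [Finset.mem_symmDiff, hs, ht]

end

section

variable {F : Type u} [Field F] {K : Type v} [Field K] [Algebra F K]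

theorem flip_map (a : Fin 5 → F) (s : Finset (Fin 5)) :
    (fun j => algebraMap F K (flip s a j)) = flip s (fun j => algebraMap F K (a j)) := by
  funext j
  unfold flip
  split_ifs <;> simp

theorem rel_flip_map [IsAlgClosed K] (a b : Fin 5 → F) (s : Finset (Fin 5)) (hs : Even s.card) :
    2 * (gpol a b).coeff 0 * (gpol (flip s a) b).coeff 2 - (gpol (flip s a) b).coeff 1 ^ 2 =
      2 * (gpol a b).coeff 0 * (gpol a b).coeff 2 - (gpol a b).coeff 1 ^ 2 ∧
    (gpol (flip s a) b).coeff 2 ^ 2 + 2 * (gpol a b).coeff 0 * (gpol (flip s a) b).coeff 4 -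
      2 * (gpol (flip s a) b).coeff 1 * (gpol (flip s a) b).coeff 3 =
      (gpol a b).coeff 2 ^ 2 + 2 * (gpol a b).coeff 0 * (gpol a b).coeff 4 -
      2 * (gpol a b).coeff 1 * (gpol a b).coeff 3 ∧
    2 * (gpol (flip s a) b).coeff 2 * (gpol (flip s a) b).coeff 4 -
      (gpol (flip s a) b).coeff 3 ^ 2 - 2 * (gpol (flip s a) b).coeff 1 * (gpol a b).coeff 5 =
      2 * (gpol a b).coeff 2 * (gpol a b).coeff 4 - (gpol a b).coeff 3 ^ 2 -
      2 * (gpol a b).coeff 1 * (gpol a b).coeff 5 ∧
    (gpol (flip s a) b).coeff 4 ^ 2 - 2 * (gpol (flip s a) b).coeff 3 * (gpol a b).coeff 5 =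
      (gpol a b).coeff 4 ^ 2 - 2 * (gpol a b).coeff 3 * (gpol a b).coeff 5 := by
  have h := rel_flip (K := K) (fun j => algebraMap F K (a j)) (fun j => algebraMap F K (b j)) s hs
  simp only [← flip_map, gpol_map] at h
  obtain ⟨h1, h2, h3, h4⟩ := h
  have hinj : Function.Injective (algebraMap F K) := (algebraMap F K).injective
  refine ⟨?_, ?_, ?_, ?_⟩
  · apply hinj
    simp only [map_sub, map_mul, map_pow, map_ofNat]
    exact h1
  · apply hinj
    simp only [map_sub, map_mul, map_pow, map_ofNat, map_add]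
    exact h2
  · apply hinj
    simp only [map_sub, map_mul, map_pow, map_ofNat]
    exact h3
  · apply hinj
    simp only [map_sub, map_mul, map_pow, map_ofNat]
    exact h4

theorem hasType_m [IsAlgClosed K] (h2 : (2 : F) ≠ 0) (S : Surf K) (hS : S.Smooth)
    (fr : Frame F) (a b : Fin 5 → F) (hC : InFrame S fr (cubP (gpol a b)))
    (s : Finset (Fin 5)) (hs : Even s.card) : (frMs fr a b s).line01 K ∈ S.lines ∧
    HasType S ((frMs fr a b s).line01 K) (16 * Dg (gpol (flip s a) b)) := by
  obtain ⟨r1, r2, r3, r4⟩ := rel_flip_map (K := K) a b s hs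
  replace r1 := congrArg (algebraMap F K) r1
  replace r2 := congrArg (algebraMap F K) r2
  replace r3 := congrArg (algebraMap F K) r3
  replace r4 := congrArg (algebraMap F K) r4
  simp only [map_sub, map_mul, map_pow, map_ofNat, map_add] at r1 r2 r3 r4
  have h0 : (gpol (flip s a) b).coeff 0 = (gpol a b).coeff 0 := by
    rw [gpol_coeff_zero', gpol_coeff_zero']
  have h5 : (gpol (flip s a) b).coeff 5 = (gpol a b).coeff 5 := by
    rw [gpol_coeff_five', gpol_coeff_five', flip_prod, hs.neg_one_pow, one_mul]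
  have h := hasType_of h2 S hS (frMs fr a b s) (2 * (gpol (flip s a) b).coeff 0)
    (2 * (gpol (flip s a) b).coeff 2) (2 * (gpol (flip s a) b).coeff 4)
    (-(2 * (gpol (flip s a) b).coeff 1)) (-(2 * (gpol (flip s a) b).coeff 3))
    (-(2 * (gpol (flip s a) b).coeff 5)) (by
    intro x y
    unfold frMs
    rw [frM_pt, hC.φ]
    simp only [cubP, cubG, Cub.map, Cub.ev, map_zero, map_neg, map_mul, map_ofNat, map_one,
      map_sub]
    linear_combination x ^ 3 * r1 + x ^ 2 * y * r2 + x * y ^ 2 * r3 + y ^ 3 * r4) (by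
    intro x y u0 u1 u2 u3
    unfold frMs
    rw [frM_pt, frM_pt, hC.D, h0, h5]
    simp only [cubP, cubG, Cub.map, Cub.dx, Cub.dy, Cub.dz, Cub.dw, map_zero, map_neg, map_mul,
      map_ofNat, map_one, map_sub, quad]
    linear_combination (3 * x ^ 2 * u0) * r1 + (2 * x * y * u0 + x ^ 2 * u1) * r2 +
      (y ^ 2 * u0 + 2 * x * y * u1) * r3 + (3 * y ^ 2 * u1) * r4)
  refine ⟨h.1, ?_⟩
  have e : segreDisc (2 * (gpol (flip s a) b).coeff 0)
    (2 * (gpol (flip s a) b).coeff 2) (2 * (gpol (flip s a) b).coeff 4)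
    (-(2 * (gpol (flip s a) b).coeff 1)) (-(2 * (gpol (flip s a) b).coeff 3))
    (-(2 * (gpol (flip s a) b).coeff 5)) = 16 * Dg (gpol (flip s a) b) := by
    unfold segreDisc Dg segreDisc
    ring
  rw [← e]
  exact h.2

/-- coordinates of the points of the lines -/
theorem mem_l0 (fr : Frame F) (p : Fin 4 → K) :
    p ∈ fr.p23.line01 K ↔ ∃ z w : K, p = fr.pt 0 0 z w := by
  rw [Frame.mem_line01]
  simp_rw [fr.p23_pt]

theorem mem_nPlus (fr : Frame F) (a b : F) (h : a ≠ 0 ∨ b ≠ 0) (p : Fin 4 → K) :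
    p ∈ (frI fr a b h).p02.line01 K ↔ ∃ s r : K, p = fr.pt (s * (algebraMap F K a) ^ 2)
      (s * (algebraMap F K b) ^ 2) (r * algebraMap F K a) (r * algebraMap F K b) := by
  rw [Frame.mem_line01]
  constructor
  · rintro ⟨x, y, rfl⟩
    refine ⟨y, x, ?_⟩
    rw [Frame.p02_pt, frI_pt]
    congr 1 <;> ring
  · rintro ⟨s, r, rfl⟩
    refine ⟨r, s, ?_⟩
    rw [Frame.p02_pt, frI_pt]
    congr 1 <;> ring

theorem mem_nMinus (fr : Frame F) (a b κ : F) (h : a ≠ 0 ∨ b ≠ 0) (p : Fin 4 → K) :
    p ∈ (frN fr a b κ h).line01 K ↔ ∃ s z w : K, p = fr.pt (s * (algebraMap F K a) ^ 2)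
      (s * (algebraMap F K b) ^ 2) z w ∧
      algebraMap F K b * z + algebraMap F K a * w + 2 * algebraMap F K κ * s = 0 := by
  have hl := congrArg (algebraMap F K) (lam_mu a b h)
  simp only [map_sub, map_mul, map_one] at hl
  rw [Frame.mem_line01]
  constructor
  · rintro ⟨x, y, rfl⟩
    refine ⟨y, _, _, frN_pt fr a b κ h x y, ?_⟩
    linear_combination -2 * algebraMap F K κ * y * hl
  · rintro ⟨s, z, w, rfl, hzw⟩
    refine ⟨-(algebraMap F K (lam a b) * w + algebraMap F K (mu a) * z), s, ?_⟩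
    rw [frN_pt]
    congr 1
    · linear_combination -z * hl + algebraMap F K (lam a b) * hzw
    · linear_combination -w * hl - algebraMap F K (mu a) * hzw

theorem mem_m (fr : Frame F) (a b : Fin 5 → F) (s : Finset (Fin 5)) (p : Fin 4 → K) :
    p ∈ (frMs fr a b s).line01 K ↔ ∃ x y : K, p = fr.pt x y
      ((algebraMap F K ((gpol (flip s a) b).coeff 2) - algebraMap F K ((gpol a b).coeff 2)) * x +
        (algebraMap F K ((gpol (flip s a) b).coeff 4) - algebraMap F K ((gpol a b).coeff 4)) * y)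
      ((algebraMap F K ((gpol (flip s a) b).coeff 1) - algebraMap F K ((gpol a b).coeff 1)) * x +
        (algebraMap F K ((gpol (flip s a) b).coeff 3) -
          algebraMap F K ((gpol a b).coeff 3)) * y) := by
  rw [Frame.mem_line01]
  have hpt : ∀ x y : K, (frMs fr a b s).pt x y 0 0 = fr.pt x y
      ((algebraMap F K ((gpol (flip s a) b).coeff 2) - algebraMap F K ((gpol a b).coeff 2)) * x +
        (algebraMap F K ((gpol (flip s a) b).coeff 4) - algebraMap F K ((gpol a b).coeff 4)) * y)
      ((algebraMap F K ((gpol (flip s a) b).coeff 1) - algebraMap F K ((gpol a b).coeff 1)) * x +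
        (algebraMap F K ((gpol (flip s a) b).coeff 3) -
          algebraMap F K ((gpol a b).coeff 3)) * y) := by
    intro x y
    unfold frMs
    rw [frM_pt]
    simp only [map_sub]
    congr 1 <;> ring
  simp_rw [hpt]

end

end Pool.Agent.H22.Cubic
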