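import Mathlib
import Pool.Agent.H22.Cubic.Lines27c

open Polynomial

namespace Pool.Agent.H22.Cubic

universe u v

/-- non-degeneracy of the parameters -/
def Nondeg {F : Type u} [Field F] (a b : Fin 5 → F) : Prop :=
  ∀ i j, i ≠ j → a i ^ 2 * b j ^ 2 ≠ a j ^ 2 * b i ^ 2

section

variable {F : Type u} [Field F]

theorem Nondeg.ne_zero {a b : Fin 5 → F} (h : Nondeg a b) (i : Fin 5) : a i ≠ 0 ∨ b i ≠ 0 := by
  by_contra hcon
  push Not at hcon
  obtain ⟨j, hj⟩ := exists_ne i
  apply h i j hj.symm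
  rw [hcon.1, hcon.2]
  ring

theorem Nondeg.nu_ne {a b : Fin 5 → F} (h : Nondeg a b) (i : Fin 5) : nu a b i ≠ 0 := by
  unfold nu
  rw [Finset.prod_ne_zero_iff]
  intro j hj
  exact sub_ne_zero.mpr (h i j (Finset.ne_of_mem_erase hj).symm)

theorem Nondeg.kap_ne {a b : Fin 5 → F} (h : Nondeg a b) (i : Fin 5) : kap a b i ≠ 0 := by
  intro h0
  apply h.nu_ne i
  rw [← kap_mul_kap', h0, zero_mul]

theorem Nondeg.flip {a b : Fin 5 → F} (h : Nondeg a b) (s : Finset (Fin 5)) :
    Nondeg (flip s a) b := by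
  intro i j hij
  rw [flip_sq, flip_sq]
  exact h i j hij

theorem flip_prod_on (s t : Finset (Fin 5)) (a : Fin 5 → F) :
    ∏ j ∈ t, flip s a j = (-1) ^ (t ∩ s).card * ∏ j ∈ t, a j := by
  have h1 : ∀ j, flip s a j = (if j ∈ s then -1 else 1) * a j := by
    intro j
    unfold Cubic.flip
    split_ifs <;> ring
  simp_rw [h1]
  rw [Finset.prod_mul_distrib, Finset.prod_ite_mem]
  simp

theorem T_eq (a b : Fin 5 → F) (s : Finset (Fin 5)) (hs : Even s.card) (i : Fin 5) :
    b i * (a i ^ 2 * (gpol (flip s a) b).coeff 2 + b i ^ 2 * (gpol (flip s a) b).coeff 4) -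
      a i * (a i ^ 2 * (gpol (flip s a) b).coeff 1 + b i ^ 2 * (gpol (flip s a) b).coeff 3) =
    b i ^ 4 * (psi a b i).coeff 4 - a i ^ 4 * (psi a b i).coeff 0 +
      (if i ∈ s then 2 * kap (flip s a) b i else 0) := by
  obtain ⟨h0, h1, h2, h3, h4, h5⟩ := gpol_factor (flip s a) b i
  have e0 : (psi (flip s a) b i).coeff 0 = (psi a b i).coeff 0 := by
    rw [psi_coeff_zero', psi_coeff_zero']
  have e4 : (psi (flip s a) b i).coeff 4 = (-1) ^ ((Finset.univ.erase i) ∩ s).card *
      (psi a b i).coeff 4 := by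
    rw [psi_coeff_four', psi_coeff_four', flip_prod_on]
  rw [h1, h2, h3, h4, e0]
  split_ifs with hi
  · have hf : flip s a i = -a i := by
      unfold Cubic.flip
      rw [if_pos hi]
    have hcard : ((Finset.univ.erase i) ∩ s) = s.erase i := by
      ext j
      simp only [Finset.mem_inter, Finset.mem_erase, Finset.mem_univ, and_true]
    have hodd : Odd (s.erase i).card := by
      have := Finset.card_erase_add_one hi
      rw [← this] at hs
      rw [Nat.even_add_one, Nat.not_even_iff_odd] at hs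
      exact hs
    rw [hcard, hodd.neg_one_pow] at e4
    rw [kap_eq, hf, e0, e4]
    unfold hom4
    ring
  · have hf : flip s a i = a i := by
      unfold Cubic.flip
      rw [if_neg hi]
    have hcard : ((Finset.univ.erase i) ∩ s) = s := by
      ext j
      simp only [Finset.mem_inter, Finset.mem_erase, Finset.mem_univ, and_true]
      constructor
      · exact fun h => h.2
      · intro h
        refine ⟨?_, h⟩
        rintro rfl
        exact hi h
    rw [hcard, hs.neg_one_pow] at e4
    rw [hf, e4]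
    ring

theorem flip_inj_aux (h2 : (2 : F) ≠ 0) {a b : Fin 5 → F} (h : Nondeg a b)
    (s t : Finset (Fin 5)) (hs : Even s.card) (ht : Even t.card)
    (e1 : (gpol (flip s a) b).coeff 1 = (gpol (flip t a) b).coeff 1)
    (e2 : (gpol (flip s a) b).coeff 2 = (gpol (flip t a) b).coeff 2)
    (e3 : (gpol (flip s a) b).coeff 3 = (gpol (flip t a) b).coeff 3)
    (e4 : (gpol (flip s a) b).coeff 4 = (gpol (flip t a) b).coeff 4) : s ⊆ t := by
  intro i hi
  by_contra hit
  have h3 := T_eq a b s hs i
  have h4 := T_eq a b t ht i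
  rw [if_pos hi] at h3
  rw [if_neg hit] at h4
  rw [e1, e2, e3, e4, h4] at h3
  have h5 : 2 * kap (flip s a) b i = 0 := by linear_combination -h3
  exact mul_ne_zero h2 ((h.flip s).kap_ne i) h5

end

section

variable {F : Type u} [Field F] {K : Type v} [Field K] [Algebra F K]

theorem isNF_of_inFrame (S : Surf K) (fr : Frame F) (a b : Fin 5 → F)
    (hC : InFrame S fr (cubP (gpol a b))) :
    IsNF S fr (fun j => algebraMap F K (a j)) (fun j => algebraMap F K (b j)) := by
  intro x y z w
  rw [hC.φ]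
  simp only [gpol_map]
  simp only [cubP, cubG, Cub.map, Cub.ev, map_zero, map_neg, map_mul, map_ofNat, map_one, nf]
  ring

theorem Nondeg.map {a b : Fin 5 → F} (h : Nondeg a b) :
    Nondeg (fun j => algebraMap F K (a j)) (fun j => algebraMap F K (b j)) := by
  intro i j hij h0
  apply h i j hij
  apply (algebraMap F K).injective
  simpa using h0

/-- index set of the 27 lines -/
abbrev Idx := Option (Fin 5 ⊕ Fin 5 ⊕ {s : Finset (Fin 5) // Even s.card})

/-- the 27 lines -/
noncomputable def lineOf (K : Type v) [Field K] [Algebra F K] (fr : Frame F) (a b : Fin 5 → F)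
    (h0 : ∀ i, a i ≠ 0 ∨ b i ≠ 0) : Idx → Submodule K (Fin 4 → K)
  | none => fr.p23.line01 K
  | some (.inl i) => (frI fr (a i) (b i) (h0 i)).p02.line01 K
  | some (.inr (.inl i)) => (frN fr (a i) (b i) (kap a b i) (h0 i)).line01 K
  | some (.inr (.inr s)) => (frMs fr a b s.1).line01 K

/-- the types of the 27 lines -/
noncomputable def typeOf (a b : Fin 5 → F) : Idx → F
  | none => 1
  | some (.inl i) => 4 * nu a b i
  | some (.inr (.inl i)) => 4 * nu a b i
  | some (.inr (.inr s)) => 16 * Dg (gpol (flip s.1 a) b)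

theorem lineOf_mem [IsAlgClosed K] (h2 : (2 : F) ≠ 0) (S : Surf K) (hS : S.Smooth)
    (fr : Frame F) (a b : Fin 5 → F) (hC : InFrame S fr (cubP (gpol a b)))
    (h0 : ∀ i, a i ≠ 0 ∨ b i ≠ 0) (j : Idx) : lineOf K fr a b h0 j ∈ S.lines := by
  match j with
  | none => exact (hasType_l0 h2 S hS fr _ hC).1
  | some (.inl i) => exact (hasType_nPlus h2 S hS fr a b hC i (h0 i)).1
  | some (.inr (.inl i)) => exact nMinus_mem_lines S fr a b hC i (h0 i)
  | some (.inr (.inr s)) => exact (hasType_m h2 S hS fr a b hC s.1 s.2).1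

theorem lineOf_type [IsAlgClosed K] (h2 : (2 : F) ≠ 0) (S : Surf K) (hS : S.Smooth)
    (hc : IsCubicF F S) (fr : Frame F) (a b : Fin 5 → F) (hC : InFrame S fr (cubP (gpol a b)))
    (h0 : ∀ i, a i ≠ 0 ∨ b i ≠ 0) (j : Idx) :
    HasType S (lineOf K fr a b h0 j) (typeOf a b j) := by
  match j with
  | none => exact (hasType_l0 h2 S hS fr _ hC).2
  | some (.inl i) => exact (hasType_nPlus h2 S hS fr a b hC i (h0 i)).2
  | some (.inr (.inl i)) => exact hasType_nMinus h2 S hS hc fr a b hC i (h0 i)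
  | some (.inr (.inr s)) => exact (hasType_m h2 S hS fr a b hC s.1 s.2).2

theorem lineOf_rational (fr : Frame F) (a b : Fin 5 → F)
    (h0 : ∀ i, a i ≠ 0 ∨ b i ≠ 0) (j : Idx) : IsRationalLine F (lineOf K fr a b h0 j) := by
  match j with
  | none => exact Frame.line01_rational _
  | some (.inl i) => exact Frame.line01_rational _
  | some (.inr (.inl i)) => exact Frame.line01_rational _
  | some (.inr (.inr s)) => exact Frame.line01_rational _

theorem lineOf_finrank (fr : Frame F) (a b : Fin 5 → F)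
    (h0 : ∀ i, a i ≠ 0 ∨ b i ≠ 0) (j : Idx) :
    Module.finrank K (lineOf K fr a b h0 j) = 2 := by
  match j with
  | none => exact Frame.finrank_line01 _
  | some (.inl i) => exact Frame.finrank_line01 _
  | some (.inr (.inl i)) => exact Frame.finrank_line01 _
  | some (.inr (.inr s)) => exact Frame.finrank_line01 _

theorem lineOf_surj [IsAlgClosed K] (h2 : (2 : F) ≠ 0) (S : Surf K)
    (fr : Frame F) (a b : Fin 5 → F) (hC : InFrame S fr (cubP (gpol a b)))
    (h : Nondeg a b) (W : Submodule K (Fin 4 → K)) (hW : W ∈ S.lines) :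
    ∃ j, lineOf K fr a b h.ne_zero j = W := by
  have h2K := two_ne_zero_of (K := K) h2
  have hG := isNF_of_inFrame S fr a b hC
  have hfin : ∀ j, W ≤ lineOf K fr a b h.ne_zero j → ∃ j, lineOf K fr a b h.ne_zero j = W := by
    intro j hj
    exact ⟨j, (eq_of_le_of_finrank_two _ _ hW.1 (lineOf_finrank fr a b h.ne_zero j) hj).symm⟩
  by_cases hsk : ∀ z w : K, fr.pt 0 0 z w ∈ W → z = 0 ∧ w = 0
  · obtain ⟨s, hs, hsW⟩ := case_skew h2K S fr _ _ hG h.map W hW hsk
    apply hfin (some (.inr (.inr ⟨s, hs⟩)))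
    intro q hq
    obtain ⟨x, y, hxy⟩ := hsW q hq
    change q ∈ (frMs fr a b s).line01 K
    rw [mem_m]
    refine ⟨x, y, ?_⟩
    rw [hxy]
    simp only [← flip_map, gpol_map]
  · push Not at hsk
    obtain ⟨c, d, hcd, hcd'⟩ := hsk
    have hcd0 : c ≠ 0 ∨ d ≠ 0 := by
      by_cases hc : c = 0
      · exact Or.inr (hcd' hc)
      · exact Or.inl hc
    by_cases hall : ∀ q ∈ W, ∃ z w : K, q = fr.pt 0 0 z w
    · apply hfin none
      intro q hq
      change q ∈ fr.p23.line01 K
      rw [mem_l0]
      exact hall q hq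
    · push Not at hall
      obtain ⟨q, hqW, hq⟩ := hall
      obtain ⟨x0, y0, z0, w0, rfl⟩ := fr.exists_pt q
      have hxy : x0 ≠ 0 ∨ y0 ≠ 0 := by
        by_contra hcon
        push Not at hcon
        rw [hcon.1, hcon.2] at hq
        exact hq z0 w0 rfl
      rcases case_meet h2K S fr _ _ hG h.map.ne_zero W hW c d hcd hcd0 x0 y0 z0 w0 hqW hxy with
        ⟨i, hi⟩ | ⟨i, hi⟩
      · apply hfin (some (.inl i))
        intro p hp
        change p ∈ (frI fr (a i) (b i) (h.ne_zero i)).p02.line01 K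
        rw [mem_nPlus]
        exact hi p hp
      · apply hfin (some (.inr (.inl i)))
        intro p hp
        change p ∈ (frN fr (a i) (b i) (kap a b i) (h.ne_zero i)).line01 K
        rw [mem_nMinus]
        obtain ⟨s, z, w, h3, h4⟩ := hi p hp
        refine ⟨s, z, w, h3, ?_⟩
        have : kap (fun j => algebraMap F K (a j)) (fun j => algebraMap F K (b j)) i =
            algebraMap F K (kap a b i) := by
          unfold kap
          rw [map_prod]
          simp
        rw [← this]
        exact h4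

theorem lineOf_inj (h2 : (2 : F) ≠ 0) (fr : Frame F) (a b : Fin 5 → F) (h : Nondeg a b) :
    Function.Injective (lineOf K fr a b h.ne_zero) := by
  have h2K := two_ne_zero_of (K := K) h2
  have hsq : ∀ i, (algebraMap F K (a i)) ^ 2 ≠ 0 ∨ (algebraMap F K (b i)) ^ 2 ≠ 0 := by
    intro i
    rcases h.ne_zero i with h3 | h3
    · left; exact pow_ne_zero 2 (fun h => h3 (algebraMap_eq_zero' h))
    · right; exact pow_ne_zero 2 (fun h => h3 (algebraMap_eq_zero' h))
  -- the `x, y` coordinates
  have hx0 : ∀ i, ∃ p ∈ lineOf K fr a b h.ne_zero (some (.inl i)), ∀ z w, p ≠ fr.pt 0 0 z w := by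
    intro i
    refine ⟨fr.pt (1 * (algebraMap F K (a i)) ^ 2) (1 * (algebraMap F K (b i)) ^ 2)
      (0 * algebraMap F K (a i)) (0 * algebraMap F K (b i)), ?_, ?_⟩
    · change _ ∈ (frI fr (a i) (b i) (h.ne_zero i)).p02.line01 K
      rw [mem_nPlus]
      exact ⟨1, 0, rfl⟩
    · intro z w hzw
      obtain ⟨h3, h4, -, -⟩ := fr.pt_inj hzw
      rw [one_mul] at h3 h4
      rcases hsq i with h5 | h5
      · exact h5 h3
      · exact h5 h4
  have hx0' : ∀ i, ∃ p ∈ lineOf K fr a b h.ne_zero (some (.inr (.inl i))),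
      ∃ z0 w0, p = fr.pt ((algebraMap F K (a i)) ^ 2) ((algebraMap F K (b i)) ^ 2) z0 w0 := by
    intro i
    refine ⟨(frN fr (a i) (b i) (kap a b i) (h.ne_zero i)).pt 0 1 0 0, ?_, ?_⟩
    · exact (Frame.mem_line01 _ _).mpr ⟨_, _, rfl⟩
    · rw [frN_pt, one_mul, one_mul]
      exact ⟨_, _, rfl⟩
  have hpar : ∀ i j, i ≠ j → ∀ s : K, (algebraMap F K (a i)) ^ 2 = s * (algebraMap F K (a j)) ^ 2 →
      (algebraMap F K (b i)) ^ 2 = s * (algebraMap F K (b j)) ^ 2 → False := by
    intro i j hij s h3 h4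
    apply h.map (K := K) i j hij
    change (algebraMap F K (a i)) ^ 2 * (algebraMap F K (b j)) ^ 2 =
      (algebraMap F K (a j)) ^ 2 * (algebraMap F K (b i)) ^ 2
    rw [h3, h4]
    ring
  have hm0 : ∀ s : {s : Finset (Fin 5) // Even s.card}, ∀ z w : K,
      fr.pt 0 0 z w ∈ lineOf K fr a b h.ne_zero (some (.inr (.inr s))) → z = 0 ∧ w = 0 := by
    intro s z w hzw
    change _ ∈ (frMs fr a b s.1).line01 K at hzw
    rw [mem_m] at hzw
    obtain ⟨x, y, hxy⟩ := hzw
    obtain ⟨h3, h4, h5, h6⟩ := fr.pt_inj hxy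
    rw [← h3, ← h4] at h5 h6
    exact ⟨by linear_combination h5, by linear_combination h6⟩
  have hn0 : ∀ i, ∃ z w : K, (z ≠ 0 ∨ w ≠ 0) ∧
      fr.pt 0 0 z w ∈ lineOf K fr a b h.ne_zero (some (.inl i)) := by
    intro i
    refine ⟨algebraMap F K (a i), algebraMap F K (b i), ?_, ?_⟩
    · rcases h.ne_zero i with h3 | h3
      · left; exact (fun h => h3 (algebraMap_eq_zero' h))
      · right; exact (fun h => h3 (algebraMap_eq_zero' h))
    · change _ ∈ (frI fr (a i) (b i) (h.ne_zero i)).p02.line01 K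
      rw [mem_nPlus]
      exact ⟨0, 1, by simp⟩
  have hn0' : ∀ i, ∃ z w : K, (z ≠ 0 ∨ w ≠ 0) ∧
      fr.pt 0 0 z w ∈ lineOf K fr a b h.ne_zero (some (.inr (.inl i))) := by
    intro i
    refine ⟨algebraMap F K (a i), -algebraMap F K (b i), ?_, ?_⟩
    · rcases h.ne_zero i with h3 | h3
      · left; exact (fun h => h3 (algebraMap_eq_zero' h))
      · right; exact neg_ne_zero.mpr (fun h => h3 (algebraMap_eq_zero' h))
    · change _ ∈ (frN fr (a i) (b i) (kap a b i) (h.ne_zero i)).line01 K
      rw [mem_nMinus]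
      exact ⟨0, _, _, by rw [zero_mul, zero_mul], by ring⟩
  have hl0 : ∀ p : Fin 4 → K, p ∈ lineOf K fr a b h.ne_zero none → ∃ z w : K, p = fr.pt 0 0 z w :=
    fun p hp => (mem_l0 fr p).mp hp
  have hm1 : ∀ s : {s : Finset (Fin 5) // Even s.card}, ∃ p ∈ lineOf K fr a b h.ne_zero
      (some (.inr (.inr s))), ∀ z w, p ≠ fr.pt 0 0 z w := by
    intro s
    refine ⟨(frMs fr a b s.1).pt 1 0 0 0, (Frame.mem_line01 _ _).mpr ⟨_, _, rfl⟩, ?_⟩
    intro z w hzw
    unfold frMs at hzw
    rw [frM_pt] at hzw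
    exact one_ne_zero (fr.pt_inj hzw).1
  -- disjointness statements
  have d1 : ∀ i, lineOf K fr a b h.ne_zero none ≠ lineOf K fr a b h.ne_zero (some (.inl i)) := by
    intro i heq
    obtain ⟨p, hp, hp'⟩ := hx0 i
    rw [← heq] at hp
    obtain ⟨z, w, hzw⟩ := hl0 p hp
    exact hp' z w hzw
  have d2 : ∀ i, lineOf K fr a b h.ne_zero none ≠
      lineOf K fr a b h.ne_zero (some (.inr (.inl i))) := by
    intro i heq
    obtain ⟨p, hp, z0, w0, hp'⟩ := hx0' i
    rw [← heq] at hp
    obtain ⟨z, w, hzw⟩ := hl0 p hp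
    rw [hp'] at hzw
    obtain ⟨h3, h4, -, -⟩ := fr.pt_inj hzw
    rcases hsq i with h5 | h5
    · exact h5 h3
    · exact h5 h4
  have d3 : ∀ s, lineOf K fr a b h.ne_zero none ≠
      lineOf K fr a b h.ne_zero (some (.inr (.inr s))) := by
    intro s heq
    obtain ⟨p, hp, hp'⟩ := hm1 s
    rw [← heq] at hp
    obtain ⟨z, w, hzw⟩ := hl0 p hp
    exact hp' z w hzw
  have d4 : ∀ i s, lineOf K fr a b h.ne_zero (some (.inl i)) ≠
      lineOf K fr a b h.ne_zero (some (.inr (.inr s))) := by
    intro i s heq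
    obtain ⟨z, w, hzw, hmem⟩ := hn0 i
    rw [heq] at hmem
    obtain ⟨h3, h4⟩ := hm0 s z w hmem
    rcases hzw with h5 | h5
    · exact h5 h3
    · exact h5 h4
  have d5 : ∀ i s, lineOf K fr a b h.ne_zero (some (.inr (.inl i))) ≠
      lineOf K fr a b h.ne_zero (some (.inr (.inr s))) := by
    intro i s heq
    obtain ⟨z, w, hzw, hmem⟩ := hn0' i
    rw [heq] at hmem
    obtain ⟨h3, h4⟩ := hm0 s z w hmem
    rcases hzw with h5 | h5
    · exact h5 h3
    · exact h5 h4
  have d6 : ∀ i j, lineOf K fr a b h.ne_zero (some (.inl i)) =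
      lineOf K fr a b h.ne_zero (some (.inl j)) → i = j := by
    intro i j heq
    by_contra hij
    have hmem : fr.pt (1 * (algebraMap F K (a i)) ^ 2) (1 * (algebraMap F K (b i)) ^ 2)
        (0 * algebraMap F K (a i)) (0 * algebraMap F K (b i)) ∈
        lineOf K fr a b h.ne_zero (some (.inl i)) := by
      change _ ∈ (frI fr (a i) (b i) (h.ne_zero i)).p02.line01 K
      rw [mem_nPlus]
      exact ⟨1, 0, rfl⟩
    rw [heq] at hmem
    change _ ∈ (frI fr (a j) (b j) (h.ne_zero j)).p02.line01 K at hmem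
    rw [mem_nPlus] at hmem
    obtain ⟨s, r, hsr⟩ := hmem
    obtain ⟨h3, h4, -, -⟩ := fr.pt_inj hsr
    rw [one_mul] at h3 h4
    exact hpar i j hij s h3 h4
  have d7 : ∀ i j, lineOf K fr a b h.ne_zero (some (.inr (.inl i))) =
      lineOf K fr a b h.ne_zero (some (.inr (.inl j))) → i = j := by
    intro i j heq
    by_contra hij
    obtain ⟨p, hp, z0, w0, hp'⟩ := hx0' i
    rw [heq] at hp
    change _ ∈ (frN fr (a j) (b j) (kap a b j) (h.ne_zero j)).line01 K at hp
    rw [mem_nMinus] at hp
    obtain ⟨s, z, w, h3, -⟩ := hp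
    rw [hp'] at h3
    obtain ⟨h4, h5, -, -⟩ := fr.pt_inj h3
    exact hpar i j hij s h4 h5
  have d8 : ∀ i j, lineOf K fr a b h.ne_zero (some (.inl i)) ≠
      lineOf K fr a b h.ne_zero (some (.inr (.inl j))) := by
    intro i j heq
    have hmem : fr.pt (1 * (algebraMap F K (a i)) ^ 2) (1 * (algebraMap F K (b i)) ^ 2)
        (0 * algebraMap F K (a i)) (0 * algebraMap F K (b i)) ∈
        lineOf K fr a b h.ne_zero (some (.inl i)) := by
      change _ ∈ (frI fr (a i) (b i) (h.ne_zero i)).p02.line01 K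
      rw [mem_nPlus]
      exact ⟨1, 0, rfl⟩
    rw [heq] at hmem
    change _ ∈ (frN fr (a j) (b j) (kap a b j) (h.ne_zero j)).line01 K at hmem
    rw [mem_nMinus] at hmem
    obtain ⟨s, z, w, h3, h4⟩ := hmem
    obtain ⟨h5, h6, h7, h8⟩ := fr.pt_inj h3
    rw [one_mul] at h5 h6
    rw [zero_mul] at h7 h8
    by_cases hij : i = j
    · subst hij
      rw [← h7, ← h8] at h4
      have hs : s ≠ 0 := by
        rintro rfl
        rcases hsq i with h9 | h9
        · exact h9 (by rw [h5, zero_mul])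
        · exact h9 (by rw [h6, zero_mul])
      have hκ : algebraMap F K (kap a b i) ≠ 0 :=
        fun h' => h.kap_ne i (algebraMap_eq_zero' h')
      apply mul_ne_zero (mul_ne_zero h2K hκ) hs
      linear_combination h4
    · exact hpar i j hij s h5 h6
  have d9 : ∀ s t, lineOf K fr a b h.ne_zero (some (.inr (.inr s))) =
      lineOf K fr a b h.ne_zero (some (.inr (.inr t))) → s = t := by
    intro s t heq
    have hsub : ∀ s t, lineOf K fr a b h.ne_zero (some (.inr (.inr s))) =
        lineOf K fr a b h.ne_zero (some (.inr (.inr t))) → s.1 ⊆ t.1 := by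
      intro s t heq
      have key : ∀ x y : K, fr.pt x y
          ((algebraMap F K ((gpol (flip s.1 a) b).coeff 2) -
            algebraMap F K ((gpol a b).coeff 2)) * x +
          (algebraMap F K ((gpol (flip s.1 a) b).coeff 4) -
            algebraMap F K ((gpol a b).coeff 4)) * y)
          ((algebraMap F K ((gpol (flip s.1 a) b).coeff 1) -
            algebraMap F K ((gpol a b).coeff 1)) * x +
          (algebraMap F K ((gpol (flip s.1 a) b).coeff 3) -
            algebraMap F K ((gpol a b).coeff 3)) * y) = fr.pt x y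
          ((algebraMap F K ((gpol (flip t.1 a) b).coeff 2) -
            algebraMap F K ((gpol a b).coeff 2)) * x +
          (algebraMap F K ((gpol (flip t.1 a) b).coeff 4) -
            algebraMap F K ((gpol a b).coeff 4)) * y)
          ((algebraMap F K ((gpol (flip t.1 a) b).coeff 1) -
            algebraMap F K ((gpol a b).coeff 1)) * x +
          (algebraMap F K ((gpol (flip t.1 a) b).coeff 3) -
            algebraMap F K ((gpol a b).coeff 3)) * y) := by
        intro x y
        have hmem := (mem_m (K := K) fr a b s.1 _).mpr ⟨x, y, rfl⟩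
        change _ ∈ lineOf K fr a b h.ne_zero (some (.inr (.inr s))) at hmem
        rw [heq] at hmem
        change _ ∈ (frMs fr a b t.1).line01 K at hmem
        rw [mem_m] at hmem
        obtain ⟨x', y', hxy⟩ := hmem
        obtain ⟨h3, h4, -, -⟩ := fr.pt_inj hxy
        rw [hxy, h3, h4]
      obtain ⟨-, -, h3, h4⟩ := fr.pt_inj (key 1 0)
      obtain ⟨-, -, h5, h6⟩ := fr.pt_inj (key 0 1)
      have hinj : Function.Injective (algebraMap F K) := (algebraMap F K).injective
      apply flip_inj_aux h2 h s.1 t.1 s.2 t.2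
      · apply hinj; linear_combination h4
      · apply hinj; linear_combination h3
      · apply hinj; linear_combination h6
      · apply hinj; linear_combination h5
    exact Subtype.ext (Finset.Subset.antisymm (hsub s t heq) (hsub t s heq.symm))
  intro i j hij
  match i, j with
  | none, none => rfl
  | none, some (.inl j) => exact (d1 j hij).elim
  | none, some (.inr (.inl j)) => exact (d2 j hij).elim
  | none, some (.inr (.inr s)) => exact (d3 s hij).elim
  | some (.inl i), none => exact (d1 i hij.symm).elim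
  | some (.inl i), some (.inl j) => rw [d6 i j hij]
  | some (.inl i), some (.inr (.inl j)) => exact (d8 i j hij).elim
  | some (.inl i), some (.inr (.inr s)) => exact (d4 i s hij).elim
  | some (.inr (.inl i)), none => exact (d2 i hij.symm).elim
  | some (.inr (.inl i)), some (.inl j) => exact (d8 j i hij.symm).elim
  | some (.inr (.inl i)), some (.inr (.inl j)) => rw [d7 i j hij]
  | some (.inr (.inl i)), some (.inr (.inr s)) => exact (d5 i s hij).elim
  | some (.inr (.inr s)), none => exact (d3 s hij.symm).elim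
  | some (.inr (.inr s)), some (.inl j) => exact (d4 j s hij.symm).elim
  | some (.inr (.inr s)), some (.inr (.inl j)) => exact (d5 j s hij.symm).elim
  | some (.inr (.inr s)), some (.inr (.inr t)) => rw [d9 s t hij]

end

end Pool.Agent.H22.Cubic
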