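import Mathlib
import Pool.Agent.H22.Cubic.Count27

open Polynomial

namespace Pool.Agent.H22.Cubic

universe u v

section

variable {F : Type u} [Field F] {K : Type v} [Field K] [Algebra F K]

theorem nondeg_of_smooth [IsAlgClosed K] (h2 : (2 : F) ≠ 0) (S : Surf K) (hS : S.Smooth)
    (fr : Frame F) (a b : Fin 5 → F) (hC : InFrame S fr (cubP (gpol a b)))
    (h0 : ∀ i, a i ≠ 0 ∨ b i ≠ 0) : Nondeg a b := by
  intro i j hij heq
  apply (hasType_nPlus h2 S hS fr a b hC i (h0 i)).2.ne
  have : nu a b i = 0 := by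
    unfold nu
    rw [Finset.prod_eq_zero_iff]
    exact ⟨j, by simp [hij.symm], by rw [heq, sub_self]⟩
  rw [this, mul_zero]

theorem smooth_of_nondeg [IsAlgClosed K] (h2 : (2 : F) ≠ 0) (S : Surf K)
    (fr : Frame F) (a b : Fin 5 → F) (hC : InFrame S fr (cubP (gpol a b)))
    (h : Nondeg a b) : S.Smooth := by
  have h2K := two_ne_zero_of (K := K) h2
  intro p hp hφ
  obtain ⟨x, y, z, w, rfl⟩ := fr.exists_pt p
  by_contra hcon
  push Not at hcon
  have ex := hcon (fr.pt 1 0 0 0)
  have ey := hcon (fr.pt 0 1 0 0)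
  have ez := hcon (fr.pt 0 0 1 0)
  have ew := hcon (fr.pt 0 0 0 1)
  rw [hC.D] at ex ey ez ew
  rw [hC.φ] at hφ
  simp only [cubP, cubG, Cub.map, Cub.ev, Cub.dx, Cub.dy, Cub.dz, Cub.dw, map_zero, map_neg,
    map_mul, map_ofNat, map_one, mul_one, mul_zero, zero_mul, add_zero, zero_add] at ex ey ez ew hφ
  set G0 := algebraMap F K ((gpol a b).coeff 0) with hG0
  set G1 := algebraMap F K ((gpol a b).coeff 1) with hG1
  set G2 := algebraMap F K ((gpol a b).coeff 2) with hG2
  set G3 := algebraMap F K ((gpol a b).coeff 3) with hG3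
  set G4 := algebraMap F K ((gpol a b).coeff 4) with hG4
  set G5 := algebraMap F K ((gpol a b).coeff 5) with hG5
  have hyz : y * z + (G0 * x ^ 2 + G2 * (x * y) + G4 * y ^ 2) = 0 := by
    have : 2 * (y * z + (G0 * x ^ 2 + G2 * (x * y) + G4 * y ^ 2)) = 0 := by
      linear_combination ez
    exact (mul_eq_zero.mp this).resolve_left h2K
  have hxw : x * w + (G1 * x ^ 2 + G3 * (x * y) + G5 * y ^ 2) = 0 := by
    have : 2 * (x * w + (G1 * x ^ 2 + G3 * (x * y) + G5 * y ^ 2)) = 0 := by
      linear_combination -ew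
    exact (mul_eq_zero.mp this).resolve_left h2K
  have hyx : y * z ^ 2 = x * w ^ 2 := by
    linear_combination -hφ + 2 * z * hyz - 2 * w * hxw
  by_cases hxy : x = 0 ∧ y = 0
  · obtain ⟨rfl, rfl⟩ := hxy
    have hw : w = 0 := by
      have : w ^ 2 = 0 := by linear_combination -ex
      exact pow_eq_zero_iff two_ne_zero |>.mp this
    have hz : z = 0 := by
      have : z ^ 2 = 0 := by linear_combination ey
      exact pow_eq_zero_iff two_ne_zero |>.mp this
    apply hp
    rw [hw, hz, fr.pt_zero]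
  have hxy' : x ≠ 0 ∨ y ≠ 0 := by tauto
  -- the discriminant vanishes
  have hΔ : ∏ j, (algebraMap F K (b j) ^ 2 * x - algebraMap F K (a j) ^ 2 * y) = 0 := by
    obtain ⟨s, hs⟩ := IsAlgClosed.exists_pow_nat_eq x (n := 2) (by norm_num)
    obtain ⟨t, ht⟩ := IsAlgClosed.exists_pow_nat_eq y (n := 2) (by norm_num)
    have h3 := gpol_hom (fun j => algebraMap F K (a j)) (fun j => algebraMap F K (b j)) s t
    have h4 := gpol_hom (fun j => algebraMap F K (a j)) (fun j => algebraMap F K (b j)) s (-t)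
    simp only [gpol_map] at h3 h4
    rw [← hG0, ← hG1, ← hG2, ← hG3, ← hG4, ← hG5] at h3 h4
    have h5 : ∏ j, (algebraMap F K (b j) ^ 2 * x - algebraMap F K (a j) ^ 2 * y) =
        (∏ j, (algebraMap F K (b j) * s + algebraMap F K (a j) * t)) *
        ∏ j, (algebraMap F K (b j) * s + algebraMap F K (a j) * -t) := by
      rw [← Finset.prod_mul_distrib]
      apply Finset.prod_congr rfl
      intro j _
      rw [← hs, ← ht]
      ring
    rw [h5, h3, h4]
    unfold hom5
    have h6 : s ^ 2 * (G0 * x ^ 2 + G2 * (x * y) + G4 * y ^ 2) ^ 2 -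
        t ^ 2 * (G1 * x ^ 2 + G3 * (x * y) + G5 * y ^ 2) ^ 2 = 0 := by
      rw [hs, ht]
      have e1 : G0 * x ^ 2 + G2 * (x * y) + G4 * y ^ 2 = -(y * z) := by linear_combination hyz
      have e2 : G1 * x ^ 2 + G3 * (x * y) + G5 * y ^ 2 = -(x * w) := by linear_combination hxw
      rw [e1, e2]
      linear_combination x * y * hyx
    rw [← hs, ← ht] at h6
    linear_combination h6
  obtain ⟨i, -, hi⟩ := Finset.prod_eq_zero_iff.mp hΔ
  have hAB : algebraMap F K (a i) ≠ 0 ∨ algebraMap F K (b i) ≠ 0 := by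
    rcases h.ne_zero i with h3 | h3
    · left; exact (fun h => h3 (algebraMap_eq_zero' h))
    · right; exact (fun h => h3 (algebraMap_eq_zero' h))
  obtain ⟨r, hr0, hrx, hry⟩ := exists_multiple (a := algebraMap F K (a i) ^ 2)
    (b := algebraMap F K (b i) ^ 2) (c := x) (d := y) (by linear_combination hi) hxy' (by
      rcases hAB with h3 | h3
      · left; exact pow_ne_zero 2 h3
      · right; exact pow_ne_zero 2 h3)
  obtain ⟨h0, h1, h2', h3, h4, h5⟩ := gpol_factor a b i
  have hκ : algebraMap F K (kap a b i) ≠ 0 := fun h' => h.kap_ne i (algebraMap_eq_zero' h')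
  have hκ' : algebraMap F K (kap' a b i) ≠ 0 := by
    intro h'
    apply h.nu_ne i
    rw [← kap_mul_kap', algebraMap_eq_zero' h', mul_zero]
  have hP := congrArg (algebraMap F K) (P_eq a b i)
  have hQ := congrArg (algebraMap F K) (Q_eq a b i)
  have hk' := congrArg (algebraMap F K) (kap'_eq a b i)
  have hk := congrArg (algebraMap F K) (kap_eq a b i)
  simp only [map_mul, map_add, map_pow, map_neg, hom4] at hP hQ hk' hk
  rw [← hG0, ← hG2, ← hG4] at hP
  rw [← hG1, ← hG3, ← hG5] at hQ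
  rw [h0, map_mul] at hG0
  rw [h1, map_add, map_mul, map_mul] at hG1
  rw [h2', map_add, map_mul, map_mul] at hG2
  rw [h3, map_add, map_mul, map_mul] at hG3
  rw [h4, map_add, map_mul, map_mul] at hG4
  rw [h5, map_mul] at hG5
  set A := algebraMap F K (a i) with hA
  set B := algebraMap F K (b i) with hB
  set κ := algebraMap F K (kap a b i) with hκdef
  set κ' := algebraMap F K (kap' a b i) with hκ'def
  set ψ0 := algebraMap F K ((psi a b i).coeff 0)
  set ψ1 := algebraMap F K ((psi a b i).coeff 1)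
  set ψ2 := algebraMap F K ((psi a b i).coeff 2)
  set ψ3 := algebraMap F K ((psi a b i).coeff 3)
  set ψ4 := algebraMap F K ((psi a b i).coeff 4)
  have f1 : B * (B * z + r * κ) = 0 := by
    have : r * (B * (B * z + r * κ)) = 0 := by
      rw [hrx, hry] at hyz
      linear_combination hyz - r ^ 2 * hP
    exact (mul_eq_zero.mp this).resolve_left hr0
  have f2 : A * (A * w + r * κ) = 0 := by
    have : r * (A * (A * w + r * κ)) = 0 := by
      rw [hrx, hry] at hxw
      linear_combination hxw - r ^ 2 * hQ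
    exact (mul_eq_zero.mp this).resolve_left hr0
  have f3 : B ^ 2 * z ^ 2 = A ^ 2 * w ^ 2 := by
    have : r * (B ^ 2 * z ^ 2 - A ^ 2 * w ^ 2) = 0 := by
      rw [hrx, hry] at hyx
      linear_combination hyx
    have := (mul_eq_zero.mp this).resolve_left hr0
    linear_combination this
  have hrk : r * κ ≠ 0 := mul_ne_zero hr0 hκ
  by_cases hA0 : A = 0
  · have hB0 : B ≠ 0 := hAB.resolve_left (fun h => h hA0)
    have f4 := (mul_eq_zero.mp f1).resolve_left hB0
    rw [hA0] at f3
    apply pow_ne_zero 2 hrk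
    linear_combination f3 + (r * κ - B * z) * f4
  by_cases hB0 : B = 0
  · have f4 := (mul_eq_zero.mp f2).resolve_left hA0
    rw [hB0] at f3
    apply pow_ne_zero 2 hrk
    linear_combination -f3 + (r * κ - A * w) * f4
  have f4 := (mul_eq_zero.mp f1).resolve_left hB0
  have f5 := (mul_eq_zero.mp f2).resolve_left hA0
  rw [hrx, hry, hG0, hG1, hG2, hG3] at ex
  have f6 : B ^ 2 * r ^ 2 * (κ * κ') = 0 := by
    linear_combination (-(A ^ 2 * B ^ 2)) * ex +
      (4 * (B * ψ0) * r * A ^ 4 * B + 2 * (B * ψ2 + A * ψ1) * r * A ^ 2 * B ^ 3) * f4 +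
      (-(4 * (B * ψ1 + A * ψ0) * r * A ^ 3 * B ^ 2) - 2 * (B * ψ3 + A * ψ2) * r * A * B ^ 4 -
        B ^ 2 * (A * w - r * κ)) * f5 + B ^ 2 * r ^ 2 * κ * (hk' - hk)
  exact mul_ne_zero (mul_ne_zero (pow_ne_zero 2 hB0) (pow_ne_zero 2 hr0)) (mul_ne_zero hκ hκ') f6

end

end Pool.Agent.H22.Cubic
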