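import Mathlib
import Pool.Agent.H22.Cubic.SmoothNF

open Polynomial

namespace Pool.Agent.H22.Cubic

universe u v

section

variable {F : Type u} [Field F] {K : Type v} [Field K] [Algebra F K]

theorem exists_factors (n : ℕ) : ∀ f : F[X], f ≠ 0 → f.Splits → f.natDegree ≤ n →
    ∃ (c : F) (a b : Fin n → F), c ≠ 0 ∧ (∀ i, a i ≠ 0 ∨ b i ≠ 0) ∧
      f = C c * ∏ i, (C (b i) + C (a i) * X) := by
  induction n with
  | zero =>
    intro f hf0 _ hdeg
    refine ⟨f.coeff 0, ![], ![], ?_, fun i => i.elim0, ?_⟩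
    · intro h
      apply hf0
      rw [eq_C_of_natDegree_le_zero hdeg, h, C_0]
    · simpa using eq_C_of_natDegree_le_zero hdeg
  | succ n ih =>
    intro f hf0 hs hdeg
    by_cases hd : f.natDegree ≤ n
    · obtain ⟨c, a, b, hc, hab, hf⟩ := ih f hf0 hs hd
      refine ⟨c, Fin.cons 0 a, Fin.cons 1 b, hc, ?_, ?_⟩
      · intro i
        refine Fin.cases ?_ (fun j => ?_) i
        · right; simp
        · simpa using hab j
      · rw [Fin.prod_univ_succ]
        simp only [Fin.cons_zero, Fin.cons_succ, C_1, C_0, zero_mul, add_zero, one_mul]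
        exact hf
    · have hdeg' : f.natDegree = n + 1 := by omega
      obtain ⟨r, hr⟩ := hs.exists_eval_eq_zero (by
        intro h
        have := natDegree_eq_zero_iff_degree_le_zero.mpr h.le
        omega)
      obtain ⟨q, hq⟩ : (X - C r) ∣ f := dvd_iff_isRoot.mpr hr
      have hq0 : q ≠ 0 := by
        rintro rfl
        exact hf0 (by rw [hq, mul_zero])
      have hqs : q.Splits := by
        rw [hq] at hs
        exact splits_X_sub_C_mul_iff.mp hs
      have hqd : q.natDegree ≤ n := by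
        have h1 := natDegree_mul (X_sub_C_ne_zero r) hq0
        rw [← hq, natDegree_X_sub_C] at h1
        omega
      obtain ⟨c, a, b, hc, hab, hf⟩ := ih q hq0 hqs hqd
      refine ⟨c, Fin.cons 1 a, Fin.cons (-r) b, hc, ?_, ?_⟩
      · intro i
        refine Fin.cases ?_ (fun j => ?_) i
        · left; simp
        · simpa using hab j
      · rw [Fin.prod_univ_succ]
        simp only [Fin.cons_zero, Fin.cons_succ, C_1, one_mul, C_neg]
        rw [hq, hf]
        ring

theorem exists_gpol (f : F[X]) (hf0 : f ≠ 0) (hs : f.Splits) (hdeg : f.natDegree ≤ 5) :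
    ∃ a b : Fin 5 → F, (∀ i, a i ≠ 0 ∨ b i ≠ 0) ∧ f = gpol a b := by
  classical
  obtain ⟨c, a, b, hc, hab, hf⟩ := exists_factors 5 f hf0 hs hdeg
  refine ⟨fun i => if i = 0 then c * a i else a i, fun i => if i = 0 then c * b i else b i, ?_, ?_⟩
  · intro i
    by_cases hi : i = 0
    · simp only [if_pos hi]
      rcases hab i with h | h
      · left; exact mul_ne_zero hc h
      · right; exact mul_ne_zero hc h
    · simp only [if_neg hi]
      exact hab i
  · rw [hf]
    unfold gpol gp
    rw [← Finset.mul_prod_erase _ _ (Finset.mem_univ (0 : Fin 5)),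
      ← Finset.mul_prod_erase _ _ (Finset.mem_univ (0 : Fin 5))]
    have h1 : ∀ i ∈ Finset.univ.erase (0 : Fin 5),
        (C (if i = 0 then c * b i else b i) + C (if i = 0 then c * a i else a i) * X) =
        (C (b i) + C (a i) * X) := by
      intro i hi
      have : i ≠ 0 := Finset.ne_of_mem_erase hi
      rw [if_neg this, if_neg this]
    rw [Finset.prod_congr rfl h1]
    simp only [if_true, C_mul]
    ring

theorem nf_of_skew [IsAlgClosed K] (h2 : (2 : F) ≠ 0) (S : Surf K) (hS : S.Smooth)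
    (hc : IsCubicF F S) (hrat : ∀ W ∈ S.lines, IsRationalLine F W) (fr0 : Frame F)
    (h01 : fr0.line01 K ∈ S.lines) (h23 : fr0.p23.line01 K ∈ S.lines)
    (hh : S.Hyp F (fr0.p23.line01 K)) : ∃ (fr : Frame F) (a b : Fin 5 → F),
      fr.line01 K = fr0.line01 K ∧ fr.p23.line01 K = fr0.p23.line01 K ∧
      InFrame S fr (cubP (gpol a b)) ∧ Nondeg a b := by
  have h2K := two_ne_zero_of (K := K) h2
  obtain ⟨fr, hl1, hl2, g0, g1, g2, g3, g4, g5, hC⟩ := normal_form h2 S hS hc fr0 h01 h23 hh
  set g : F[X] := C g0 + C g1 * X + C g2 * X ^ 2 + C g3 * X ^ 3 + C g4 * X ^ 4 + C g5 * X ^ 5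
    with hg
  obtain ⟨c0, c1, c2, c3, c4, c5⟩ := coeffs_of g0 g1 g2 g3 g4 g5
  rw [← hg] at c0 c1 c2 c3 c4 c5
  have hdeg : g.natDegree ≤ 5 := by
    rw [hg]
    compute_degree
  have hg0 : g ≠ 0 := by
    intro h0
    rw [h0, coeff_zero] at c0 c1
    obtain ⟨u, hu⟩ := hS (fr.pt 1 0 0 0) (fr.pt_ne_zero (Or.inl one_ne_zero)) (by
      rw [hC.φ]
      simp [cubG, Cub.ev, Cub.map])
    apply hu
    obtain ⟨u0, u1, u2, u3, rfl⟩ := fr.exists_pt u
    rw [hC.D, ← c0, ← c1]
    simp [cubG, Cub.dx, Cub.dy, Cub.dz, Cub.dw, Cub.map]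
  have hsplit : g.Splits := by
    apply Splits.of_splits_map (algebraMap F K) (IsAlgClosed.splits _)
    intro r hr
    have hroot : (g.map (algebraMap F K)).IsRoot r := (mem_roots'.mp hr).2
    have hr0 : algebraMap F K g0 + algebraMap F K g1 * r + algebraMap F K g2 * r ^ 2 +
        algebraMap F K g3 * r ^ 3 + algebraMap F K g4 * r ^ 4 + algebraMap F K g5 * r ^ 5 = 0 := by
      have h3 := hroot
      rw [hg] at h3
      simpa using h3
    -- the line spanned by (1, r ^ 2, 0, 0) and (0, 0, 1, -r)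
    let T : Submodule K (Fin 4 → K) := Submodule.span K {fr.pt 1 (r ^ 2) 0 0, fr.pt 0 0 1 (-r)}
    have hT : ∀ p, p ∈ T ↔ ∃ s t : K, p = fr.pt s (s * r ^ 2) t (-(t * r)) := by
      intro p
      change p ∈ Submodule.span K _ ↔ _
      rw [Submodule.mem_span_pair]
      constructor
      · rintro ⟨s, t, rfl⟩
        refine ⟨s, t, ?_⟩
        rw [fr.smul_pt, fr.smul_pt, fr.add_pt]
        congr 1 <;> ring
      · rintro ⟨s, t, rfl⟩
        refine ⟨s, t, ?_⟩
        rw [fr.smul_pt, fr.smul_pt, fr.add_pt]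
        congr 1 <;> ring
    have hTl : T ∈ S.lines := by
      refine ⟨?_, ?_⟩
      · have hli : LinearIndependent K ![fr.pt 1 (r ^ 2) 0 0, fr.pt 0 0 1 (-r)] := by
          rw [LinearIndependent.pair_iff]
          intro s t hst
          rw [fr.smul_pt, fr.smul_pt, fr.add_pt, ← fr.pt_zero] at hst
          obtain ⟨h3, -, h5, -⟩ := fr.pt_inj hst
          exact ⟨by linear_combination h3, by linear_combination h5⟩
        have h3 := finrank_span_eq_card hli
        rw [Matrix.range_cons_cons_empty, Fintype.card_fin] at h3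
        exact h3
      · intro p hp
        obtain ⟨s, t, rfl⟩ := (hT p).mp hp
        rw [hC.φ]
        simp only [cubG, Cub.map, Cub.ev, map_zero, map_neg, map_mul, map_ofNat, map_one]
        linear_combination 2 * s ^ 2 * t * hr0
    obtain ⟨u, v, huv⟩ := hrat T hTl
    -- coordinates of u and v in the frame
    have hcoord : ∀ u : Fin 4 → F, ∃ w : Fin 4 → F, (baseVec F u : Fin 4 → K) =
        fr.pt (algebraMap F K (w 0)) (algebraMap F K (w 1)) (algebraMap F K (w 2))
          (algebraMap F K (w 3)) := by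
      intro u
      refine ⟨Matrix.vecMul u fr.mat⁻¹, ?_⟩
      rw [← fr.equiv_vec]
      have h3 := fr.equiv_baseVec (K := K) (Matrix.vecMul u fr.mat⁻¹)
      rw [Matrix.vecMul_vecMul, Frame.inv_mul_mat, Matrix.vecMul_one] at h3
      rw [← h3]
      congr 1
      ext i
      fin_cases i <;> rfl
    obtain ⟨u', hu'⟩ := hcoord u
    obtain ⟨v', hv'⟩ := hcoord v
    have key : ∀ w : Fin 4 → F, fr.pt (algebraMap F K (w 0)) (algebraMap F K (w 1))
        (algebraMap F K (w 2)) (algebraMap F K (w 3)) ∈ T → w 2 ≠ 0 →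
        r ∈ (algebraMap F K).range := by
      intro w hw hw2
      obtain ⟨s, t, hst⟩ := (hT _).mp hw
      obtain ⟨-, -, h3, h4⟩ := fr.pt_inj hst
      refine ⟨-(w 3) / w 2, ?_⟩
      have hw2K : algebraMap F K (w 2) ≠ 0 := fun h => hw2 (algebraMap_eq_zero' h)
      rw [map_div₀, map_neg, div_eq_iff hw2K, h4, h3]
      ring
    by_cases hu2 : u' 2 = 0
    · by_cases hv2 : v' 2 = 0
      · exfalso
        have hmem : fr.pt 0 0 1 (-r) ∈ T := (hT _).mpr ⟨0, 1, by simp⟩
        rw [huv, Submodule.mem_span_pair] at hmem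
        obtain ⟨s, t, hst⟩ := hmem
        rw [hu', hv', fr.smul_pt, fr.smul_pt, fr.add_pt] at hst
        obtain ⟨-, -, h3, -⟩ := fr.pt_inj hst
        rw [hu2, hv2, map_zero] at h3
        apply one_ne_zero (α := K)
        rw [← h3]
        ring
      · apply key v' _ hv2
        rw [← hv', huv]
        exact Submodule.subset_span (by simp)
    · apply key u' _ hu2
      rw [← hu', huv]
      exact Submodule.subset_span (by simp)
  obtain ⟨a, b, hab, hgab⟩ := exists_gpol g hg0 hsplit hdeg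
  have hC' : InFrame S fr (cubP (gpol a b)) := by
    rw [← hgab]
    unfold cubP
    rw [c0, c1, c2, c3, c4, c5]
    exact hC
  exact ⟨fr, a, b, hl1, hl2, hC', nondeg_of_smooth h2 S hS fr a b hC' hab⟩

end

end Pool.Agent.H22.Cubic
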