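import Mathlib
import Pool.Agent.H22.Cubic.SplitNF

open Polynomial

namespace Pool.Agent.H22.Cubic

universe u v

section

variable {F : Type u} [Field F] {K : Type v} [Field K] [Algebra F K]

/-- the frame over `K` -/
def Frame.toK (fr : Frame F) (K : Type v) [Field K] [Algebra F K] : Frame K where
  e0 := baseVec F fr.e0
  e1 := baseVec F fr.e1
  e2 := baseVec F fr.e2
  e3 := baseVec F fr.e3
  det_ne := by
    have h : (Matrix.of ![baseVec F fr.e0, baseVec F fr.e1, baseVec F fr.e2,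
        (baseVec F fr.e3 : Fin 4 → K)]) = fr.matK K := by
      ext i j
      fin_cases i <;> rfl
    rw [h]
    exact (fr.det_matK K).ne_zero

theorem baseVec_self (v : Fin 4 → K) : (baseVec K v : Fin 4 → K) = v := rfl

theorem Frame.toK_pt (fr : Frame F) (x y z w : K) : (fr.toK K).pt x y z w = fr.pt x y z w := rfl

theorem Frame.toK_line01 (fr : Frame F) : (fr.toK K).line01 K = fr.line01 K := rfl

theorem Frame.toK_p23 (fr : Frame F) : (fr.toK K).p23.line01 K = fr.p23.line01 K := by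
  rw [Frame.p23_line, Frame.p23_line]
  rfl

theorem rationalLine_self (W : Submodule K (Fin 4 → K)) (h : Module.finrank K W = 2) :
    IsRationalLine K W := by
  obtain ⟨p, q, hp, hq, hli, hpq⟩ := exists_basis_pair W h
  refine ⟨p, q, ?_⟩
  rw [baseVec_self, baseVec_self]
  apply le_antisymm
  · intro w hw
    obtain ⟨s, t, rfl⟩ := hpq w hw
    exact Submodule.mem_span_pair.mpr ⟨s, t, rfl⟩
  · rw [Submodule.span_le, Set.insert_subset_iff, Set.singleton_subset_iff]
    exact ⟨hp, hq⟩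

/-- transversals of two skew lines over the algebraically closed field `K` -/
theorem nf_over_K [IsAlgClosed K] (h2 : (2 : F) ≠ 0) (S : Surf K) (hS : S.Smooth)
    (hcK : IsCubicF K S) (fr0 : Frame F)
    (h01 : fr0.line01 K ∈ S.lines) (h23 : fr0.p23.line01 K ∈ S.lines) :
    ∃ (fr : Frame K) (a b : Fin 5 → K),
      fr.line01 K = fr0.line01 K ∧ fr.p23.line01 K = fr0.p23.line01 K ∧
      InFrame S fr (cubP (gpol a b)) ∧ Nondeg a b := by
  have h2K := two_ne_zero_of (K := K) h2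
  have h := nf_of_skew (F := K) (K := K) h2K S hS hcK (fun W hW => rationalLine_self W hW.1)
    (fr0.toK K) (by rw [fr0.toK_line01]; exact h01) (by rw [fr0.toK_p23]; exact h23) (by
      obtain ⟨D, hD⟩ := exists_hasType (F := K) h2K S hS hcK ((fr0.toK K).p23)
        (by rw [fr0.toK_p23]; exact h23)
      rw [hD.hyp]
      obtain ⟨r, hr⟩ := IsAlgClosed.exists_pow_nat_eq D (n := 2) (by norm_num)
      exact ⟨r, by rw [← hr]; ring⟩)
  obtain ⟨fr, a, b, h3, h4, h5, h6⟩ := h
  rw [fr0.toK_line01] at h3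
  rw [fr0.toK_p23] at h4
  exact ⟨fr, a, b, h3, h4, h5, h6⟩

theorem nPlus_skew (fr : Frame F) (a b : Fin 5 → F) (h : Nondeg a b) (i j : Fin 5) (hij : i ≠ j)
    (p : Fin 4 → K) (hp : p ∈ lineOf K fr a b h.ne_zero (some (.inl i)))
    (hp' : p ∈ lineOf K fr a b h.ne_zero (some (.inl j))) : p = 0 := by
  change p ∈ (frI fr (a i) (b i) (h.ne_zero i)).p02.line01 K at hp
  change p ∈ (frI fr (a j) (b j) (h.ne_zero j)).p02.line01 K at hp'
  rw [mem_nPlus] at hp hp'
  obtain ⟨s, r, rfl⟩ := hp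
  obtain ⟨s', r', h'⟩ := hp'
  obtain ⟨h3, h4, h5, h6⟩ := fr.pt_inj h'
  have hk := h.map (K := K) i j hij
  change (algebraMap F K (a i)) ^ 2 * (algebraMap F K (b j)) ^ 2 ≠
      (algebraMap F K (a j)) ^ 2 * (algebraMap F K (b i)) ^ 2 at hk
  set A := algebraMap F K (a i)
  set B := algebraMap F K (b i)
  set A' := algebraMap F K (a j)
  set B' := algebraMap F K (b j)
  have hs : s = 0 := by
    by_contra hs
    apply hk
    have : s * (A ^ 2 * B' ^ 2) = s * (A' ^ 2 * B ^ 2) := by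
      linear_combination B' ^ 2 * h3 - A' ^ 2 * h4
    exact mul_left_cancel₀ hs this
  have hr : r = 0 := by
    by_contra hr
    apply hk
    have : r ^ 2 * (A ^ 2 * B' ^ 2) = r ^ 2 * (A' ^ 2 * B ^ 2) := by
      have e1 : r * A * B' = r * B * A' := by linear_combination B' * h5 - A' * h6
      linear_combination (r * A * B' + r * B * A') * e1
    exact mul_left_cancel₀ (pow_ne_zero 2 hr) this
  rw [hs, hr]
  simp [fr.pt_zero]

theorem exists_hyp_skew [IsAlgClosed K] (h2 : (2 : F) ≠ 0)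
    (hsq : ∀ x y : F, ¬ IsSquare x → ¬ IsSquare y → IsSquare (x * y))
    (S : Surf K) (hS : S.Smooth) (hc : IsCubicF F S) (hcK : IsCubicF K S)
    (hrat : ∀ W ∈ S.lines, IsRationalLine F W) (hcard : S.lines.ncard = 27) :
    ∃ fr : Frame F, fr.line01 K ∈ S.lines ∧ fr.p23.line01 K ∈ S.lines ∧
      S.Hyp F (fr.p23.line01 K) := by
  have h2K := two_ne_zero_of (K := K) h2
  obtain ⟨fr0, h01, h23⟩ := exists_skew h2 S hS hc hrat hcard
  by_cases hW1 : S.Hyp F (fr0.p23.line01 K)
  · exact ⟨fr0, h01, h23, hW1⟩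
  obtain ⟨frK, a, b, e01, e23, hC, hnd⟩ := nf_over_K h2 S hS hcK fr0 h01 h23
  -- the lines
  have hmem := lineOf_mem h2K S hS frK a b hC hnd.ne_zero
  have hT0 := hmem (some (.inl 0))
  have hT1 := hmem (some (.inl 1))
  have hN0 := hmem (some (.inr (.inl 0)))
  set T0 := lineOf K frK a b hnd.ne_zero (some (.inl 0)) with hT0def
  set T1 := lineOf K frK a b hnd.ne_zero (some (.inl 1)) with hT1def
  set N0 := lineOf K frK a b hnd.ne_zero (some (.inr (.inl 0))) with hN0def
  have hinj := lineOf_inj h2K frK a b hnd (K := K)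
  have hl0 : lineOf K frK a b hnd.ne_zero none = fr0.p23.line01 K := e23
  by_cases hW2 : S.Hyp F T0
  · obtain ⟨fr, h3, h4⟩ := pair_frame_skew T1 T0 (hrat _ hT1) (hrat _ hT0) hT1.1 hT0.1
      (fun p hp hp' => nPlus_skew frK a b hnd 1 0 (by decide) p hp hp')
    exact ⟨fr, by rw [h3]; exact hT1, by rw [h4]; exact hT0, by rw [h4]; exact hW2⟩
  -- both are elliptic
  have hA : algebraMap K K (a 0) ≠ 0 ∨ algebraMap K K (b 0) ≠ 0 := hnd.ne_zero 0
  obtain ⟨fr', h3, h4⟩ := pair_frame_meet (fr0.p23.line01 K) T0 (hrat _ h23) (hrat _ hT0) h23.1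
    hT0.1 (by
      rw [← hl0]
      intro h
      have := hinj h
      simp at this) ⟨frK.pt 0 0 (a 0) (b 0), by
        rw [← e23]
        exact (mem_l0 frK _).mpr ⟨_, _, rfl⟩, by
        change _ ∈ (frI frK (a 0) (b 0) (hnd.ne_zero 0)).p02.line01 K
        rw [mem_nPlus]
        refine ⟨0, 1, ?_⟩
        simp, by
        apply frK.pt_ne_zero
        rcases hA with h | h
        · right; right; left; exact h
        · right; right; right; exact h⟩
  obtain ⟨C', hC'⟩ := hc fr'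
  obtain ⟨fr3, hW3, -, -, -, huniq, D1, D2, D3, hD1, hD2, hD3, hD⟩ := trio h2 S hS fr' C' hC'
    (by rw [h3]; exact h23) (by rw [h4]; exact hT0)
  have hN : N0 = fr3.line01 K := by
    have hpl : fr'.InPlane N0 := by
      intro p hp
      change p ∈ (frN frK (a 0) (b 0) (kap a b 0) (hnd.ne_zero 0)).line01 K at hp
      rw [mem_nMinus] at hp
      obtain ⟨s, z, w, rfl, -⟩ := hp
      have m1 : frK.pt (s * (algebraMap K K (a 0)) ^ 2) (s * (algebraMap K K (b 0)) ^ 2) 0 0 ∈
          fr'.p02.line01 K := by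
        rw [h4]
        change _ ∈ (frI frK (a 0) (b 0) (hnd.ne_zero 0)).p02.line01 K
        rw [mem_nPlus]
        exact ⟨s, 0, by simp⟩
      have m2 : frK.pt 0 0 z w ∈ fr'.line01 K := by
        rw [h3, ← e23]
        exact (mem_l0 frK _).mpr ⟨_, _, rfl⟩
      obtain ⟨x1, y1, hxy1⟩ := (Frame.mem_line01 _ _).mp m1
      obtain ⟨x2, y2, hxy2⟩ := (Frame.mem_line01 _ _).mp m2
      rw [fr'.p02_pt] at hxy1
      refine ⟨x1 + x2, y2, y1, ?_⟩
      have e : frK.pt (s * (algebraMap K K (a 0)) ^ 2) (s * (algebraMap K K (b 0)) ^ 2) z w =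
          frK.pt (s * (algebraMap K K (a 0)) ^ 2) (s * (algebraMap K K (b 0)) ^ 2) 0 0 +
          frK.pt 0 0 z w := by
        rw [frK.add_pt]
        congr 1 <;> ring
      rw [e, hxy1, hxy2, fr'.add_pt]
      congr 1 <;> ring
    rcases huniq N0 hN0 hpl with h | h | h
    · exfalso
      rw [h3, ← hl0] at h
      have := hinj h
      simp at this
    · exfalso
      rw [h4] at h
      have := hinj h
      simp at this
    · exact h
  have hsk : ∀ p ∈ fr0.line01 K, p ∈ N0 → p = 0 := by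
    intro p hp hpN
    rw [← e01] at hp
    obtain ⟨x, y, rfl⟩ := (Frame.mem_line01 _ _).mp hp
    change _ ∈ (frN frK (a 0) (b 0) (kap a b 0) (hnd.ne_zero 0)).line01 K at hpN
    rw [mem_nMinus] at hpN
    obtain ⟨s, z, w, h5, h6⟩ := hpN
    obtain ⟨h7, h8, h9, h10⟩ := frK.pt_inj h5
    rw [← h9, ← h10, mul_zero, mul_zero, zero_add, zero_add] at h6
    have hκ : algebraMap K K (kap a b 0) ≠ 0 := hnd.kap_ne 0
    have hs := (mul_eq_zero.mp h6).resolve_left (mul_ne_zero h2K hκ)
    rw [h7, h8, hs, zero_mul, zero_mul, frK.pt_zero]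
  have hHyp : S.Hyp F N0 := by
    rw [hN, hD3.hyp]
    have e1 : ¬ IsSquare D1 := by
      rw [← hD1.hyp, h3]
      exact hW1
    have e2 : ¬ IsSquare D2 := by
      rw [← hD2.hyp, h4]
      exact hW2
    obtain ⟨r, hr⟩ := hsq D1 D2 e1 e2
    obtain ⟨t, ht⟩ := hD
    have hr0 : r ≠ 0 := by
      rintro rfl
      exact mul_ne_zero hD1.ne hD2.ne (by rw [hr, mul_zero])
    refine ⟨t / r, ?_⟩
    rw [hr] at ht
    field_simp
    linear_combination ht
  obtain ⟨fr, h5, h6⟩ := pair_frame_skew (fr0.line01 K) N0 fr0.line01_rational (hrat _ hN0)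
    h01.1 hN0.1 hsk
  exact ⟨fr, by rw [h5]; exact h01, by rw [h6]; exact hN0, by rw [h6]; exact hHyp⟩

end

end Pool.Agent.H22.Cubic
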