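import Mathlib
import Pool.Agent.H22.Cubic.Exists

open Polynomial

namespace Pool.Agent.H22.Cubic

universe u v

theorem cnt2 : ∀ N : Finset (Fin 5), (N.card = 2 ∨ N.card = 4) → ∀ e : Bool,
    (∑ s : {s : Finset (Fin 5) // Even s.card},
      (if (e = true ↔ Even (s.1 ∩ N).card) then 1 else 0)) = 8 := by
  decide +kernel

theorem cnt0 : ∀ e : Bool,
    (∑ s : {s : Finset (Fin 5) // Even s.card},
      (if (e = true ↔ Even (s.1 ∩ (∅ : Finset (Fin 5))).card) then 1 else 0)) =
      if e then 16 else 0 := by
  decide +kernel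

section

variable {F : Type u} [Field F]

/-- In the field, the product of two nonsquares is a square. -/
def SqProp (F : Type u) [Field F] : Prop :=
  ∀ x y : F, ¬ IsSquare x → ¬ IsSquare y → IsSquare (x * y)

theorem isSquare_mul_iff' (hF : SqProp F) {x y : F} (hx : x ≠ 0) (hy : y ≠ 0) :
    IsSquare (x * y) ↔ (IsSquare x ↔ IsSquare y) := by
  constructor
  · rintro ⟨r, hr⟩
    constructor
    · rintro ⟨t, ht⟩
      have ht0 : t ≠ 0 := by
        rintro rfl
        exact hx (by rw [ht, mul_zero])
      refine ⟨r / t, ?_⟩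
      rw [ht] at hr
      field_simp
      linear_combination hr
    · rintro ⟨t, ht⟩
      have ht0 : t ≠ 0 := by
        rintro rfl
        exact hy (by rw [ht, mul_zero])
      refine ⟨r / t, ?_⟩
      rw [ht] at hr
      field_simp
      linear_combination hr
  · intro h
    by_cases h1 : IsSquare x
    · exact h1.mul (h.mp h1)
    · exact hF x y h1 (fun h2 => h1 (h.mpr h2))

theorem isSquare_prod_iff {ι : Type*} (hF : SqProp F) (s : Finset ι) (x : ι → F)
    (hx : ∀ i ∈ s, x i ≠ 0) [DecidablePred fun i => ¬ IsSquare (x i)] :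
    IsSquare (∏ i ∈ s, x i) ↔ Even (s.filter (fun i => ¬ IsSquare (x i))).card := by
  classical
  induction s using Finset.induction_on with
  | empty => simp
  | insert i s hi ih =>
    rw [Finset.prod_insert hi, isSquare_mul_iff' hF (hx i (Finset.mem_insert_self _ _))
      (Finset.prod_ne_zero_iff.mpr (fun j hj => hx j (Finset.mem_insert_of_mem hj))),
      ih (fun j hj => hx j (Finset.mem_insert_of_mem hj)), Finset.filter_insert]
    by_cases h : IsSquare (x i)
    · rw [if_neg (not_not.mpr h)]
      simp only [h, true_iff]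
    · rw [if_pos h, Finset.card_insert_of_notMem (by simp [hi]), Nat.even_add_one]
      simp only [h, false_iff]

theorem prod_anti (c : Fin 5 → Fin 5 → F) (hc : ∀ i j, c j i = -c i j) :
    ∏ i, ∏ j ∈ Finset.univ.erase i, c i j = (c 0 1 * c 0 2 * c 0 3 * c 0 4 * c 1 2 * c 1 3 *
      c 1 4 * c 2 3 * c 2 4 * c 3 4) ^ 2 := by
  have e0 : (Finset.univ.erase (0 : Fin 5)) = {1, 2, 3, 4} := by decide
  have e1 : (Finset.univ.erase (1 : Fin 5)) = {0, 2, 3, 4} := by decide
  have e2 : (Finset.univ.erase (2 : Fin 5)) = {0, 1, 3, 4} := by decide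
  have e3 : (Finset.univ.erase (3 : Fin 5)) = {0, 1, 2, 4} := by decide
  have e4 : (Finset.univ.erase (4 : Fin 5)) = {0, 1, 2, 3} := by decide
  rw [Fin.prod_univ_five, e0, e1, e2, e3, e4]
  simp only [Finset.prod_insert, Finset.prod_singleton, Finset.mem_insert, Finset.mem_singleton,
    Fin.reduceEq, or_self, not_false_eq_true]
  rw [hc 0 1, hc 0 2, hc 0 3, hc 0 4, hc 1 2, hc 1 3, hc 1 4, hc 2 3, hc 2 4, hc 3 4]
  ring

open Classical in
/-- the indices of the planes with elliptic lines -/
noncomputable def badSet (a b : Fin 5 → F) : Finset (Fin 5) :=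
  Finset.univ.filter (fun i => ¬ IsSquare (nu a b i))

theorem badSet_even (hF : SqProp F) (a b : Fin 5 → F) (h : Nondeg a b) :
    Even (badSet a b).card := by
  classical
  have h1 := isSquare_prod_iff hF Finset.univ (fun i => nu a b i) (fun i _ => h.nu_ne i)
  unfold badSet
  rw [← h1]
  have h2 := prod_anti (fun i j => a i ^ 2 * b j ^ 2 - a j ^ 2 * b i ^ 2) (fun i j => by ring)
  unfold nu
  rw [h2]
  exact ⟨_, sq _⟩

end

section

variable {F : Type u} [Field F] {K : Type v} [Field K] [Algebra F K]

theorem Dg_ne_zero [IsAlgClosed K] (h2 : (2 : F) ≠ 0) (S : Surf K) (hS : S.Smooth)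
    (fr : Frame F) (a b : Fin 5 → F) (hC : InFrame S fr (cubP (gpol a b)))
    (s : Finset (Fin 5)) (hs : Even s.card) : Dg (gpol (flip s a) b) ≠ 0 := by
  intro h0
  apply (hasType_m h2 S hS fr a b hC s hs).2.ne
  rw [h0, mul_zero]

theorem Dg_step (hF : SqProp F) (a b : Fin 5 → F) (h : Nondeg a b) (i : Fin 5)
    (h1 : Dg (gpol a b) ≠ 0) (h3 : Dg (gpol (flip (Finset.univ.erase i) a) b) ≠ 0) :
    (IsSquare (Dg (gpol a b)) ↔ IsSquare (Dg (gpol (flip (Finset.univ.erase i) a) b))) ↔
      IsSquare (nu a b i) := by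
  rw [← isSquare_mul_iff' hF h1 h3, Dg_flip]
  have h4 : hpsi a b i ≠ 0 := by
    intro h0
    apply h1
    rw [Dg_eq a b i, h0, mul_zero, neg_zero]
  rw [isSquare_mul_iff' hF (h.nu_ne i) (pow_ne_zero 2 h4)]
  have : IsSquare (hpsi a b i ^ 2) := ⟨_, sq _⟩
  tauto

theorem prop_aux1 {A B C : Prop} (h : (A ↔ B) ↔ C) : B ↔ (A ↔ C) := by tauto

theorem prop_aux2 {A B p q : Prop} (h : ((A ↔ ¬ p) ↔ B) ↔ ¬ q) : B ↔ (A ↔ (p ↔ q)) := by
  tauto

theorem Dg_square_iff [IsAlgClosed K] (h2 : (2 : F) ≠ 0) (hF : SqProp F) (S : Surf K)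
    (hS : S.Smooth)
    (fr : Frame F) (a b : Fin 5 → F) (hC : InFrame S fr (cubP (gpol a b))) (h : Nondeg a b)
    (s : Finset (Fin 5)) (hs : Even s.card) : IsSquare (Dg (gpol (flip s a) b)) ↔
      (IsSquare (Dg (gpol a b)) ↔ Even (s ∩ badSet a b).card) := by
  classical
  have hD : ∀ s : Finset (Fin 5), Even s.card → Dg (gpol (flip s a) b) ≠ 0 :=
    fun s hs => Dg_ne_zero h2 S hS fr a b hC s hs
  have hflip0 : flip ∅ a = a := by
    funext j
    simp [flip]
  have hstep : ∀ (s : Finset (Fin 5)) (i : Fin 5), Even s.card →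
      Even (symmDiff s (Finset.univ.erase i)).card →
      ((IsSquare (Dg (gpol (flip s a) b)) ↔
        IsSquare (Dg (gpol (flip (symmDiff s (Finset.univ.erase i)) a) b))) ↔
      i ∉ badSet a b) := by
    intro s i hs hs'
    have h3 := Dg_step hF (flip s a) b (h.flip s) i (hD s hs) (by
      rw [flip_flip]
      exact hD _ hs')
    rw [flip_flip, nu_flip] at h3
    rw [h3]
    simp [badSet]
  have hcard4 : ∀ i : Fin 5, Even (Finset.univ.erase i).card := by
    intro i
    simp
    decide
  have h1 : ∀ i, IsSquare (Dg (gpol (flip (Finset.univ.erase i) a) b)) ↔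
      (IsSquare (Dg (gpol a b)) ↔ i ∉ badSet a b) := by
    intro i
    have h4 : symmDiff ∅ (Finset.univ.erase i) = Finset.univ.erase i := by simp
    have h3 := hstep ∅ i (by simp) (by rw [h4]; exact hcard4 i)
    rw [hflip0, h4] at h3
    exact prop_aux1 h3
  have hle : s.card ≤ 5 := by
    have := Finset.card_le_univ s
    simpa using this
  have hcases : s.card = 0 ∨ s.card = 2 ∨ s.card = 4 := by
    obtain ⟨k, hk⟩ := hs
    omega
  rcases hcases with h0 | h0 | h0
  · rw [Finset.card_eq_zero.mp h0, hflip0]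
    simp
  · obtain ⟨i, j, hij, rfl⟩ := Finset.card_eq_two.mp h0
    have hsd : symmDiff (Finset.univ.erase i) (Finset.univ.erase j) = {i, j} := by
      ext k
      simp only [Finset.mem_symmDiff, Finset.mem_erase, Finset.mem_univ, and_true,
        Finset.mem_insert, Finset.mem_singleton]
      constructor
      · rintro (⟨h3, h4⟩ | ⟨h3, h4⟩)
        · right; exact not_not.mp h4
        · left; exact not_not.mp h4
      · rintro (rfl | rfl)
        · right; exact ⟨hij, by simp⟩
        · left; exact ⟨hij.symm, by simp⟩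
    have h3 := hstep (Finset.univ.erase i) j (hcard4 i) (by rw [hsd]; exact hs)
    rw [hsd, h1 i] at h3
    have h4 : Even (({i, j} : Finset (Fin 5)) ∩ badSet a b).card ↔
        (i ∈ badSet a b ↔ j ∈ badSet a b) := by
      by_cases hi : i ∈ badSet a b <;> by_cases hj : j ∈ badSet a b
      · have : ({i, j} : Finset (Fin 5)) ∩ badSet a b = {i, j} := by
          rw [Finset.inter_eq_left]
          intro k hk
          simp only [Finset.mem_insert, Finset.mem_singleton] at hk
          rcases hk with rfl | rfl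
          · exact hi
          · exact hj
        rw [this, h0]
        simp [hi, hj]
      · have : ({i, j} : Finset (Fin 5)) ∩ badSet a b = {i} := by
          ext k
          simp only [Finset.mem_inter, Finset.mem_insert, Finset.mem_singleton]
          constructor
          · rintro ⟨rfl | rfl, h5⟩
            · rfl
            · exact (hj h5).elim
          · rintro rfl
            exact ⟨Or.inl rfl, hi⟩
        rw [this]
        simp [hi, hj]
      · have : ({i, j} : Finset (Fin 5)) ∩ badSet a b = {j} := by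
          ext k
          simp only [Finset.mem_inter, Finset.mem_insert, Finset.mem_singleton]
          constructor
          · rintro ⟨rfl | rfl, h5⟩
            · exact (hi h5).elim
            · rfl
          · rintro rfl
            exact ⟨Or.inr rfl, hj⟩
        rw [this]
        simp [hi, hj]
      · have : ({i, j} : Finset (Fin 5)) ∩ badSet a b = ∅ := by
          ext k
          simp only [Finset.mem_inter, Finset.mem_insert, Finset.mem_singleton,
            Finset.notMem_empty, iff_false]
          rintro ⟨rfl | rfl, h5⟩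
          · exact (hi h5).elim
          · exact (hj h5).elim
        rw [this]
        simp [hi, hj]
    rw [h4]
    exact prop_aux2 h3
  · obtain ⟨i, hi⟩ : ∃ i, s = Finset.univ.erase i := by
      have h3 : sᶜ.card = 1 := by
        rw [Finset.card_compl, h0]
        simp
      obtain ⟨i, hi⟩ := Finset.card_eq_one.mp h3
      refine ⟨i, ?_⟩
      rw [← compl_compl s, hi]
      ext k
      simp
    rw [hi, h1 i]
    have h5 : Even ((Finset.univ.erase i) ∩ badSet a b).card ↔ i ∉ badSet a b := by
      have h6 : (Finset.univ.erase i) ∩ badSet a b = (badSet a b).erase i := by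
        ext k
        simp only [Finset.mem_inter, Finset.mem_erase, Finset.mem_univ, and_true]
      have h7 := badSet_even hF a b h
      rw [h6]
      by_cases hib : i ∈ badSet a b
      · have h8 := Finset.card_erase_add_one hib
        rw [← h8, Nat.even_add_one] at h7
        exact iff_of_false h7 (not_not.mpr hib)
      · rw [Finset.erase_eq_of_notMem hib]
        exact iff_of_true h7 hib
    rw [h5]

theorem isSquare_const_mul {c x : F} (hc : c ≠ 0) (r : F) (hr : c = r * r) :
    IsSquare (c * x) ↔ IsSquare x := by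
  have hr0 : r ≠ 0 := by
    rintro rfl
    exact hc (by rw [hr, mul_zero])
  constructor
  · rintro ⟨t, ht⟩
    refine ⟨t / r, ?_⟩
    rw [hr] at ht
    field_simp
    linear_combination ht
  · intro h
    rw [hr]
    exact (IsSquare.mul_self r).mul h

theorem typeOf_square_l0 (a b : Fin 5 → F) : IsSquare (typeOf a b none) := IsSquare.one

theorem four_eq : (4 : F) = 2 * 2 := by norm_num

theorem sixteen_eq : (16 : F) = 4 * 4 := by norm_num

theorem four_ne (h2 : (2 : F) ≠ 0) : (4 : F) ≠ 0 := by
  rw [four_eq]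
  exact mul_ne_zero h2 h2

theorem sixteen_ne (h2 : (2 : F) ≠ 0) : (16 : F) ≠ 0 := by
  rw [sixteen_eq]
  exact mul_ne_zero (four_ne h2) (four_ne h2)

open Classical in
theorem sum_types [IsAlgClosed K] (h2 : (2 : F) ≠ 0) (hF : SqProp F) (S : Surf K)
    (hS : S.Smooth)
    (fr : Frame F) (a b : Fin 5 → F) (hC : InFrame S fr (cubP (gpol a b))) (h : Nondeg a b) :
    (Finset.univ.filter (fun j : Idx => IsSquare (typeOf a b j))).card =
      1 + (5 - (badSet a b).card) + (5 - (badSet a b).card) +
      (∑ s : {s : Finset (Fin 5) // Even s.card},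
        (if (decide (IsSquare (Dg (gpol a b))) = true ↔ Even (s.1 ∩ badSet a b).card)
          then 1 else 0)) := by
  rw [Finset.card_filter, Fintype.sum_option, Fintype.sum_sum_type, Fintype.sum_sum_type,
    if_pos (typeOf_square_l0 a b)]
  have e1 : ∑ i : Fin 5, (if IsSquare (4 * nu a b i) then 1 else 0) = 5 - (badSet a b).card := by
    rw [← Finset.card_filter]
    have h3 : (Finset.univ.filter (fun i : Fin 5 => IsSquare (4 * nu a b i))) =
        (badSet a b)ᶜ := by
      ext i
      simp only [badSet, Finset.mem_filter, Finset.mem_univ, true_and, Finset.mem_compl, not_not]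
      exact isSquare_const_mul (four_ne h2) 2 four_eq
    rw [h3, Finset.card_compl]
    simp
  have e2 : ∑ s : {s : Finset (Fin 5) // Even s.card},
      (if IsSquare (16 * Dg (gpol (flip s.1 a) b)) then 1 else 0) =
      ∑ s : {s : Finset (Fin 5) // Even s.card},
        (if (decide (IsSquare (Dg (gpol a b))) = true ↔ Even (s.1 ∩ badSet a b).card)
          then 1 else 0) := by
    apply Finset.sum_congr rfl
    intro s _
    have h3 : IsSquare (16 * Dg (gpol (flip s.1 a) b)) ↔
        (decide (IsSquare (Dg (gpol a b))) = true ↔ Even (s.1 ∩ badSet a b).card) := by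
      rw [isSquare_const_mul (sixteen_ne h2) 4 sixteen_eq,
        Dg_square_iff h2 hF S hS fr a b hC h s.1 s.2, decide_eq_true_iff]
    by_cases h4 : IsSquare (16 * Dg (gpol (flip s.1 a) b))
    · rw [if_pos h4, if_pos (h3.mp h4)]
    · rw [if_neg h4, if_neg (fun h5 => h4 (h3.mpr h5))]
  change 1 + (∑ i : Fin 5, (if IsSquare (4 * nu a b i) then 1 else 0) +
    (∑ i : Fin 5, (if IsSquare (4 * nu a b i) then 1 else 0) +
    ∑ s : {s : Finset (Fin 5) // Even s.card},
      (if IsSquare (16 * Dg (gpol (flip s.1 a) b)) then 1 else 0))) = _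
  rw [e1, e2]
  ring

/-- the numbers of lines of both types -/
theorem count_types [IsAlgClosed K] (h2 : (2 : F) ≠ 0) (hF : SqProp F) (S : Surf K)
    (hS : S.Smooth) (hc : IsCubicF F S)
    (fr : Frame F) (a b : Fin 5 → F) (hC : InFrame S fr (cubP (gpol a b))) (h : Nondeg a b) :
    ∃ H : ℕ, {W | W ∈ S.lines ∧ S.Hyp F W}.ncard = H ∧
      {W | W ∈ S.lines ∧ S.Ell F W}.ncard = 27 - H ∧
      (((badSet a b).card = 0 ∧ IsSquare (Dg (gpol a b)) ∧ H = 27) ∨
      ((badSet a b).card = 0 ∧ ¬ IsSquare (Dg (gpol a b)) ∧ H = 11) ∨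
      ((badSet a b).card = 2 ∧ H = 15) ∨ ((badSet a b).card = 4 ∧ H = 11)) := by
  classical
  have hinj := lineOf_inj h2 fr a b h (K := K)
  have himg : ∀ P : Submodule K (Fin 4 → K) → Prop, {W | W ∈ S.lines ∧ P W} =
      lineOf K fr a b h.ne_zero '' {j | P (lineOf K fr a b h.ne_zero j)} := by
    intro P
    ext W
    constructor
    · rintro ⟨hW, hP⟩
      obtain ⟨j, rfl⟩ := lineOf_surj h2 S fr a b hC h W hW
      exact ⟨j, hP, rfl⟩
    · rintro ⟨j, hj, rfl⟩
      exact ⟨lineOf_mem h2 S hS fr a b hC h.ne_zero j, hj⟩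
  have hty := lineOf_type h2 S hS hc fr a b hC h.ne_zero
  have hH : {W | W ∈ S.lines ∧ S.Hyp F W}.ncard =
      (Finset.univ.filter (fun j : Idx => IsSquare (typeOf a b j))).card := by
    rw [himg, Set.ncard_image_of_injective _ hinj, ← Set.ncard_coe_finset]
    congr 1
    ext j
    simp [(hty j).hyp]
  have hE : {W | W ∈ S.lines ∧ S.Ell F W}.ncard =
      (Finset.univ.filter (fun j : Idx => ¬ IsSquare (typeOf a b j))).card := by
    rw [himg, Set.ncard_image_of_injective _ hinj, ← Set.ncard_coe_finset]
    congr 1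
    ext j
    simp [(hty j).ell]
  have htot : (Finset.univ.filter (fun j : Idx => IsSquare (typeOf a b j))).card +
      (Finset.univ.filter (fun j : Idx => ¬ IsSquare (typeOf a b j))).card = 27 := by
    rw [Finset.card_filter_add_card_filter_not]
    have : Fintype.card Idx = 27 := by decide +kernel
    rw [Finset.card_univ]
    exact this
  have hsum := sum_types h2 hF S hS fr a b hC h
  refine ⟨_, hH, by rw [hE]; omega, ?_⟩
  have hle : (badSet a b).card ≤ 5 := by
    have := Finset.card_le_univ (badSet a b)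
    simpa using this
  have hcases : (badSet a b).card = 0 ∨ (badSet a b).card = 2 ∨ (badSet a b).card = 4 := by
    obtain ⟨k, hk⟩ := badSet_even hF a b h
    omega
  rcases hcases with h0 | h0 | h0
  · have hN := Finset.card_eq_zero.mp h0
    have h3 := cnt0 (decide (IsSquare (Dg (gpol a b))))
    by_cases hD : IsSquare (Dg (gpol a b))
    · left
      refine ⟨h0, hD, ?_⟩
      rw [hsum, h0, hN, h3]
      simp [hD]
    · right; left
      refine ⟨h0, hD, ?_⟩
      rw [hsum, h0, hN, h3]
      simp [hD]
  · right; right; left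
    refine ⟨h0, ?_⟩
    rw [hsum, h0, cnt2 _ (Or.inl h0)]
  · right; right; right
    refine ⟨h0, ?_⟩
    rw [hsum, h0, cnt2 _ (Or.inr h0)]

end

end Pool.Agent.H22.Cubic
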