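import Mathlib
import Pool.Agent.H22.Cubic.CountType

open Polynomial

namespace Pool.Agent.H22.Cubic

universe u v

section

variable {F : Type u} [Field F] {K : Type v} [Field K] [Algebra F K]

theorem flip_empty (a : Fin 5 → F) : flip ∅ a = a := by
  funext j
  simp [flip]

theorem exists_good_nf [IsAlgClosed K] (h2 : (2 : F) ≠ 0) (hF : SqProp F)
    (S : Surf K) (hS : S.Smooth) (hc : IsCubicF F S) (hcK : IsCubicF K S)
    (hrat : ∀ W ∈ S.lines, IsRationalLine F W) (hcard : S.lines.ncard = 27) :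
    ∃ (fr : Frame F) (a b : Fin 5 → F), InFrame S fr (cubP (gpol a b)) ∧ Nondeg a b ∧
      ((badSet a b).card ≠ 0 ∨ IsSquare (Dg (gpol a b))) := by
  obtain ⟨fr0, h01, h23, hh⟩ := exists_hyp_skew h2 hF S hS hc hcK hrat hcard
  obtain ⟨fr, a, b, -, -, hC, hnd⟩ := nf_of_skew h2 S hS hc hrat fr0 h01 h23 hh
  by_cases hgood : (badSet a b).card ≠ 0 ∨ IsSquare (Dg (gpol a b))
  · exact ⟨fr, a, b, hC, hnd, hgood⟩
  push Not at hgood
  obtain ⟨hk, hD⟩ := hgood
  have hmem := lineOf_mem h2 S hS fr a b hC hnd.ne_zero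
  have hty := lineOf_type h2 S hS hc fr a b hC hnd.ne_zero
  have hinj := lineOf_inj h2 fr a b hnd (K := K)
  have hT0 := hmem (some (.inl 0))
  have hT1 := hmem (some (.inl 1))
  have hm := hmem (some (.inr (.inr ⟨∅, by simp⟩)))
  have hHyp : S.Hyp F (lineOf K fr a b hnd.ne_zero (some (.inl 0))) := by
    rw [(hty (some (.inl 0))).hyp]
    change IsSquare (4 * nu a b 0)
    rw [isSquare_const_mul (four_ne h2) 2 four_eq]
    have h3 : (0 : Fin 5) ∉ badSet a b := by
      rw [Finset.card_eq_zero.mp hk]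
      simp
    unfold badSet at h3
    simpa using h3
  obtain ⟨fr1, h3, h4⟩ := pair_frame_skew (lineOf K fr a b hnd.ne_zero (some (.inl 1)))
    (lineOf K fr a b hnd.ne_zero (some (.inl 0))) (hrat _ hT1) (hrat _ hT0) hT1.1 hT0.1
    (fun p hp hp' => nPlus_skew fr a b hnd 1 0 (by decide) p hp hp')
  obtain ⟨fr', a', b', -, h6, hC', hnd'⟩ := nf_of_skew h2 S hS hc hrat fr1
    (by rw [h3]; exact hT1) (by rw [h4]; exact hT0) (by rw [h4]; exact hHyp)
  rw [h4] at h6
  refine ⟨fr', a', b', hC', hnd', Or.inl ?_⟩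
  -- the elliptic line `m`
  have hty' := lineOf_type h2 S hS hc fr' a' b' hC' hnd'.ne_zero
  obtain ⟨j, hj⟩ := lineOf_surj h2 S fr' a' b' hC' hnd' _ hm
  have hell : ¬ IsSquare (typeOf a' b' j) := by
    have h7 := hty' j
    rw [hj] at h7
    rw [h7.iff_square (hty (some (.inr (.inr ⟨∅, by simp⟩))))]
    change ¬ IsSquare (16 * Dg (gpol (flip ∅ a) b))
    rw [isSquare_const_mul (sixteen_ne h2) 4 sixteen_eq, flip_empty]
    exact hD
  have hbad : ∀ i, ¬ IsSquare (4 * nu a' b' i) → (badSet a' b').card ≠ 0 := by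
    intro i hi
    rw [isSquare_const_mul (four_ne h2) 2 four_eq] at hi
    intro h0
    have h7 : i ∈ badSet a' b' := by
      unfold badSet
      simpa using hi
    rw [Finset.card_eq_zero.mp h0] at h7
    simp at h7
  match j with
  | none =>
    exact (hell IsSquare.one).elim
  | some (.inl i) => exact hbad i hell
  | some (.inr (.inl i)) => exact hbad i hell
  | some (.inr (.inr s)) =>
    exfalso
    -- common point
    have hp0 : fr.pt ((algebraMap F K (a 0)) ^ 2) ((algebraMap F K (b 0)) ^ 2) 0 0 ≠ 0 := by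
      apply fr.pt_ne_zero
      rcases hnd.ne_zero 0 with h7 | h7
      · left; exact pow_ne_zero 2 (fun h => h7 (algebraMap_eq_zero' h))
      · right; left; exact pow_ne_zero 2 (fun h => h7 (algebraMap_eq_zero' h))
    have hpT : fr.pt ((algebraMap F K (a 0)) ^ 2) ((algebraMap F K (b 0)) ^ 2) 0 0 ∈
        lineOf K fr a b hnd.ne_zero (some (.inl 0)) := by
      change _ ∈ (frI fr (a 0) (b 0) (hnd.ne_zero 0)).p02.line01 K
      rw [mem_nPlus]
      exact ⟨1, 0, by simp⟩
    have hpm : fr.pt ((algebraMap F K (a 0)) ^ 2) ((algebraMap F K (b 0)) ^ 2) 0 0 ∈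
        lineOf K fr a b hnd.ne_zero (some (.inr (.inr ⟨∅, by simp⟩))) := by
      change _ ∈ (frMs fr a b ∅).line01 K
      rw [mem_m]
      refine ⟨(algebraMap F K (a 0)) ^ 2, (algebraMap F K (b 0)) ^ 2, ?_⟩
      rw [flip_empty]
      simp only [sub_self, zero_mul, add_zero]
    rw [← h6] at hpT
    obtain ⟨z, w, hzw⟩ := (mem_l0 fr' _).mp hpT
    rw [← hj, hzw] at hpm
    change _ ∈ (frMs fr' a' b' s.1).line01 K at hpm
    rw [mem_m] at hpm
    obtain ⟨x, y, hxy⟩ := hpm
    obtain ⟨e1, e2, e3, e4⟩ := fr'.pt_inj hxy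
    rw [← e1, ← e2] at e3 e4
    apply hp0
    rw [hzw, e3, e4]
    simp [fr'.pt_zero]

end

end Pool.Agent.H22.Cubic
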