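import Mathlib
import Pool.Agent.H22.Cubic.Renorm

namespace Pool.Agent.H22.Cubic

universe u

section chars

theorem ringChar_ne_two {F : Type u} [Field F] (h2 : (2 : F) ≠ 0) : ringChar F ≠ 2 := by
  intro h
  apply h2
  have := ringChar.Nat.cast_ringChar (R := F)
  rw [h] at this
  exact_mod_cast this

variable {F : Type u} [Field F] [Fintype F] [DecidableEq F]

theorem sum_shift (h2 : (2 : F) ≠ 0) :
    ∑ x : F, quadraticChar F x * quadraticChar F (x + 1) = -1 := by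
  have h1 : ∀ x : F, quadraticChar F x * quadraticChar F (x + 1) =
      quadraticChar F (x⁻¹ + 1) - (if x⁻¹ = 0 then 1 else 0) := by
    intro x
    by_cases hx : x = 0
    · subst hx
      simp
    · have hx' : x⁻¹ ≠ 0 := inv_ne_zero hx
      rw [if_neg hx', sub_zero]
      have h3 : x + 1 = x * (x⁻¹ + 1) := by
        field_simp
        ring
      have h4 : quadraticChar F x * (quadraticChar F x * quadraticChar F (x⁻¹ + 1)) =
          quadraticChar F x ^ 2 * quadraticChar F (x⁻¹ + 1) := by ring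
      rw [h3, map_mul, h4, quadraticChar_sq_one hx, one_mul]
  simp_rw [h1]
  have h3 : ∑ x : F, (quadraticChar F (x⁻¹ + 1) - (if x⁻¹ = 0 then 1 else 0)) =
      ∑ x : F, (quadraticChar F (x + 1) - (if x = 0 then 1 else 0)) :=
    Equiv.sum_comp (Equiv.inv F) (fun x => quadraticChar F (x + 1) - (if x = 0 then 1 else 0))
  rw [h3, Finset.sum_sub_distrib]
  have h4 : ∑ x : F, quadraticChar F (x + 1) = ∑ x : F, quadraticChar F x :=
    Equiv.sum_comp (Equiv.addRight (1 : F)) (fun x => quadraticChar F x)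
  rw [h4, quadraticChar_sum_zero (ringChar_ne_two h2)]
  simp

theorem count_pairs (h2 : (2 : F) ≠ 0) (δ1 δ2 : ℤ) (h1 : δ1 = 1 ∨ δ1 = -1)
    (h1' : δ2 = 1 ∨ δ2 = -1) :
    4 * ((Finset.univ.filter (fun x : F => quadraticChar F x = δ1 ∧
      quadraticChar F (x + 1) = δ2)).card : ℤ) =
    Fintype.card F - 2 - δ1 * quadraticChar F (-1) - δ2 - δ1 * δ2 := by
  have key : ∀ x : F, 4 * (if quadraticChar F x = δ1 ∧ quadraticChar F (x + 1) = δ2 then (1 : ℤ)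
      else 0) = (1 + δ1 * quadraticChar F x) * (1 + δ2 * quadraticChar F (x + 1)) -
      (if x = 0 then 1 + δ2 else 0) - (if x = -1 then 1 + δ1 * quadraticChar F (-1) else 0) := by
    intro x
    have hδ1 : δ1 ≠ 0 := by rcases h1 with rfl | rfl <;> norm_num
    have hδ2 : δ2 ≠ 0 := by rcases h1' with rfl | rfl <;> norm_num
    by_cases hx : x = 0
    · subst hx
      have h3 : (0 : F) ≠ -1 := by
        intro h
        have : (1 : F) = 0 := by linear_combination h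
        exact one_ne_zero this
      rw [if_pos rfl, if_neg h3, if_neg (by
        rintro ⟨h4, -⟩
        rw [quadraticChar_zero] at h4
        exact hδ1 h4.symm)]
      simp
    · rw [if_neg hx]
      by_cases hx' : x = -1
      · subst hx'
        rw [if_pos rfl, if_neg (by
          rintro ⟨-, h4⟩
          rw [neg_add_cancel, quadraticChar_zero] at h4
          exact hδ2 h4.symm)]
        simp
      · rw [if_neg hx']
        have hx1 : x + 1 ≠ 0 := by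
          intro h
          exact hx' (by linear_combination h)
        rcases quadraticChar_dichotomy hx with h3 | h3 <;>
          rcases quadraticChar_dichotomy hx1 with h4 | h4 <;>
          rcases h1 with rfl | rfl <;> rcases h1' with rfl | rfl <;>
          rw [h3, h4] <;> norm_num
  have hsum : ∑ x : F, 4 * (if quadraticChar F x = δ1 ∧ quadraticChar F (x + 1) = δ2 then (1 : ℤ)
      else 0) = 4 * ((Finset.univ.filter (fun x : F => quadraticChar F x = δ1 ∧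
      quadraticChar F (x + 1) = δ2)).card : ℤ) := by
    rw [← Finset.mul_sum]
    simp
  rw [← hsum]
  simp_rw [key]
  rw [Finset.sum_sub_distrib, Finset.sum_sub_distrib]
  have e1 : ∀ x : F, (1 + δ1 * quadraticChar F x) * (1 + δ2 * quadraticChar F (x + 1)) =
      1 + δ1 * quadraticChar F x + δ2 * quadraticChar F (x + 1) +
      δ1 * δ2 * (quadraticChar F x * quadraticChar F (x + 1)) := by
    intro x
    ring
  simp_rw [e1]
  rw [Finset.sum_add_distrib, Finset.sum_add_distrib, Finset.sum_add_distrib, ← Finset.mul_sum,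
    ← Finset.mul_sum, ← Finset.mul_sum, sum_shift h2]
  have h4 : ∑ x : F, quadraticChar F (x + 1) = ∑ x : F, quadraticChar F x :=
    Equiv.sum_comp (Equiv.addRight (1 : F)) (fun x => quadraticChar F x)
  rw [h4, quadraticChar_sum_zero (ringChar_ne_two h2)]
  simp
  ring

theorem sqProp_of_finite : SqProp F := by
  intro x y hx hy
  have hx' := quadraticChar_neg_one_iff_not_isSquare.mpr hx
  have hy' := quadraticChar_neg_one_iff_not_isSquare.mpr hy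
  by_cases h0 : x * y = 0
  · rw [h0]
    exact IsSquare.zero
  · rw [← quadraticChar_one_iff_isSquare h0, map_mul, hx', hy']
    norm_num

end chars

section tfamily

variable {F : Type u} [Field F]

/-- the parameters of the `t`-family -/
def ta (t : F) : Fin 5 → F := ![t, 1, 1, 0, 1]

/-- the parameters of the `t`-family -/
def tb (t : F) : Fin 5 → F := ![1, 1, t, 1, 0]

theorem nondeg_of_ten {a b : Fin 5 → F}
    (h01 : a 0 ^ 2 * b 1 ^ 2 ≠ a 1 ^ 2 * b 0 ^ 2) (h02 : a 0 ^ 2 * b 2 ^ 2 ≠ a 2 ^ 2 * b 0 ^ 2)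
    (h03 : a 0 ^ 2 * b 3 ^ 2 ≠ a 3 ^ 2 * b 0 ^ 2) (h04 : a 0 ^ 2 * b 4 ^ 2 ≠ a 4 ^ 2 * b 0 ^ 2)
    (h12 : a 1 ^ 2 * b 2 ^ 2 ≠ a 2 ^ 2 * b 1 ^ 2) (h13 : a 1 ^ 2 * b 3 ^ 2 ≠ a 3 ^ 2 * b 1 ^ 2)
    (h14 : a 1 ^ 2 * b 4 ^ 2 ≠ a 4 ^ 2 * b 1 ^ 2) (h23 : a 2 ^ 2 * b 3 ^ 2 ≠ a 3 ^ 2 * b 2 ^ 2)
    (h24 : a 2 ^ 2 * b 4 ^ 2 ≠ a 4 ^ 2 * b 2 ^ 2) (h34 : a 3 ^ 2 * b 4 ^ 2 ≠ a 4 ^ 2 * b 3 ^ 2) :
    Nondeg a b := by
  intro i j hij
  fin_cases i <;> fin_cases j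
  · exact (hij rfl).elim
  · exact h01
  · exact h02
  · exact h03
  · exact h04
  · exact h01.symm
  · exact (hij rfl).elim
  · exact h12
  · exact h13
  · exact h14
  · exact h02.symm
  · exact h12.symm
  · exact (hij rfl).elim
  · exact h23
  · exact h24
  · exact h03.symm
  · exact h13.symm
  · exact h23.symm
  · exact (hij rfl).elim
  · exact h34
  · exact h04.symm
  · exact h14.symm
  · exact h24.symm
  · exact h34.symm
  · exact (hij rfl).elim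

theorem tfam_nondeg (t : F) (ht0 : t ≠ 0) (ht1 : t ^ 2 ≠ 1) (ht2 : t ^ 2 ≠ -1) :
    Nondeg (ta t) (tb t) := by
  have h4 : t ^ 4 ≠ 1 := by
    intro h
    have : (t ^ 2 - 1) * (t ^ 2 + 1) = 0 := by linear_combination h
    rcases mul_eq_zero.mp this with h' | h'
    · exact ht1 (by linear_combination h')
    · exact ht2 (by linear_combination h')
  have ht0' : t ^ 2 ≠ 0 := pow_ne_zero 2 ht0
  apply nondeg_of_ten
  · change t ^ 2 * 1 ^ 2 ≠ 1 ^ 2 * 1 ^ 2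
    intro h
    exact ht1 (by linear_combination h)
  · change t ^ 2 * t ^ 2 ≠ 1 ^ 2 * 1 ^ 2
    intro h
    exact h4 (by linear_combination h)
  · change t ^ 2 * 1 ^ 2 ≠ 0 ^ 2 * 1 ^ 2
    intro h
    exact ht0' (by linear_combination h)
  · change t ^ 2 * 0 ^ 2 ≠ 1 ^ 2 * 1 ^ 2
    intro h
    exact one_ne_zero (α := F) (by linear_combination -h)
  · change 1 ^ 2 * t ^ 2 ≠ 1 ^ 2 * 1 ^ 2
    intro h
    exact ht1 (by linear_combination h)
  · change 1 ^ 2 * 1 ^ 2 ≠ 0 ^ 2 * 1 ^ 2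
    intro h
    exact one_ne_zero (α := F) (by linear_combination h)
  · change 1 ^ 2 * 0 ^ 2 ≠ 1 ^ 2 * 1 ^ 2
    intro h
    exact one_ne_zero (α := F) (by linear_combination -h)
  · change 1 ^ 2 * 1 ^ 2 ≠ 0 ^ 2 * t ^ 2
    intro h
    exact one_ne_zero (α := F) (by linear_combination h)
  · change 1 ^ 2 * 0 ^ 2 ≠ 1 ^ 2 * t ^ 2
    intro h
    exact ht0' (by linear_combination -h)
  · change 0 ^ 2 * 0 ^ 2 ≠ 1 ^ 2 * 1 ^ 2
    intro h
    exact one_ne_zero (α := F) (by linear_combination -h)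

/-- expansion of `nu` -/
theorem nu_expand (a b : Fin 5 → F) :
    nu a b 0 = (a 0 ^ 2 * b 1 ^ 2 - a 1 ^ 2 * b 0 ^ 2) * ((a 0 ^ 2 * b 2 ^ 2 - a 2 ^ 2 * b 0 ^ 2) *
      ((a 0 ^ 2 * b 3 ^ 2 - a 3 ^ 2 * b 0 ^ 2) * (a 0 ^ 2 * b 4 ^ 2 - a 4 ^ 2 * b 0 ^ 2))) ∧
    nu a b 1 = (a 1 ^ 2 * b 0 ^ 2 - a 0 ^ 2 * b 1 ^ 2) * ((a 1 ^ 2 * b 2 ^ 2 - a 2 ^ 2 * b 1 ^ 2) *
      ((a 1 ^ 2 * b 3 ^ 2 - a 3 ^ 2 * b 1 ^ 2) * (a 1 ^ 2 * b 4 ^ 2 - a 4 ^ 2 * b 1 ^ 2))) ∧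
    nu a b 2 = (a 2 ^ 2 * b 0 ^ 2 - a 0 ^ 2 * b 2 ^ 2) * ((a 2 ^ 2 * b 1 ^ 2 - a 1 ^ 2 * b 2 ^ 2) *
      ((a 2 ^ 2 * b 3 ^ 2 - a 3 ^ 2 * b 2 ^ 2) * (a 2 ^ 2 * b 4 ^ 2 - a 4 ^ 2 * b 2 ^ 2))) ∧
    nu a b 3 = (a 3 ^ 2 * b 0 ^ 2 - a 0 ^ 2 * b 3 ^ 2) * ((a 3 ^ 2 * b 1 ^ 2 - a 1 ^ 2 * b 3 ^ 2) *
      ((a 3 ^ 2 * b 2 ^ 2 - a 2 ^ 2 * b 3 ^ 2) * (a 3 ^ 2 * b 4 ^ 2 - a 4 ^ 2 * b 3 ^ 2))) ∧
    nu a b 4 = (a 4 ^ 2 * b 0 ^ 2 - a 0 ^ 2 * b 4 ^ 2) * ((a 4 ^ 2 * b 1 ^ 2 - a 1 ^ 2 * b 4 ^ 2) *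
      ((a 4 ^ 2 * b 2 ^ 2 - a 2 ^ 2 * b 4 ^ 2) * (a 4 ^ 2 * b 3 ^ 2 - a 3 ^ 2 * b 4 ^ 2))) := by
  have e0 : (Finset.univ.erase (0 : Fin 5)) = {1, 2, 3, 4} := by decide
  have e1 : (Finset.univ.erase (1 : Fin 5)) = {0, 2, 3, 4} := by decide
  have e2 : (Finset.univ.erase (2 : Fin 5)) = {0, 1, 3, 4} := by decide
  have e3 : (Finset.univ.erase (3 : Fin 5)) = {0, 1, 2, 4} := by decide
  have e4 : (Finset.univ.erase (4 : Fin 5)) = {0, 1, 2, 3} := by decide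
  unfold nu
  rw [e0, e1, e2, e3, e4]
  simp only [Finset.prod_insert, Finset.prod_singleton, Finset.mem_insert, Finset.mem_singleton,
    Fin.reduceEq, or_self, not_false_eq_true, and_self]

theorem tfam_nu (t : F) : nu (ta t) (tb t) 0 = -(1 + t ^ 2) * (t * (t ^ 2 - 1)) ^ 2 ∧
    nu (ta t) (tb t) 1 = (1 - t ^ 2) ^ 2 ∧
    nu (ta t) (tb t) 2 = -(1 + t ^ 2) * (t * (1 - t ^ 2)) ^ 2 ∧
    nu (ta t) (tb t) 3 = t ^ 2 ∧ nu (ta t) (tb t) 4 = t ^ 2 := by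
  obtain ⟨h0, h1, h2, h3, h4⟩ := nu_expand (ta t) (tb t)
  rw [h0, h1, h2, h3, h4]
  have a0 : ta t 0 = t := rfl
  have a1 : ta t 1 = 1 := rfl
  have a2 : ta t 2 = 1 := rfl
  have a3 : ta t 3 = 0 := rfl
  have a4 : ta t 4 = 1 := rfl
  have b0 : tb t 0 = 1 := rfl
  have b1 : tb t 1 = 1 := rfl
  have b2 : tb t 2 = t := rfl
  have b3 : tb t 3 = 1 := rfl
  have b4 : tb t 4 = 0 := rfl
  rw [a0, a1, a2, a3, a4, b0, b1, b2, b3, b4]
  refine ⟨?_, ?_, ?_, ?_, ?_⟩ <;> ring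

end tfamily

end Pool.Agent.H22.Cubic
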