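import Mathlib
import Pool.Agent.H22.Cubic.Arith

open Polynomial

namespace Pool.Agent.H22.Cubic

universe u

section

variable {F : Type u} [Field F]

theorem tfam_gpol (t : F) : gpol (ta t) (tb t) = C 0 + C t * X + C (1 + t + t ^ 2) * X ^ 2 +
    C (1 + t + t ^ 2) * X ^ 3 + C t * X ^ 4 + C 0 * X ^ 5 := by
  unfold gpol gp
  rw [Fin.prod_univ_five]
  have a0 : ta t 0 = t := rfl
  have a1 : ta t 1 = 1 := rfl
  have a2 : ta t 2 = 1 := rfl
  have a3 : ta t 3 = 0 := rfl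
  have a4 : ta t 4 = 1 := rfl
  have b0 : tb t 0 = 1 := rfl
  have b1 : tb t 1 = 1 := rfl
  have b2 : tb t 2 = t := rfl
  have b3 : tb t 3 = 1 := rfl
  have b4 : tb t 4 = 0 := rfl
  rw [a0, a1, a2, a3, a4, b0, b1, b2, b3, b4]
  simp only [C_add, C_1, C_0, C_pow]
  ring

theorem tfam_Dg (t : F) : Dg (gpol (ta t) (tb t)) = -(1 + t ^ 2) * (t * (1 + t)) ^ 2 := by
  obtain ⟨c0, c1, c2, c3, c4, c5⟩ := coeffs_of (0 : F) t (1 + t + t ^ 2) (1 + t + t ^ 2) t 0
  unfold Dg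
  rw [tfam_gpol, c0, c1, c2, c3, c4, c5]
  unfold segreDisc
  ring

theorem isSquare_mul_sq {x r : F} (hr : r ≠ 0) : IsSquare (x * r ^ 2) ↔ IsSquare x := by
  rw [mul_comm]
  exact isSquare_const_mul (pow_ne_zero 2 hr) r (sq r)

theorem mem_badSet (a b : Fin 5 → F) (i : Fin 5) : i ∈ badSet a b ↔ ¬ IsSquare (nu a b i) := by
  unfold badSet
  simp

theorem tfam_square (t : F) (hs : IsSquare (-(1 + t ^ 2))) :
    (badSet (ta t) (tb t)).card = 0 ∧ IsSquare (Dg (gpol (ta t) (tb t))) := by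
  obtain ⟨h0, h1, h2, h3, h4⟩ := tfam_nu t
  constructor
  · rw [Finset.card_eq_zero, Finset.eq_empty_iff_forall_notMem]
    intro i
    rw [mem_badSet, not_not]
    fin_cases i
    · change IsSquare (nu (ta t) (tb t) 0)
      rw [h0]; exact hs.mul ⟨_, sq _⟩
    · change IsSquare (nu (ta t) (tb t) 1)
      rw [h1]; exact ⟨_, sq _⟩
    · change IsSquare (nu (ta t) (tb t) 2)
      rw [h2]; exact hs.mul ⟨_, sq _⟩
    · change IsSquare (nu (ta t) (tb t) 3)
      rw [h3]; exact ⟨_, sq _⟩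
    · change IsSquare (nu (ta t) (tb t) 4)
      rw [h4]; exact ⟨_, sq _⟩
  · rw [tfam_Dg]
    exact hs.mul ⟨_, sq _⟩

theorem tfam_nonsquare (t : F) (ht0 : t ≠ 0) (ht1 : t ^ 2 ≠ 1) (hs : ¬ IsSquare (-(1 + t ^ 2))) :
    (badSet (ta t) (tb t)).card = 2 := by
  obtain ⟨h0, h1, h2, h3, h4⟩ := tfam_nu t
  have ht1' : t ^ 2 - 1 ≠ 0 := sub_ne_zero.mpr ht1
  have ht1'' : 1 - t ^ 2 ≠ 0 := sub_ne_zero.mpr (Ne.symm ht1)
  have h : badSet (ta t) (tb t) = {0, 2} := by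
    ext i
    unfold badSet
    simp only [Finset.mem_filter, Finset.mem_univ, true_and, Finset.mem_insert,
      Finset.mem_singleton]
    fin_cases i
    · change ¬ IsSquare (nu (ta t) (tb t) 0) ↔ _
      rw [h0, isSquare_mul_sq (mul_ne_zero ht0 ht1')]
      simpa using hs
    · change ¬ IsSquare (nu (ta t) (tb t) 1) ↔ _
      rw [h1]
      simp
      exact ⟨_, sq _⟩
    · change ¬ IsSquare (nu (ta t) (tb t) 2) ↔ _
      rw [h2, isSquare_mul_sq (mul_ne_zero ht0 ht1'')]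
      simpa using hs
    · change ¬ IsSquare (nu (ta t) (tb t) 3) ↔ _
      rw [h3]
      simp
      exact ⟨_, sq _⟩
    · change ¬ IsSquare (nu (ta t) (tb t) 4) ↔ _
      rw [h4]
      simp
      exact ⟨_, sq _⟩
  rw [h]
  rfl

end

section

variable {F : Type u} [Field F] [Fintype F] [DecidableEq F]

theorem chi_neg_one (h2 : (2 : F) ≠ 0) : (quadraticChar F (-1) = 1 ∧ Fintype.card F % 4 = 1) ∨
    (quadraticChar F (-1) = -1 ∧ Fintype.card F % 4 = 3) := by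
  have hodd := FiniteField.odd_card_of_char_ne_two (ringChar_ne_two h2)
  have h1 : (-1 : F) ≠ 0 := neg_ne_zero.mpr one_ne_zero
  by_cases h : IsSquare (-1 : F)
  · left
    refine ⟨(quadraticChar_one_iff_isSquare h1).mpr h, ?_⟩
    have := FiniteField.isSquare_neg_one_iff.mp h
    omega
  · right
    refine ⟨quadraticChar_neg_one_iff_not_isSquare.mpr h, ?_⟩
    by_contra hcon
    exact h (FiniteField.isSquare_neg_one_iff.mpr hcon)

theorem exists_t (h2 : (2 : F) ≠ 0) (δ : ℤ) (hδ : δ = 1 ∨ δ = -1)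
    (hcard : 8 ≤ (Fintype.card F : ℤ) - 2 - quadraticChar F (-1) - δ - δ) :
    ∃ t : F, t ≠ 0 ∧ t ^ 2 ≠ 1 ∧ t ^ 2 ≠ -1 ∧ quadraticChar F (1 + t ^ 2) = δ := by
  have h := count_pairs h2 1 δ (Or.inl rfl) hδ
  have h1 : 1 < (Finset.univ.filter (fun x : F => quadraticChar F x = 1 ∧
      quadraticChar F (x + 1) = δ)).card := by
    have : (2 : ℤ) ≤ ((Finset.univ.filter (fun x : F => quadraticChar F x = 1 ∧
      quadraticChar F (x + 1) = δ)).card : ℤ) := by linarith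
    exact_mod_cast this
  obtain ⟨x, hx, hx1⟩ := Finset.exists_mem_ne h1 1
  rw [Finset.mem_filter] at hx
  obtain ⟨-, hx2, hx3⟩ := hx
  have hx0 : x ≠ 0 := by
    rintro rfl
    simp at hx2
  obtain ⟨t, ht⟩ := (quadraticChar_one_iff_isSquare hx0).mp hx2
  have ht' : t ^ 2 = x := by rw [ht, sq]
  refine ⟨t, ?_, ?_, ?_, ?_⟩
  · rintro rfl
    apply hx0
    rw [ht, mul_zero]
  · rw [ht']
    exact hx1
  · rw [ht']
    rintro rfl
    rw [neg_add_cancel, quadraticChar_zero] at hx3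
    rcases hδ with h | h <;> rw [h] at hx3 <;> norm_num at hx3
  · rw [ht', add_comm]
    exact hx3

theorem chi_neg (x : F) : quadraticChar F (-x) = quadraticChar F (-1) * quadraticChar F x := by
  rw [← map_mul]
  congr 1
  ring

/-- existence of surfaces with `27` hyperbolic lines, `q ≠ 9` -/
theorem exists27_aux (h2 : (2 : F) ≠ 0) (hq : 7 ≤ Fintype.card F) (hq9 : Fintype.card F ≠ 9) :
    ∃ a b : Fin 5 → F, Nondeg a b ∧ (badSet a b).card = 0 ∧ IsSquare (Dg (gpol a b)) := by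
  rcases chi_neg_one h2 with ⟨h1, h3⟩ | ⟨h1, h3⟩
  · obtain ⟨t, ht0, ht1, ht2, ht3⟩ := exists_t h2 1 (Or.inl rfl) (by rw [h1]; omega)
    have hne : 1 + t ^ 2 ≠ 0 := by
      intro h
      exact ht2 (by linear_combination h)
    have hs : IsSquare (-(1 + t ^ 2)) := by
      rw [← quadraticChar_one_iff_isSquare (neg_ne_zero.mpr hne), chi_neg, h1, ht3]
      norm_num
    exact ⟨ta t, tb t, tfam_nondeg t ht0 ht1 ht2, tfam_square t hs⟩
  · obtain ⟨t, ht0, ht1, ht2, ht3⟩ := exists_t h2 (-1) (Or.inr rfl) (by rw [h1]; omega)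
    have hne : 1 + t ^ 2 ≠ 0 := by
      intro h
      exact ht2 (by linear_combination h)
    have hs : IsSquare (-(1 + t ^ 2)) := by
      rw [← quadraticChar_one_iff_isSquare (neg_ne_zero.mpr hne), chi_neg, h1, ht3]
      norm_num
    exact ⟨ta t, tb t, tfam_nondeg t ht0 ht1 ht2, tfam_square t hs⟩

/-- existence of surfaces with `15` hyperbolic lines -/
theorem exists15 (h2 : (2 : F) ≠ 0) (hq : 9 ≤ Fintype.card F) :
    ∃ a b : Fin 5 → F, Nondeg a b ∧ (badSet a b).card = 2 := by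
  rcases chi_neg_one h2 with ⟨h1, h3⟩ | ⟨h1, h3⟩
  · obtain ⟨t, ht0, ht1, ht2, ht3⟩ := exists_t h2 (-1) (Or.inr rfl) (by rw [h1]; omega)
    have hs : ¬ IsSquare (-(1 + t ^ 2)) := by
      rw [← quadraticChar_neg_one_iff_not_isSquare, chi_neg, h1, ht3]
      norm_num
    exact ⟨ta t, tb t, tfam_nondeg t ht0 ht1 ht2, tfam_nonsquare t ht0 ht1 hs⟩
  · obtain ⟨t, ht0, ht1, ht2, ht3⟩ := exists_t h2 1 (Or.inl rfl) (by rw [h1]; omega)
    have hs : ¬ IsSquare (-(1 + t ^ 2)) := by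
      rw [← quadraticChar_neg_one_iff_not_isSquare, chi_neg, h1, ht3]
      norm_num
    exact ⟨ta t, tb t, tfam_nondeg t ht0 ht1 ht2, tfam_nonsquare t ht0 ht1 hs⟩

end

end Pool.Agent.H22.Cubic
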