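import Mathlib
import Pool.Agent.H22.Cubic.Arith2

open Polynomial

namespace Pool.Agent.H22.Cubic

universe u

section

variable {F : Type u} [Field F]

theorem nine_example (h2 : (2 : F) ≠ 0) (h3 : (3 : F) = 0) (ι : F) (hι : ι ^ 2 = -1) :
    ∃ a b : Fin 5 → F, Nondeg a b ∧ (badSet a b).card = 0 ∧ IsSquare (Dg (gpol a b)) := by
  set a : Fin 5 → F := ![1, ι, 1 - ι, 1 + ι, 1] with ha
  set b : Fin 5 → F := ![1, 1, 1, 1, 0] with hb
  have s0 : a 0 ^ 2 = 1 := by
    change (1 : F) ^ 2 = 1
    ring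
  have s1 : a 1 ^ 2 = -1 := hι
  have s2 : a 2 ^ 2 = ι := by
    change (1 - ι) ^ 2 = ι
    linear_combination hι - ι * h3
  have s3 : a 3 ^ 2 = -ι := by
    change (1 + ι) ^ 2 = -ι
    linear_combination hι + ι * h3
  have s4 : a 4 ^ 2 = 1 := by
    change (1 : F) ^ 2 = 1
    ring
  have t0 : b 0 ^ 2 = 1 := by
    change (1 : F) ^ 2 = 1
    ring
  have t1 : b 1 ^ 2 = 1 := by
    change (1 : F) ^ 2 = 1
    ring
  have t2 : b 2 ^ 2 = 1 := by
    change (1 : F) ^ 2 = 1
    ring
  have t3 : b 3 ^ 2 = 1 := by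
    change (1 : F) ^ 2 = 1
    ring
  have t4 : b 4 ^ 2 = 0 := by
    change (0 : F) ^ 2 = 0
    ring
  have hι0 : ι ≠ 0 := by
    intro h
    rw [h] at hι
    apply one_ne_zero (α := F)
    linear_combination hι
  have hι1 : ι ≠ 1 := by
    intro h
    rw [h] at hι
    apply h2
    linear_combination hι
  have hι2 : ι ≠ -1 := by
    intro h
    rw [h] at hι
    apply h2
    linear_combination hι
  refine ⟨a, b, ?_, ?_, ?_⟩
  · apply nondeg_of_ten
    · rw [s0, s1, t0, t1]
      intro h
      apply h2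
      linear_combination h
    · rw [s0, s2, t0, t2]
      intro h
      apply hι1
      linear_combination -h
    · rw [s0, s3, t0, t3]
      intro h
      apply hι2
      linear_combination h
    · rw [s0, s4, t0, t4]
      intro h
      apply one_ne_zero (α := F)
      linear_combination -h
    · rw [s1, s2, t1, t2]
      intro h
      apply hι2
      linear_combination -h
    · rw [s1, s3, t1, t3]
      intro h
      apply hι1
      linear_combination h
    · rw [s1, s4, t1, t4]
      intro h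
      apply one_ne_zero (α := F)
      linear_combination -h
    · rw [s2, s3, t2, t3]
      intro h
      apply mul_ne_zero h2 hι0
      linear_combination h
    · rw [s2, s4, t2, t4]
      intro h
      apply one_ne_zero (α := F)
      linear_combination -h
    · rw [s3, s4, t3, t4]
      intro h
      apply one_ne_zero (α := F)
      linear_combination -h
  · rw [Finset.card_eq_zero, Finset.eq_empty_iff_forall_notMem]
    obtain ⟨e0, e1, e2, e3, e4⟩ := nu_expand a b
    intro i
    rw [mem_badSet, not_not]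
    fin_cases i
    · change IsSquare (nu a b 0)
      rw [e0, s0, s1, s2, s3, s4, t0, t1, t2, t3, t4]
      exact ⟨ι, by linear_combination hι - h3⟩
    · change IsSquare (nu a b 1)
      rw [e1, s0, s1, s2, s3, s4, t0, t1, t2, t3, t4]
      exact ⟨1, by linear_combination -2 * hι + h3⟩
    · change IsSquare (nu a b 2)
      rw [e2, s0, s1, s2, s3, s4, t0, t1, t2, t3, t4]
      exact ⟨1 - ι, by linear_combination (-2 * ι - 1) * hι + 2 * ι * h3⟩
    · change IsSquare (nu a b 3)
      rw [e3, s0, s1, s2, s3, s4, t0, t1, t2, t3, t4]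
      exact ⟨1 + ι, by linear_combination (2 * ι - 1) * hι - 2 * ι * h3⟩
    · change IsSquare (nu a b 4)
      rw [e4, s0, s1, s2, s3, s4, t0, t1, t2, t3, t4]
      exact ⟨1, by ring⟩
  · have hg : gpol a b = C 0 + C 1 * X + C ι * X ^ 2 + C 1 * X ^ 3 + C (ι - 1) * X ^ 4 +
        C (-ι) * X ^ 5 := by
      have h3' : (3 : F[X]) = 0 := by
        have e : (C (3 : F) : F[X]) = 3 := map_ofNat C 3
        rw [← e, h3, C_0]
      have hι' : (C ι : F[X]) ^ 2 = -1 := by
        rw [← C_pow, hι, C_neg, C_1]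
      unfold gpol gp
      rw [Fin.prod_univ_five]
      change (C 1 + C 1 * X) * (C 1 + C ι * X) * (C 1 + C (1 - ι) * X) * (C 1 + C (1 + ι) * X) *
        (C 0 + C 1 * X) = _
      simp only [C_add, C_sub, C_neg, C_1, C_0]
      linear_combination (X * (X + (1 + C ι) * X ^ 2 + (1 + C ι) * X ^ 3 + C ι * X ^ 4)) * h3' +
        (X * (-X ^ 2 - (1 + C ι) * X ^ 3 - C ι * X ^ 4)) * hι'
    obtain ⟨c0, c1, c2, c3, c4, c5⟩ := coeffs_of (0 : F) 1 ι 1 (ι - 1) (-ι)
    unfold Dg
    rw [hg, c0, c1, c2, c3, c4, c5]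
    unfold segreDisc
    exact ⟨1, by linear_combination (-ι) * hι⟩

/-- the family for `q = 1 mod 4` -/
theorem k4_family (h2 : (2 : F) ≠ 0) (ι : F) (hι : ι ^ 2 = -1) (u v : F) (hu : u ≠ 0)
    (hv : v ≠ 0) (huv : u ^ 4 ≠ v ^ 4) (hns : ¬ IsSquare (2 * (u ^ 4 - v ^ 4))) :
    ∃ a b : Fin 5 → F, Nondeg a b ∧ (badSet a b).card = 4 := by
  set a : Fin 5 → F := ![u, ι * u, v, ι * v, 1] with ha
  set b : Fin 5 → F := ![1, 1, 1, 1, 0] with hb
  have s0 : a 0 ^ 2 = u ^ 2 := rfl
  have s1 : a 1 ^ 2 = -u ^ 2 := by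
    change (ι * u) ^ 2 = -u ^ 2
    linear_combination u ^ 2 * hι
  have s2 : a 2 ^ 2 = v ^ 2 := rfl
  have s3 : a 3 ^ 2 = -v ^ 2 := by
    change (ι * v) ^ 2 = -v ^ 2
    linear_combination v ^ 2 * hι
  have s4 : a 4 ^ 2 = 1 := by
    change (1 : F) ^ 2 = 1
    ring
  have t0 : b 0 ^ 2 = 1 := by
    change (1 : F) ^ 2 = 1
    ring
  have t1 : b 1 ^ 2 = 1 := by
    change (1 : F) ^ 2 = 1
    ring
  have t2 : b 2 ^ 2 = 1 := by
    change (1 : F) ^ 2 = 1
    ring
  have t3 : b 3 ^ 2 = 1 := by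
    change (1 : F) ^ 2 = 1
    ring
  have t4 : b 4 ^ 2 = 0 := by
    change (0 : F) ^ 2 = 0
    ring
  have hι0 : ι ≠ 0 := by
    intro h
    rw [h] at hι
    apply one_ne_zero (α := F)
    linear_combination hι
  have hu2 : u ^ 2 ≠ 0 := pow_ne_zero 2 hu
  have hv2 : v ^ 2 ≠ 0 := pow_ne_zero 2 hv
  have huv1 : u ^ 2 ≠ v ^ 2 := by
    intro h
    apply huv
    linear_combination (u ^ 2 + v ^ 2) * h
  have huv2 : u ^ 2 ≠ -v ^ 2 := by
    intro h
    apply huv
    linear_combination (u ^ 2 - v ^ 2) * h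
  refine ⟨a, b, ?_, ?_⟩
  · apply nondeg_of_ten
    · rw [s0, s1, t0, t1]
      intro h
      apply mul_ne_zero h2 hu2
      linear_combination h
    · rw [s0, s2, t0, t2]
      intro h
      apply huv1
      linear_combination h
    · rw [s0, s3, t0, t3]
      intro h
      apply huv2
      linear_combination h
    · rw [s0, s4, t0, t4]
      intro h
      apply one_ne_zero (α := F)
      linear_combination -h
    · rw [s1, s2, t1, t2]
      intro h
      apply huv2
      linear_combination -h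
    · rw [s1, s3, t1, t3]
      intro h
      apply huv1
      linear_combination -h
    · rw [s1, s4, t1, t4]
      intro h
      apply one_ne_zero (α := F)
      linear_combination -h
    · rw [s2, s3, t2, t3]
      intro h
      apply mul_ne_zero h2 hv2
      linear_combination h
    · rw [s2, s4, t2, t4]
      intro h
      apply one_ne_zero (α := F)
      linear_combination -h
    · rw [s3, s4, t3, t4]
      intro h
      apply one_ne_zero (α := F)
      linear_combination -h
  · obtain ⟨e0, e1, e2, e3, e4⟩ := nu_expand a b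
    rw [s0, s1, s2, s3, s4, t0, t1, t2, t3, t4] at e0 e1 e2 e3 e4
    have h : badSet a b = {0, 1, 2, 3} := by
      ext i
      rw [mem_badSet]
      simp only [Finset.mem_insert, Finset.mem_singleton]
      fin_cases i
      · change ¬ IsSquare (nu a b 0) ↔ _
        have : nu a b 0 = 2 * (u ^ 4 - v ^ 4) * (ι * u) ^ 2 := by
          rw [e0]
          linear_combination (-2 * u ^ 2 * (u ^ 4 - v ^ 4)) * hι
        rw [this, isSquare_mul_sq (mul_ne_zero hι0 hu)]
        simpa using hns
      · change ¬ IsSquare (nu a b 1) ↔ _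
        have : nu a b 1 = 2 * (u ^ 4 - v ^ 4) * u ^ 2 := by
          rw [e1]
          ring
        rw [this, isSquare_mul_sq hu]
        simpa using hns
      · change ¬ IsSquare (nu a b 2) ↔ _
        have : nu a b 2 = 2 * (u ^ 4 - v ^ 4) * v ^ 2 := by
          rw [e2]
          ring
        rw [this, isSquare_mul_sq hv]
        simpa using hns
      · change ¬ IsSquare (nu a b 3) ↔ _
        have : nu a b 3 = 2 * (u ^ 4 - v ^ 4) * (ι * v) ^ 2 := by
          rw [e3]
          linear_combination (-2 * v ^ 2 * (u ^ 4 - v ^ 4)) * hι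
        rw [this, isSquare_mul_sq (mul_ne_zero hι0 hv)]
        simpa using hns
      · change ¬ IsSquare (nu a b 4) ↔ _
        rw [e4]
        simp
    rw [h]
    rfl

/-- the family for `q = 3 mod 4` -/
theorem k4_cycle (α β γ : F) (hF : SqProp F)
    (hneg : ¬ IsSquare (-1 : F))
    (h1 : IsSquare (1 - α ^ 2)) (h1' : 1 - α ^ 2 ≠ 0)
    (h2 : IsSquare (1 - β ^ 2)) (h2' : 1 - β ^ 2 ≠ 0)
    (h3 : IsSquare (1 - γ ^ 2)) (h3' : 1 - γ ^ 2 ≠ 0)
    (h4 : IsSquare (α ^ 2 - β ^ 2)) (h4' : α ^ 2 - β ^ 2 ≠ 0)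
    (h5 : IsSquare (β ^ 2 - γ ^ 2)) (h5' : β ^ 2 - γ ^ 2 ≠ 0)
    (h6 : IsSquare (γ ^ 2 - α ^ 2)) (h6' : γ ^ 2 - α ^ 2 ≠ 0) :
    ∃ a b : Fin 5 → F, Nondeg a b ∧ (badSet a b).card = 4 := by
  set a : Fin 5 → F := ![1, α, β, γ, 1] with ha
  set b : Fin 5 → F := ![1, 1, 1, 1, 0] with hb
  have s0 : a 0 ^ 2 = 1 := by
    change (1 : F) ^ 2 = 1
    ring
  have s1 : a 1 ^ 2 = α ^ 2 := rfl
  have s2 : a 2 ^ 2 = β ^ 2 := rfl
  have s3 : a 3 ^ 2 = γ ^ 2 := rfl
  have s4 : a 4 ^ 2 = 1 := by
    change (1 : F) ^ 2 = 1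
    ring
  have t0 : b 0 ^ 2 = 1 := by
    change (1 : F) ^ 2 = 1
    ring
  have t1 : b 1 ^ 2 = 1 := by
    change (1 : F) ^ 2 = 1
    ring
  have t2 : b 2 ^ 2 = 1 := by
    change (1 : F) ^ 2 = 1
    ring
  have t3 : b 3 ^ 2 = 1 := by
    change (1 : F) ^ 2 = 1
    ring
  have t4 : b 4 ^ 2 = 0 := by
    change (0 : F) ^ 2 = 0
    ring
  have hm1 : (-1 : F) ≠ 0 := neg_ne_zero.mpr one_ne_zero
  -- products of three squares with `-1` are nonsquares
  have key : ∀ x y z : F, x ≠ 0 → y ≠ 0 → z ≠ 0 → IsSquare x → IsSquare y → IsSquare z →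
      ¬ IsSquare (-1 * (x * y * z)) := by
    intro x y z hx hy hz sx sy sz h
    rw [isSquare_mul_iff' hF hm1 (mul_ne_zero (mul_ne_zero hx hy) hz)] at h
    exact hneg (h.mpr ((sx.mul sy).mul sz))
  refine ⟨a, b, ?_, ?_⟩
  · apply nondeg_of_ten
    · rw [s0, s1, t0, t1]
      intro h
      apply h1'
      linear_combination h
    · rw [s0, s2, t0, t2]
      intro h
      apply h2'
      linear_combination h
    · rw [s0, s3, t0, t3]
      intro h
      apply h3'
      linear_combination h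
    · rw [s0, s4, t0, t4]
      intro h
      apply one_ne_zero (α := F)
      linear_combination -h
    · rw [s1, s2, t1, t2]
      intro h
      apply h4'
      linear_combination h
    · rw [s1, s3, t1, t3]
      intro h
      apply h6'
      linear_combination -h
    · rw [s1, s4, t1, t4]
      intro h
      apply one_ne_zero (α := F)
      linear_combination -h
    · rw [s2, s3, t2, t3]
      intro h
      apply h5'
      linear_combination h
    · rw [s2, s4, t2, t4]
      intro h
      apply one_ne_zero (α := F)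
      linear_combination -h
    · rw [s3, s4, t3, t4]
      intro h
      apply one_ne_zero (α := F)
      linear_combination -h
  · obtain ⟨e0, e1, e2, e3, e4⟩ := nu_expand a b
    rw [s0, s1, s2, s3, s4, t0, t1, t2, t3, t4] at e0 e1 e2 e3 e4
    have h : badSet a b = {0, 1, 2, 3} := by
      ext i
      rw [mem_badSet]
      simp only [Finset.mem_insert, Finset.mem_singleton]
      fin_cases i
      · change ¬ IsSquare (nu a b 0) ↔ _
        have : nu a b 0 = -1 * ((1 - α ^ 2) * (1 - β ^ 2) * (1 - γ ^ 2)) := by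
          rw [e0]
          ring
        rw [this]
        simpa using key _ _ _ h1' h2' h3' h1 h2 h3
      · change ¬ IsSquare (nu a b 1) ↔ _
        have : nu a b 1 = -1 * ((1 - α ^ 2) * (α ^ 2 - β ^ 2) * (γ ^ 2 - α ^ 2)) := by
          rw [e1]
          ring
        rw [this]
        simpa using key _ _ _ h1' h4' h6' h1 h4 h6
      · change ¬ IsSquare (nu a b 2) ↔ _
        have : nu a b 2 = -1 * ((1 - β ^ 2) * (α ^ 2 - β ^ 2) * (β ^ 2 - γ ^ 2)) := by
          rw [e2]
          ring
        rw [this]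
        simpa using key _ _ _ h2' h4' h5' h2 h4 h5
      · change ¬ IsSquare (nu a b 3) ↔ _
        have : nu a b 3 = -1 * ((1 - γ ^ 2) * (γ ^ 2 - α ^ 2) * (β ^ 2 - γ ^ 2)) := by
          rw [e3]
          ring
        rw [this]
        simpa using key _ _ _ h3' h6' h5' h3 h6 h5
      · change ¬ IsSquare (nu a b 4) ↔ _
        rw [e4]
        simp
    rw [h]
    rfl

end

end Pool.Agent.H22.Cubic
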