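import Mathlib
import Pool.Agent.H22.Cubic.Arith3

open Polynomial

namespace Pool.Agent.H22.Cubic

universe u

section clique

variable {F : Type u} [Field F] [Fintype F] [DecidableEq F]

/-- Cliques in the Paley graph have at most `√q` elements. -/
theorem clique_bound (h2 : (2 : F) ≠ 0) (A : Finset F)
    (hA : ∀ x ∈ A, ∀ y ∈ A, IsSquare (x - y)) : A.card ^ 2 ≤ Fintype.card F := by
  obtain ⟨n, hn⟩ := FiniteField.exists_nonsquare (ringChar_ne_two h2)
  have hn0 : n ≠ 0 := by
    rintro rfl
    exact hn IsSquare.zero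
  have hinj : Set.InjOn (fun p : F × F => p.1 + n * p.2) (A ×ˢ A : Finset (F × F)) := by
    rintro ⟨x, y⟩ hxy ⟨x', y'⟩ hxy' h
    simp only at h
    rw [Finset.mem_coe, Finset.mem_product] at hxy hxy'
    have h1 : x - x' = n * (y' - y) := by linear_combination h
    by_cases hy : y' - y = 0
    · rw [hy, mul_zero] at h1
      have e1 : x = x' := by linear_combination h1
      have e2 : y = y' := by linear_combination -hy
      rw [e1, e2]
    · exfalso
      have s1 := hA x hxy.1 x' hxy'.1
      have s2 := hA y' hxy'.2 y hxy.2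
      rw [h1, mul_comm] at s1
      obtain ⟨r, hr⟩ := s1
      obtain ⟨t, ht⟩ := s2
      have ht0 : t ≠ 0 := by
        rintro rfl
        exact hy (by rw [ht, mul_zero])
      apply hn
      refine ⟨r / t, ?_⟩
      rw [ht] at hr
      field_simp
      linear_combination hr
  have h3 := Finset.card_image_of_injOn hinj
  rw [Finset.card_product] at h3
  rw [sq, ← h3]
  exact Finset.card_le_univ _

theorem exists_fourth (h2 : (2 : F) ≠ 0) (hq : 18 ≤ Fintype.card F) :
    ∃ u v : F, u ≠ 0 ∧ v ≠ 0 ∧ u ^ 4 ≠ v ^ 4 ∧ ¬ IsSquare (2 * (u ^ 4 - v ^ 4)) := by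
  by_contra hcon
  push Not at hcon
  set s : Finset F := Finset.univ.erase 0 with hs
  set A : Finset F := s.image (fun u => 2 * u ^ 4) with hA
  have h1 : A.card ^ 2 ≤ Fintype.card F := by
    apply clique_bound h2
    intro x hx y hy
    rw [hA, Finset.mem_image] at hx hy
    obtain ⟨u, hu, rfl⟩ := hx
    obtain ⟨v, hv, rfl⟩ := hy
    have hu0 : u ≠ 0 := Finset.ne_of_mem_erase hu
    have hv0 : v ≠ 0 := Finset.ne_of_mem_erase hv
    by_cases huv : u ^ 4 = v ^ 4
    · rw [huv, sub_self]
      exact IsSquare.zero
    · have := hcon u v hu0 hv0 huv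
      rwa [mul_sub] at this
  have h3 : s.card ≤ 4 * A.card := by
    apply Finset.card_le_mul_card_image
    intro c _
    have hsub : (s.filter (fun a => 2 * a ^ 4 = c)) ⊆ (nthRoots 4 (c / 2)).toFinset := by
      intro a ha
      rw [Finset.mem_filter] at ha
      rw [Multiset.mem_toFinset, mem_nthRoots (by norm_num)]
      rw [← ha.2]
      field_simp
    refine (Finset.card_le_card hsub).trans ?_
    exact (Multiset.toFinset_card_le _).trans (card_nthRoots 4 _)
  have h4 : s.card = Fintype.card F - 1 := by
    rw [hs, Finset.card_erase_of_mem (Finset.mem_univ _), Finset.card_univ]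
  rw [h4] at h3
  have h5 : Fintype.card F ≤ 4 * A.card + 1 := by omega
  nlinarith

end clique

section tournament

variable {F : Type u} [Field F] [Fintype F] [DecidableEq F]

/-- nonzero squares -/
def Pos (x : F) : Prop := quadraticChar F x = 1

theorem pos_mul {x y : F} (hx : Pos x) (hy : Pos y) : Pos (x * y) := by
  unfold Pos at *
  rw [map_mul, hx, hy]
  norm_num

theorem pos_ne {x : F} (hx : Pos x) : x ≠ 0 := by
  rintro rfl
  unfold Pos at hx
  simp at hx

theorem not_pos_neg (hneg : quadraticChar F (-1) = -1) {x : F} (hx : Pos x) : ¬ Pos (-x) := by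
  unfold Pos at *
  rw [chi_neg, hneg, hx]
  norm_num

theorem pos_or_neg (hneg : quadraticChar F (-1) = -1) {x : F} (hx : x ≠ 0) :
    Pos x ∨ Pos (-x) := by
  unfold Pos
  rw [chi_neg, hneg]
  rcases quadraticChar_dichotomy hx with h | h
  · left; exact h
  · right; rw [h]; norm_num

theorem exists_max {r : F → F → Prop} (T : Finset F) (hT : T.Nonempty)
    (htot : ∀ x ∈ T, ∀ y ∈ T, x ≠ y → r x y ∨ r y x)
    (htr : ∀ x ∈ T, ∀ y ∈ T, ∀ z ∈ T, r x y → r y z → r x z) :
    ∃ m ∈ T, ∀ x ∈ T, x ≠ m → r m x := by
  induction hT using Finset.Nonempty.cons_induction with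
  | singleton a =>
    refine ⟨a, by simp, ?_⟩
    intro x hx hne
    exact (hne (by simpa using hx)).elim
  | cons a T ha hT ih =>
    obtain ⟨m, hm, hmax⟩ := ih
      (fun x hx y hy => htot x (Finset.mem_cons_of_mem hx) y (Finset.mem_cons_of_mem hy))
      (fun x hx y hy z hz => htr x (Finset.mem_cons_of_mem hx) y (Finset.mem_cons_of_mem hy) z
        (Finset.mem_cons_of_mem hz))
    have hma : m ≠ a := by
      rintro rfl
      exact ha hm
    have ha' : a ∈ Finset.cons a T ha := Finset.mem_cons_self a T
    rcases htot m (Finset.mem_cons_of_mem hm) a ha' hma with h | h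
    · refine ⟨m, Finset.mem_cons_of_mem hm, ?_⟩
      intro x hx hne
      rcases Finset.mem_cons.mp hx with rfl | hx
      · exact h
      · exact hmax x hx hne
    · refine ⟨a, ha', ?_⟩
      intro x hx hne
      rcases Finset.mem_cons.mp hx with rfl | hx
      · exact (hne rfl).elim
      · by_cases hxm : x = m
        · rw [hxm]; exact h
        · exact htr a ha' m (Finset.mem_cons_of_mem hm) x (Finset.mem_cons_of_mem hx) h
            (hmax x hx hxm)

/-- There is a 3-cycle dominated by `1`. -/
theorem exists_cycle (hneg : quadraticChar F (-1) = -1) (N : Finset F)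
    (hN : ∀ x, x ∈ N ↔ Pos x ∧ Pos (1 - x)) (hcard : 3 ≤ N.card) :
    ∃ x ∈ N, ∃ y ∈ N, ∃ z ∈ N, Pos (x - y) ∧ Pos (y - z) ∧ Pos (z - x) := by
  by_contra hcon
  push Not at hcon
  have htr : ∀ x ∈ N, ∀ y ∈ N, ∀ z ∈ N, Pos (x - y) → Pos (y - z) → Pos (x - z) := by
    intro x hx y hy z hz h1 h2
    have hxz : x - z ≠ 0 := by
      intro h
      have e : y - z = -(x - y) := by linear_combination h
      rw [e] at h2
      exact not_pos_neg hneg h1 h2
    rcases pos_or_neg hneg hxz with h | h
    · exact h
    · exfalso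
      apply hcon x hx y hy z hz h1 h2
      have e : z - x = -(x - z) := by ring
      rw [e]
      exact h
  have htot : ∀ x y : F, x ≠ y → Pos (x - y) ∨ Pos (y - x) := by
    intro x y hxy
    rcases pos_or_neg hneg (sub_ne_zero.mpr hxy) with h | h
    · left; exact h
    · right
      have e : y - x = -(x - y) := by ring
      rw [e]
      exact h
  have hanti : ∀ x y : F, Pos (x - y) → ¬ Pos (y - x) := by
    intro x y h1 h2
    have e : y - x = -(x - y) := by ring
    rw [e] at h2
    exact not_pos_neg hneg h1 h2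
  have hne : N.Nonempty := Finset.card_pos.mp (by omega)
  obtain ⟨a, ha, hmax⟩ := exists_max (r := fun x y => Pos (x - y)) N hne
    (fun x _ y _ hxy => htot x y hxy) htr
  have haP := (hN a).mp ha
  set b := 1 - a with hb
  have hbN : b ∈ N := by
    rw [hN, hb]
    refine ⟨haP.2, ?_⟩
    rw [sub_sub_cancel]
    exact haP.1
  have hmin : ∀ x ∈ N, x ≠ b → Pos (x - b) := by
    intro x hx hxb
    have hx' : 1 - x ∈ N := by
      rw [hN]
      obtain ⟨h1, h2⟩ := (hN x).mp hx
      refine ⟨h2, ?_⟩
      rw [sub_sub_cancel]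
      exact h1
    have h3 := hmax (1 - x) hx' (by
      intro h
      apply hxb
      rw [hb]
      linear_combination -h)
    have e : x - b = a - (1 - x) := by
      rw [hb]
      ring
    rw [e]
    exact h3
  have hab : b ≠ a := by
    intro h
    have : N ⊆ {a} := by
      intro x hx
      rw [Finset.mem_singleton]
      by_contra hxa
      have h1 := hmax x hx hxa
      have h2 := hmin x hx (by rw [h]; exact hxa)
      rw [h] at h2
      exact hanti _ _ h1 h2
    have := Finset.card_le_card this
    rw [Finset.card_singleton] at this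
    omega
  have ha1 : a ≠ 1 := by
    intro h
    have := haP.2
    rw [hb, h, sub_self] at this
    exact pos_ne this rfl
  -- the set `a N`
  set M := N.image (fun x => a * x) with hM
  have hMmem : ∀ y, Pos y → Pos (a - y) → y ∈ M := by
    intro y h1 h2
    rw [hM, Finset.mem_image]
    have ha0 : a ≠ 0 := pos_ne haP.1
    have hainv : Pos a⁻¹ := by
      have h3 := haP.1
      unfold Pos at h3 ⊢
      have h4 : quadraticChar F (a * a⁻¹) = 1 := by
        rw [mul_inv_cancel₀ ha0]
        simp
      rw [map_mul, h3, one_mul] at h4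
      exact h4
    refine ⟨a⁻¹ * y, ?_, ?_⟩
    · rw [hN]
      refine ⟨pos_mul hainv h1, ?_⟩
      have e : 1 - a⁻¹ * y = a⁻¹ * (a - y) := by
        field_simp
      rw [e]
      exact pos_mul hainv h2
    · field_simp
  have hMcard : M.card = N.card := by
    rw [hM]
    apply Finset.card_image_of_injective
    intro x y hxy
    exact mul_left_cancel₀ (pos_ne haP.1) hxy
  have hsub : N.erase a ⊆ M := by
    intro x hx
    obtain ⟨hxa, hxN⟩ := Finset.mem_erase.mp hx
    exact hMmem x ((hN x).mp hxN).1 (hmax x hxN hxa)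
  have habM : a * b ∈ M := by
    rw [hM, Finset.mem_image]
    exact ⟨b, hbN, rfl⟩
  have habN : a * b ∉ N.erase a := by
    intro h
    obtain ⟨h1, h2⟩ := Finset.mem_erase.mp h
    have hbM : b ∈ M := hsub (Finset.mem_erase.mpr ⟨hab, hbN⟩)
    rw [hM, Finset.mem_image] at hbM
    obtain ⟨b', hb', hbb⟩ := hbM
    have hb0 : b ≠ 0 := pos_ne ((hN b).mp hbN).1
    have hne1 : a * b ≠ b := by
      intro h3
      apply ha1
      have : (a - 1) * b = 0 := by linear_combination h3
      rcases mul_eq_zero.mp this with h4 | h4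
      · linear_combination h4
      · exact (hb0 h4).elim
    have hne2 : b' ≠ b := by
      rintro rfl
      exact hne1 hbb
    have h3 := hmin b' hb' hne2
    have h4 := pos_mul haP.1 h3
    have e : a * (b' - b) = b - a * b := by
      linear_combination hbb
    rw [e] at h4
    exact hanti _ _ h4 (hmin _ h2 hne1)
  have hMeq : M = insert (a * b) (N.erase a) := by
    symm
    apply Finset.eq_of_subset_of_card_le
    · intro x hx
      rcases Finset.mem_insert.mp hx with rfl | hx
      · exact habM
      · exact hsub hx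
    · rw [Finset.card_insert_of_notMem habN, Finset.card_erase_of_mem ha, hMcard]
      omega
  -- multiplication by `a` maps `N \ b` to `N \ a`
  have hmap : ∀ x ∈ N.erase b, a * x ∈ N.erase a := by
    intro x hx
    obtain ⟨hxb, hxN⟩ := Finset.mem_erase.mp hx
    have h1 : a * x ∈ M := by
      rw [hM, Finset.mem_image]
      exact ⟨x, hxN, rfl⟩
    rw [hMeq] at h1
    rcases Finset.mem_insert.mp h1 with h | h
    · exact (hxb (mul_left_cancel₀ (pos_ne haP.1) h)).elim
    · exact h
  have hg : ∀ x ∈ N.erase b, 1 - a * x ∈ N.erase b := by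
    intro x hx
    obtain ⟨h1, h2⟩ := Finset.mem_erase.mp (hmap x hx)
    rw [Finset.mem_erase]
    constructor
    · intro h
      apply h1
      rw [hb] at h
      linear_combination -h
    · rw [hN]
      obtain ⟨h3, h4⟩ := (hN _).mp h2
      refine ⟨h4, ?_⟩
      rw [sub_sub_cancel]
      exact h3
  have hginj : Set.InjOn (fun x => 1 - a * x) (N.erase b : Finset F) := by
    intro x _ y _ h
    simp only at h
    apply mul_left_cancel₀ (pos_ne haP.1)
    linear_combination -h
  have hgsurj := Finset.surjOn_of_injOn_of_card_le (fun x => 1 - a * x)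
    (s := N.erase b) (t := N.erase b) (fun x hx => hg x hx) hginj le_rfl
  have haN' : a ∈ N.erase b := Finset.mem_erase.mpr ⟨hab.symm, ha⟩
  -- the minimum of `N \ b`
  obtain ⟨m, hm, hmmin⟩ := exists_max (r := fun x y => Pos (y - x)) (N.erase b) ⟨a, haN'⟩
    (fun x _ y _ hxy => (htot x y hxy).symm)
    (fun x hx y hy z hz h1 h2 => htr z (Finset.mem_of_mem_erase hz) y (Finset.mem_of_mem_erase hy)
      x (Finset.mem_of_mem_erase hx) h2 h1)
  have h1 : 1 - a * a = m := by
    by_contra hne'
    obtain ⟨y, hy, hym⟩ := hgsurj hm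
    simp only at hym
    have hya : y ≠ a := by
      rintro rfl
      exact hne' hym
    have h3 := hmax y (Finset.mem_of_mem_erase hy) hya
    have h4 := pos_mul haP.1 h3
    have e : a * (a - y) = m - (1 - a * a) := by linear_combination hym
    rw [e] at h4
    exact hanti _ _ h4 (hmmin _ (hg a haN') hne')
  have h2 : 1 - a * m = a := by
    by_contra hne'
    obtain ⟨y, hy, hya⟩ := hgsurj haN'
    simp only at hya
    have hym : y ≠ m := by
      rintro rfl
      exact hne' hya
    have h3 := hmmin y hy hym
    have h4 := pos_mul haP.1 h3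
    have e : a * (y - m) = (1 - a * m) - a := by linear_combination -hya
    rw [e] at h4
    exact hanti _ _ h4 (hmax _ (Finset.mem_of_mem_erase (hg m hm)) hne')
  have h3 : m = a := by
    have h4 : (1 - a) * (a * (1 + a) - 1) = 0 := by
      rw [← h1] at h2
      linear_combination -h2
    have h5 := (mul_eq_zero.mp h4).resolve_left (fun h => ha1 (by linear_combination -h))
    rw [← h1]
    linear_combination -h5
  have h4 : N.erase b ⊆ {a} := by
    intro x hx
    rw [Finset.mem_singleton]
    by_contra hxa
    have h5 := hmax x (Finset.mem_of_mem_erase hx) hxa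
    have h6 := hmmin x hx (by rw [h3]; exact hxa)
    rw [h3] at h6
    exact hanti _ _ h5 h6
  have h5 := Finset.card_le_card h4
  rw [Finset.card_singleton, Finset.card_erase_of_mem hbN] at h5
  omega

end tournament

end Pool.Agent.H22.Cubic
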