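import Mathlib
import Pool.Agent.H22.Cubic.Arith4

open Polynomial

namespace Pool.Agent.H22.Cubic

universe u

section

variable {F : Type u} [Field F] [Fintype F] [DecidableEq F]

theorem three_eq_zero_of_card_nine (h : Fintype.card F = 9) : (3 : F) = 0 := by
  have h1 : ((Fintype.card F : ℕ) : F) = 0 := Nat.cast_card_eq_zero F
  rw [h] at h1
  have h2 : (3 : F) ^ 2 = 0 := by
    have : (3 : F) ^ 2 = ((9 : ℕ) : F) := by norm_num
    rw [this, h1]
  exact pow_eq_zero_iff (two_ne_zero) |>.mp h2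

theorem exists_iota (h : Fintype.card F % 4 = 1) : ∃ ι : F, ι ^ 2 = -1 := by
  have h1 : IsSquare (-1 : F) := FiniteField.isSquare_neg_one_iff.mpr (by omega)
  obtain ⟨r, hr⟩ := h1
  exact ⟨r, by rw [sq, ← hr]⟩

theorem exists27 (h2 : (2 : F) ≠ 0) (hq : 7 ≤ Fintype.card F) :
    ∃ a b : Fin 5 → F, Nondeg a b ∧ (badSet a b).card = 0 ∧ IsSquare (Dg (gpol a b)) := by
  by_cases hq9 : Fintype.card F = 9
  · obtain ⟨ι, hι⟩ := exists_iota (F := F) (by rw [hq9])
    exact nine_example h2 (three_eq_zero_of_card_nine hq9) ι hι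
  · exact exists27_aux h2 hq hq9

theorem seventeen_aux1 : (6 : ZMod 17) ≠ 0 := by decide

theorem seventeen_aux2 : (1 : ZMod 17) ^ 4 ≠ 6 ^ 4 := by decide

theorem seventeen_aux3 : ∀ s : ZMod 17, (2 : ZMod 17) * (1 ^ 4 - 6 ^ 4) ≠ s * s := by decide

theorem seventeen (h : Fintype.card F = 17) :
    ∃ u v : F, u ≠ 0 ∧ v ≠ 0 ∧ u ^ 4 ≠ v ^ 4 ∧ ¬ IsSquare (2 * (u ^ 4 - v ^ 4)) := by
  have hp : Nat.Prime 17 := by norm_num
  let e : ZMod 17 ≃+* F := ZMod.ringEquivOfPrime F hp h
  refine ⟨e 1, e 6, ?_, ?_, ?_, ?_⟩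
  · rw [map_one]
    exact one_ne_zero
  · rw [Ne, EmbeddingLike.map_eq_zero_iff]
    exact seventeen_aux1
  · rw [← map_pow, ← map_pow, Ne, EmbeddingLike.apply_eq_iff_eq]
    exact seventeen_aux2
  · rintro ⟨r, hr⟩
    have h3 : (2 : ZMod 17) * (1 ^ 4 - 6 ^ 4) = e.symm r * e.symm r := by
      apply e.injective
      rw [map_mul, map_mul, map_sub, map_pow, map_pow, e.apply_symm_apply, map_ofNat, ← hr]
    exact seventeen_aux3 _ h3

theorem exists11 (h2 : (2 : F) ≠ 0) (hq : 17 ≤ Fintype.card F) :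
    ∃ a b : Fin 5 → F, Nondeg a b ∧ (badSet a b).card = 4 := by
  classical
  rcases chi_neg_one h2 with ⟨h1, h3⟩ | ⟨h1, h3⟩
  · obtain ⟨ι, hι⟩ := exists_iota (F := F) h3
    have : ∃ u v : F, u ≠ 0 ∧ v ≠ 0 ∧ u ^ 4 ≠ v ^ 4 ∧ ¬ IsSquare (2 * (u ^ 4 - v ^ 4)) := by
      by_cases h17 : Fintype.card F = 17
      · exact seventeen h17
      · exact exists_fourth h2 (by omega)
    obtain ⟨u, v, hu, hv, huv, hns⟩ := this
    exact k4_family h2 ι hι u v hu hv huv hns
  · have hc := count_pairs h2 (-1) 1 (Or.inr rfl) (Or.inl rfl)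
    rw [h1] at hc
    set N : Finset F := Finset.univ.filter (fun x : F => Pos x ∧ Pos (1 - x)) with hN
    set M : Finset F := Finset.univ.filter (fun x : F => quadraticChar F x = -1 ∧
      quadraticChar F (x + 1) = 1) with hM
    have hcard : N.card = M.card := by
      apply Finset.card_bij (fun x _ => -x)
      · intro x hx
        rw [hN, Finset.mem_filter] at hx
        rw [hM, Finset.mem_filter]
        refine ⟨Finset.mem_univ _, ?_, ?_⟩
        · rw [chi_neg, h1, hx.2.1]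
          norm_num
        · have e : -x + 1 = 1 - x := by ring
          rw [e]
          exact hx.2.2
      · intro x _ y _ h
        exact neg_injective h
      · intro y hy
        rw [hM, Finset.mem_filter] at hy
        refine ⟨-y, ?_, neg_neg y⟩
        rw [hN, Finset.mem_filter]
        refine ⟨Finset.mem_univ _, ?_, ?_⟩
        · unfold Pos
          rw [chi_neg, h1, hy.2.1]
          norm_num
        · have e : 1 - -y = y + 1 := by ring
          unfold Pos
          rw [e]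
          exact hy.2.2
    have hcard3 : 3 ≤ N.card := by
      rw [hcard]
      have : (19 : ℤ) ≤ Fintype.card F := by
        have : 19 ≤ Fintype.card F := by omega
        exact_mod_cast this
      have h5 : (12 : ℤ) ≤ 4 * (M.card : ℤ) := by
        rw [hc]
        linarith
      have h6 : (3 : ℤ) ≤ (M.card : ℤ) := by linarith
      exact_mod_cast h6
    have hmem : ∀ x, x ∈ N ↔ Pos x ∧ Pos (1 - x) := by
      intro x
      rw [hN, Finset.mem_filter]
      simp
    obtain ⟨x, hx, y, hy, z, hz, hxy, hyz, hzx⟩ := exists_cycle h1 N hmem hcard3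
    have hsq : ∀ x : F, Pos x → ∃ r : F, r ^ 2 = x := by
      intro x hx
      obtain ⟨r, hr⟩ := (quadraticChar_one_iff_isSquare (pos_ne hx)).mp hx
      exact ⟨r, by rw [sq, ← hr]⟩
    have hsq' : ∀ x : F, Pos x → IsSquare x := fun x hx =>
      (quadraticChar_one_iff_isSquare (pos_ne hx)).mp hx
    obtain ⟨α, hα⟩ := hsq x ((hmem x).mp hx).1
    obtain ⟨β, hβ⟩ := hsq y ((hmem y).mp hy).1
    obtain ⟨γ, hγ⟩ := hsq z ((hmem z).mp hz).1
    have p1 := ((hmem x).mp hx).2
    have p2 := ((hmem y).mp hy).2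
    have p3 := ((hmem z).mp hz).2
    rw [← hα] at p1 hxy hzx
    rw [← hβ] at p2 hxy hyz
    rw [← hγ] at p3 hzx hyz
    exact k4_cycle α β γ sqProp_of_finite (quadraticChar_neg_one_iff_not_isSquare.mp h1)
      (hsq' _ p1) (pos_ne p1) (hsq' _ p2) (pos_ne p2) (hsq' _ p3) (pos_ne p3)
      (hsq' _ hxy) (pos_ne hxy) (hsq' _ hyz) (pos_ne hyz) (hsq' _ hzx) (pos_ne hzx)

end

end Pool.Agent.H22.Cubic
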