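import Mathlib
import Pool.Agent.H22.Cubic.Arith5

open Polynomial

namespace Pool.Agent.H22.Cubic

universe u v

section table

/-- Every point of the projective line whose coordinates are squares is one of the `T s`. -/
def IsTable {R : Type u} [CommRing R] {n : ℕ} (T : Fin n → R × R) : Prop :=
  ∀ a b : R, ¬ (a = 0 ∧ b = 0) → ∃ s, ∃ c : R, c ≠ 0 ∧ a ^ 2 = c ^ 2 * (T s).1 ∧
    b ^ 2 = c ^ 2 * (T s).2

/-- the matrix of determinants of a table -/
def tm {R : Type u} [CommRing R] {n : ℕ} (T : Fin n → R × R) (s s' : Fin n) : R :=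
  (T s).1 * (T s').2 - (T s').1 * (T s).2

/-- the number of bad points in a subset -/
def badCount {n : ℕ} (χ : Fin n → Fin n → Bool) (E : Finset (Fin n)) : ℕ :=
  (E.filter (fun s => ((E.erase s).filter (fun s' => χ s s' = true)).card % 2 = 1)).card

variable {F : Type u} [Field F]

theorem exists_inj {n : ℕ} {T : Fin n → F × F} (hT : IsTable T) {a b : Fin 5 → F}
    (h : Nondeg a b) : ∃ t : Fin 5 → Fin n, Function.Injective t ∧ ∃ c : Fin 5 → F,
      (∀ i, c i ≠ 0) ∧ ∀ i, a i ^ 2 = c i ^ 2 * (T (t i)).1 ∧ b i ^ 2 = c i ^ 2 * (T (t i)).2 := by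
  have h1 : ∀ i, ∃ s, ∃ c : F, c ≠ 0 ∧ a i ^ 2 = c ^ 2 * (T s).1 ∧ b i ^ 2 = c ^ 2 * (T s).2 := by
    intro i
    apply hT
    rintro ⟨h1, h2⟩
    rcases h.ne_zero i with h3 | h3
    · exact h3 h1
    · exact h3 h2
  choose t c hc hac hbc using h1
  refine ⟨t, ?_, c, hc, fun i => ⟨hac i, hbc i⟩⟩
  intro i j hij
  by_contra hne
  apply h i j hne
  rw [hac i, hbc i, hac j, hbc j, hij]
  ring

theorem badSet_card_eq {n : ℕ} {T : Fin n → F × F} (hT : IsTable T) (χ : Fin n → Fin n → Bool)
    (hχ : ∀ s s', s ≠ s' → (χ s s' = true ↔ ¬ IsSquare (tm T s s'))) (hF : SqProp F)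
    {a b : Fin 5 → F} (h : Nondeg a b) :
    ∃ E : Finset (Fin n), E.card = 5 ∧ (badSet a b).card = badCount χ E := by
  classical
  obtain ⟨t, ht, c, hc, hab⟩ := exists_inj hT h
  refine ⟨Finset.univ.image t, ?_, ?_⟩
  · rw [Finset.card_image_of_injective _ ht]
    rfl
  · have hm : ∀ i j, a i ^ 2 * b j ^ 2 - a j ^ 2 * b i ^ 2 =
        tm T (t i) (t j) * (c i * c j) ^ 2 := by
      intro i j
      rw [(hab i).1, (hab i).2, (hab j).1, (hab j).2]
      unfold tm
      ring
    have hsq : ∀ i j, IsSquare (a i ^ 2 * b j ^ 2 - a j ^ 2 * b i ^ 2) ↔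
        IsSquare (tm T (t i) (t j)) := by
      intro i j
      rw [hm, isSquare_mul_sq (mul_ne_zero (hc i) (hc j))]
    have hbad : ∀ i, i ∈ badSet a b ↔ (((Finset.univ.image t).erase (t i)).filter
        (fun s' => χ (t i) s' = true)).card % 2 = 1 := by
      intro i
      rw [mem_badSet]
      unfold nu
      rw [isSquare_prod_iff hF _ _ (by
        intro j hj
        have hij : j ≠ i := Finset.ne_of_mem_erase hj
        exact sub_ne_zero.mpr (h i j hij.symm)), ← Nat.odd_iff, Nat.not_even_iff_odd]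
      have e : (((Finset.univ.image t).erase (t i)).filter (fun s' => χ (t i) s' = true)) =
          ((Finset.univ.erase i).filter
            (fun j => ¬ IsSquare (a i ^ 2 * b j ^ 2 - a j ^ 2 * b i ^ 2))).image t := by
        ext s
        simp only [Finset.mem_filter, Finset.mem_erase, Finset.mem_image, Finset.mem_univ,
          true_and, and_true]
        constructor
        · rintro ⟨⟨h1, j, rfl⟩, h2⟩
          have hij : j ≠ i := fun e => h1 (by rw [e])
          refine ⟨j, ⟨hij, ?_⟩, rfl⟩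
          rw [hsq]
          exact (hχ _ _ (Ne.symm h1)).mp h2
        · rintro ⟨j, ⟨hij, h2⟩, rfl⟩
          have h1 : t j ≠ t i := fun e => hij (ht e)
          refine ⟨⟨h1, j, rfl⟩, ?_⟩
          rw [hsq] at h2
          exact (hχ _ _ (Ne.symm h1)).mpr h2
      rw [e, Finset.card_image_of_injective _ ht]
    unfold badCount
    have e : (Finset.univ.image t).filter (fun s => (((Finset.univ.image t).erase s).filter
        (fun s' => χ s s' = true)).card % 2 = 1) = (badSet a b).image t := by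
      ext s
      rw [Finset.mem_filter, Finset.mem_image, Finset.mem_image]
      constructor
      · rintro ⟨⟨i, -, rfl⟩, h2⟩
        exact ⟨i, (hbad i).mpr h2, rfl⟩
      · rintro ⟨i, h2, rfl⟩
        exact ⟨⟨i, Finset.mem_univ _, rfl⟩, (hbad i).mp h2⟩
    rw [e, Finset.card_image_of_injective _ ht]

end table

section transport

variable {F : Type u} [Field F] {F' : Type v} [Field F']

theorem nondeg_equiv (e : F ≃+* F') {a b : Fin 5 → F} (h : Nondeg a b) :
    Nondeg (fun i => e (a i)) (fun i => e (b i)) := by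
  intro i j hij
  change e (a i) ^ 2 * e (b j) ^ 2 ≠ e (a j) ^ 2 * e (b i) ^ 2
  rw [← map_pow, ← map_pow, ← map_pow, ← map_pow, ← map_mul, ← map_mul]
  exact fun h' => h i j hij (e.injective h')

theorem isSquare_equiv (e : F ≃+* F') (x : F) : IsSquare (e x) ↔ IsSquare x := by
  constructor
  · rintro ⟨r, hr⟩
    refine ⟨e.symm r, ?_⟩
    apply e.injective
    rw [map_mul, e.apply_symm_apply, hr]
  · rintro ⟨r, hr⟩
    exact ⟨e r, by rw [hr, map_mul]⟩

theorem badSet_equiv (e : F ≃+* F') (a b : Fin 5 → F) :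
    badSet (fun i => e (a i)) (fun i => e (b i)) = badSet a b := by
  ext i
  rw [mem_badSet, mem_badSet, ← isSquare_equiv e]
  have : nu (fun i => e (a i)) (fun i => e (b i)) i = e (nu a b i) := by
    unfold nu
    rw [map_prod]
    apply Finset.prod_congr rfl
    intro j _
    rw [map_sub, map_mul, map_mul, map_pow, map_pow, map_pow, map_pow]
  rw [this]

end transport

section tables

/-- table for `q = 3` -/
def T3 : Fin 3 → ZMod 3 × ZMod 3 := ![(1, 0), (0, 1), (1, 1)]
/-- table for `q = 5` -/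
def T5 : Fin 4 → ZMod 5 × ZMod 5 := ![(1, 0), (0, 1), (1, 1), (4, 1)]
/-- table for `q = 7` -/
def T7 : Fin 5 → ZMod 7 × ZMod 7 := ![(1, 0), (0, 1), (1, 1), (2, 1), (4, 1)]
/-- table for `q = 11` -/
def T11 : Fin 7 → ZMod 11 × ZMod 11 := ![(1, 0), (0, 1), (1, 1), (3, 1), (4, 1), (5, 1), (9, 1)]
/-- table for `q = 13` -/
def T13 : Fin 8 → ZMod 13 × ZMod 13 :=
  ![(1, 0), (0, 1), (1, 1), (3, 1), (4, 1), (9, 1), (10, 1), (12, 1)]

theorem isTable3 : IsTable T3 := by
  unfold IsTable
  decide +kernel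

theorem isTable5 : IsTable T5 := by
  unfold IsTable
  decide +kernel

theorem isTable7 : IsTable T7 := by
  unfold IsTable
  decide +kernel

theorem isTable11 : IsTable T11 := by
  unfold IsTable
  decide +kernel

theorem isTable13 : IsTable T13 := by
  unfold IsTable
  decide +kernel

/-- character table for `q = 7` -/
def X7 (s s' : Fin 5) : Bool := decide (¬ IsSquare (tm T7 s s'))
/-- character table for `q = 11` -/
def X11 (s s' : Fin 7) : Bool := decide (¬ IsSquare (tm T11 s s'))
/-- character table for `q = 13` -/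
def X13 (s s' : Fin 8) : Bool := decide (¬ IsSquare (tm T13 s s'))

theorem bad7 : ∀ E : Finset (Fin 5), E.card = 5 → badCount X7 E = 0 := by
  decide +kernel

theorem bad11 : ∀ E : Finset (Fin 7), E.card = 5 → badCount X11 E ≠ 4 := by
  decide +kernel

theorem bad13 : ∀ E : Finset (Fin 8), E.card = 5 → badCount X13 E ≠ 4 := by
  decide +kernel

end tables

end Pool.Agent.H22.Cubic
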