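import Mathlib
import Pool.Agent.H22.Cubic.Bounds

open Polynomial

namespace Pool.Agent.H22.Cubic

universe u v

section nine

variable {F : Type u} [Field F]

/-- table for `q = 9` -/
def T9 (ι : F) : Fin 6 → F × F := ![(1, 0), (0, 1), (1, 1), (-1, 1), (ι, 1), (-ι, 1)]

/-- auxiliary -/
def isU (s : Fin 6) : Bool := s = 2 || s = 3

/-- auxiliary -/
def isV (s : Fin 6) : Bool := s = 4 || s = 5

/-- character table for `q = 9` -/
def X9 (s s' : Fin 6) : Bool := (isU s && isV s') || (isV s && isU s')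

theorem bad9 : ∀ E : Finset (Fin 6), E.card = 5 → badCount X9 E ≠ 4 := by
  decide +kernel

theorem good_aux (h4 : ∀ x : F, x ≠ 0 → (IsSquare x ↔ x ^ 4 = 1)) {c : Bool} (hc : c = false)
    {x : F} (hx : x ^ 4 = 1) : c = true ↔ ¬ IsSquare x := by
  have hx0 : x ≠ 0 := by
    rintro rfl
    apply one_ne_zero (α := F)
    rw [← hx]
    ring
  rw [h4 x hx0, hc]
  simpa using hx

theorem bad_aux (h4 : ∀ x : F, x ≠ 0 → (IsSquare x ↔ x ^ 4 = 1)) (h2 : (2 : F) ≠ 0) {c : Bool}
    (hc : c = true) {x : F} (hx : x ^ 4 = -1) : c = true ↔ ¬ IsSquare x := by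
  have hx0 : x ≠ 0 := by
    rintro rfl
    apply one_ne_zero (α := F)
    linear_combination hx
  have h1 : (-1 : F) ≠ 1 := by
    intro h
    apply h2
    linear_combination -h
  rw [h4 x hx0, hc, hx]
  simpa using h1

theorem X9_spec (h2 : (2 : F) ≠ 0) (h3 : (3 : F) = 0) (ι : F) (hι : ι ^ 2 = -1)
    (h4 : ∀ x : F, x ≠ 0 → (IsSquare x ↔ x ^ 4 = 1)) (s s' : Fin 6) (hne : s ≠ s') :
    X9 s s' = true ↔ ¬ IsSquare (tm (T9 ι) s s') := by
  fin_cases s <;> fin_cases s'
  · exact (hne rfl).elim
  · exact good_aux h4 rfl (x := (1) * (1) - (0) * (0)) (by linear_combination (0) * hι + (0) * h3)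
  · exact good_aux h4 rfl (x := (1) * (1) - (1) * (0)) (by linear_combination (0) * hι + (0) * h3)
  · exact good_aux h4 rfl (x := (1) * (1) - (-1) * (0)) (by linear_combination (0) * hι + (0) * h3)
  · exact good_aux h4 rfl (x := (1) * (1) - (ι) * (0)) (by linear_combination (0) * hι + (0) * h3)
  · exact good_aux h4 rfl (x := (1) * (1) - (-ι) * (0)) (by linear_combination (0) * hι + (0) * h3)
  · exact good_aux h4 rfl (x := (0) * (0) - (1) * (1)) (by linear_combination (0) * hι + (0) * h3)
  · exact (hne rfl).elim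
  · exact good_aux h4 rfl (x := (0) * (1) - (1) * (1)) (by linear_combination (0) * hι + (0) * h3)
  · exact good_aux h4 rfl (x := (0) * (1) - (-1) * (1)) (by linear_combination (0) * hι + (0) * h3)
  · exact good_aux h4 rfl (x := (0) * (1) - (ι) * (1)) (by linear_combination ((-1) + (1) * ι ^ 2) * hι + (0) * h3)
  · exact good_aux h4 rfl (x := (0) * (1) - (-ι) * (1)) (by linear_combination ((-1) + (1) * ι ^ 2) * hι + (0) * h3)
  · exact good_aux h4 rfl (x := (1) * (0) - (1) * (1)) (by linear_combination (0) * hι + (0) * h3)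
  · exact good_aux h4 rfl (x := (1) * (1) - (0) * (1)) (by linear_combination (0) * hι + (0) * h3)
  · exact (hne rfl).elim
  · exact good_aux h4 rfl (x := (1) * (1) - (-1) * (1)) (by linear_combination (0) * hι + ((5)) * h3)
  · exact bad_aux h4 h2 rfl (x := (1) * (1) - (ι) * (1)) (by linear_combination ((5) + (-4) * ι + (1) * ι ^ 2) * hι + ((-1)) * h3)
  · exact bad_aux h4 h2 rfl (x := (1) * (1) - (-ι) * (1)) (by linear_combination ((5) + (4) * ι + (1) * ι ^ 2) * hι + ((-1)) * h3)
  · exact good_aux h4 rfl (x := (-1) * (0) - (1) * (1)) (by linear_combination (0) * hι + (0) * h3)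
  · exact good_aux h4 rfl (x := (-1) * (1) - (0) * (1)) (by linear_combination (0) * hι + (0) * h3)
  · exact good_aux h4 rfl (x := (-1) * (1) - (1) * (1)) (by linear_combination (0) * hι + ((5)) * h3)
  · exact (hne rfl).elim
  · exact bad_aux h4 h2 rfl (x := (-1) * (1) - (ι) * (1)) (by linear_combination ((5) + (4) * ι + (1) * ι ^ 2) * hι + ((-1)) * h3)
  · exact bad_aux h4 h2 rfl (x := (-1) * (1) - (-ι) * (1)) (by linear_combination ((5) + (-4) * ι + (1) * ι ^ 2) * hι + ((-1)) * h3)
  · exact good_aux h4 rfl (x := (ι) * (0) - (1) * (1)) (by linear_combination (0) * hι + (0) * h3)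
  · exact good_aux h4 rfl (x := (ι) * (1) - (0) * (1)) (by linear_combination ((-1) + (1) * ι ^ 2) * hι + (0) * h3)
  · exact bad_aux h4 h2 rfl (x := (ι) * (1) - (1) * (1)) (by linear_combination ((5) + (-4) * ι + (1) * ι ^ 2) * hι + ((-1)) * h3)
  · exact bad_aux h4 h2 rfl (x := (ι) * (1) - (-1) * (1)) (by linear_combination ((5) + (4) * ι + (1) * ι ^ 2) * hι + ((-1)) * h3)
  · exact (hne rfl).elim
  · exact good_aux h4 rfl (x := (ι) * (1) - (-ι) * (1)) (by linear_combination ((-16) + (16) * ι ^ 2) * hι + ((5)) * h3)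
  · exact good_aux h4 rfl (x := (-ι) * (0) - (1) * (1)) (by linear_combination (0) * hι + (0) * h3)
  · exact good_aux h4 rfl (x := (-ι) * (1) - (0) * (1)) (by linear_combination ((-1) + (1) * ι ^ 2) * hι + (0) * h3)
  · exact bad_aux h4 h2 rfl (x := (-ι) * (1) - (1) * (1)) (by linear_combination ((5) + (4) * ι + (1) * ι ^ 2) * hι + ((-1)) * h3)
  · exact bad_aux h4 h2 rfl (x := (-ι) * (1) - (-1) * (1)) (by linear_combination ((5) + (-4) * ι + (1) * ι ^ 2) * hι + ((-1)) * h3)
  · exact good_aux h4 rfl (x := (-ι) * (1) - (ι) * (1)) (by linear_combination ((-16) + (16) * ι ^ 2) * hι + ((5)) * h3)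
  · exact (hne rfl).elim

theorem isTable9 (ι : F) (hι : ι ^ 2 = -1) (h8 : ∀ x : F, x ≠ 0 → x ^ 8 = 1) :
    IsTable (T9 ι) := by
  intro a b hab
  by_cases hb : b = 0
  · have ha : a ≠ 0 := fun ha => hab ⟨ha, hb⟩
    refine ⟨0, a, ha, ?_, ?_⟩
    · change a ^ 2 = a ^ 2 * 1
      ring
    · change b ^ 2 = a ^ 2 * 0
      rw [hb]
      ring
  · by_cases ha : a = 0
    · refine ⟨1, b, hb, ?_, ?_⟩
      · change a ^ 2 = b ^ 2 * 0
        rw [ha]
        ring
      · change b ^ 2 = b ^ 2 * 1
        ring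
    · have h1 := h8 (a / b) (div_ne_zero ha hb)
      set x := (a / b) ^ 2 with hx
      have hab2 : a ^ 2 = b ^ 2 * x := by
        rw [hx]
        field_simp
      have h2 : (x - 1) * ((x + 1) * ((x - ι) * (x + ι))) = 0 := by
        have : x ^ 4 = 1 := by
          rw [hx, ← pow_mul]
          exact h1
        linear_combination this - (x ^ 2 - 1) * hι
      have h3 : x = 1 ∨ x = -1 ∨ x = ι ∨ x = -ι := by
        rcases mul_eq_zero.mp h2 with h | h
        · left; linear_combination h
        · rcases mul_eq_zero.mp h with h | h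
          · right; left; linear_combination h
          · rcases mul_eq_zero.mp h with h | h
            · right; right; left; linear_combination h
            · right; right; right; linear_combination h
      rcases h3 with h | h | h | h
      · refine ⟨2, b, hb, ?_, ?_⟩
        · change a ^ 2 = b ^ 2 * 1
          rw [hab2, h]
        · change b ^ 2 = b ^ 2 * 1
          ring
      · refine ⟨3, b, hb, ?_, ?_⟩
        · change a ^ 2 = b ^ 2 * -1
          rw [hab2, h]
        · change b ^ 2 = b ^ 2 * 1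
          ring
      · refine ⟨4, b, hb, ?_, ?_⟩
        · change a ^ 2 = b ^ 2 * ι
          rw [hab2, h]
        · change b ^ 2 = b ^ 2 * 1
          ring
      · refine ⟨5, b, hb, ?_, ?_⟩
        · change a ^ 2 = b ^ 2 * -ι
          rw [hab2, h]
        · change b ^ 2 = b ^ 2 * 1
          ring

end nine

section bounds

variable {F : Type u} [Field F] [Fintype F]

theorem card_cases (h2 : (2 : F) ≠ 0) (h : Fintype.card F < 17) :
    Fintype.card F = 3 ∨ Fintype.card F = 5 ∨ Fintype.card F = 7 ∨ Fintype.card F = 9 ∨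
    Fintype.card F = 11 ∨ Fintype.card F = 13 := by
  have hodd := FiniteField.odd_card_of_char_ne_two (ringChar_ne_two h2)
  have hpp : IsPrimePow (Fintype.card F) := Fintype.isPrimePow_card_of_field
  have h1 : 1 < Fintype.card F := Fintype.one_lt_card
  generalize Fintype.card F = q at *
  have h15 : q ≠ 15 := by
    rintro rfl
    rw [isPrimePow_nat_iff_bounded] at hpp
    revert hpp
    decide
  omega

theorem bound3 (hq : Fintype.card F = 3) {a b : Fin 5 → F} (h : Nondeg a b) : False := by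
  have hp : Nat.Prime 3 := by norm_num
  have : Fact (Nat.Prime 3) := ⟨hp⟩
  let e : F ≃+* ZMod 3 := (ZMod.ringEquivOfPrime F hp hq).symm
  obtain ⟨t, ht, -⟩ := exists_inj isTable3 (nondeg_equiv e h)
  have := Fintype.card_le_of_injective t ht
  simp at this

theorem bound5 (hq : Fintype.card F = 5) {a b : Fin 5 → F} (h : Nondeg a b) : False := by
  have hp : Nat.Prime 5 := by norm_num
  have : Fact (Nat.Prime 5) := ⟨hp⟩
  let e : F ≃+* ZMod 5 := (ZMod.ringEquivOfPrime F hp hq).symm
  obtain ⟨t, ht, -⟩ := exists_inj isTable5 (nondeg_equiv e h)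
  have := Fintype.card_le_of_injective t ht
  simp at this

theorem bound7 (hq : Fintype.card F = 7) {a b : Fin 5 → F} (h : Nondeg a b) :
    (badSet a b).card = 0 := by
  have hp : Nat.Prime 7 := by norm_num
  have : Fact (Nat.Prime 7) := ⟨hp⟩
  let e : F ≃+* ZMod 7 := (ZMod.ringEquivOfPrime F hp hq).symm
  obtain ⟨E, hE, hE'⟩ := badSet_card_eq isTable7 X7 (fun s s' _ => decide_eq_true_iff)
    sqProp_of_finite (nondeg_equiv e h)
  rw [badSet_equiv] at hE'
  rw [hE', bad7 E hE]

theorem bound11 (hq : Fintype.card F = 11) {a b : Fin 5 → F} (h : Nondeg a b) :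
    (badSet a b).card ≠ 4 := by
  have hp : Nat.Prime 11 := by norm_num
  have : Fact (Nat.Prime 11) := ⟨hp⟩
  let e : F ≃+* ZMod 11 := (ZMod.ringEquivOfPrime F hp hq).symm
  obtain ⟨E, hE, hE'⟩ := badSet_card_eq isTable11 X11 (fun s s' _ => decide_eq_true_iff)
    sqProp_of_finite (nondeg_equiv e h)
  rw [badSet_equiv] at hE'
  rw [hE']
  exact bad11 E hE

theorem bound13 (hq : Fintype.card F = 13) {a b : Fin 5 → F} (h : Nondeg a b) :
    (badSet a b).card ≠ 4 := by
  have hp : Nat.Prime 13 := by norm_num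
  have : Fact (Nat.Prime 13) := ⟨hp⟩
  let e : F ≃+* ZMod 13 := (ZMod.ringEquivOfPrime F hp hq).symm
  obtain ⟨E, hE, hE'⟩ := badSet_card_eq isTable13 X13 (fun s s' _ => decide_eq_true_iff)
    sqProp_of_finite (nondeg_equiv e h)
  rw [badSet_equiv] at hE'
  rw [hE']
  exact bad13 E hE

theorem bound9 (h2 : (2 : F) ≠ 0) (hq : Fintype.card F = 9) {a b : Fin 5 → F}
    (h : Nondeg a b) : (badSet a b).card ≠ 4 := by
  classical
  obtain ⟨ι, hι⟩ := exists_iota (F := F) (by rw [hq])
  have h3 := three_eq_zero_of_card_nine hq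
  have h8 : ∀ x : F, x ≠ 0 → x ^ 8 = 1 := by
    intro x hx
    have := FiniteField.pow_card_sub_one_eq_one x hx
    rwa [hq] at this
  have h4 : ∀ x : F, x ≠ 0 → (IsSquare x ↔ x ^ 4 = 1) := by
    intro x hx
    have := FiniteField.isSquare_iff (ringChar_ne_two h2) hx
    rwa [hq] at this
  obtain ⟨E, hE, hE'⟩ := badSet_card_eq (isTable9 ι hι h8) X9 (X9_spec h2 h3 ι hι h4)
    sqProp_of_finite h
  rw [hE']
  exact bad9 E hE

/-- bounds for `q` -/
theorem bounds (h2 : (2 : F) ≠ 0) {a b : Fin 5 → F} (h : Nondeg a b) :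
    7 ≤ Fintype.card F ∧ ((badSet a b).card ≠ 0 → 9 ≤ Fintype.card F) ∧
    ((badSet a b).card = 4 → 17 ≤ Fintype.card F) := by
  by_cases h17 : 17 ≤ Fintype.card F
  · exact ⟨by omega, fun _ => by omega, fun _ => h17⟩
  · rcases card_cases h2 (by omega) with hq | hq | hq | hq | hq | hq
    · exact (bound3 hq h).elim
    · exact (bound5 hq h).elim
    · have := bound7 hq h
      exact ⟨by omega, fun h' => (h' this).elim, fun h' => by omega⟩
    · have := bound9 h2 hq h
      exact ⟨by omega, fun _ => by omega, fun h' => (this h').elim⟩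
    · have := bound11 hq h
      exact ⟨by omega, fun _ => by omega, fun h' => (this h').elim⟩
    · have := bound13 hq h
      exact ⟨by omega, fun _ => by omega, fun h' => (this h').elim⟩

end bounds

end Pool.Agent.H22.Cubic
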