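import Mathlib
import Pool.Agent.H22.Cubic.Bounds2

open MvPolynomial

namespace Pool.Agent.H22.Cubic

universe u v

section

theorem Cub.ev_derivation {R : Type*} {A : Type*} [CommRing R] [CommRing A] [Algebra R A]
    (D : Derivation R A A) (C : Cub R) (x y z w : A) :
    D ((C.map (algebraMap R A)).ev x y z w) = (C.map (algebraMap R A)).dx x y z w * D x +
      (C.map (algebraMap R A)).dy x y z w * D y + (C.map (algebraMap R A)).dz x y z w * D z +
      (C.map (algebraMap R A)).dw x y z w * D w := by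
  simp only [Cub.ev, Cub.dx, Cub.dy, Cub.dz, Cub.dw, Cub.map, map_add, Derivation.leibniz,
    smul_eq_mul, Derivation.map_algebraMap, mul_zero, add_zero]
  ring

theorem Cub.hom_ev {R : Type*} {A : Type*} [CommRing R] [CommRing A] (φ : R →+* A) (C : Cub R)
    (x y z w : R) : φ (C.ev x y z w) = (C.map φ).ev (φ x) (φ y) (φ z) (φ w) := by
  simp only [Cub.ev, Cub.map, map_add, map_mul]

theorem Cub.hom_dx {R : Type*} {A : Type*} [CommRing R] [CommRing A] (φ : R →+* A) (C : Cub R)
    (x y z w : R) : φ (C.dx x y z w) = (C.map φ).dx (φ x) (φ y) (φ z) (φ w) := by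
  simp only [Cub.dx, Cub.map, map_add, map_mul, map_ofNat]

theorem Cub.hom_dy {R : Type*} {A : Type*} [CommRing R] [CommRing A] (φ : R →+* A) (C : Cub R)
    (x y z w : R) : φ (C.dy x y z w) = (C.map φ).dy (φ x) (φ y) (φ z) (φ w) := by
  simp only [Cub.dy, Cub.map, map_add, map_mul, map_ofNat]

theorem Cub.hom_dz {R : Type*} {A : Type*} [CommRing R] [CommRing A] (φ : R →+* A) (C : Cub R)
    (x y z w : R) : φ (C.dz x y z w) = (C.map φ).dz (φ x) (φ y) (φ z) (φ w) := by
  simp only [Cub.dz, Cub.map, map_add, map_mul, map_ofNat]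

theorem Cub.hom_dw {R : Type*} {A : Type*} [CommRing R] [CommRing A] (φ : R →+* A) (C : Cub R)
    (x y z w : R) : φ (C.dw x y z w) = (C.map φ).dw (φ x) (φ y) (φ z) (φ w) := by
  simp only [Cub.dw, Cub.map, map_add, map_mul, map_ofNat]

variable {F : Type u} [Field F] {K : Type v} [Field K] [Algebra F K]

/-- the polynomial with coefficients `C` -/
noncomputable def polyOf (C : Cub F) : MvPolynomial (Fin 4) F :=
  (C.map MvPolynomial.C).ev (X 0) (X 1) (X 2) (X 3)

theorem polyOf_homogeneous (C : Cub F) : (polyOf C).IsHomogeneous 3 := by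
  have hmon : ∀ (c : F) (i j k : Fin 4),
      (MvPolynomial.C c * (X i * X j * X k) : MvPolynomial (Fin 4) F).IsHomogeneous 3 := by
    intro c i j k
    exact (isHomogeneous_C _ c).mul (((isHomogeneous_X F i).mul (isHomogeneous_X F j)).mul
      (isHomogeneous_X F k))
  unfold polyOf Cub.ev Cub.map
  simp only
  repeat' apply IsHomogeneous.add
  all_goals exact hmon _ _ _ _

theorem geom_polyOf (C : Cub F) : geom K (polyOf C) = polyOf (C.map (algebraMap F K)) := by
  unfold geom polyOf
  rw [Cub.hom_ev]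
  simp only [map_X]
  congr 1
  simp only [Cub.map, map_C]

theorem eval_polyOf (C : Cub K) (p : Fin 4 → K) :
    eval p (polyOf C) = C.ev (p 0) (p 1) (p 2) (p 3) := by
  unfold polyOf
  rw [Cub.hom_ev]
  simp only [eval_X]
  congr 1
  simp only [Cub.map, eval_C]

theorem map_map_eval (C : Cub K) (p : Fin 4 → K) : (C.map MvPolynomial.C).map (eval p) = C := by
  simp only [Cub.map, eval_C]

theorem eval_pderiv_polyOf (C : Cub K) (i : Fin 4) (p : Fin 4 → K) :
    eval p (pderiv i (polyOf C)) = C.dx (p 0) (p 1) (p 2) (p 3) * (if i = 0 then 1 else 0) +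
      C.dy (p 0) (p 1) (p 2) (p 3) * (if i = 1 then 1 else 0) +
      C.dz (p 0) (p 1) (p 2) (p 3) * (if i = 2 then 1 else 0) +
      C.dw (p 0) (p 1) (p 2) (p 3) * (if i = 3 then 1 else 0) := by
  have h := Cub.ev_derivation (pderiv i : Derivation K (MvPolynomial (Fin 4) K) _) C (X 0) (X 1)
    (X 2) (X 3)
  unfold polyOf
  change eval p (pderiv i ((C.map (algebraMap K (MvPolynomial (Fin 4) K))).ev (X 0) (X 1) (X 2)
    (X 3))) = _
  rw [h, map_add, map_add, map_add, map_mul, map_mul, map_mul, map_mul, Cub.hom_dx, Cub.hom_dy,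
    Cub.hom_dz, Cub.hom_dw]
  simp only [eval_X, algebraMap_eq, map_map_eval, pderiv_X]
  congr 1
  · congr 1
    · congr 1
      · congr 1
        by_cases h : i = 0
        · subst h; simp
        · rw [if_neg h, Pi.single_eq_of_ne (Ne.symm h)]; simp
      · congr 1
        by_cases h : i = 1
        · subst h; simp
        · rw [if_neg h, Pi.single_eq_of_ne (Ne.symm h)]; simp
    · congr 1
      by_cases h : i = 2
      · subst h; simp
      · rw [if_neg h, Pi.single_eq_of_ne (Ne.symm h)]; simp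
  · congr 1
    by_cases h : i = 3
    · subst h; simp
    · rw [if_neg h, Pi.single_eq_of_ne (Ne.symm h)]; simp

/-- the standard frame -/
def stdFr (F : Type u) [Field F] : Frame F where
  e0 := ![1, 0, 0, 0]
  e1 := ![0, 1, 0, 0]
  e2 := ![0, 0, 1, 0]
  e3 := ![0, 0, 0, 1]
  det_ne := by
    change (!![1, 0, 0, 0; 0, 1, 0, 0; 0, 0, 1, 0; 0, 0, 0, 1] : Matrix (Fin 4) (Fin 4) F).det ≠ 0
    rw [det4]
    norm_num

theorem stdFr_pt (x y z w : K) : (stdFr F).pt x y z w = ![x, y, z, w] := by
  ext i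
  rw [Frame.pt, pt_apply]
  fin_cases i <;> simp [stdFr]

theorem inFrame_polyOf (C : Cub F) :
    InFrame (Surf.ofPoly (geom K (polyOf C))) (stdFr F) C := by
  constructor
  · intro x y z w
    change eval ((stdFr F).pt x y z w) (geom K (polyOf C)) = _
    rw [geom_polyOf, eval_polyOf, stdFr_pt]
    rfl
  · intro x y z w u0 u1 u2 u3
    change ∑ i, eval ((stdFr F).pt x y z w) (pderiv i (geom K (polyOf C))) *
      (stdFr F).pt u0 u1 u2 u3 i = _
    rw [geom_polyOf, stdFr_pt, stdFr_pt, Fin.sum_univ_four]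
    simp only [eval_pderiv_polyOf]
    simp

end

end Pool.Agent.H22.Cubic
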