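import Mathlib
import Pool.Agent.H22.Cubic.PolyOf

open MvPolynomial

namespace Pool.Agent.H22.Cubic

universe u v

section

variable {F : Type u} [Field F] {K : Type v} [Field K] [Algebra F K]

theorem numHyperbolic_eq (f : MvPolynomial (Fin 4) F) :
    numHyperbolic K f = {W | W ∈ (Surf.ofPoly (geom K f)).lines ∧
      (Surf.ofPoly (geom K f)).Hyp F W}.ncard := by
  unfold numHyperbolic
  congr 1
  ext W
  simp only [Set.mem_setOf_eq, Surf.hyp_ofPoly, Surf.lines_ofPoly]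

theorem numElliptic_eq (f : MvPolynomial (Fin 4) F) :
    numElliptic K f = {W | W ∈ (Surf.ofPoly (geom K f)).lines ∧
      (Surf.ofPoly (geom K f)).Ell F W}.ncard := by
  unfold numElliptic
  congr 1
  ext W
  simp only [Set.mem_setOf_eq, Surf.ell_ofPoly, Surf.lines_ofPoly]

theorem isSplitCubic_of_nondeg [IsAlgClosed K] (h2 : (2 : F) ≠ 0) (a b : Fin 5 → F)
    (h : Nondeg a b) : IsSplitCubic K (polyOf (cubP (gpol a b))) := by
  have hC := inFrame_polyOf (K := K) (cubP (gpol a b))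
  have hS := smooth_of_nondeg h2 _ (stdFr F) a b hC h
  refine ⟨polyOf_homogeneous _, (Surf.smooth_ofPoly _).mp hS, ?_, ?_⟩
  · rw [← Surf.lines_ofPoly]
    have hinj := lineOf_inj h2 (stdFr F) a b h (K := K)
    have himg : (Surf.ofPoly (geom K (polyOf (cubP (gpol a b))))).lines =
        Set.range (lineOf K (stdFr F) a b h.ne_zero) := by
      ext W
      constructor
      · intro hW
        exact lineOf_surj h2 _ (stdFr F) a b hC h W hW
      · rintro ⟨j, rfl⟩
        exact lineOf_mem h2 _ hS (stdFr F) a b hC h.ne_zero j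
    have h27 : Fintype.card Idx = 27 := by decide +kernel
    rw [himg, ← Set.image_univ, Set.ncard_image_of_injective _ hinj, Set.ncard_univ,
      Nat.card_eq_fintype_card]
    exact h27
  · intro W hW
    obtain ⟨j, rfl⟩ := lineOf_surj h2 _ (stdFr F) a b hC h W hW
    exact lineOf_rational (stdFr F) a b h.ne_zero j

theorem counts_of_nondeg [IsAlgClosed K] (h2 : (2 : F) ≠ 0) (hF : SqProp F) (a b : Fin 5 → F)
    (h : Nondeg a b) :
    ∃ H : ℕ, numHyperbolic K (polyOf (cubP (gpol a b))) = H ∧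
      numElliptic K (polyOf (cubP (gpol a b))) = 27 - H ∧
      (((badSet a b).card = 0 ∧ IsSquare (Dg (gpol a b)) ∧ H = 27) ∨
      ((badSet a b).card = 0 ∧ ¬ IsSquare (Dg (gpol a b)) ∧ H = 11) ∨
      ((badSet a b).card = 2 ∧ H = 15) ∨ ((badSet a b).card = 4 ∧ H = 11)) := by
  have hC := inFrame_polyOf (K := K) (cubP (gpol a b))
  have hS := smooth_of_nondeg h2 _ (stdFr F) a b hC h
  rw [numHyperbolic_eq, numElliptic_eq]
  exact count_types h2 hF _ hS (isCubicF_ofPoly _ (polyOf_homogeneous _)) (stdFr F) a b hC h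

end

section

variable {F : Type u} [Field F] [Fintype F] {K : Type v} [Field K] [Algebra F K] [IsAlgClosed K]

theorem main_forward (h2 : (2 : F) ≠ 0) (f : MvPolynomial (Fin 4) F) (hf : IsSplitCubic K f) :
    (7 ≤ Fintype.card F ∧ numHyperbolic K f = 27 ∧ numElliptic K f = 0) ∨
    (9 ≤ Fintype.card F ∧ numHyperbolic K f = 15 ∧ numElliptic K f = 12) ∨
    (17 ≤ Fintype.card F ∧ numHyperbolic K f = 11 ∧ numElliptic K f = 16) := by
  classical
  have hF : SqProp F := sqProp_of_finite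
  have hS := (Surf.smooth_ofPoly _).mpr hf.smooth
  have hc := isCubicF_ofPoly (K := K) f hf.homogeneous
  have hcK := isCubicF_self_ofPoly (K := K) f hf.homogeneous
  obtain ⟨fr, a, b, hC, hnd, hgood⟩ := exists_good_nf h2 hF _ hS hc hcK
    (by rw [Surf.lines_ofPoly]; exact hf.rational) (by rw [Surf.lines_ofPoly]; exact hf.ncard_lines)
  obtain ⟨H, hH, hE, hcases⟩ := count_types h2 hF _ hS hc fr a b hC hnd
  rw [← numHyperbolic_eq] at hH
  rw [← numElliptic_eq] at hE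
  obtain ⟨b1, b2, b3⟩ := bounds h2 hnd
  rcases hcases with ⟨h0, h1, rfl⟩ | ⟨h0, h1, rfl⟩ | ⟨h0, rfl⟩ | ⟨h0, rfl⟩
  · left
    exact ⟨b1, hH, by rw [hE]⟩
  · exfalso
    rcases hgood with h3 | h3
    · exact h3 h0
    · exact h1 h3
  · right; left
    exact ⟨b2 (by omega), hH, by rw [hE]⟩
  · right; right
    exact ⟨b3 h0, hH, by rw [hE]⟩

theorem main_backward (h2 : (2 : F) ≠ 0) (H E : ℕ)
    (h : (7 ≤ Fintype.card F ∧ H = 27 ∧ E = 0) ∨ (9 ≤ Fintype.card F ∧ H = 15 ∧ E = 12) ∨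
      (17 ≤ Fintype.card F ∧ H = 11 ∧ E = 16)) :
    ∃ f : MvPolynomial (Fin 4) F, IsSplitCubic K f ∧ numHyperbolic K f = H ∧
      numElliptic K f = E := by
  classical
  have hF : SqProp F := sqProp_of_finite
  rcases h with ⟨hq, rfl, rfl⟩ | ⟨hq, rfl, rfl⟩ | ⟨hq, rfl, rfl⟩
  · obtain ⟨a, b, hnd, h0, h1⟩ := exists27 h2 hq
    obtain ⟨H, hH, hE, hcases⟩ := counts_of_nondeg (K := K) h2 hF a b hnd
    refine ⟨_, isSplitCubic_of_nondeg h2 a b hnd, ?_, ?_⟩
    · rw [hH]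
      rcases hcases with ⟨_, _, h⟩ | ⟨_, h3, _⟩ | ⟨h3, _⟩ | ⟨h3, _⟩
      · exact h
      · exact (h3 h1).elim
      · omega
      · omega
    · rw [hE]
      rcases hcases with ⟨_, _, h⟩ | ⟨_, h3, _⟩ | ⟨h3, _⟩ | ⟨h3, _⟩
      · omega
      · exact (h3 h1).elim
      · omega
      · omega
  · obtain ⟨a, b, hnd, h0⟩ := exists15 h2 hq
    obtain ⟨H, hH, hE, hcases⟩ := counts_of_nondeg (K := K) h2 hF a b hnd
    refine ⟨_, isSplitCubic_of_nondeg h2 a b hnd, ?_, ?_⟩ <;> omega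
  · obtain ⟨a, b, hnd, h0⟩ := exists11 h2 hq
    obtain ⟨H, hH, hE, hcases⟩ := counts_of_nondeg (K := K) h2 hF a b hnd
    refine ⟨_, isSplitCubic_of_nondeg h2 a b hnd, ?_, ?_⟩ <;> omega

end

end Pool.Agent.H22.Cubic
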